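import Pool.Agent.FZ.Defs

/-!
# Alternating programs
-/

namespace Pool.Agent.FZ

/-- `P.AltFrom U x u`: the alternating program `P`, whose universal nodes are those in `U`, accepts
`x` from the node `u`. The accepting node accepts; an existential node accepts if some step leads
to an accepting node (one from which `x` is accepted), a universal node if all its unlabelled edges
do. -/
inductive Prog.AltFrom {V W : Type} (P : Prog V W) (U : Set W) (x : V → Bool) : W → Prop
  | acc : Prog.AltFrom P U x P.acc
  | ex (u w : W) : u ∉ U → P.Step x Set.univ u w → Prog.AltFrom P U x w → Prog.AltFrom P U x u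
  | all (u : W) : u ∈ U → (∀ w, P.free u w → Prog.AltFrom P U x w) → Prog.AltFrom P U x u

/-- Acceptance by the alternating program with the universal nodes `U` (polynomial-size alternating
programs are P/poly). -/
def Prog.AltAccepts {V W : Type} (P : Prog V W) (U : Set W) (x : V → Bool) : Prop :=
  P.AltFrom U x P.src

end Pool.Agent.FZ
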