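import Pool.Agent.FZ.AltDefs

/-! # Alternating programs without negations for the language for NL versus P -/

namespace Pool.Agent.FZ

/-! ### Sizes and positions -/

private lemma AltUp.qq_pos (h : ℕ) : 0 < qq h := by
  unfold qq pp
  positivity

private lemma AltUp.n2_ge (s : ℕ) : s ^ 2 + 1 ≤ n2 s ∧ qq (s ^ 2) ≤ n2 s := by
  have hq := AltUp.qq_pos (s ^ 2)
  unfold n2
  have h1 : 1 ≤ qq (s ^ 2) ^ 3 := Nat.one_le_pow _ _ hq
  have h2 : s ^ 2 + 1 ≤ (s ^ 2 + 1) ^ 2 := Nat.le_self_pow (by norm_num) _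
  have h3 : (s ^ 2 + 1) ^ 2 * 1 ≤ (s ^ 2 + 1) ^ 2 * qq (s ^ 2) ^ 3 := Nat.mul_le_mul_left _ h1
  constructor
  · omega
  · omega

private lemma AltUp.bpos_lt {N s j i : ℕ} (hs : 1 ≤ s) (hj : j < nblk n2 N s) (hi : i < n2 s) :
    bpos n2 N s j i < N := by
  have h1 : N / (s + 1) ≤ N / s := Nat.div_le_div_left (Nat.le_succ s) hs
  have h1' : N / s ≤ N := Nat.div_le_self N s
  have h2 : nblk n2 N s * n2 s ≤ N / s - N / (s + 1) := Nat.div_mul_le_self _ _
  have h3 : (j + 1) * n2 s ≤ nblk n2 N s * n2 s := Nat.mul_le_mul_right _ hj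
  have h4 : (j + 1) * n2 s = j * n2 s + n2 s := by ring
  unfold bpos
  generalize N / s = A at *
  generalize N / (s + 1) = B at *
  omega

private lemma AltUp.n2_le {N s j : ℕ} (hj : j < nblk n2 N s) : n2 s ≤ N ∧ j < N := by
  have hn := (AltUp.n2_ge s).1
  have h1' : N / s ≤ N := Nat.div_le_self N s
  have h2 : nblk n2 N s * n2 s ≤ N / s - N / (s + 1) := Nat.div_mul_le_self _ _
  have h3 : (j + 1) * n2 s ≤ nblk n2 N s * n2 s := Nat.mul_le_mul_right _ hj
  have h4 : 1 * n2 s ≤ (j + 1) * n2 s := Nat.mul_le_mul_right _ (by omega)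
  have h5 : (j + 1) * 1 ≤ (j + 1) * n2 s := Nat.mul_le_mul_left _ (by omega)
  have h6 : N / s - N / (s + 1) ≤ N / s := Nat.sub_le _ _
  have h7 : (j + 1) * n2 s ≤ N := h3.trans (h2.trans (h6.trans h1'))
  constructor
  · omega
  · omega

private lemma AltUp.getD {N : ℕ} (x : Fin N → Bool) (i : ℕ) (h : i < N) :
    (List.ofFn x).getD i false = x ⟨i, h⟩ := by
  rw [List.getD_eq_getElem _ _ (by simpa using h)]
  simp

/-- The index of `t i i' a b c`. -/
private def AltUp.idx (h q i i' a b c : ℕ) : ℕ := (((i * (h + 1) + i') * q + a) * q + b) * q + c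

private lemma AltUp.idx_lt {h q i i' a b c : ℕ} (hi : i ≤ h) (hi' : i' ≤ i) (ha : a < q)
    (hb : b < q) (hc : c < q) : AltUp.idx h q i i' a b c < (h + 1) ^ 2 * q ^ 3 := by
  unfold AltUp.idx
  have h1 : i * (h + 1) + i' + 1 ≤ (h + 1) ^ 2 := by
    calc i * (h + 1) + i' + 1 ≤ h * (h + 1) + (h + 1) := by
          have := Nat.mul_le_mul_right (h + 1) hi
          omega
      _ = (h + 1) ^ 2 := by ring
  have h2 : (i * (h + 1) + i') * q + a + 1 ≤ (h + 1) ^ 2 * q := by
    calc (i * (h + 1) + i') * q + a + 1 ≤ (i * (h + 1) + i') * q + q := by omega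
      _ = (i * (h + 1) + i' + 1) * q := by ring
      _ ≤ _ := Nat.mul_le_mul_right _ h1
  have h3 : ((i * (h + 1) + i') * q + a) * q + b + 1 ≤ (h + 1) ^ 2 * q * q := by
    calc ((i * (h + 1) + i') * q + a) * q + b + 1 ≤ ((i * (h + 1) + i') * q + a) * q + q := by
          omega
      _ = ((i * (h + 1) + i') * q + a + 1) * q := by ring
      _ ≤ _ := Nat.mul_le_mul_right _ h2
  calc (((i * (h + 1) + i') * q + a) * q + b) * q + c
      < (((i * (h + 1) + i') * q + a) * q + b) * q + q := by omega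
    _ = (((i * (h + 1) + i') * q + a) * q + b + 1) * q := by ring
    _ ≤ (h + 1) ^ 2 * q * q * q := Nat.mul_le_mul_right _ h3
    _ = _ := by ring

private lemma AltUp.pgen_lt {h q : ℕ} {t : ℕ → ℕ → ℕ → ℕ → ℕ → Prop} {i j c : ℕ}
    (H : PGen h q t i j c) : c < q := by
  cases H with
  | base _ _ h1 _ => exact h1
  | step _ _ _ _ _ _ h1 _ _ _ => exact h1

/-! ### The program -/

/-- The nodes of the program. -/
inductive AltUp.Node (M : ℕ) : Type
  | src : AltUp.Node M
  | acc : AltUp.Node M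
  | B (s j : Fin M) : AltUp.Node M
  | G (s j i i' c : Fin M) : AltUp.Node M
  | T (s j i i' a b : Fin M) : AltUp.Node M

/-- The unlabelled edges. -/
inductive AltUp.Free (N : ℕ) : AltUp.Node (N + 1) → AltUp.Node (N + 1) → Prop
  | src (s j : Fin (N + 1)) : 1 ≤ s.val → j.val < nblk n2 N s.val →
      AltUp.Free N .src (.B s j)
  | left (s j i i' a b i1 : Fin (N + 1)) : i1.val = i.val + 1 →
      AltUp.Free N (.T s j i i' a b) (.G s j i1 i' a)
  | right (s j i i' a b i1 i2 : Fin (N + 1)) : i1.val = i.val + 1 → i2.val = i'.val + 1 →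
      AltUp.Free N (.T s j i i' a b) (.G s j i1 i2 b)

/-- The labelled edges. -/
inductive AltUp.Test (N : ℕ) : AltUp.Node (N + 1) → Fin N → Bool → AltUp.Node (N + 1) → Prop
  | out (s j z c : Fin (N + 1)) (v : Fin N) : 1 ≤ s.val → j.val < nblk n2 N s.val →
      z.val = 0 → c.val < qq (s.val ^ 2) →
      v.val = bpos n2 N s.val j.val ((s.val ^ 2 + 1) ^ 2 * qq (s.val ^ 2) ^ 3 + c.val) →
      AltUp.Test N (.B s j) v true (.G s j z z c)
  | gen (s j i i' a b c : Fin (N + 1)) (v : Fin N) : 1 ≤ s.val → j.val < nblk n2 N s.val →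
      i.val < s.val ^ 2 → i'.val ≤ i.val → a.val < qq (s.val ^ 2) → b.val < qq (s.val ^ 2) →
      c.val < qq (s.val ^ 2) →
      v.val = bpos n2 N s.val j.val
        (AltUp.idx (s.val ^ 2) (qq (s.val ^ 2)) i.val i'.val a.val b.val c.val) →
      AltUp.Test N (.G s j i i' c) v true (.T s j i i' a b)
  | base (s j i i' c : Fin (N + 1)) (v : Fin N) : 1 ≤ s.val → j.val < nblk n2 N s.val →
      i.val = s.val ^ 2 → i'.val ≤ i.val → c.val < qq (s.val ^ 2) →
      v.val = bpos n2 N s.val j.val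
        (AltUp.idx (s.val ^ 2) (qq (s.val ^ 2)) i.val i'.val 0 0 c.val) →
      AltUp.Test N (.G s j i i' c) v true .acc

/-- The program. -/
private def AltUp.prog (N : ℕ) : Prog (Fin N) (AltUp.Node (N + 1)) where
  src := .src
  acc := .acc
  free := AltUp.Free N
  test := AltUp.Test N

/-- The universal nodes. -/
private def AltUp.Uni (M : ℕ) : Set (AltUp.Node M) := fun u => match u with
  | .src => True
  | .T _ _ _ _ _ _ => True
  | _ => False

/-- The nodes as a sum of products. -/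
private def AltUp.code {M : ℕ} : AltUp.Node M →
    Bool ⊕ (Fin M × Fin M) ⊕ (Fin M × Fin M × Fin M × Fin M × Fin M) ⊕
      (Fin M × Fin M × Fin M × Fin M × Fin M × Fin M)
  | .src => .inl true
  | .acc => .inl false
  | .B s j => .inr (.inl (s, j))
  | .G s j i i' c => .inr (.inr (.inl (s, j, i, i', c)))
  | .T s j i i' a b => .inr (.inr (.inr (s, j, i, i', a, b)))

private lemma AltUp.code_inj {M : ℕ} : Function.Injective (AltUp.code (M := M)) := by
  intro u w h
  cases u <;> cases w <;> simp_all [AltUp.code]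

private lemma AltUp.card_bound (N : ℕ) :
    Fintype.card (Bool ⊕ (Fin (N + 1) × Fin (N + 1)) ⊕
      (Fin (N + 1) × Fin (N + 1) × Fin (N + 1) × Fin (N + 1) × Fin (N + 1)) ⊕
      (Fin (N + 1) × Fin (N + 1) × Fin (N + 1) × Fin (N + 1) × Fin (N + 1) × Fin (N + 1)))
      ≤ (N + 2) ^ 9 := by
  simp only [Fintype.card_sum, Fintype.card_prod, Fintype.card_fin, Fintype.card_bool]
  have h0 : (N + 1) * (N + 1) ≤ (N + 2) ^ 6 := by
    calc (N + 1) * (N + 1) = (N + 1) ^ 2 := by ring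
      _ ≤ (N + 2) ^ 2 := Nat.pow_le_pow_left (by omega) 2
      _ ≤ (N + 2) ^ 6 := Nat.pow_le_pow_right (by omega) (by norm_num)
  have h1 : (N + 1) * ((N + 1) * ((N + 1) * ((N + 1) * (N + 1)))) ≤ (N + 2) ^ 6 := by
    calc (N + 1) * ((N + 1) * ((N + 1) * ((N + 1) * (N + 1)))) = (N + 1) ^ 5 := by ring
      _ ≤ (N + 2) ^ 5 := Nat.pow_le_pow_left (by omega) 5
      _ ≤ (N + 2) ^ 6 := Nat.pow_le_pow_right (by omega) (by norm_num)
  have h2 : (N + 1) * ((N + 1) * ((N + 1) * ((N + 1) * ((N + 1) * (N + 1))))) ≤ (N + 2) ^ 6 := by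
    calc (N + 1) * ((N + 1) * ((N + 1) * ((N + 1) * ((N + 1) * (N + 1))))) = (N + 1) ^ 6 := by
          ring
      _ ≤ (N + 2) ^ 6 := Nat.pow_le_pow_left (by omega) 6
  have h3 : 1 ≤ (N + 2) ^ 6 := Nat.one_le_pow _ _ (by omega)
  have h4 : 8 ≤ (N + 2) ^ 3 := by
    calc 8 = 2 ^ 3 := by norm_num
      _ ≤ (N + 2) ^ 3 := Nat.pow_le_pow_left (by omega) 3
  have h5 : (N + 2) ^ 9 = (N + 2) ^ 3 * (N + 2) ^ 6 := by ring
  have h6 : 8 * (N + 2) ^ 6 ≤ (N + 2) ^ 3 * (N + 2) ^ 6 := Nat.mul_le_mul_right _ h4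
  omega

/-! ### The equivalence -/

/-- The relation `t` of block `j` of part `s`. -/
private def AltUp.tt {N : ℕ} (x : Fin N → Bool) (s j : ℕ) (i i' a b c : ℕ) : Prop :=
  (List.ofFn x).getD (bpos n2 N s j (AltUp.idx (s ^ 2) (qq (s ^ 2)) i i' a b c)) false = true

private abbrev AltUp.PG {N : ℕ} (x : Fin N → Bool) (s j : ℕ) : ℕ → ℕ → ℕ → Prop :=
  PGen (s ^ 2) (qq (s ^ 2)) (AltUp.tt x s j)

/-- Is block `j` of part `s` a yes instance? -/
private def AltUp.Yes {N : ℕ} (x : Fin N → Bool) (s j : ℕ) : Prop :=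
  ∃ c < qq (s ^ 2), AltUp.PG x s j 0 0 c ∧
    (List.ofFn x).getD (bpos n2 N s j ((s ^ 2 + 1) ^ 2 * qq (s ^ 2) ^ 3 + c)) false = true

private lemma AltUp.L2_iff {N : ℕ} (x : Fin N → Bool) :
    L2 (List.ofFn x) ↔ ∀ s, 1 ≤ s → ∀ j < nblk n2 N s, AltUp.Yes x s j := by
  unfold L2 BLang
  rw [List.length_ofFn]
  exact Iff.rfl

/-- What acceptance from a node means. -/
private def AltUp.Mean {N : ℕ} (x : Fin N → Bool) : AltUp.Node (N + 1) → Prop
  | .src => ∀ s, 1 ≤ s → ∀ j < nblk n2 N s, AltUp.Yes x s j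
  | .acc => True
  | .B s j => 1 ≤ s.val → j.val < nblk n2 N s.val → AltUp.Yes x s.val j.val
  | .G s j i i' c => 1 ≤ s.val → j.val < nblk n2 N s.val → i'.val ≤ i.val → i.val ≤ s.val ^ 2 →
      c.val < qq (s.val ^ 2) → AltUp.PG x s.val j.val i.val i'.val c.val
  | .T s j i i' a b => 1 ≤ s.val → j.val < nblk n2 N s.val → i'.val ≤ i.val → i.val < s.val ^ 2 →
      a.val < qq (s.val ^ 2) → b.val < qq (s.val ^ 2) →
      AltUp.PG x s.val j.val (i.val + 1) i'.val a.val ∧
        AltUp.PG x s.val j.val (i.val + 1) (i'.val + 1) b.val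

private lemma AltUp.bit {N : ℕ} (x : Fin N → Bool) (v : Fin N) (m : ℕ) (hv : v.val = m)
    (hx : x v = true) : (List.ofFn x).getD m false = true := by
  subst hv
  rw [AltUp.getD x _ v.2]
  exact hx

private lemma AltUp.sound {N : ℕ} (x : Fin N → Bool) (u : AltUp.Node (N + 1))
    (h : (AltUp.prog N).AltFrom (AltUp.Uni (N + 1)) x u) : AltUp.Mean x u := by
  induction h with
  | acc => exact trivial
  | ex u w hu hstep _ ih =>
    rcases hstep with hf | ⟨v, ht, -⟩
    · have hf' : AltUp.Free N u w := hf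
      cases hf' with
      | src s j h1 h2 => exact (hu trivial).elim
      | left s j i i' a b i1 h1 => exact (hu trivial).elim
      | right s j i i' a b i1 i2 h1 h2 => exact (hu trivial).elim
    · have ht' : AltUp.Test N u v (x v) w := ht
      generalize hxv : x v = bv at ht'
      cases ht' with
      | out s j z c v h1 h2 h3 h4 h5 =>
        intro _ _
        have ih' := ih h1 h2 (by omega) (by omega) h4
        rw [h3] at ih'
        exact ⟨c.val, h4, ih', AltUp.bit x v _ h5 hxv⟩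
      | gen s j i i' a b c v h1 h2 h3 h4 h5 h6 h7 h8 =>
        intro _ _ _ _ _
        have ih' := ih h1 h2 h4 h3 h5 h6
        exact PGen.step i.val i'.val a.val b.val c.val h3 h7 ih'.1 ih'.2
          (AltUp.bit x v _ h8 hxv)
      | base s j i i' c v h1 h2 h3 h4 h5 h6 =>
        intro _ _ _ _ _
        rw [h3]
        rw [h3] at h6
        exact PGen.base i'.val c.val h5 (AltUp.bit x v _ h6 hxv)
  | all u hu _ ih =>
    cases u with
    | src =>
      intro s hs j hj
      have h1 := AltUp.n2_le hj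
      have h2 := AltUp.n2_ge s
      have h3 : s ≤ s ^ 2 := Nat.le_self_pow (by norm_num) s
      have hsN : s < N + 1 := by omega
      have hjN : j < N + 1 := by omega
      exact ih (.B ⟨s, hsN⟩ ⟨j, hjN⟩) (AltUp.Free.src ⟨s, hsN⟩ ⟨j, hjN⟩ hs hj) hs hj
    | acc => exact trivial
    | B s j => exact hu.elim
    | G s j i i' c => exact hu.elim
    | T s j i i' a b =>
      intro hs hj hi' hi ha hb
      have h1 := AltUp.n2_le hj
      have h2 := AltUp.n2_ge s.val
      have hi1 : i.val + 1 < N + 1 := by omega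
      have hi2 : i'.val + 1 < N + 1 := by omega
      have e1 := ih (.G s j ⟨i.val + 1, hi1⟩ i' a) (AltUp.Free.left s j i i' a b _ rfl)
      have e2 := ih (.G s j ⟨i.val + 1, hi1⟩ ⟨i'.val + 1, hi2⟩ b)
        (AltUp.Free.right s j i i' a b _ _ rfl rfl)
      exact ⟨e1 hs hj (by show i'.val ≤ i.val + 1; omega) hi ha,
        e2 hs hj (by show i'.val + 1 ≤ i.val + 1; omega) hi hb⟩

private lemma AltUp.complete_G {N : ℕ} (x : Fin N → Bool) (s j : Fin (N + 1)) (hs : 1 ≤ s.val)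
    (hj : j.val < nblk n2 N s.val) (i i' c : ℕ) (H : AltUp.PG x s.val j.val i i' c) :
    i' ≤ i → ∀ (hi : i < N + 1) (hi' : i' < N + 1) (hc : c < N + 1),
      (AltUp.prog N).AltFrom (AltUp.Uni (N + 1)) x (.G s j ⟨i, hi⟩ ⟨i', hi'⟩ ⟨c, hc⟩) := by
  have h1 := AltUp.n2_le hj
  have h2 := AltUp.n2_ge s.val
  have hq := AltUp.qq_pos (s.val ^ 2)
  have hn2 : n2 s.val = (s.val ^ 2 + 1) ^ 2 * qq (s.val ^ 2) ^ 3 + qq (s.val ^ 2) := rfl
  induction H with
  | base i' c hcq ht =>
    intro hle hi hi' hc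
    have hidx := AltUp.idx_lt (h := s.val ^ 2) (le_refl _) hle hq hq hcq
    have hpos : bpos n2 N s.val j.val
        (AltUp.idx (s.val ^ 2) (qq (s.val ^ 2)) (s.val ^ 2) i' 0 0 c) < N :=
      AltUp.bpos_lt hs hj (by omega)
    have hx : x ⟨_, hpos⟩ = true := by
      rw [← AltUp.getD x _ hpos]
      exact ht
    refine Prog.AltFrom.ex _ (AltUp.Node.acc) (fun h => h) (Or.inr ⟨⟨_, hpos⟩, ?_, fun _ =>
      Set.mem_univ _⟩) Prog.AltFrom.acc
    rw [hx]
    exact AltUp.Test.base s j _ _ _ _ hs hj rfl hle hcq rfl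
  | step i i' a b c hih hcq Ha Hb ht iha ihb =>
    intro hle hi hi' hc
    have haq := AltUp.pgen_lt Ha
    have hbq := AltUp.pgen_lt Hb
    have hidx := AltUp.idx_lt (h := s.val ^ 2) hih.le hle haq hbq hcq
    have hpos : bpos n2 N s.val j.val
        (AltUp.idx (s.val ^ 2) (qq (s.val ^ 2)) i i' a b c) < N :=
      AltUp.bpos_lt hs hj (by omega)
    have hx : x ⟨_, hpos⟩ = true := by
      rw [← AltUp.getD x _ hpos]
      exact ht
    have haN : a < N + 1 := by omega
    have hbN : b < N + 1 := by omega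
    have hiN : i + 1 < N + 1 := by omega
    have hiN' : i' + 1 < N + 1 := by omega
    refine Prog.AltFrom.ex _ (AltUp.Node.T s j ⟨i, hi⟩ ⟨i', hi'⟩ ⟨a, haN⟩ ⟨b, hbN⟩) (fun h => h)
      (Or.inr ⟨⟨_, hpos⟩, ?_, fun _ => Set.mem_univ _⟩) (Prog.AltFrom.all _ trivial ?_)
    · rw [hx]
      exact AltUp.Test.gen s j _ _ _ _ _ _ hs hj hih hle haq hbq hcq rfl
    · intro w hw
      have hw' : AltUp.Free N (.T s j ⟨i, hi⟩ ⟨i', hi'⟩ ⟨a, haN⟩ ⟨b, hbN⟩) w := hw
      cases hw' with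
      | left _ _ _ _ _ _ i1 e1 =>
        have e1' : i1 = ⟨i + 1, hiN⟩ := Fin.ext e1
        subst e1'
        exact iha (by omega) _ _ _
      | right _ _ _ _ _ _ i1 i2 e1 e2 =>
        have e1' : i1 = ⟨i + 1, hiN⟩ := Fin.ext e1
        have e2' : i2 = ⟨i' + 1, hiN'⟩ := Fin.ext e2
        subst e1'
        subst e2'
        exact ihb (by omega) _ _ _

private lemma AltUp.complete {N : ℕ} (x : Fin N → Bool)
    (H : ∀ s, 1 ≤ s → ∀ j < nblk n2 N s, AltUp.Yes x s j) :
    (AltUp.prog N).AltFrom (AltUp.Uni (N + 1)) x .src := by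
  refine Prog.AltFrom.all _ trivial ?_
  intro w hw
  have hw' : AltUp.Free N .src w := hw
  cases hw' with
  | src s j hs hj =>
    have h1 := AltUp.n2_le hj
    have h2 := AltUp.n2_ge s.val
    have hn2 : n2 s.val = (s.val ^ 2 + 1) ^ 2 * qq (s.val ^ 2) ^ 3 + qq (s.val ^ 2) := rfl
    obtain ⟨c, hc, hg, ho⟩ := H s.val hs j.val hj
    have hcN : c < N + 1 := by omega
    have hpos : bpos n2 N s.val j.val ((s.val ^ 2 + 1) ^ 2 * qq (s.val ^ 2) ^ 3 + c) < N :=
      AltUp.bpos_lt hs hj (by omega)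
    have hx : x ⟨_, hpos⟩ = true := by
      rw [← AltUp.getD x _ hpos]
      exact ho
    refine Prog.AltFrom.ex _ (AltUp.Node.G s j ⟨0, by omega⟩ ⟨0, by omega⟩ ⟨c, hcN⟩) (fun h => h)
      (Or.inr ⟨⟨_, hpos⟩, ?_, fun _ => Set.mem_univ _⟩)
      (AltUp.complete_G x s j hs hj 0 0 c hg le_rfl _ _ _)
    rw [hx]
    exact AltUp.Test.out s j _ _ _ hs hj rfl hc rfl

/-- [Nodes: a universal source with an unlabelled edge to `B s j` for every block `j` of part `s`;
`B s j` (existential) has the edge labelled `out c = 1` to `G s j 0 0 c`; `G s j i i' c` (existential)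
has, for `i < h`, the edge labelled `t i i' a b c = 1` to `T s j i i' a b` and, for `i = h`, the edge
labelled `t h i' 0 0 c = 1` to the accepting node; `T s j i i' a b` (universal) has unlabelled edges to
`G s j (i+1) i' a` and `G s j (i+1) (i'+1) b`. All numbers are at most `N + 1`. Here `h = s ^ 2` and
`q = qq (s ^ 2)`, and the variables are the positions `bpos n2 N s j _ < N`.] -/
theorem l2_program : ∃ c : ℕ, ∀ N : ℕ,
    ∃ (W : Type) (_ : Fintype W) (P : Prog (Fin N) W) (U : Set W),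
      Fintype.card W ≤ (N + 2) ^ c ∧ P.Mono ∧
      ∀ x, P.AltAccepts U x ↔ L2 (List.ofFn x) := by
  refine ⟨9, fun N => ⟨AltUp.Node (N + 1), Fintype.ofInjective _ AltUp.code_inj, AltUp.prog N,
    AltUp.Uni (N + 1), ?_, ?_, ?_⟩⟩
  · refine le_trans ?_ (AltUp.card_bound N)
    let _ : Fintype (AltUp.Node (N + 1)) := Fintype.ofInjective _ AltUp.code_inj
    exact Fintype.card_le_of_injective _ AltUp.code_inj
  · intro u v w h
    have h' : AltUp.Test N u v false w := h
    cases h'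
  · intro x
    rw [AltUp.L2_iff]
    exact ⟨fun h => AltUp.sound x _ h, fun h => AltUp.complete x h⟩

end Pool.Agent.FZ
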