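import Pool.Agent.FZ.Block

/-! # From the block function to the language -/

namespace Pool.Agent.FZ

private theorem asm_part_le (N s : ℕ) (hs : 1 ≤ s) : N / (s + 1) ≤ N / s ∧ N / s ≤ N :=
  ⟨Nat.div_le_div_left (Nat.le_succ s) hs, Nat.div_le_self N s⟩

private theorem asm_bpos_lt (n0 : ℕ → ℕ) (N s : ℕ) (hs : 1 ≤ s) {j i : ℕ}
    (hj : j < nblk n0 N s) (hi : i < n0 s) : bpos n0 N s j i < N - N / (s + 1) := by
  have h1 := asm_part_le N s hs
  have h2 : nblk n0 N s * n0 s ≤ N / s - N / (s + 1) := Nat.div_mul_le_self _ _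
  have h3 : (j + 1) * n0 s ≤ nblk n0 N s * n0 s := Nat.mul_le_mul_right _ hj
  have h4 : (j + 1) * n0 s = j * n0 s + n0 s := by ring
  unfold bpos
  omega

private theorem asm_bpos_ge (n0 : ℕ → ℕ) (N s j i : ℕ) : N - N / s ≤ bpos n0 N s j i := by
  unfold bpos
  omega

private theorem asm_bpos_inj (n0 : ℕ → ℕ) (N s : ℕ) {j i j' i' : ℕ}
    (hi : i < n0 s) (hi' : i' < n0 s) (h : bpos n0 N s j i = bpos n0 N s j' i') :
    j = j' ∧ i = i' := by
  unfold bpos at h
  have h0 : n0 s * j + i = n0 s * j' + i' := by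
    rw [Nat.mul_comm (n0 s) j, Nat.mul_comm (n0 s) j']
    omega
  have hpos : 0 < n0 s := by omega
  have hj : j = j' := by
    have e1 : (n0 s * j + i) / n0 s = j := by
      rw [Nat.mul_add_div hpos, Nat.div_eq_of_lt hi, Nat.add_zero]
    have e2 : (n0 s * j' + i') / n0 s = j' := by
      rw [Nat.mul_add_div hpos, Nat.div_eq_of_lt hi', Nat.add_zero]
    rw [← e1, ← e2, h0]
  subst hj
  exact ⟨rfl, by omega⟩

private theorem asm_disjoint (n0 : ℕ → ℕ) (N s s' : ℕ) (hs : 1 ≤ s) (hs' : 1 ≤ s') (hne : s ≠ s')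
    {j i j' i' : ℕ} (hj : j < nblk n0 N s) (hi : i < n0 s) (hj' : j' < nblk n0 N s')
    (hi' : i' < n0 s') : bpos n0 N s j i ≠ bpos n0 N s' j' i' := by
  have a1 := asm_bpos_lt n0 N s hs hj hi
  have a2 := asm_bpos_lt n0 N s' hs' hj' hi'
  have b1 := asm_bpos_ge n0 N s j i
  have b2 := asm_bpos_ge n0 N s' j' i'
  rcases Nat.lt_or_gt_of_ne hne with h | h
  · have : N / s' ≤ N / (s + 1) := Nat.div_le_div_left h (Nat.succ_pos s)
    omega
  · have : N / s ≤ N / (s' + 1) := Nat.div_le_div_left h (Nat.succ_pos s')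
    omega

private theorem asm_base_apply {I V0 Ω : Type} {m : ℕ} (e : Fin m × V0 → I)
    (he : Function.Injective e) (Y : Ω → V0 → Bool) (w : Fin m → Ω) (p : Fin m × V0) :
    base e Y w (e p) = Y (w p.1) p.2 := by
  have h : ∃ p' : Fin m × V0, e p' = e p := ⟨p, rfl⟩
  have h2 : h.choose = p := he h.choose_spec
  unfold base
  rw [dif_pos h, h2]

private theorem asm_base_off {I V0 Ω : Type} {m : ℕ} (e : Fin m × V0 → I)
    (Y : Ω → V0 → Bool) (w : Fin m → Ω) (i : I) (hi : ∀ p, e p ≠ i) :
    base e Y w i = true := by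
  unfold base
  rw [dif_neg]
  rintro ⟨p, hp⟩
  exact hi p hp

private theorem asm_getD {N : ℕ} (x : Fin N → Bool) {i : ℕ} (hi : i < N) :
    (List.ofFn x).getD i false = x ⟨i, hi⟩ := by
  rw [List.getD_eq_getElem _ _ (by simpa using hi)]
  simp

open Classical in
/-- **Assembly.** [`m = nblk n0 N s`, `e (j, v) = bpos n0 N s j (idx v)`, which is `< N`;
`A` = all `base e Y w`. Blocks of the other parts are all ones, part `s'` being disjoint from part
`s`. `direct_product` with `B = 16`, `k = m / 2`.] -/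
theorem assemble (n0 : ℕ → ℕ) (f : ℕ → (ℕ → Bool) → Prop)
    (hones : ∀ s, f s (fun _ => true))
    (hloc : ∀ s x y, (∀ i < n0 s, x i = y i) → f s x → f s y)
    (sym : Prop) (s N S : ℕ) (hs : 1 ≤ s) {V0 Ω : Type} [Fintype V0] [Fintype Ω] [Nonempty Ω]
    (idx : V0 → ℕ) (hidx : Function.Injective idx) (hlt : ∀ v, idx v < n0 s)
    (Y : Ω → V0 → Bool) (hYinj : Function.Injective Y) (g0 : (V0 → Bool) → Prop)
    (hg : ∀ x, f s x ↔ g0 (fun v => x (idx v))) (hY : ∀ ω, g0 (Y ω))
    (hβ : ∀ (W : Type) [Fintype W] (M : MProg V0 W), Fintype.card W ≤ S → (sym → M.Symm) →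
      (∀ z, M.Accepts z → g0 z) →
      16 * (Finset.univ.filter fun ω : Ω => M.Accepts (Y ω)).card ≤ Fintype.card Ω) :
    ∃ A : Finset (Fin N → Bool), A.Nonempty ∧ (∀ x ∈ A, BLang n0 f (List.ofFn x)) ∧
      ∀ (W : Type) [Fintype W] (P : Prog (Fin N) W), Fintype.card W ≤ S → (sym → P.Symm) →
        (∀ x, P.Accepts x → BLang n0 f (List.ofFn x)) →
        (A.filter fun x => P.AcceptsReading x (nblk n0 N s / 2)).card * 2 ^ nblk n0 N s
          ≤ A.card := by
  set m := nblk n0 N s with hm
  have hposN : ∀ (j : Fin m) (v : V0), bpos n0 N s j (idx v) < N := fun j v =>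
    lt_of_lt_of_le (asm_bpos_lt n0 N s hs (hm ▸ j.2) (hlt v)) (Nat.sub_le _ _)
  let e : Fin m × V0 → Fin N := fun p => ⟨bpos n0 N s p.1 (idx p.2), hposN p.1 p.2⟩
  have he : Function.Injective e := by
    rintro ⟨j, v⟩ ⟨j', v'⟩ h
    have h' : bpos n0 N s j (idx v) = bpos n0 N s j' (idx v') := congrArg Fin.val h
    obtain ⟨h1, h2⟩ := asm_bpos_inj n0 N s (hlt v) (hlt v') h'
    exact Prod.ext (Fin.ext h1) (hidx h2)
  have hbinj : Function.Injective (fun w : Fin m → Ω => base e Y w) := by
    intro w w' h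
    funext j
    apply hYinj
    funext v
    have := congrFun h (e (j, v))
    simpa only [asm_base_apply e he] using this
  refine ⟨Finset.univ.image (fun w : Fin m → Ω => base e Y w), ?_, ?_, ?_⟩
  · exact Finset.univ_nonempty.image _
  · intro x hx
    obtain ⟨w, -, rfl⟩ := Finset.mem_image.1 hx
    intro s' hs' j hj
    rw [List.length_ofFn] at hj ⊢
    by_cases hss : s = s'
    · subst hss
      rw [hg]
      have hjm : j < m := hj
      have : (fun v => (List.ofFn (base e Y w)).getD (bpos n0 N s j (idx v)) false)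
          = Y (w ⟨j, hjm⟩) := by
        funext v
        rw [asm_getD _ (hposN ⟨j, hjm⟩ v)]
        exact asm_base_apply e he Y w (⟨j, hjm⟩, v)
      rw [this]
      exact hY _
    · refine hloc s' (fun _ => true) _ ?_ (hones s')
      intro i hi
      have hlt' : bpos n0 N s' j i < N :=
        lt_of_lt_of_le (asm_bpos_lt n0 N s' hs' hj hi) (Nat.sub_le _ _)
      rw [asm_getD _ hlt']
      symm
      apply asm_base_off
      rintro ⟨j', v⟩ h
      exact asm_disjoint n0 N s s' hs hs' hss (hm ▸ j'.2) (hlt v) hj hi (congrArg Fin.val h)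
  · intro W _ P hW hsym hP
    have key := direct_product e he Y g0 sym P hsym
      (fun x hx j => by
        have h1 := hP x hx s hs j (by rw [List.length_ofFn]; exact hm ▸ j.2)
        rw [List.length_ofFn, hg] at h1
        have : (fun v => (List.ofFn x).getD (bpos n0 N s j (idx v)) false)
            = fun v => x (e (j, v)) := by
          funext v
          exact asm_getD x (hposN j v)
        rwa [this] at h1)
      16 (by norm_num) (fun M hM1 hM2 => hβ W M hW hM1 hM2) (m / 2) (Nat.div_le_self m 2)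
    have hcardA : (Finset.univ.image (fun w : Fin m → Ω => base e Y w)).card
        = Fintype.card Ω ^ m := by
      rw [Finset.card_image_of_injective _ hbinj]
      simp
    have hcardF : ((Finset.univ.image (fun w : Fin m → Ω => base e Y w)).filter
        fun x => P.AcceptsReading x (m / 2)).card
        = (Finset.univ.filter fun w : Fin m → Ω =>
            P.AcceptsReading (base e Y w) (m / 2)).card := by
      rw [Finset.filter_image, Finset.card_image_of_injective _ hbinj]
    rw [hcardF, hcardA]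
    set c := (Finset.univ.filter fun w : Fin m → Ω =>
            P.AcceptsReading (base e Y w) (m / 2)).card with hc
    have h16 : 2 ^ m * 2 ^ m ≤ 16 ^ (m - m / 2) := by
      have e1 : (16 : ℕ) = 2 ^ 4 := by norm_num
      rw [e1, ← pow_mul, ← pow_add]
      exact Nat.pow_le_pow_right (by norm_num) (by omega)
    have h2 : 2 ^ m * (c * 2 ^ m) ≤ 2 ^ m * Fintype.card Ω ^ m := by
      calc 2 ^ m * (c * 2 ^ m) = 2 ^ m * 2 ^ m * c := by ring
        _ ≤ 16 ^ (m - m / 2) * c := Nat.mul_le_mul_right _ h16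
        _ ≤ _ := key
    exact Nat.le_of_mul_le_mul_left h2 (by positivity)

end Pool.Agent.FZ
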