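import Pool.Agent.FZ.Defs

/-! # Bad coordinates of a dense set of Boolean functions; sequential choice -/

namespace Pool.Agent.FZ

/-- the number of `u` in `S` with `f u = b` -/
private def nval {q : ℕ} (S : Finset (Fin q)) (b : Bool) (f : Fin q → Bool) : ℕ :=
  (S.filter fun u => f u = b).card

private theorem sum_weight {q : ℕ} (S : Finset (Fin q)) (b : Bool) :
    ∑ f : Fin q → Bool, 4 ^ (S.card - nval S b f) = 5 ^ S.card * 2 ^ (q - S.card) := by
  have h1 : ∀ f : Fin q → Bool, 4 ^ (S.card - nval S b f) =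
      ∏ u : Fin q, (if u ∈ S then (if f u = b then 1 else 4) else 1) := by
    intro f
    have e : S.card - nval S b f = (S.filter fun u => ¬ f u = b).card := by
      have := Finset.card_filter_add_card_filter_not (s := S) (fun u => f u = b)
      unfold nval
      omega
    rw [e, Finset.prod_ite_mem, Finset.univ_inter, Finset.prod_ite, Finset.prod_const_one, one_mul,
      Finset.prod_const]
  simp only [h1]
  have h2 := Finset.prod_univ_sum (fun _ : Fin q => (Finset.univ : Finset Bool))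
    (fun (u : Fin q) (β : Bool) => (if u ∈ S then (if β = b then 1 else 4) else 1 : ℕ))
  have h3 : Fintype.piFinset (fun _ : Fin q => (Finset.univ : Finset Bool)) = Finset.univ := by
    ext f; simp
  rw [h3] at h2
  rw [← h2]
  have h4 : ∀ u : Fin q, ∑ β : Bool, (if u ∈ S then (if β = b then 1 else 4) else 1 : ℕ) =
      if u ∈ S then 5 else 2 := by
    intro u
    by_cases hu : u ∈ S
    · cases b <;> simp [hu]
    · simp [hu]
  simp only [h4]
  rw [Finset.prod_ite, Finset.prod_const, Finset.prod_const, Finset.filter_mem_eq_inter,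
    Finset.univ_inter]
  congr 2
  have : (Finset.univ.filter fun u : Fin q => u ∉ S) = Sᶜ := by ext; simp
  rw [this, Finset.card_compl, Fintype.card_fin]

/-- [Suppose there are `6 (g + 1)` bad coordinates, choose a set `S` of exactly `6 (g + 1)` of them.
`∑_{f ∈ F} #{u ∈ S : f u = b} < |S| |F| / 8`, so at least half of the `f ∈ F` have at most `|S| / 4`
values `b` on `S`; the number of all `f` with this property is at most
`2 ^ (q - |S|) * 4 ^ (|S| / 4) * (5 / 4) ^ |S| ≤ 2 ^ q * (8 * (5 / 8) ^ 6) ^ (g + 1) <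
2 ^ q * 2 ^ (-(g + 1))`.] -/
theorem bad_coords {q : ℕ} (F : Finset (Fin q → Bool)) (b : Bool) (g : ℕ)
    (hF : 2 ^ q ≤ F.card * 2 ^ g) :
    (Finset.univ.filter fun u : Fin q => 8 * (F.filter fun f => f u = b).card < F.card).card
      ≤ 6 * (g + 1) := by
  by_contra hcon
  push Not at hcon
  obtain ⟨S, hSsub, hScard⟩ := Finset.exists_subset_card_eq hcon.le
  have hSbad : ∀ u ∈ S, 8 * (F.filter fun f => f u = b).card < F.card := by
    intro u hu
    simpa using hSsub hu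
  -- double counting
  have hdc : ∑ f ∈ F, nval S b f = ∑ u ∈ S, (F.filter fun f => f u = b).card := by
    unfold nval
    simp only [Finset.card_filter]
    exact Finset.sum_comm
  have hsum : 8 * ∑ f ∈ F, nval S b f ≤ S.card * F.card := by
    rw [hdc, Finset.mul_sum]
    refine (Finset.sum_le_sum fun u hu => (hSbad u hu).le).trans ?_
    rw [Finset.sum_const, smul_eq_mul]
  set G := F.filter fun f => 2 * nval S b f ≤ 3 * (g + 1) with hG
  set H := F.filter fun f => ¬ 2 * nval S b f ≤ 3 * (g + 1) with hH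
  have hGH : G.card + H.card = F.card := Finset.card_filter_add_card_filter_not _
  have hHsum : H.card * S.card ≤ 4 * ∑ f ∈ H, nval S b f := by
    rw [Finset.mul_sum, ← smul_eq_mul, ← Finset.sum_const]
    refine Finset.sum_le_sum fun f hf => ?_
    have : ¬ 2 * nval S b f ≤ 3 * (g + 1) := (Finset.mem_filter.1 hf).2
    omega
  have hHle : ∑ f ∈ H, nval S b f ≤ ∑ f ∈ F, nval S b f :=
    Finset.sum_le_sum_of_subset (Finset.filter_subset _ _)
  have hSpos : 0 < S.card := by omega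
  have hH2 : 2 * H.card ≤ F.card := by
    have : (2 * H.card) * S.card ≤ F.card * S.card := by
      calc (2 * H.card) * S.card = 2 * (H.card * S.card) := by ring
        _ ≤ 2 * (4 * ∑ f ∈ H, nval S b f) := Nat.mul_le_mul_left _ hHsum
        _ ≤ 8 * ∑ f ∈ F, nval S b f := by
            rw [← mul_assoc]; exact Nat.mul_le_mul_left _ hHle
        _ ≤ S.card * F.card := hsum
        _ = _ := by ring
    exact Nat.le_of_mul_le_mul_right this hSpos
  have hG2 : F.card ≤ 2 * G.card := by omega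
  -- counting
  have hw : G.card * 2 ^ (9 * (g + 1)) ≤ 5 ^ S.card * 2 ^ (q - S.card) := by
    rw [← sum_weight S b]
    refine le_trans ?_ (Finset.sum_le_sum_of_subset (Finset.subset_univ G))
    rw [← smul_eq_mul, ← Finset.sum_const]
    refine Finset.sum_le_sum fun f hf => ?_
    have h1 : 2 * nval S b f ≤ 3 * (g + 1) := (Finset.mem_filter.1 hf).2
    have h2 : (4 : ℕ) = 2 ^ 2 := by norm_num
    rw [h2, ← pow_mul]
    refine Nat.pow_le_pow_right (by norm_num) ?_
    rw [hScard]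
    omega
  have hSq : S.card ≤ q := by
    have := Finset.card_le_univ S
    rwa [Fintype.card_fin] at this
  have h5 : G.card * 2 ^ (15 * (g + 1)) ≤ 5 ^ (6 * (g + 1)) * 2 ^ q := by
    calc G.card * 2 ^ (15 * (g + 1)) = G.card * 2 ^ (9 * (g + 1)) * 2 ^ S.card := by
          rw [hScard, mul_assoc, ← pow_add]; congr 2; ring
      _ ≤ 5 ^ S.card * 2 ^ (q - S.card) * 2 ^ S.card := Nat.mul_le_mul_right _ hw
      _ = 5 ^ (6 * (g + 1)) * 2 ^ q := by
          rw [mul_assoc, ← pow_add, Nat.sub_add_cancel hSq, hScard]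
  have h6 : (5 : ℕ) ^ (6 * (g + 1)) < 2 ^ (14 * (g + 1)) := by
    rw [pow_mul, pow_mul]
    exact Nat.pow_lt_pow_left (by norm_num) (by omega)
  have h7 : G.card * 2 ^ (g + 1) < 2 ^ q := by
    have hlt : G.card * 2 ^ (g + 1) * 2 ^ (14 * (g + 1)) < 2 ^ q * 2 ^ (14 * (g + 1)) := by
      calc G.card * 2 ^ (g + 1) * 2 ^ (14 * (g + 1)) = G.card * 2 ^ (15 * (g + 1)) := by
            rw [mul_assoc, ← pow_add]; congr 2; ring
        _ ≤ 5 ^ (6 * (g + 1)) * 2 ^ q := h5
        _ < 2 ^ (14 * (g + 1)) * 2 ^ q := Nat.mul_lt_mul_of_pos_right h6 (by positivity)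
        _ = _ := by ring
    exact Nat.lt_of_mul_lt_mul_right hlt
  have h8 : F.card * 2 ^ g ≤ G.card * 2 ^ (g + 1) := by
    calc F.card * 2 ^ g ≤ 2 * G.card * 2 ^ g := Nat.mul_le_mul_right _ hG2
      _ = _ := by rw [pow_succ]; ring
  omega

open Classical in
/-- number of elements with the property `P` -/
private noncomputable def cnt {α : Type} [Fintype α] (P : α → Prop) : ℕ :=
  (Finset.univ.filter P).card

private theorem cnt_eq {α : Type} [Fintype α] (P : α → Prop) [DecidablePred P] :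
    (Finset.univ.filter P).card = cnt P := by
  unfold cnt
  congr 1
  ext a
  simp only [Finset.mem_filter]

private theorem cnt_congr {α : Type} [Fintype α] {P Q : α → Prop} (h : ∀ a, P a ↔ Q a) :
    cnt P = cnt Q := by
  have : P = Q := funext fun a => propext (h a)
  rw [this]

private theorem cnt_le {α : Type} [Fintype α] (P : α → Prop) : cnt P ≤ Fintype.card α := by
  unfold cnt
  exact Finset.card_le_univ _

private theorem cnt_false {α : Type} [Fintype α] {P : α → Prop} (h : ∀ a, ¬ P a) : cnt P = 0 := by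
  classical
  unfold cnt
  rw [Finset.card_eq_zero, Finset.filter_eq_empty_iff]
  exact fun a _ => h a

private theorem cnt_cons {q n : ℕ} (P : (Fin (n + 1) → Fin q) → Prop) :
    cnt P = ∑ u : Fin q, cnt fun w : Fin n → Fin q => P (Fin.cons u w) := by
  classical
  unfold cnt
  simp only [Finset.card_filter]
  rw [← (Fin.consEquiv (fun _ : Fin (n + 1) => Fin q)).sum_comp, Fintype.sum_prod_type]
  rfl

private theorem seq_choice' {q : ℕ} (n : ℕ) : ∀ (F : Finset (Fin q → Bool)) (b : Bool) (g : ℕ),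
    2 ^ q ≤ F.card * 2 ^ g →
    q * (cnt fun w : Fin n → Fin q => ¬ ∃ f ∈ F, ∀ t, f (w t) = b)
      ≤ 6 * n * (g + 3 * n + 1) * q ^ n := by
  induction n with
  | zero =>
    intro F b g hF
    have hpos : 0 < F.card := by
      rcases Nat.eq_zero_or_pos F.card with h | h
      · rw [h] at hF
        have : 0 < 2 ^ q := by positivity
        omega
      · exact h
    obtain ⟨f, hf⟩ := Finset.card_pos.1 hpos
    rw [cnt_false]
    · simp
    · intro w hw
      exact hw ⟨f, hf, fun t => t.elim0⟩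
  | succ n ih =>
    intro F b g hF
    have hsplit : (cnt fun w : Fin (n + 1) → Fin q => ¬ ∃ f ∈ F, ∀ t, f (w t) = b) =
        ∑ u : Fin q, cnt fun w : Fin n → Fin q =>
          ¬ ∃ f ∈ F.filter (fun f => f u = b), ∀ t, f (w t) = b := by
      rw [cnt_cons]
      refine Finset.sum_congr rfl fun u _ => cnt_congr fun w => not_congr ?_
      constructor
      · rintro ⟨f, hf, h⟩
        refine ⟨f, Finset.mem_filter.2 ⟨hf, ?_⟩, fun t => ?_⟩
        · simpa using h 0
        · simpa using h t.succ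
      · rintro ⟨f, hf, h⟩
        rw [Finset.mem_filter] at hf
        refine ⟨f, hf.1, fun t => ?_⟩
        refine Fin.cases ?_ (fun i => ?_) t
        · simpa using hf.2
        · simpa using h i
    rw [hsplit, Finset.mul_sum]
    set Bd := Finset.univ.filter fun u : Fin q => 8 * (F.filter fun f => f u = b).card < F.card
      with hBd
    have hbd : Bd.card ≤ 6 * (g + 1) := bad_coords F b g hF
    have hterm : ∀ u : Fin q, q * (cnt fun w : Fin n → Fin q =>
          ¬ ∃ f ∈ F.filter (fun f => f u = b), ∀ t, f (w t) = b) ≤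
        (if u ∈ Bd then q * q ^ n else 0) + 6 * n * (g + 3 + 3 * n + 1) * q ^ n := by
      intro u
      by_cases hu : u ∈ Bd
      · rw [if_pos hu]
        refine le_trans ?_ (Nat.le_add_right _ _)
        refine Nat.mul_le_mul_left _ ?_
        refine (cnt_le _).trans ?_
        rw [Fintype.card_fun, Fintype.card_fin, Fintype.card_fin]
      · rw [if_neg hu, zero_add]
        refine ih _ b (g + 3) ?_
        have h1 : F.card ≤ 8 * (F.filter fun f => f u = b).card := by
          simpa [hBd] using hu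
        calc 2 ^ q ≤ F.card * 2 ^ g := hF
          _ ≤ 8 * (F.filter fun f => f u = b).card * 2 ^ g := Nat.mul_le_mul_right _ h1
          _ = _ := by rw [pow_add]; ring
    refine (Finset.sum_le_sum fun u _ => hterm u).trans ?_
    have e2 : ∑ u : Fin q, (if u ∈ Bd then q * q ^ n else 0) = Bd.card * (q * q ^ n) := by
      rw [← Finset.sum_filter, Finset.sum_const, smul_eq_mul]
      congr 2
      ext u; simp
    rw [Finset.sum_add_distrib, e2, Finset.sum_const, Finset.card_univ, Fintype.card_fin,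
      smul_eq_mul]
    calc Bd.card * (q * q ^ n) + q * (6 * n * (g + 3 + 3 * n + 1) * q ^ n)
        ≤ 6 * (g + 1) * (q * q ^ n) + q * (6 * n * (g + 3 + 3 * n + 1) * q ^ n) :=
          Nat.add_le_add_right (Nat.mul_le_mul_right _ hbd) _
      _ = (6 * (g + 1) + 6 * n * (g + 3 + 3 * n + 1)) * q ^ (n + 1) := by rw [pow_succ]; ring
      _ ≤ (6 * (n + 1) * (g + 3 * (n + 1) + 1)) * q ^ (n + 1) := by
          refine Nat.mul_le_mul_right _ ?_
          nlinarith [Nat.zero_le n, Nat.zero_le g]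

open Classical in
/-- [Induction on `n`: a first coordinate `w 0` that is not bad leaves
`F' = {f ∈ F : f (w 0) = b}` with `2 ^ q ≤ |F'| 2 ^ (g + 3)`.] -/
theorem seq_choice {q : ℕ} (n : ℕ) (F : Finset (Fin q → Bool)) (b : Bool) (g : ℕ)
    (hF : 2 ^ q ≤ F.card * 2 ^ g) :
    q * (Finset.univ.filter fun w : Fin n → Fin q => ¬ ∃ f ∈ F, ∀ t, f (w t) = b).card
      ≤ 6 * n * (g + 3 * n + 1) * q ^ n := by
  rw [cnt_eq]
  exact seq_choice' n F b g hF

private theorem exp_bound (p : ℕ) (hp : 256 ≤ p) :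
    8 * (4 * (p : ℝ) ^ 9) ^ p ≤ Real.exp ((p : ℝ) ^ 2 / 4) := by
  have hp' : (256 : ℝ) ≤ p := by exact_mod_cast hp
  have hp0 : (0 : ℝ) ≤ p := by linarith
  -- `2 p ≤ exp (p / 36)`
  have h1 : 2 * (p : ℝ) ≤ Real.exp ((p : ℝ) / 36) := by
    have e : (p : ℝ) / 36 = 7 + ((p : ℝ) / 36 - 7) := by ring
    rw [e, Real.exp_add]
    have e7 : (1046 : ℝ) ≤ Real.exp 7 := by
      have : Real.exp 7 = Real.exp 1 ^ 7 := by
        rw [← Real.exp_nat_mul]; norm_num
      rw [this]
      have h27 : (2.7 : ℝ) ≤ Real.exp 1 := by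
        have := Real.exp_one_gt_d9; linarith
      calc (1046 : ℝ) ≤ 2.7 ^ 7 := by norm_num
        _ ≤ Real.exp 1 ^ 7 := pow_le_pow_left₀ (by norm_num) h27 7
    have ex : (p : ℝ) / 36 - 7 + 1 ≤ Real.exp ((p : ℝ) / 36 - 7) := Real.add_one_le_exp _
    have hx : 0 ≤ (p : ℝ) / 36 - 7 + 1 := by linarith
    calc 2 * (p : ℝ) ≤ 1046 * ((p : ℝ) / 36 - 7 + 1) := by linarith
      _ ≤ Real.exp 7 * Real.exp ((p : ℝ) / 36 - 7) := by
          refine mul_le_mul e7 ex hx (Real.exp_pos _).le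
  have h2 : (2 * (p : ℝ)) ^ 9 ≤ Real.exp ((p : ℝ) / 4) := by
    calc (2 * (p : ℝ)) ^ 9 ≤ Real.exp ((p : ℝ) / 36) ^ 9 := pow_le_pow_left₀ (by positivity) h1 9
      _ = Real.exp ((p : ℝ) / 4) := by
          rw [← Real.exp_nat_mul]; congr 1; push_cast; ring
  have h3 : 8 * (4 * (p : ℝ) ^ 9) ^ p ≤ ((2 * (p : ℝ)) ^ 9) ^ p := by
    have h8 : (8 : ℝ) ≤ 8 ^ p := by
      calc (8 : ℝ) = 8 ^ 1 := by norm_num
        _ ≤ 8 ^ p := pow_le_pow_right₀ (by norm_num) (by omega)
    calc 8 * (4 * (p : ℝ) ^ 9) ^ p ≤ 8 ^ p * (4 * (p : ℝ) ^ 9) ^ p :=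
          mul_le_mul_of_nonneg_right h8 (by positivity)
      _ = (8 * (4 * (p : ℝ) ^ 9)) ^ p := (mul_pow _ _ _).symm
      _ ≤ ((2 * (p : ℝ)) ^ 9) ^ p := by
          refine pow_le_pow_left₀ (by positivity) ?_ p
          rw [mul_pow]
          have : (0 : ℝ) ≤ (p : ℝ) ^ 9 := by positivity
          nlinarith
  refine h3.trans ?_
  calc ((2 * (p : ℝ)) ^ 9) ^ p ≤ Real.exp ((p : ℝ) / 4) ^ p := pow_le_pow_left₀ (by positivity) h2 p
    _ = Real.exp ((p : ℝ) ^ 2 / 4) := by
        rw [← Real.exp_nat_mul]; congr 1; ring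

/-- [The count is `(q - |X|) ^ (p ^ 4) ≤ q ^ (p ^ 4) * exp (- p ^ 4 * p ^ 7 / (4 * p ^ 9))`, and
`8 * (4 * p ^ 9) ^ p ≤ exp (p ^ 2 / 4)` for `p ≥ 256`.] -/
theorem hit (p : ℕ) (hp : 256 ≤ p) (X : Finset (Fin (4 * p ^ 9))) (hX : p ^ 7 ≤ X.card) :
    8 * (4 * p ^ 9) ^ p *
        (Finset.univ.filter fun w : Fin (p ^ 4) → Fin (4 * p ^ 9) => ∀ t, w t ∉ X).card
      ≤ (4 * p ^ 9) ^ (p ^ 4) := by
  have hcount : (Finset.univ.filter fun w : Fin (p ^ 4) → Fin (4 * p ^ 9) => ∀ t, w t ∉ X).card =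
      (4 * p ^ 9 - X.card) ^ (p ^ 4) := by
    have e : (Finset.univ.filter fun w : Fin (p ^ 4) → Fin (4 * p ^ 9) => ∀ t, w t ∉ X) =
        Fintype.piFinset fun _ => Xᶜ := by
      ext w; simp
    rw [e, Fintype.card_piFinset]
    simp only [Finset.card_compl, Fintype.card_fin, Finset.prod_const, Finset.card_univ]
  rw [hcount]
  have hp0 : (0 : ℝ) < p := by
    have : 0 < p := by omega
    exact_mod_cast this
  have hXle : X.card ≤ 4 * p ^ 9 := by
    have := Finset.card_le_univ X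
    rwa [Fintype.card_fin] at this
  have hreal : (8 * (4 * (p : ℝ) ^ 9) ^ p) * ((4 * (p : ℝ) ^ 9 - X.card)) ^ (p ^ 4) ≤
      (4 * (p : ℝ) ^ 9) ^ (p ^ 4) := by
    have hX' : (p : ℝ) ^ 7 ≤ X.card := by exact_mod_cast hX
    have hXle' : (X.card : ℝ) ≤ 4 * (p : ℝ) ^ 9 := by exact_mod_cast hXle
    have h1 : 4 * (p : ℝ) ^ 9 - X.card ≤ 4 * (p : ℝ) ^ 9 * Real.exp (-(1 / (4 * (p : ℝ) ^ 2))) := by
      have h2 := Real.add_one_le_exp (-(1 / (4 * (p : ℝ) ^ 2)))
      have h3 : 4 * (p : ℝ) ^ 9 * (-(1 / (4 * (p : ℝ) ^ 2)) + 1) = 4 * (p : ℝ) ^ 9 - (p : ℝ) ^ 7 := by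
        field_simp
        ring
      calc 4 * (p : ℝ) ^ 9 - X.card ≤ 4 * (p : ℝ) ^ 9 - (p : ℝ) ^ 7 := by linarith
        _ = 4 * (p : ℝ) ^ 9 * (-(1 / (4 * (p : ℝ) ^ 2)) + 1) := h3.symm
        _ ≤ _ := mul_le_mul_of_nonneg_left h2 (by positivity)
    have h4 : (4 * (p : ℝ) ^ 9 - X.card) ^ (p ^ 4) ≤
        (4 * (p : ℝ) ^ 9) ^ (p ^ 4) * Real.exp (-((p : ℝ) ^ 2 / 4)) := by
      calc (4 * (p : ℝ) ^ 9 - X.card) ^ (p ^ 4)
          ≤ (4 * (p : ℝ) ^ 9 * Real.exp (-(1 / (4 * (p : ℝ) ^ 2)))) ^ (p ^ 4) :=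
            pow_le_pow_left₀ (by linarith) h1 _
        _ = (4 * (p : ℝ) ^ 9) ^ (p ^ 4) * Real.exp (-((p : ℝ) ^ 2 / 4)) := by
            rw [mul_pow, ← Real.exp_nat_mul]
            congr 2
            push_cast
            field_simp
    calc (8 * (4 * (p : ℝ) ^ 9) ^ p) * ((4 * (p : ℝ) ^ 9 - X.card)) ^ (p ^ 4)
        ≤ Real.exp ((p : ℝ) ^ 2 / 4) *
          ((4 * (p : ℝ) ^ 9) ^ (p ^ 4) * Real.exp (-((p : ℝ) ^ 2 / 4))) :=
          mul_le_mul (exp_bound p hp) h4 (pow_nonneg (by linarith) _) (Real.exp_pos _).le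
      _ = (4 * (p : ℝ) ^ 9) ^ (p ^ 4) * (Real.exp ((p : ℝ) ^ 2 / 4) *
            Real.exp (-((p : ℝ) ^ 2 / 4))) := by ring
      _ = (4 * (p : ℝ) ^ 9) ^ (p ^ 4) := by
          rw [← Real.exp_add]; simp
  have : ((8 * (4 * p ^ 9) ^ p * (4 * p ^ 9 - X.card) ^ (p ^ 4) : ℕ) : ℝ) ≤
      (((4 * p ^ 9) ^ (p ^ 4) : ℕ) : ℝ) := by
    push_cast [Nat.cast_sub hXle]
    exact hreal
  exact_mod_cast this

end Pool.Agent.FZ
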