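import Pool.Agent.FZ.Defs

/-! # Direct product for few zeros

`m` blocks over the variables `V0`, embedded in the variables `I`; the variables outside the blocks
have the value `true`. -/

namespace Pool.Agent.FZ

open Classical in
/-- The input with blocks `Y (w j)`, and with the value `true` outside the blocks. -/
noncomputable def base {I V0 Ω : Type} {m : ℕ} (e : Fin m × V0 → I) (Y : Ω → V0 → Bool)
    (w : Fin m → Ω) (i : I) : Bool :=
  if h : ∃ p : Fin m × V0, e p = i then Y (w h.choose.1) h.choose.2 else true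

section block
variable {I V0 Ω W : Type} {m : ℕ} (e : Fin m × V0 → I) (Y : Ω → V0 → Bool)

private theorem block_mono {α : Type} {r p : α → α → Prop} {a b : α} (h : ∀ a b, r a b → p a b)
    (hab : Relation.ReflTransGen r a b) : Relation.ReflTransGen p a b := by
  induction hab with
  | refl => exact Relation.ReflTransGen.refl
  | tail _ h1 ih => exact ih.tail (h _ _ h1)

private theorem block_base (he : Function.Injective e) (w : Fin m → Ω) (j : Fin m) (v : V0) :
    base e Y w (e (j, v)) = Y (w j) v := by
  unfold base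
  have h : ∃ p, e p = e (j, v) := ⟨_, rfl⟩
  rw [dif_pos h]
  have h1 : h.choose = (j, v) := he h.choose_spec
  rw [h1]

private theorem block_out (w : Fin m → Ω) {i : I} (h : ¬ ∃ p, e p = i) : base e Y w i = true := by
  unfold base
  rw [dif_neg h]

open Classical in
/-- `base` with the blocks of `D` replaced by ones -/
private noncomputable def blockInp (D : Finset (Fin m)) (w : Fin m → Ω) (i : I) : Bool :=
  if ∃ j ∈ D, ∃ v, e (j, v) = i then true else base e Y w i

/-- the variables of the blocks of `J` -/
private def blockZ (J : Finset (Fin m)) : Set I := {i | ∃ j ∈ J, ∃ v, e (j, v) = i}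

private theorem blockInp_e (he : Function.Injective e) (D : Finset (Fin m)) (w : Fin m → Ω)
    (j : Fin m) (v : V0) :
    blockInp e Y D w (e (j, v)) = if j ∈ D then true else Y (w j) v := by
  unfold blockInp
  by_cases h : j ∈ D
  · rw [if_pos ⟨j, h, v, rfl⟩, if_pos h]
  · have h1 : ¬ ∃ j' ∈ D, ∃ v', e (j', v') = e (j, v) := by
      rintro ⟨j', hj', v', h2⟩
      have h3 := he h2
      rw [Prod.mk.injEq] at h3
      exact h (h3.1 ▸ hj')
    rw [if_neg h1, if_neg h, block_base e Y he]

private theorem blockInp_out (D : Finset (Fin m)) (w : Fin m → Ω) {i : I}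
    (h : ¬ ∃ p, e p = i) : blockInp e Y D w i = true := by
  unfold blockInp
  split_ifs
  · rfl
  · exact block_out e Y w h

private theorem blockInp_empty (w : Fin m → Ω) : blockInp e Y ∅ w = base e Y w := by
  funext i
  unfold blockInp
  rw [if_neg]
  rintro ⟨j, hj, _⟩
  simp at hj

/-- the input does not depend on the blocks of `D` -/
private theorem blockInp_congr (he : Function.Injective e) (D : Finset (Fin m))
    {w w' : Fin m → Ω} (h : ∀ j, j ∉ D → w j = w' j) : blockInp e Y D w = blockInp e Y D w' := by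
  funext i
  by_cases hi : ∃ p, e p = i
  · obtain ⟨⟨j, v⟩, rfl⟩ := hi
    rw [blockInp_e e Y he, blockInp_e e Y he]
    split_ifs with hj
    · rfl
    · rw [h j hj]
  · rw [blockInp_out e Y D w hi, blockInp_out e Y D w' hi]

/-- replacing a block outside of `J` by ones -/
private theorem blockInp_mono (he : Function.Injective e) (P : Prog I W) {J D : Finset (Fin m)}
    {i : Fin m} (hi : i ∉ J) (w : Fin m → Ω)
    (h : P.AcceptsOn (blockInp e Y D w) (blockZ e J)) :
    P.AcceptsOn (blockInp e Y (insert i D) w) (blockZ e J) := by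
  refine block_mono ?_ h
  rintro u u' (h1 | ⟨v, h1, h2⟩)
  · exact Or.inl h1
  · refine Or.inr ⟨v, ?_⟩
    have key : blockInp e Y (insert i D) w v = blockInp e Y D w v := by
      by_cases hv : blockInp e Y D w v = false
      · obtain ⟨j, hj, v0, rfl⟩ := h2 hv
        rw [blockInp_e e Y he, blockInp_e e Y he]
        have hji : j ≠ i := fun h => hi (h ▸ hj)
        simp only [Finset.mem_insert, hji, false_or]
      · rw [Bool.not_eq_false] at hv
        rw [hv]
        by_cases hi' : ∃ p, e p = v
        · obtain ⟨⟨j, v0⟩, rfl⟩ := hi'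
          rw [blockInp_e e Y he] at hv ⊢
          by_cases hj : j ∈ insert i D
          · rw [if_pos hj]
          · rw [if_neg hj]
            rw [if_neg (fun h => hj (Finset.mem_insert_of_mem h))] at hv
            exact hv
        · exact blockInp_out e Y _ w hi'
    rw [key]
    exact ⟨h1, h2⟩

/-- the monotone program on block `i` -/
private noncomputable def blockM (P : Prog I W) (J D : Finset (Fin m)) (i : Fin m)
    (w : Fin m → Ω) : MProg V0 W where
  src := P.src
  acc := P.acc
  free u u' := P.free u u' ∨ ∃ v, (∀ v0, e (i, v0) ≠ v) ∧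
    P.test u v (blockInp e Y (insert i D) w v) u'
  test u v0 u' := P.test u (e (i, v0)) true u'

private theorem blockM_symm (P : Prog I W) (J D : Finset (Fin m)) (i : Fin m)
    (w : Fin m → Ω) (h : P.Symm) : (blockM e Y P J D i w).Symm := by
  refine ⟨?_, fun u v u' h1 => h.2 _ _ _ _ h1⟩
  rintro u u' (h1 | ⟨v, hv, h1⟩)
  · exact Or.inl (h.1 _ _ h1)
  · exact Or.inr ⟨v, hv, h.2 _ _ _ _ h1⟩

open Classical in
private theorem blockM_sound (he : Function.Injective e) (P : Prog I W) (J D : Finset (Fin m))
    (i : Fin m) (w : Fin m → Ω) (g0 : (V0 → Bool) → Prop)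
    (hP : ∀ x, P.Accepts x → ∀ j, g0 (fun v => x (e (j, v)))) (z : V0 → Bool)
    (h : (blockM e Y P J D i w).Accepts z) : g0 z := by
  set x : I → Bool := fun v => if hv : ∃ v0, e (i, v0) = v then z hv.choose else
    blockInp e Y (insert i D) w v with hx
  have hxe : ∀ v0, x (e (i, v0)) = z v0 := by
    intro v0
    have hv : ∃ v1, e (i, v1) = e (i, v0) := ⟨v0, rfl⟩
    have h1 : hv.choose = v0 := by
      have := he hv.choose_spec
      rw [Prod.mk.injEq] at this
      exact this.2
    rw [hx]
    simp only [dif_pos hv, h1]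
  have hacc : P.Accepts x := by
    unfold Prog.Accepts Prog.AcceptsOn
    refine block_mono ?_ h
    rintro u u' ((h1 | ⟨v, hv, h1⟩) | ⟨v0, h1, h2⟩)
    · exact Or.inl h1
    · refine Or.inr ⟨v, ?_, fun _ => Set.mem_univ _⟩
      have h3 : x v = blockInp e Y (insert i D) w v := by
        rw [hx]
        exact dif_neg (fun ⟨v0, h4⟩ => hv v0 h4)
      rw [h3]
      exact h1
    · refine Or.inr ⟨e (i, v0), ?_, fun _ => Set.mem_univ _⟩
      rw [hxe, h2]
      exact h1
  have := hP x hacc i
  simpa only [hxe] using this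

private theorem blockM_complete (he : Function.Injective e) (P : Prog I W)
    {J D : Finset (Fin m)} {i : Fin m} (hiJ : i ∉ J) (hiD : i ∉ D) (w : Fin m → Ω) (ω : Ω)
    (h : P.AcceptsOn (blockInp e Y D (Function.update w i ω)) (blockZ e J)) :
    (blockM e Y P J D i w).Accepts (Y ω) := by
  unfold MProg.Accepts
  refine block_mono ?_ h
  rintro u u' (h1 | ⟨v, h1, h2⟩)
  · exact Or.inl (Or.inl h1)
  · by_cases hv : ∃ v0, e (i, v0) = v
    · obtain ⟨v0, rfl⟩ := hv
      have h3 : blockInp e Y D (Function.update w i ω) (e (i, v0)) = Y ω v0 := by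
        rw [blockInp_e e Y he, if_neg hiD, Function.update_self]
      have h4 : Y ω v0 = true := by
        by_contra h5
        rw [Bool.not_eq_true] at h5
        obtain ⟨j, hj, v1, h6⟩ := h2 (h3.trans h5)
        have := he h6
        rw [Prod.mk.injEq] at this
        exact hiJ (this.1 ▸ hj)
      rw [h3, h4] at h1
      exact Or.inr ⟨v0, h1, h4⟩
    · refine Or.inl (Or.inr ⟨v, fun v0 h3 => hv ⟨v0, h3⟩, ?_⟩)
      have h3 : blockInp e Y (insert i D) w v =
          blockInp e Y D (Function.update w i ω) v := by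
        by_cases hp : ∃ p, e p = v
        · obtain ⟨⟨j, v0⟩, rfl⟩ := hp
          have hj : j ≠ i := fun h => hv ⟨v0, by rw [h]⟩
          rw [blockInp_e e Y he, blockInp_e e Y he, Function.update_of_ne hj]
          simp only [Finset.mem_insert, hj, false_or]
        · rw [blockInp_out e Y _ _ hp, blockInp_out e Y _ _ hp]
      rw [h3]
      exact h1

/-- averaging over one coordinate -/
private theorem block_avg [Fintype Ω] (i : Fin m) (f : (Fin m → Ω) → ℕ) :
    ∑ w : Fin m → Ω, ∑ ω : Ω, f (Function.update w i ω) =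
      Fintype.card Ω * ∑ w : Fin m → Ω, f w := by
  have hinv : Function.Involutive (fun p : (Fin m → Ω) × Ω => (Function.update p.1 i p.2, p.1 i)) := by
    rintro ⟨w, ω⟩
    simp
  have h1 : ∑ w : Fin m → Ω, ∑ ω : Ω, f (Function.update w i ω) =
      ∑ p : (Fin m → Ω) × Ω, f (Function.update p.1 i p.2) :=
    (Fintype.sum_prod_type' (fun (w : Fin m → Ω) (ω : Ω) => f (Function.update w i ω))).symm
  have h2 : ∑ p : (Fin m → Ω) × Ω, f (Function.update p.1 i p.2) =
      ∑ p : (Fin m → Ω) × Ω, f p.1 :=
    Equiv.sum_comp hinv.toPerm (fun p : (Fin m → Ω) × Ω => f p.1)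
  rw [h1, h2, Fintype.sum_prod_type, Finset.mul_sum]
  refine Finset.sum_congr rfl fun w _ => ?_
  show ∑ _ω : Ω, f w = _
  rw [Finset.sum_const, Finset.card_univ, smul_eq_mul]

open Classical in
/-- the number of tuples accepted with zeros in `J` and ones in `D` -/
private noncomputable def blockN [Fintype Ω] (P : Prog I W) (J D : Finset (Fin m)) : ℕ :=
  ∑ w : Fin m → Ω, if P.AcceptsOn (blockInp e Y D w) (blockZ e J) then 1 else 0

open Classical in
private theorem blockN_step [Fintype Ω] (he : Function.Injective e)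
    (g0 : (V0 → Bool) → Prop) (sym : Prop) (P : Prog I W) (hsym : sym → P.Symm)
    (hP : ∀ x, P.Accepts x → ∀ j, g0 (fun v => x (e (j, v))))
    (B : ℕ)
    (hB : ∀ M : MProg V0 W, (sym → M.Symm) → (∀ z, M.Accepts z → g0 z) →
      B * (Finset.univ.filter fun ω : Ω => M.Accepts (Y ω)).card ≤ Fintype.card Ω)
    {J D : Finset (Fin m)} {i : Fin m} (hiJ : i ∉ J) (hiD : i ∉ D) :
    B * blockN e Y P J D ≤ blockN e Y P J (insert i D) := by
  rcases Nat.eq_zero_or_pos (Fintype.card Ω) with h0 | h0
  · have : IsEmpty Ω := Fintype.card_eq_zero_iff.mp h0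
    have : IsEmpty (Fin m → Ω) := ⟨fun w => isEmptyElim (w i)⟩
    unfold blockN
    simp
  have key : ∀ w : Fin m → Ω,
      B * ∑ ω : Ω, (if P.AcceptsOn (blockInp e Y D (Function.update w i ω)) (blockZ e J)
        then 1 else 0) ≤
      Fintype.card Ω * if P.AcceptsOn (blockInp e Y (insert i D) w) (blockZ e J)
        then 1 else 0 := by
    intro w
    by_cases hw : P.AcceptsOn (blockInp e Y (insert i D) w) (blockZ e J)
    · rw [if_pos hw, mul_one]
      refine le_trans (Nat.mul_le_mul_left B ?_) (hB (blockM e Y P J D i w)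
        (fun hs => blockM_symm e Y P J D i w (hsym hs))
        (fun z hz => blockM_sound e Y he P J D i w g0 hP z hz))
      rw [Finset.card_filter]
      refine Finset.sum_le_sum fun ω _ => ?_
      by_cases h1 : P.AcceptsOn (blockInp e Y D (Function.update w i ω)) (blockZ e J)
      · rw [if_pos h1, if_pos (blockM_complete e Y he P hiJ hiD w ω h1)]
      · rw [if_neg h1]
        exact Nat.zero_le _
    · rw [if_neg hw, mul_zero]
      refine Nat.le_of_eq ?_
      rw [Finset.sum_eq_zero, mul_zero]
      intro ω _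
      rw [if_neg]
      intro h1
      refine hw ?_
      have h2 := blockInp_mono e Y he P hiJ _ h1
      rwa [blockInp_congr e Y he (insert i D) (w' := w) (fun j hj => by
        have : j ≠ i := fun h => hj (h ▸ Finset.mem_insert_self _ _)
        exact Function.update_of_ne this _ _)] at h2
  have h1 := Finset.sum_le_sum (s := (Finset.univ : Finset (Fin m → Ω))) fun w _ => key w
  rw [← Finset.mul_sum, ← Finset.mul_sum,
    block_avg i (fun w => if P.AcceptsOn (blockInp e Y D w) (blockZ e J) then 1 else 0)] at h1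
  refine Nat.le_of_mul_le_mul_left ?_ h0
  calc Fintype.card Ω * (B * blockN e Y P J D) = B * (Fintype.card Ω * blockN e Y P J D) := by ring
    _ ≤ _ := h1

open Classical in
private theorem blockN_le [Fintype Ω] (he : Function.Injective e)
    (g0 : (V0 → Bool) → Prop) (sym : Prop) (P : Prog I W) (hsym : sym → P.Symm)
    (hP : ∀ x, P.Accepts x → ∀ j, g0 (fun v => x (e (j, v))))
    (B : ℕ)
    (hB : ∀ M : MProg V0 W, (sym → M.Symm) → (∀ z, M.Accepts z → g0 z) →
      B * (Finset.univ.filter fun ω : Ω => M.Accepts (Y ω)).card ≤ Fintype.card Ω)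
    (J : Finset (Fin m)) (n : ℕ) : ∀ D : Finset (Fin m), Disjoint J D → J.card + D.card + n = m →
    B ^ n * blockN e Y P J D ≤ Fintype.card Ω ^ m := by
  induction n with
  | zero =>
    intro D _ _
    rw [pow_zero, one_mul]
    unfold blockN
    calc _ ≤ ∑ _w : Fin m → Ω, 1 := Finset.sum_le_sum fun w _ => by split_ifs <;> simp
      _ = Fintype.card Ω ^ m := by simp
  | succ n ih =>
    intro D hD hc
    have hne : ∃ i, i ∉ J ∪ D := by
      by_contra h
      push Not at h
      have h1 : J ∪ D = Finset.univ := Finset.eq_univ_iff_forall.2 h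
      have h2 := Finset.card_union_of_disjoint hD
      rw [h1, Finset.card_univ, Fintype.card_fin] at h2
      omega
    obtain ⟨i, hi⟩ := hne
    rw [Finset.mem_union, not_or] at hi
    have h1 := ih (insert i D) (Finset.disjoint_insert_right.2 ⟨hi.1, hD⟩) (by
      rw [Finset.card_insert_of_notMem hi.2]; omega)
    have h2 := blockN_step e Y he g0 sym P hsym hP B hB hi.1 hi.2
    calc B ^ (n + 1) * blockN e Y P J D = B ^ n * (B * blockN e Y P J D) := by ring
      _ ≤ B ^ n * blockN e Y P J (insert i D) := Nat.mul_le_mul_left _ h2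
      _ ≤ _ := h1

/-- the blocks in which zeros are read -/
private theorem block_reading (he : Function.Injective e) (P : Prog I W) (w : Fin m → Ω) (k : ℕ)
    (h : P.AcceptsReading (base e Y w) k) :
    ∃ J : Finset (Fin m), J.card ≤ k ∧ P.AcceptsOn (blockInp e Y ∅ w) (blockZ e J) := by
  classical
  obtain ⟨Z, hZ, h⟩ := h
  refine ⟨Finset.univ.filter fun j => ∃ v, e (j, v) ∈ Z, ?_, ?_⟩
  · refine le_trans ?_ hZ
    have h1 : (Finset.univ.filter fun j => ∃ v, e (j, v) ∈ Z) ⊆
        Z.biUnion (fun i => Finset.univ.filter fun j => ∃ v, e (j, v) = i) := by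
      intro j hj
      obtain ⟨v, hv⟩ := (Finset.mem_filter.1 hj).2
      exact Finset.mem_biUnion.2 ⟨_, hv, Finset.mem_filter.2 ⟨Finset.mem_univ _, v, rfl⟩⟩
    refine (Finset.card_le_card h1).trans (Finset.card_biUnion_le.trans ?_)
    calc _ ≤ ∑ _i ∈ Z, 1 := Finset.sum_le_sum fun i _ => ?_
      _ = Z.card := by simp
    rw [Finset.card_le_one]
    intro j hj j' hj'
    obtain ⟨v, hv⟩ := (Finset.mem_filter.1 hj).2
    obtain ⟨v', hv'⟩ := (Finset.mem_filter.1 hj').2
    have := he (hv.trans hv'.symm)
    rw [Prod.mk.injEq] at this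
    exact this.1
  · rw [blockInp_empty]
    refine block_mono ?_ h
    rintro u u' (h1 | ⟨v, h1, h2⟩)
    · exact Or.inl h1
    · refine Or.inr ⟨v, h1, fun h3 => ?_⟩
      have h4 := h2 h3
      by_cases hp : ∃ p, e p = v
      · obtain ⟨⟨j, v0⟩, rfl⟩ := hp
        exact ⟨j, by simpa using ⟨v0, h4⟩, v0, rfl⟩
      · rw [block_out e Y w hp] at h3
        exact absurd h3 (by simp)

end block

open Classical in
/-- **Direct product.** [Fix the set `J` of blocks in which zeros are read, at most `2 ^ m` choices.
For `D` disjoint from `J` let `N D` be the number of tuples `w` such that `P` accepts, reading zeros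
only in the blocks of `J`, the input `base w` with the blocks of `D` replaced by ones. Then
`B * N D ≤ card Ω * (N (D + i) / card Ω)`, i.e. group the tuples by their coordinates different from
`i`: if `P` rejects the input with the blocks `D + i` replaced by ones then it rejects for all
`w i`; otherwise use `hB` for the program `M` on block `i` obtained by evaluating the labels of
the other variables at this input and deleting the labels `v = false` of block `i`. If `M` accepts
`z` then `P` accepts this input with block `i` replaced by `z`, hence `g0 z`. So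
`B ^ (m - J.card) * N ∅ ≤ card Ω ^ m`.] -/
theorem direct_product {I V0 Ω W : Type} [Fintype I] [Fintype V0] [Fintype Ω] [Fintype W]
    {m : ℕ} (e : Fin m × V0 → I) (he : Function.Injective e) (Y : Ω → V0 → Bool)
    (g0 : (V0 → Bool) → Prop) (sym : Prop) (P : Prog I W) (hsym : sym → P.Symm)
    (hP : ∀ x, P.Accepts x → ∀ j, g0 (fun v => x (e (j, v))))
    (B : ℕ) (hB1 : 1 ≤ B)
    (hB : ∀ M : MProg V0 W, (sym → M.Symm) → (∀ z, M.Accepts z → g0 z) →
      B * (Finset.univ.filter fun ω : Ω => M.Accepts (Y ω)).card ≤ Fintype.card Ω)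
    (k : ℕ) (hk : k ≤ m) :
    B ^ (m - k) * (Finset.univ.filter fun w : Fin m → Ω => P.AcceptsReading (base e Y w) k).card
      ≤ 2 ^ m * Fintype.card Ω ^ m := by
  set S : Finset (Finset (Fin m)) := Finset.univ.filter fun J => J.card ≤ k with hS
  have h1 : (Finset.univ.filter fun w : Fin m → Ω =>
      P.AcceptsReading (base e Y w) k).card ≤ ∑ J ∈ S, blockN e Y P J ∅ := by
    unfold blockN
    rw [Finset.sum_comm, Finset.card_filter]
    refine Finset.sum_le_sum fun w _ => ?_
    by_cases hw : P.AcceptsReading (base e Y w) k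
    · obtain ⟨J, hJ, hJ'⟩ := block_reading e Y he P w k hw
      rw [if_pos hw]
      have h2 : (if P.AcceptsOn (blockInp e Y ∅ w) (blockZ e J) then 1 else 0) = 1 := if_pos hJ'
      calc 1 = if P.AcceptsOn (blockInp e Y ∅ w) (blockZ e J) then 1 else 0 := h2.symm
        _ ≤ _ := Finset.single_le_sum
          (f := fun J => if P.AcceptsOn (blockInp e Y ∅ w) (blockZ e J) then 1 else 0)
          (fun _ _ => Nat.zero_le _) (Finset.mem_filter.2 ⟨Finset.mem_univ J, hJ⟩)
    · rw [if_neg hw]
      exact Nat.zero_le _
  calc _ ≤ B ^ (m - k) * ∑ J ∈ S, blockN e Y P J ∅ := Nat.mul_le_mul_left _ h1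
    _ = ∑ J ∈ S, B ^ (m - k) * blockN e Y P J ∅ := Finset.mul_sum _ _ _
    _ ≤ ∑ _J ∈ S, Fintype.card Ω ^ m := by
        refine Finset.sum_le_sum fun J hJ => ?_
        have hJk : J.card ≤ k := (Finset.mem_filter.1 hJ).2
        have h2 := blockN_le e Y he g0 sym P hsym hP B hB J (m - J.card) ∅
          (Finset.disjoint_empty_right _) (by rw [Finset.card_empty]; omega)
        refine le_trans (Nat.mul_le_mul_right _ ?_) h2
        exact Nat.pow_le_pow_right hB1 (by omega)
    _ = S.card * Fintype.card Ω ^ m := by rw [Finset.sum_const, smul_eq_mul]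
    _ ≤ 2 ^ m * Fintype.card Ω ^ m := by
        refine Nat.mul_le_mul_right _ ?_
        calc S.card ≤ (Finset.univ : Finset (Finset (Fin m))).card := Finset.card_filter_le _ _
          _ = 2 ^ m := by rw [Finset.card_univ, Fintype.card_finset, Fintype.card_fin]

end Pool.Agent.FZ
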