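import Pool.Agent.FZ.GFun

/-!
# FEW ZEROS (MP_994c82_lc), section C.5: Fourier analysis on a general cube (helper45)
-/

set_option autoImplicit false
set_option linter.unusedSectionVars false

namespace Pool.Agent.FZ.GF

open Finset

variable {α : Type*} [DecidableEq α]

/-- the character of `S` -/
noncomputable def chr (S x : Finset α) : ℝ := (-1) ^ (S ∩ x).card

/-- the average over the subsets of `W` -/
noncomputable def ave (W : Finset α) (g : Finset α → ℝ) : ℝ := (∑ x ∈ W.powerset, g x) / 2 ^ W.card

theorem av_eq_ave (l : ℕ) (g : Finset ℕ → ℝ) : av l g = ave (range l) g := by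
  unfold av ave
  rw [Finset.card_range]

theorem chi_eq_chr (S x : Finset ℕ) : chi S x = chr S x := rfl

theorem ave_congr {W : Finset α} {f g : Finset α → ℝ} (h : ∀ x ⊆ W, f x = g x) : ave W f = ave W g := by
  unfold ave
  rw [Finset.sum_congr rfl fun x hx => h x (Finset.mem_powerset.1 hx)]

theorem ave_mono {W : Finset α} {f g : Finset α → ℝ} (h : ∀ x ⊆ W, f x ≤ g x) : ave W f ≤ ave W g := by
  unfold ave
  have := Finset.sum_le_sum fun x hx => h x (Finset.mem_powerset.1 hx)
  exact div_le_div_of_nonneg_right this (by positivity)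

theorem ave_add (W : Finset α) (f g : Finset α → ℝ) : ave W (fun x => f x + g x) = ave W f + ave W g := by
  unfold ave
  rw [Finset.sum_add_distrib, add_div]

theorem ave_sub (W : Finset α) (f g : Finset α → ℝ) : ave W (fun x => f x - g x) = ave W f - ave W g := by
  unfold ave
  rw [Finset.sum_sub_distrib, sub_div]

theorem ave_mul (W : Finset α) (r : ℝ) (f : Finset α → ℝ) : ave W (fun x => r * f x) = r * ave W f := by
  unfold ave
  rw [← Finset.mul_sum, mul_div_assoc]

theorem ave_sum {ι : Type*} (W : Finset α) (s : Finset ι) (f : ι → Finset α → ℝ) :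
    ave W (fun x => ∑ i ∈ s, f i x) = ∑ i ∈ s, ave W (f i) := by
  unfold ave
  rw [Finset.sum_comm, Finset.sum_div]

theorem ave_nonneg {W : Finset α} {f : Finset α → ℝ} (h : ∀ x ⊆ W, 0 ≤ f x) : 0 ≤ ave W f := by
  unfold ave
  exact div_nonneg (Finset.sum_nonneg fun x hx => h x (Finset.mem_powerset.1 hx)) (by positivity)

theorem ave_const (W : Finset α) (r : ℝ) : ave W (fun _ => r) = r := by
  unfold ave
  rw [Finset.sum_const, Finset.card_powerset, nsmul_eq_mul]
  push_cast
  field_simp

theorem chr_comm (S x : Finset α) : chr S x = chr x S := by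
  unfold chr
  rw [Finset.inter_comm]

theorem chr_sq (S x : Finset α) : chr S x * chr S x = 1 := by
  unfold chr
  rw [← pow_add, ← two_mul, pow_mul]
  norm_num

theorem chr_orth_aux {W S S' : Finset α} (hS : S ⊆ W) {j : α} (hj : j ∈ S) (hj' : j ∉ S') :
    ave W (fun x => chr S x * chr S' x) = 0 := by
  have hr : W = insert j (W.erase j) := (Finset.insert_erase (hS hj)).symm
  unfold ave
  rw [div_eq_zero_iff]
  left
  conv_lhs => rw [hr]
  rw [Finset.sum_powerset_insert (Finset.notMem_erase j _), ← Finset.sum_add_distrib]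
  refine Finset.sum_eq_zero fun t ht => ?_
  have hjt : j ∉ t := fun h => Finset.notMem_erase j _ (Finset.mem_powerset.1 ht h)
  have h1 : chr S (insert j t) = -chr S t := by
    unfold chr
    rw [Finset.inter_insert_of_mem hj, Finset.card_insert_of_notMem (by simp [hjt]), pow_succ]
    ring
  have h2 : chr S' (insert j t) = chr S' t := by
    unfold chr
    rw [Finset.inter_insert_of_notMem hj']
  rw [h1, h2]
  ring

theorem chr_orth {W S S' : Finset α} (hS : S ⊆ W) (hS' : S' ⊆ W) :
    ave W (fun x => chr S x * chr S' x) = if S = S' then 1 else 0 := by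
  by_cases h : S = S'
  · subst h
    rw [if_pos rfl]
    have : (fun x => chr S x * chr S x) = fun _ => (1 : ℝ) := by
      funext x
      exact chr_sq S x
    rw [this, ave_const]
  · rw [if_neg h]
    by_cases h1 : S ⊆ S'
    · have h2 : ¬ S' ⊆ S := fun h2 => h (Finset.Subset.antisymm h1 h2)
      obtain ⟨j, hj, hj'⟩ := Finset.not_subset.1 h2
      have := chr_orth_aux hS' hj hj'
      rw [← this]
      exact ave_congr fun x _ => mul_comm _ _
    · obtain ⟨j, hj, hj'⟩ := Finset.not_subset.1 h1
      exact chr_orth_aux hS hj hj'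

/-- the Fourier coefficient -/
noncomputable def hat (W : Finset α) (f : Finset α → ℝ) (S : Finset α) : ℝ := ave W (fun x => f x * chr S x)

/-- Fourier inversion -/
theorem inversion {W : Finset α} (f : Finset α → ℝ) {x : Finset α} (hx : x ⊆ W) :
    f x = ∑ S ∈ W.powerset, hat W f S * chr S x := by
  unfold hat ave
  have h1 : ∑ S ∈ W.powerset, (∑ y ∈ W.powerset, f y * chr S y) / 2 ^ W.card * chr S x
      = ∑ y ∈ W.powerset, f y * ave W (fun S => chr y S * chr x S) := by
    unfold ave
    simp only [Finset.sum_div, Finset.sum_mul, Finset.mul_sum]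
    rw [Finset.sum_comm]
    refine Finset.sum_congr rfl fun y _ => Finset.sum_congr rfl fun S _ => ?_
    rw [chr_comm y S, chr_comm x S]
    ring
  rw [h1]
  have h2 : ∀ y ∈ W.powerset, f y * ave W (fun S => chr y S * chr x S) = if y = x then f x else 0 := by
    intro y hy
    rw [chr_orth (Finset.mem_powerset.1 hy) hx]
    split_ifs with h
    · rw [h, mul_one]
    · rw [mul_zero]
  rw [Finset.sum_congr rfl h2, Finset.sum_ite_eq' _ x (fun _ => f x), if_pos (Finset.mem_powerset.2 hx)]

/-- Parseval -/
theorem parseval (W : Finset α) (f : Finset α → ℝ) :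
    ave W (fun x => f x ^ 2) = ∑ S ∈ W.powerset, hat W f S ^ 2 := by
  have h1 : ave W (fun x => f x ^ 2) = ave W (fun x => ∑ S ∈ W.powerset, hat W f S * (f x * chr S x)) := by
    refine ave_congr fun x hx => ?_
    rw [sq]
    nth_rewrite 1 [inversion f hx]
    rw [Finset.sum_mul]
    exact Finset.sum_congr rfl fun S _ => by ring
  rw [h1, ave_sum]
  refine Finset.sum_congr rfl fun S _ => ?_
  rw [ave_mul, sq]
  rfl

end Pool.Agent.FZ.GF
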