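import Mathlib

/-!
# Branching programs reading few zeros: definitions
-/

namespace Pool.Agent.FZ

/-! ### Programs -/

/-- A program over the variables `V` with node set `W`: a directed graph with a source, an
accepting node, unlabelled edges `free u w` and edges `test u v b w` from `u` to `w` labelled by
the literal `v = b`. -/
structure Prog (V W : Type) : Type where
  src : W
  acc : W
  free : W → W → Prop
  test : W → V → Bool → W → Prop

/-- A step of the program on the input `x` which reads zeros only at variables in `Z`. -/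
def Prog.Step {V W : Type} (P : Prog V W) (x : V → Bool) (Z : Set V) (u w : W) : Prop :=
  P.free u w ∨ ∃ v, P.test u v (x v) w ∧ (x v = false → v ∈ Z)

/-- There is a walk from the source to the accepting node whose labels are satisfied by `x` and
which reads zeros only at variables in `Z`. -/
def Prog.AcceptsOn {V W : Type} (P : Prog V W) (x : V → Bool) (Z : Set V) : Prop :=
  Relation.ReflTransGen (P.Step x Z) P.src P.acc

/-- The program accepts `x`. -/
def Prog.Accepts {V W : Type} (P : Prog V W) (x : V → Bool) : Prop :=
  P.AcceptsOn x Set.univ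

/-- The program accepts `x` by a walk reading at most `k` zeros of `x` (tests `v = 0` of at most
`k` different variables). -/
def Prog.AcceptsReading {V W : Type} (P : Prog V W) (x : V → Bool) (k : ℕ) : Prop :=
  ∃ Z : Finset V, Z.card ≤ k ∧ P.AcceptsOn x ↑Z

/-- Symmetric programs: all edges can be used in both directions. -/
def Prog.Symm {V W : Type} (P : Prog V W) : Prop :=
  (∀ u w, P.free u w → P.free w u) ∧ ∀ u v b w, P.test u v b w → P.test w v b u

/-- Deterministic programs: on every input at most one step leaves each node, and none leaves the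
accepting node. -/
def Prog.Det {V W : Type} (P : Prog V W) : Prop :=
  ∀ x, (∀ u w w', P.Step x Set.univ u w → P.Step x Set.univ u w' → w = w') ∧
    ∀ w, ¬ P.Step x Set.univ P.acc w

/-- The program with all edges made undirected. -/
def Prog.undirected {V W : Type} (P : Prog V W) : Prog V W where
  src := P.src
  acc := P.acc
  free u w := P.free u w ∨ P.free w u
  test u v b w := P.test u v b w ∨ P.test w v b u

/-- Monotone programs: no label `v = 0`. -/
def Prog.Mono {V W : Type} (P : Prog V W) : Prop := ∀ u v w, ¬ P.test u v false w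

/-- Monotone programs as a structure of their own: an edge `test u v w` is labelled `v = 1`. -/
structure MProg (V W : Type) : Type where
  src : W
  acc : W
  free : W → W → Prop
  test : W → V → W → Prop

/-- One step of a monotone program. -/
def MProg.Step {V W : Type} (M : MProg V W) (x : V → Bool) (u w : W) : Prop :=
  M.free u w ∨ ∃ v, M.test u v w ∧ x v = true

/-- Acceptance. -/
def MProg.Accepts {V W : Type} (M : MProg V W) (x : V → Bool) : Prop :=
  Relation.ReflTransGen (M.Step x) M.src M.acc

/-- Symmetric monotone programs. -/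
def MProg.Symm {V W : Type} (M : MProg V W) : Prop :=
  (∀ u w, M.free u w → M.free w u) ∧ ∀ u v w, M.test u v w → M.test w v u

/-! ### Monotone formulas -/

/-- Monotone formulas. -/
inductive MF (V : Type) : Type
  | var (v : V) : MF V
  | const (b : Bool) : MF V
  | and (φ ψ : MF V) : MF V
  | or (φ ψ : MF V) : MF V

/-- The value of a formula. -/
def MF.eval {V : Type} (x : V → Bool) : MF V → Bool
  | .var v => x v
  | .const b => b
  | .and φ ψ => φ.eval x && ψ.eval x
  | .or φ ψ => φ.eval x || ψ.eval x

/-- The depth of a formula (number of AND, OR gates on a branch). -/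
def MF.depth {V : Type} : MF V → ℕ
  | .var _ => 0
  | .const _ => 0
  | .and φ ψ => max φ.depth ψ.depth + 1
  | .or φ ψ => max φ.depth ψ.depth + 1

/-! ### Restriction of tuples -/

/-- The coordinates in `J` of a tuple. -/
def res {D α : Type} (J : Finset D) (x : D → α) : J → α := fun v => x v.1

/-! ### Languages made of blocks -/

/-- The number of blocks of length `n0 s` in part `s` of a word of length `N`: part `s` consists
of the positions from `N - N / s` to `N - N / (s + 1)`. -/
def nblk (n0 : ℕ → ℕ) (N s : ℕ) : ℕ := (N / s - N / (s + 1)) / n0 s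

/-- The position of bit `i` of block `j` of part `s` in a word of length `N`. -/
def bpos (n0 : ℕ → ℕ) (N s j i : ℕ) : ℕ := N - N / s + j * n0 s + i

/-- The words all of whose blocks are yes instances: block `j` of part `s` of `f s`. -/
def BLang (n0 : ℕ → ℕ) (f : ℕ → (ℕ → Bool) → Prop) (x : List Bool) : Prop :=
  ∀ s, 1 ≤ s → ∀ j < nblk n0 x.length s,
    f s (fun i => x.getD (bpos n0 x.length s j i) false)

/-! ### Layered connectivity -/

/-- The `l` inner layers have `q` vertices each; layers `0` and `l + 1` are the single vertex `0`.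
Bit `(e q + a) q + b` says whether vertex `a` of layer `e` is joined to vertex `b` of layer
`e + 1`. Is there a path from layer `0` to layer `l + 1`? -/
def ConnN (l q : ℕ) (x : ℕ → Bool) : Prop :=
  ∃ g : ℕ → ℕ, g 0 = 0 ∧ g (l + 1) = 0 ∧ (∀ i, g i < q) ∧
    ∀ e ≤ l, x ((e * q + g e) * q + g (e + 1)) = true

/-- The number of layers for the parameter `k`. -/
def lay (k : ℕ) : ℕ := 2 ^ (k - 1)

/-- The parameter `k` for the index `s`: `2 ^ (k - 1) ≤ s < 2 ^ k`. -/
def kk (s : ℕ) : ℕ := Nat.log 2 s + 1

/-- The width of the layers for the index `s`. -/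
def wid (s : ℕ) : ℕ := (s + 1) ^ 5

/-- The block length for the index `s`. -/
def n1 (s : ℕ) : ℕ := (lay (kk s) + 1) * wid s ^ 2

/-- The block function for the index `s`. -/
def f1 (s : ℕ) : (ℕ → Bool) → Prop := ConnN (lay (kk s)) (wid s)

/-- The language for L versus NL. -/
def L1 : List Bool → Prop := BLang n1 f1

/-! ### Layered connectivity with typed variables -/

/-- The variables: edges from a vertex of layer `e` to a vertex of layer `e + 1`. -/
abbrev LVar (l q : ℕ) : Type := Fin (l + 1) × Fin q × Fin q

/-- The vertices of a path, with the ends. -/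
def ext {l q : ℕ} [NeZero q] (g : Fin l → Fin q) (i : ℕ) : Fin q :=
  if h : 1 ≤ i ∧ i ≤ l then g ⟨i - 1, by omega⟩ else 0

/-- Is there a path? -/
def Conn {l q : ℕ} [NeZero q] (x : LVar l q → Bool) : Prop :=
  ∃ g : Fin l → Fin q, ∀ e : Fin (l + 1), x (e, ext g e, ext g (e + 1)) = true

/-- The graph consisting of the path `g`. -/
def pathInput {l q : ℕ} [NeZero q] (g : Fin l → Fin q) : LVar l q → Bool :=
  fun v => decide (v.2.1 = ext g v.1 ∧ v.2.2 = ext g (v.1 + 1))

/-! ### Generation on a pyramid -/

/-- Generation on the pyramid of height `h` with labels below `q`: `t i j a b c` allows label `c`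
at the node `(i, j)` if the nodes `(i + 1, j)` and `(i + 1, j + 1)` can have labels `a` and `b`;
`t h j 0 0 c` allows label `c` at the node `(h, j)`. -/
inductive PGen (h q : ℕ) (t : ℕ → ℕ → ℕ → ℕ → ℕ → Prop) : ℕ → ℕ → ℕ → Prop
  | base (j c : ℕ) : c < q → t h j 0 0 c → PGen h q t h j c
  | step (i j a b c : ℕ) : i < h → c < q → PGen h q t (i + 1) j a →
      PGen h q t (i + 1) (j + 1) b → t i j a b c → PGen h q t i j c

/-- The block function: bit `(((i (h+1) + j) q + a) q + b) q + c` is `t i j a b c`, and bit
`(h+1)² q³ + c` says whether the label `c` at the root `(0, 0)` is accepting. Can the root have an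
accepting label? -/
def PyrN (h q : ℕ) (x : ℕ → Bool) : Prop :=
  ∃ c < q, PGen h q (fun i j a b c =>
      x ((((i * (h + 1) + j) * q + a) * q + b) * q + c) = true) 0 0 c ∧
    x ((h + 1) ^ 2 * q ^ 3 + c) = true

/-- The parameter `p` for the height `h`. -/
def pp (h : ℕ) : ℕ := (h + 2) ^ 2

/-- The number of labels for the height `h`. -/
def qq (h : ℕ) : ℕ := 4 * pp h ^ 9

/-- The block length for the index `s`; the height is `s ^ 2`. -/
def n2 (s : ℕ) : ℕ := (s ^ 2 + 1) ^ 2 * qq (s ^ 2) ^ 3 + qq (s ^ 2)

/-- The block function for the index `s`. -/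
def f2 (s : ℕ) : (ℕ → Bool) → Prop := PyrN (s ^ 2) (qq (s ^ 2))

/-- The language for NL versus P. -/
def L2 : List Bool → Prop := BLang n2 f2

/-! ### Generation on a pyramid with typed variables -/

/-- Nodes `(i, j)`, `i, j ≤ h`. (Only `j ≤ i` matters.) -/
abbrev PNode (h : ℕ) : Type := Fin (h + 1) × Fin (h + 1)

/-- Variables `t (i,j) a b c` and `out c`. -/
abbrev PVar (h q : ℕ) : Type := (PNode h × Fin q × Fin q × Fin q) ⊕ Fin q

/-- The position of a variable in the block. -/
def pidx (h q : ℕ) : PVar h q → ℕ
  | .inl (v, a, b, c) => ((((v.1 : ℕ) * (h + 1) + v.2) * q + a) * q + b) * q + c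
  | .inr c => (h + 1) ^ 2 * q ^ 3 + c

/-- The block function with typed variables. -/
def Pyr (h q : ℕ) (z : PVar h q → Bool) : Prop :=
  ∃ c : Fin q, PGen h q (fun i j a b c => ∃ (hi : i < h + 1) (hj : j < h + 1) (ha : a < q)
      (hb : b < q) (hc : c < q),
      z (.inl ((⟨i, hi⟩, ⟨j, hj⟩), ⟨a, ha⟩, ⟨b, hb⟩, ⟨c, hc⟩)) = true) 0 0 c ∧
    z (.inr c) = true

end Pool.Agent.FZ
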