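import Pool.Agent.FZ.Defs

/-! # Deterministic programs are symmetric; reading all zeros -/

namespace Pool.Agent.FZ

/-- An accepted input on `N` variables is accepted reading at most `N` zeros. -/
theorem acceptsReading_card {V W : Type} [Fintype V] (P : Prog V W) (x : V → Bool)
    (h : P.Accepts x) : P.AcceptsReading x (Fintype.card V) := by
  refine ⟨Finset.univ, le_of_eq (Finset.card_univ), ?_⟩
  rw [Finset.coe_univ]
  exact h

theorem undirected_symm {V W : Type} (P : Prog V W) : P.undirected.Symm :=
  ⟨fun _ _ h => Or.symm h, fun _ _ _ _ h => Or.symm h⟩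

private theorem undirected_step {V W : Type} (P : Prog V W) (x : V → Bool) (Z : Set V) (u w : W) :
    P.undirected.Step x Z u w ↔ P.Step x Z u w ∨ P.Step x Z w u := by
  constructor
  · rintro (h | ⟨v, h, hv⟩)
    · rcases h with h | h
      · exact Or.inl (Or.inl h)
      · exact Or.inr (Or.inl h)
    · rcases h with h | h
      · exact Or.inl (Or.inr ⟨v, h, hv⟩)
      · exact Or.inr (Or.inr ⟨v, h, hv⟩)
  · rintro ((h | ⟨v, h, hv⟩) | (h | ⟨v, h, hv⟩))
    · exact Or.inl (Or.inl h)
    · exact Or.inr ⟨v, Or.inl h, hv⟩
    · exact Or.inl (Or.inr h)
    · exact Or.inr ⟨v, Or.inr h, hv⟩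

/-- Directed walks are undirected walks. -/
theorem undirected_reading {V W : Type} (P : Prog V W) (x : V → Bool) (k : ℕ)
    (h : P.AcceptsReading x k) : P.undirected.AcceptsReading x k := by
  obtain ⟨Z, hZ, h⟩ := h
  refine ⟨Z, hZ, ?_⟩
  exact Relation.ReflTransGen.mono
    (fun u w huw => (undirected_step P x _ u w).2 (Or.inl huw)) _ _ h

/-- Making a deterministic program undirected does not change the accepted inputs. [If the
undirected walk `u_0, …, u_r` ends in the accepting node, then by backward induction every `u_i`
reaches the accepting node by a directed walk: for a reversed edge `u_(i+1) → u_i` the directed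
walk from `u_(i+1)` is not empty, because no edge leaves the accepting node, and starts with this
edge by determinism.] -/
theorem det_undirected {V W : Type} (P : Prog V W) (hP : P.Det) (x : V → Bool) :
    P.undirected.Accepts x ↔ P.Accepts x := by
  constructor
  · intro h
    refine Relation.ReflTransGen.head_induction_on
      (motive := fun u _ => Relation.ReflTransGen (P.Step x Set.univ) u P.acc) h ?_ ?_
    · exact Relation.ReflTransGen.refl
    · intro u w huw _ ih
      rcases (undirected_step P x _ u w).1 huw with h1 | h1
      · exact Relation.ReflTransGen.head h1 ih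
      · rcases Relation.ReflTransGen.cases_head ih with h2 | ⟨w', h2, h3⟩
        · exact absurd (h2 ▸ h1) ((hP x).2 u)
        · have : u = w' := (hP x).1 w u w' h1 h2
          rw [this]
          exact h3
  · intro h
    exact Relation.ReflTransGen.mono
      (fun u w huw => (undirected_step P x _ u w).2 (Or.inl huw)) _ _ h

end Pool.Agent.FZ
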