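import Pool.Agent.FZ.Pebble

/-!
# FEW ZEROS (MP_994c82_lc), section 2.3: the functions `G e` on the cube (helper45)
-/

set_option autoImplicit false

namespace Pool.Agent.FZ.GF

open Finset

/-- the character of `S` -/
noncomputable def chi (S x : Finset ℕ) : ℝ := (-1) ^ (S ∩ x).card

/-- the average over the subsets of `range l` -/
noncomputable def av (l : ℕ) (g : Finset ℕ → ℝ) : ℝ := (∑ x ∈ (range l).powerset, g x) / 2 ^ l

/-- the cut `x` crosses the edge `e`: its tail is in `x` (the source is), its head is not -/
def Crosses (l e : ℕ) (x : Finset ℕ) : Prop := (e = 0 ∨ e - 1 ∈ x) ∧ (e = l ∨ e ∉ x)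

/-- the sign of coordinate `j` -/
noncomputable def sg (j : ℕ) (x : Finset ℕ) : ℝ := if j ∈ x then -1 else 1

/-- `h` does not depend on coordinate `j` -/
def Indep (j : ℕ) (h : Finset ℕ → ℝ) : Prop := ∀ x, h (insert j x) = h (x.erase j)

theorem av_congr {l : ℕ} {f g : Finset ℕ → ℝ} (h : ∀ x ⊆ range l, f x = g x) : av l f = av l g := by
  unfold av
  rw [Finset.sum_congr rfl fun x hx => h x (Finset.mem_powerset.1 hx)]

theorem av_mono {l : ℕ} {f g : Finset ℕ → ℝ} (h : ∀ x ⊆ range l, f x ≤ g x) : av l f ≤ av l g := by
  unfold av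
  have := Finset.sum_le_sum fun x hx => h x (Finset.mem_powerset.1 hx)
  exact div_le_div_of_nonneg_right this (by positivity)

theorem av_add (l : ℕ) (f g : Finset ℕ → ℝ) : av l (fun x => f x + g x) = av l f + av l g := by
  unfold av
  rw [Finset.sum_add_distrib, add_div]

theorem av_sub (l : ℕ) (f g : Finset ℕ → ℝ) : av l (fun x => f x - g x) = av l f - av l g := by
  unfold av
  rw [Finset.sum_sub_distrib, sub_div]

theorem av_mul (l : ℕ) (r : ℝ) (f : Finset ℕ → ℝ) : av l (fun x => r * f x) = r * av l f := by
  unfold av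
  rw [← Finset.mul_sum, mul_div_assoc]

theorem av_neg (l : ℕ) (f : Finset ℕ → ℝ) : av l (fun x => -f x) = -av l f := by
  unfold av
  rw [Finset.sum_neg_distrib, neg_div]

theorem av_sum {ι : Type*} (l : ℕ) (s : Finset ι) (f : ι → Finset ℕ → ℝ) :
    av l (fun x => ∑ i ∈ s, f i x) = ∑ i ∈ s, av l (f i) := by
  unfold av
  rw [Finset.sum_comm, Finset.sum_div]

theorem av_nonneg {l : ℕ} {f : Finset ℕ → ℝ} (h : ∀ x, 0 ≤ f x) : 0 ≤ av l f := by
  unfold av
  exact div_nonneg (Finset.sum_nonneg fun x _ => h x) (by positivity)

theorem av_const (l : ℕ) (r : ℝ) : av l (fun _ => r) = r := by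
  unfold av
  rw [Finset.sum_const, Finset.card_powerset, Finset.card_range, nsmul_eq_mul]
  push_cast
  field_simp

theorem av_split {l j : ℕ} (hj : j < l) (f : Finset ℕ → ℝ) :
    av l f = (av l (fun x => f (x.erase j)) + av l (fun x => f (insert j x))) / 2 := by
  have hr : range l = insert j ((range l).erase j) :=
    (Finset.insert_erase (Finset.mem_range.2 hj)).symm
  have key : ∀ g : Finset ℕ → ℝ, ∑ x ∈ (range l).powerset, g x
      = ∑ t ∈ ((range l).erase j).powerset, g t + ∑ t ∈ ((range l).erase j).powerset, g (insert j t) := by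
    intro g
    conv_lhs => rw [hr]
    exact Finset.sum_powerset_insert (Finset.notMem_erase j _) g
  have h0 : ∀ t ∈ ((range l).erase j).powerset, j ∉ t := fun t ht h =>
    Finset.notMem_erase j _ (Finset.mem_powerset.1 ht h)
  unfold av
  rw [key f, key (fun x => f (x.erase j)), key (fun x => f (insert j x))]
  have h1 : ∑ t ∈ ((range l).erase j).powerset, f (t.erase j) = ∑ t ∈ ((range l).erase j).powerset, f t :=
    Finset.sum_congr rfl fun t ht => by rw [Finset.erase_eq_of_notMem (h0 t ht)]
  have h2 : ∑ t ∈ ((range l).erase j).powerset, f ((insert j t).erase j)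
      = ∑ t ∈ ((range l).erase j).powerset, f t :=
    Finset.sum_congr rfl fun t ht => by rw [Finset.erase_insert (h0 t ht)]
  have h3 : ∑ t ∈ ((range l).erase j).powerset, f (insert j (insert j t))
      = ∑ t ∈ ((range l).erase j).powerset, f (insert j t) :=
    Finset.sum_congr rfl fun t _ => by rw [Finset.insert_idem]
  rw [h1, h2, h3]
  ring

theorem sg_insert (j : ℕ) (x : Finset ℕ) : sg j (insert j x) = -1 := by
  unfold sg
  rw [if_pos (Finset.mem_insert_self _ _)]

theorem sg_erase (j : ℕ) (x : Finset ℕ) : sg j (x.erase j) = 1 := by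
  unfold sg
  rw [if_neg (Finset.notMem_erase _ _)]

theorem sg_sq (j : ℕ) (x : Finset ℕ) : sg j x * sg j x = 1 := by
  unfold sg
  split_ifs <;> norm_num

theorem sg_indep {i j : ℕ} (h : i ≠ j) : Indep j (sg i) := by
  intro x
  unfold sg
  simp only [Finset.mem_insert, Finset.mem_erase, h, false_or, ne_eq, not_false_eq_true, true_and]

theorem Indep.mul {j : ℕ} {f g : Finset ℕ → ℝ} (hf : Indep j f) (hg : Indep j g) :
    Indep j (fun x => f x * g x) := by
  intro x
  show f (insert j x) * g (insert j x) = f (x.erase j) * g (x.erase j)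
  rw [hf x, hg x]

theorem Indep.erase_insert {j : ℕ} {f : Finset ℕ → ℝ} (hf : Indep j f) (x : Finset ℕ) :
    f (x.erase j) = f x ∧ f (insert j x) = f x := by
  by_cases hj : j ∈ x
  · have h1 : insert j x = x := Finset.insert_eq_of_mem hj
    have := hf x
    rw [h1] at this
    exact ⟨this.symm, by rw [h1]⟩
  · have h1 : x.erase j = x := Finset.erase_eq_of_notMem hj
    have := hf x
    rw [h1] at this
    exact ⟨by rw [h1], this⟩

/-- a sign times a function not depending on that coordinate has mean `0` -/
theorem av_sg_mul {l j : ℕ} (hj : j < l) {h : Finset ℕ → ℝ} (hh : Indep j h) :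
    av l (fun x => sg j x * h x) = 0 := by
  rw [av_split hj]
  have h1 : (fun x : Finset ℕ => sg j (x.erase j) * h (x.erase j)) = h := by
    funext x
    rw [sg_erase, one_mul, (hh.erase_insert x).1]
  have h2 : (fun x : Finset ℕ => sg j (insert j x) * h (insert j x)) = fun x => -h x := by
    funext x
    rw [sg_insert, (hh.erase_insert x).2]
    ring
  rw [h1, h2, av_neg]
  ring

theorem av_erase {l j : ℕ} (hj : j < l) (g : Finset ℕ → ℝ) {h : Finset ℕ → ℝ} (hh : Indep j h) :
    av l (fun x => g (x.erase j) * h x) = av l (fun x => g x * h x) + av l (fun x => g x * (sg j x * h x)) := by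
  rw [← av_add, av_split hj (fun x => g x * h x + g x * (sg j x * h x))]
  have h1 : (fun x : Finset ℕ => g (x.erase j) * h (x.erase j) + g (x.erase j) * (sg j (x.erase j) * h (x.erase j)))
      = fun x => 2 * (g (x.erase j) * h x) := by
    funext x
    rw [sg_erase, (hh.erase_insert x).1]
    ring
  have h2 : (fun x : Finset ℕ => g (insert j x) * h (insert j x) + g (insert j x) * (sg j (insert j x) * h (insert j x)))
      = fun _ => (0 : ℝ) := by
    funext x
    rw [sg_insert, (hh.erase_insert x).2]
    ring
  rw [h1, h2, av_mul, av_const]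
  ring

theorem av_insert {l j : ℕ} (hj : j < l) (g : Finset ℕ → ℝ) {h : Finset ℕ → ℝ} (hh : Indep j h) :
    av l (fun x => g (insert j x) * h x) = av l (fun x => g x * h x) - av l (fun x => g x * (sg j x * h x)) := by
  rw [← av_sub, av_split hj (fun x => g x * h x - g x * (sg j x * h x))]
  have h1 : (fun x : Finset ℕ => g (x.erase j) * h (x.erase j) - g (x.erase j) * (sg j (x.erase j) * h (x.erase j)))
      = fun _ => (0 : ℝ) := by
    funext x
    rw [sg_erase, (hh.erase_insert x).1]
    ring
  have h2 : (fun x : Finset ℕ => g (insert j x) * h (insert j x) - g (insert j x) * (sg j (insert j x) * h (insert j x)))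
      = fun x => 2 * (g (insert j x) * h x) := by
    funext x
    rw [sg_insert, (hh.erase_insert x).2]
    ring
  rw [h1, h2, av_mul, av_const]
  ring

theorem av_erase_le {l j : ℕ} (hj : j < l) {g : Finset ℕ → ℝ} (hg : ∀ x, 0 ≤ g x) :
    av l (fun x => g (x.erase j)) ≤ 2 * av l g := by
  have h := av_split hj g
  have h1 : 0 ≤ av l (fun x => g (insert j x)) := av_nonneg fun x => hg _
  linarith

theorem av_insert_le {l j : ℕ} (hj : j < l) {g : Finset ℕ → ℝ} (hg : ∀ x, 0 ≤ g x) :
    av l (fun x => g (insert j x)) ≤ 2 * av l g := by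
  have h := av_split hj g
  have h1 : 0 ≤ av l (fun x => g (x.erase j)) := av_nonneg fun x => hg _
  linarith

/-! ### Characters -/

theorem chi_empty (x : Finset ℕ) : chi ∅ x = 1 := by
  simp [chi]

theorem chi_insert {j : ℕ} {S : Finset ℕ} (hj : j ∉ S) (x : Finset ℕ) :
    chi (insert j S) x = sg j x * chi S x := by
  unfold chi sg
  by_cases hx : j ∈ x
  · rw [Finset.insert_inter_of_mem hx, Finset.card_insert_of_notMem (by simp [hj]), if_pos hx, pow_succ]
    ring
  · rw [Finset.insert_inter_of_notMem hx, if_neg hx]
    ring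

theorem chi_indep {j : ℕ} {S : Finset ℕ} (hj : j ∉ S) : Indep j (chi S) := by
  intro x
  unfold chi
  congr 2
  ext i
  simp only [Finset.mem_inter, Finset.mem_insert, Finset.mem_erase]
  constructor
  · rintro ⟨h1, h2⟩
    have : i ≠ j := fun h => hj (h ▸ h1)
    rcases h2 with h2 | h2
    · exact absurd h2 this
    · exact ⟨h1, this, h2⟩
  · rintro ⟨h1, h2, h3⟩
    exact ⟨h1, Or.inr h3⟩

theorem chi_sq (S x : Finset ℕ) : chi S x * chi S x = 1 := by
  unfold chi
  rw [← pow_add, ← two_mul, pow_mul]
  norm_num

theorem chi_orth_aux {l : ℕ} {S S' : Finset ℕ} (hS : S ⊆ range l) {j : ℕ} (hj : j ∈ S) (hj' : j ∉ S') :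
    av l (fun x => chi S x * chi S' x) = 0 := by
  have h1 : (fun x => chi S x * chi S' x) = fun x => sg j x * (chi (S.erase j) x * chi S' x) := by
    funext x
    conv_lhs => rw [← Finset.insert_erase hj]
    rw [chi_insert (Finset.notMem_erase j S)]
    ring
  rw [h1]
  exact av_sg_mul (Finset.mem_range.1 (hS hj)) ((chi_indep (Finset.notMem_erase j S)).mul (chi_indep hj'))

theorem chi_orth {l : ℕ} {S S' : Finset ℕ} (hS : S ⊆ range l) (hS' : S' ⊆ range l) :
    av l (fun x => chi S x * chi S' x) = if S = S' then 1 else 0 := by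
  by_cases h : S = S'
  · subst h
    rw [if_pos rfl]
    have : (fun x => chi S x * chi S x) = fun _ => (1 : ℝ) := by
      funext x
      exact chi_sq S x
    rw [this, av_const]
  · rw [if_neg h]
    by_cases h1 : S ⊆ S'
    · have h2 : ¬ S' ⊆ S := fun h2 => h (Finset.Subset.antisymm h1 h2)
      obtain ⟨j, hj, hj'⟩ := Finset.not_subset.1 h2
      have := chi_orth_aux hS' hj hj'
      rw [← this]
      exact av_congr fun x _ => mul_comm _ _
    · obtain ⟨j, hj, hj'⟩ := Finset.not_subset.1 h1
      exact chi_orth_aux hS hj hj'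

/-! ### The function `a` -/

open Classical in
/-- `1` on the reachable sets -/
noncomputable def EE (k : ℕ) (S : Finset ℕ) : ℝ := if Reach 0 (k - 1) S then 1 else 0

/-- the coefficients of `a` -/
noncomputable def ah (k : ℕ) (S : Finset ℕ) : ℝ := ∑ R ∈ S.powerset, (-2) ^ R.card * EE k R

/-- the function `a` -/
noncomputable def aa (k l : ℕ) (x : Finset ℕ) : ℝ :=
  ∑ S ∈ (range l).powerset with S.card < k, ah k S * chi S x

theorem ah_empty (k : ℕ) : ah k ∅ = 1 := by
  unfold ah EE
  rw [Finset.powerset_empty, Finset.sum_singleton, Finset.card_empty, pow_zero, one_mul]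
  exact if_pos Relation.ReflTransGen.refl

theorem ah_insert {k i : ℕ} {S : Finset ℕ} (hi : i ∉ S) :
    ah k (insert i S) = ah k S - 2 * ∑ R ∈ S.powerset, (-2) ^ R.card * EE k (insert i R) := by
  unfold ah
  rw [Finset.sum_powerset_insert hi, Finset.mul_sum, sub_eq_add_neg, ← Finset.sum_neg_distrib]
  congr 1
  refine Finset.sum_congr rfl fun R hR => ?_
  rw [Finset.card_insert_of_notMem fun h => hi (Finset.mem_powerset.1 hR h), pow_succ]
  ring

theorem abs_ah_le (k : ℕ) (S : Finset ℕ) : |ah k S| ≤ 3 ^ S.card := by
  unfold ah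
  have h := Finset.sum_pow_mul_eq_add_pow (2 : ℝ) 1 S
  have h3 : (3 : ℝ) ^ S.card = ∑ t ∈ S.powerset, (2 : ℝ) ^ t.card := by
    rw [show (3 : ℝ) = 2 + 1 by norm_num, ← h]
    refine Finset.sum_congr rfl fun t _ => ?_
    rw [one_pow, mul_one]
  rw [h3]
  refine (Finset.abs_sum_le_sum_abs _ _).trans (Finset.sum_le_sum fun R _ => ?_)
  rw [abs_mul, abs_pow, abs_neg, abs_two]
  have : |EE k R| ≤ 1 := by
    unfold EE
    split_ifs <;> norm_num
  nlinarith [pow_pos (two_pos : (0 : ℝ) < 2) R.card]

theorem av_aa_chi {k l : ℕ} {T : Finset ℕ} (hT : T ⊆ range l) (hc : T.card < k) :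
    av l (fun x => aa k l x * chi T x) = ah k T := by
  have h1 : (fun x => aa k l x * chi T x)
      = fun x => ∑ S ∈ (range l).powerset with S.card < k, ah k S * (chi S x * chi T x) := by
    funext x
    unfold aa
    rw [Finset.sum_mul]
    exact Finset.sum_congr rfl fun S _ => by ring
  rw [h1, av_sum]
  have h2 : ∀ S ∈ ((range l).powerset).filter (fun S => S.card < k),
      av l (fun x => ah k S * (chi S x * chi T x)) = if S = T then ah k T else 0 := by
    intro S hS
    rw [av_mul, chi_orth (Finset.mem_powerset.1 (Finset.mem_filter.1 hS).1) hT]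
    split_ifs with h
    · rw [h, mul_one]
    · rw [mul_zero]
  rw [Finset.sum_congr rfl h2, Finset.sum_ite_eq' _ T (fun _ => ah k T), if_pos]
  exact Finset.mem_filter.2 ⟨Finset.mem_powerset.2 hT, hc⟩

theorem av_aa_sq {k l : ℕ} : av l (fun x => aa k l x ^ 2)
    = ∑ S ∈ (range l).powerset with S.card < k, ah k S ^ 2 := by
  have h1 : (fun x => aa k l x ^ 2)
      = fun x => ∑ S ∈ (range l).powerset with S.card < k, ah k S * (aa k l x * chi S x) := by
    funext x
    have h : aa k l x = ∑ S ∈ (range l).powerset with S.card < k, ah k S * chi S x := rfl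
    rw [sq]
    nth_rewrite 1 [h]
    rw [Finset.sum_mul]
    exact Finset.sum_congr rfl fun S _ => by ring
  rw [h1, av_sum]
  refine Finset.sum_congr rfl fun S hS => ?_
  rw [av_mul, av_aa_chi (Finset.mem_powerset.1 (Finset.mem_filter.1 hS).1) (Finset.mem_filter.1 hS).2, sq]

theorem av_aa_sq_le {k l : ℕ} (hl : 1 ≤ l) : av l (fun x => aa k l x ^ 2) ≤ (9 * (l : ℝ)) ^ k := by
  rw [av_aa_sq]
  have h1 : ∑ S ∈ (range l).powerset with S.card < k, ah k S ^ 2
      ≤ ∑ S ∈ (range l).powerset with S.card < k, (9 : ℝ) ^ S.card := by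
    refine Finset.sum_le_sum fun S _ => ?_
    have h := abs_ah_le k S
    have h9 : (9 : ℝ) ^ S.card = (3 ^ S.card) ^ 2 := by
      rw [← pow_mul, mul_comm, pow_mul]
      norm_num
    rw [h9, ← sq_abs]
    exact pow_le_pow_left₀ (abs_nonneg _) h 2
  refine h1.trans ?_
  have h2 : ∑ S ∈ (range l).powerset with S.card < k, (9 : ℝ) ^ S.card
      = ∑ j ∈ range k, ∑ S ∈ ((range l).powerset.filter (fun S => S.card < k)) with S.card = j,
        (9 : ℝ) ^ S.card :=
    (Finset.sum_fiberwise_of_maps_to (fun S hS => Finset.mem_range.2 (Finset.mem_filter.1 hS).2) _).symm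
  rw [h2]
  have hl' : (1 : ℝ) ≤ l := by exact_mod_cast hl
  have h3 : ∀ j ∈ range k, ∑ S ∈ ((range l).powerset.filter (fun S => S.card < k)) with S.card = j,
      (9 : ℝ) ^ S.card ≤ (9 * (l : ℝ)) ^ j := by
    intro j _
    have h4 : ∑ S ∈ ((range l).powerset.filter (fun S => S.card < k)) with S.card = j,
        (9 : ℝ) ^ S.card ≤ ∑ S ∈ (range l).powersetCard j, (9 : ℝ) ^ j := by
      rw [Finset.sum_congr rfl fun S hS => by rw [(Finset.mem_filter.1 hS).2]]
      refine Finset.sum_le_sum_of_subset_of_nonneg (fun S hS => ?_) fun _ _ _ => by positivity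
      have h5 := Finset.mem_filter.1 hS
      exact Finset.mem_powersetCard.2 ⟨Finset.mem_powerset.1 (Finset.mem_filter.1 h5.1).1, h5.2⟩
    refine h4.trans ?_
    rw [Finset.sum_const, Finset.card_powersetCard, Finset.card_range, nsmul_eq_mul, mul_pow, mul_comm]
    have h5 : ((l.choose j : ℕ) : ℝ) ≤ (l : ℝ) ^ j := by exact_mod_cast Nat.choose_le_pow l j
    exact mul_le_mul_of_nonneg_left h5 (by positivity)
  refine (Finset.sum_le_sum h3).trans ?_
  clear h1 h2 h3
  have h9 : (2 : ℝ) ≤ 9 * l := by linarith
  generalize (9 * (l : ℝ)) = r at h9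
  induction k with
  | zero => simp
  | succ k ih =>
    rw [Finset.sum_range_succ, pow_succ]
    have : 0 ≤ r ^ k := by positivity
    nlinarith

/-! ### The functions `X e`, `G e` -/

/-- the difference `G e - a` -/
noncomputable def XX (k l e : ℕ) (x : Finset ℕ) : ℝ :=
  if e = 0 then -(sg 0 x * aa k l (x.erase 0))
  else if e = l then sg (l - 1) x * aa k l (insert (l - 1) x)
  else sg (e - 1) x * (sg e x * aa k l ((insert (e - 1) x).erase e))

/-- the function `G e` -/
noncomputable def GG (k l e : ℕ) (x : Finset ℕ) : ℝ := aa k l x + XX k l e x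

theorem GG_cross {k l e : ℕ} (hl : 1 ≤ l) {x : Finset ℕ} (h : Crosses l e x) : GG k l e x = 0 := by
  unfold GG XX
  obtain ⟨h1, h2⟩ := h
  by_cases he : e = 0
  · subst he
    have h0 : 0 ∉ x := by
      rcases h2 with h | h
      · omega
      · exact h
    rw [if_pos rfl, Finset.erase_eq_of_notMem h0, sg, if_neg h0]
    ring
  · have h1' : e - 1 ∈ x := by
      rcases h1 with h | h
      · exact absurd h he
      · exact h
    rw [if_neg he]
    by_cases hel : e = l
    · subst hel
      rw [if_pos rfl, Finset.insert_eq_of_mem h1', sg, if_pos h1']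
      ring
    · have h2' : e ∉ x := by
        rcases h2 with h | h
        · exact absurd h hel
        · exact h
      rw [if_neg hel, Finset.insert_eq_of_mem h1', Finset.erase_eq_of_notMem h2', sg, sg, if_pos h1',
        if_neg h2']
      ring

theorem EE_move {k j : ℕ} {S : Finset ℕ} (hj : j ∉ S) (h : j = 0 ∨ j - 1 ∈ S) (hc : S.card + 1 ≤ k - 1) :
    EE k (insert j S) = EE k S := by
  have hm : Mv 0 (k - 1) S (insert j S) :=
    ⟨j, Nat.zero_le _, hj, h, rfl, by rw [Finset.card_insert_of_notMem hj]; exact hc⟩
  have : Reach 0 (k - 1) (insert j S) ↔ Reach 0 (k - 1) S :=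
    ⟨fun h => h.tail (Or.inr hm), fun h => h.tail (Or.inl hm)⟩
  unfold EE
  by_cases h : Reach 0 (k - 1) S
  · rw [if_pos h, if_pos (this.2 h)]
  · rw [if_neg h, if_neg (fun h1 => h (this.1 h1))]

theorem EE_last {k l : ℕ} (hl : l = 2 ^ (k - 1)) {S : Finset ℕ} (h : l - 1 ∈ S) : EE k S = 0 := by
  unfold EE
  rw [if_neg]
  intro hr
  have h1 := reach_bound (k - 1) 0 S hr _ h
  have h2 : 1 ≤ l := by rw [hl]; exact Nat.one_le_two_pow
  omega

theorem ins_er (i : ℕ) (x : Finset ℕ) : insert i (x.erase i) = insert i x := by
  ext j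
  simp only [Finset.mem_insert, Finset.mem_erase]
  tauto

theorem XX_low {k l e : ℕ} (hl : l = 2 ^ (k - 1)) (he : e ≤ l) {S : Finset ℕ} (hS : S ⊆ range l)
    (hc : S.card < k) : av l (fun x => XX k l e x * chi S x) = 0 := by
  have hl1 : 1 ≤ l := by rw [hl]; exact Nat.one_le_two_pow
  by_cases he0 : e = 0
  · -- `e = 0`
    subst he0
    have hX : ∀ x, XX k l 0 x = -(sg 0 x * aa k l (x.erase 0)) := fun x => by
      unfold XX
      rw [if_pos rfl]
    by_cases h0 : 0 ∈ S
    · obtain ⟨T, hT, rfl⟩ : ∃ T, 0 ∉ T ∧ S = insert 0 T :=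
        ⟨S.erase 0, Finset.notMem_erase _ _, (Finset.insert_erase h0).symm⟩
      have hTl : T ⊆ range l := (Finset.subset_insert _ _).trans hS
      rw [Finset.card_insert_of_notMem hT] at hc
      have h1 : (fun x => XX k l 0 x * chi (insert 0 T) x) = fun x => -(aa k l (x.erase 0) * chi T x) := by
        funext x
        rw [hX, chi_insert hT]
        linear_combination (-(aa k l (x.erase 0) * chi T x)) * sg_sq 0 x
      rw [h1, av_neg, av_erase (by omega) (aa k l) (chi_indep hT), av_aa_chi hTl (by omega)]
      have h2 : (fun x => aa k l x * (sg 0 x * chi T x)) = fun x => aa k l x * chi (insert 0 T) x := by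
        funext x
        rw [chi_insert hT]
      rw [h2, av_aa_chi hS (by rw [Finset.card_insert_of_notMem hT]; exact hc), ah_insert hT]
      have h3 : ∑ R ∈ T.powerset, (-2) ^ R.card * EE k (insert 0 R) = ah k T := by
        unfold ah
        refine Finset.sum_congr rfl fun R hR => ?_
        rw [EE_move (fun h => hT (Finset.mem_powerset.1 hR h)) (Or.inl rfl)]
        have := Finset.card_le_card (Finset.mem_powerset.1 hR)
        omega
      rw [h3]
      ring
    · have h1 : (fun x => XX k l 0 x * chi S x)
          = fun x => sg 0 x * (-(aa k l (x.erase 0)) * chi S x) := by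
        funext x
        rw [hX]
        ring
      rw [h1]
      refine av_sg_mul (by omega) (Indep.mul (fun x => ?_) (chi_indep h0))
      rw [Finset.erase_insert_eq_erase, Finset.erase_idem]
  · by_cases hel : e = l
    · subst hel
      have hX : ∀ x, XX k e e x = sg (e - 1) x * aa k e (insert (e - 1) x) := fun x => by
        unfold XX
        rw [if_neg he0, if_pos rfl]
      by_cases h0 : e - 1 ∈ S
      · obtain ⟨T, hT, rfl⟩ : ∃ T, e - 1 ∉ T ∧ S = insert (e - 1) T :=
          ⟨S.erase (e - 1), Finset.notMem_erase _ _, (Finset.insert_erase h0).symm⟩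
        have hTl : T ⊆ range e := (Finset.subset_insert _ _).trans hS
        rw [Finset.card_insert_of_notMem hT] at hc
        have h1 : (fun x => XX k e e x * chi (insert (e - 1) T) x)
            = fun x => aa k e (insert (e - 1) x) * chi T x := by
          funext x
          rw [hX, chi_insert hT]
          linear_combination (aa k e (insert (e - 1) x) * chi T x) * sg_sq (e - 1) x
        rw [h1, av_insert (by omega) (aa k e) (chi_indep hT), av_aa_chi hTl (by omega)]
        have h2 : (fun x => aa k e x * (sg (e - 1) x * chi T x))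
            = fun x => aa k e x * chi (insert (e - 1) T) x := by
          funext x
          rw [chi_insert hT]
        rw [h2, av_aa_chi hS (by rw [Finset.card_insert_of_notMem hT]; exact hc), ah_insert hT]
        have h3 : ∑ R ∈ T.powerset, (-2) ^ R.card * EE k (insert (e - 1) R) = 0 := by
          refine Finset.sum_eq_zero fun R _ => ?_
          rw [EE_last hl (Finset.mem_insert_self _ _), mul_zero]
        rw [h3]
        ring
      · have h1 : (fun x => XX k e e x * chi S x)
            = fun x => sg (e - 1) x * (aa k e (insert (e - 1) x) * chi S x) := by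
          funext x
          rw [hX]
          ring
        rw [h1]
        refine av_sg_mul (by omega) (Indep.mul (fun x => ?_) (chi_indep h0))
        rw [Finset.insert_idem, ins_er]
    · -- the middle case
      have hlt : e < l := by omega
      have hne : e - 1 ≠ e := by omega
      have hX : ∀ x, XX k l e x = sg (e - 1) x * (sg e x * aa k l ((insert (e - 1) x).erase e)) :=
        fun x => by
          unfold XX
          rw [if_neg he0, if_neg hel]
      have hindi : Indep (e - 1) (fun x => aa k l ((insert (e - 1) x).erase e)) := by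
        intro x
        show aa k l _ = aa k l _
        rw [Finset.insert_idem, ins_er]
      have hindj : Indep e (fun x => aa k l ((insert (e - 1) x).erase e)) := by
        intro x
        show aa k l _ = aa k l _
        rw [Finset.insert_comm, Finset.erase_insert_eq_erase, ← Finset.erase_insert_of_ne hne,
          Finset.erase_idem]
      by_cases hi : e - 1 ∈ S
      · by_cases hj : e ∈ S
        · obtain ⟨T, hTi, hTj, rfl⟩ : ∃ T, e - 1 ∉ T ∧ e ∉ T ∧ S = insert (e - 1) (insert e T) := by
            refine ⟨(S.erase (e - 1)).erase e, fun h => ?_, Finset.notMem_erase _ _, ?_⟩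
            · exact Finset.notMem_erase _ _ (Finset.mem_of_mem_erase h)
            · rw [Finset.insert_erase (Finset.mem_erase.2 ⟨hne.symm, hj⟩), Finset.insert_erase hi]
          have hiT : e - 1 ∉ insert e T := fun h => (Finset.mem_insert.1 h).elim hne hTi
          have hTl : T ⊆ range l := ((Finset.subset_insert _ _).trans (Finset.subset_insert _ _)).trans hS
          have hjTl : insert e T ⊆ range l := (Finset.subset_insert _ _).trans hS
          have hiTl : insert (e - 1) T ⊆ range l := Finset.insert_subset (hS (Finset.mem_insert_self _ _)) hTl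
          have hcT : T.card + 2 < k := by
            rw [Finset.card_insert_of_notMem hiT, Finset.card_insert_of_notMem hTj] at hc
            omega
          have hcj : (insert e T).card < k := by
            rw [Finset.card_insert_of_notMem hTj]
            omega
          have hci : (insert (e - 1) T).card < k := by
            rw [Finset.card_insert_of_notMem hTi]
            omega
          have h1 : (fun x => XX k l e x * chi (insert (e - 1) (insert e T)) x)
              = fun x => (fun y => aa k l (insert (e - 1) y)) (x.erase e) * chi T x := by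
            funext x
            rw [hX, chi_insert hiT, chi_insert hTj, Finset.erase_insert_of_ne hne]
            show _ = aa k l (insert (e - 1) (x.erase e)) * chi T x
            linear_combination (aa k l (insert (e - 1) (x.erase e)) * chi T x * (sg e x * sg e x)) * sg_sq (e - 1) x
              + (aa k l (insert (e - 1) (x.erase e)) * chi T x) * sg_sq e x
          have h2 : av l (fun x => (fun y => aa k l (insert (e - 1) y)) x * (sg e x * chi T x))
              = av l (fun x => aa k l (insert (e - 1) x) * chi (insert e T) x) := by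
            refine av_congr fun x _ => ?_
            rw [chi_insert hTj]
          have h3 : av l (fun x => aa k l x * (sg (e - 1) x * chi T x)) = ah k (insert (e - 1) T) := by
            rw [← av_aa_chi hiTl hci]
            refine av_congr fun x _ => ?_
            rw [chi_insert hTi]
          have h4 : av l (fun x => aa k l x * (sg (e - 1) x * chi (insert e T) x))
              = ah k (insert (e - 1) (insert e T)) := by
            rw [← av_aa_chi hS hc]
            refine av_congr fun x _ => ?_
            rw [chi_insert hiT]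
          rw [h1, av_erase hlt (fun y => aa k l (insert (e - 1) y)) (chi_indep hTj), h2,
            av_insert (by omega) (aa k l) (chi_indep hTi), av_insert (by omega) (aa k l) (chi_indep hiT),
            av_aa_chi hTl (by omega), av_aa_chi hjTl hcj, h3, h4, ah_insert hTi, ah_insert hiT,
            Finset.sum_powerset_insert hTj]
          have h5 : ∑ R ∈ T.powerset, (-2) ^ (insert e R).card * EE k (insert (e - 1) (insert e R))
              = -2 * ∑ R ∈ T.powerset, (-2) ^ R.card * EE k (insert (e - 1) R) := by
            rw [Finset.mul_sum]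
            refine Finset.sum_congr rfl fun R hR => ?_
            have hRT := Finset.mem_powerset.1 hR
            have hjR : e ∉ R := fun h => hTj (hRT h)
            have hiR : e - 1 ∉ R := fun h => hTi (hRT h)
            have hcR := Finset.card_le_card hRT
            rw [Finset.card_insert_of_notMem hjR, Finset.insert_comm,
              EE_move (fun h => (Finset.mem_insert.1 h).elim (fun h => hne h.symm) hjR)
                (Or.inr (Finset.mem_insert_self _ _))
                (by rw [Finset.card_insert_of_notMem hiR]; omega), pow_succ]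
            ring
          rw [h5]
          ring
        · have h1 : (fun x => XX k l e x * chi S x)
              = fun x => sg e x * ((sg (e - 1) x * aa k l ((insert (e - 1) x).erase e)) * chi S x) := by
            funext x
            rw [hX]
            ring
          rw [h1]
          exact av_sg_mul hlt (((sg_indep hne).mul hindj).mul (chi_indep hj))
      · have h1 : (fun x => XX k l e x * chi S x)
            = fun x => sg (e - 1) x * ((sg e x * aa k l ((insert (e - 1) x).erase e)) * chi S x) := by
          funext x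
          rw [hX]
          ring
        rw [h1]
        exact av_sg_mul (by omega) (((sg_indep hne.symm).mul hindi).mul (chi_indep hi))

theorem sg_mul_sq (j : ℕ) (x : Finset ℕ) (r : ℝ) : (sg j x * r) ^ 2 = r ^ 2 := by
  have := sg_sq j x
  linear_combination (r ^ 2) * this

theorem XX_sq_le {k l e : ℕ} (hl1 : 1 ≤ l) (he : e ≤ l) :
    av l (fun x => XX k l e x ^ 2) ≤ 4 * (9 * (l : ℝ)) ^ k := by
  have ha := av_aa_sq_le (k := k) hl1
  have ha0 : 0 ≤ av l (fun x => aa k l x ^ 2) := av_nonneg fun x => sq_nonneg _
  by_cases he0 : e = 0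
  · have h1 : (fun x => XX k l e x ^ 2) = fun x => (fun y => aa k l y ^ 2) (x.erase 0) := by
      funext x
      unfold XX
      rw [if_pos he0, neg_sq, sg_mul_sq]
    rw [h1]
    have := av_erase_le (l := l) (j := 0) (by omega) (g := fun y => aa k l y ^ 2) fun x => sq_nonneg _
    linarith
  · by_cases hel : e = l
    · have h1 : (fun x => XX k l e x ^ 2) = fun x => (fun y => aa k l y ^ 2) (insert (l - 1) x) := by
        funext x
        unfold XX
        rw [if_neg he0, if_pos hel, sg_mul_sq]
      rw [h1]
      have := av_insert_le (l := l) (j := l - 1) (by omega) (g := fun y => aa k l y ^ 2) fun x => sq_nonneg _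
      linarith
    · have hne : e - 1 ≠ e := by omega
      have h1 : (fun x => XX k l e x ^ 2)
          = fun x => (fun z => (fun y => aa k l y ^ 2) (insert (e - 1) z)) (x.erase e) := by
        funext x
        unfold XX
        rw [if_neg he0, if_neg hel, sg_mul_sq, sg_mul_sq, Finset.erase_insert_of_ne hne]
      rw [h1]
      have h2 := av_erase_le (l := l) (j := e) (by omega)
        (g := fun z => (fun y => aa k l y ^ 2) (insert (e - 1) z)) fun x => sq_nonneg _
      have h3 := av_insert_le (l := l) (j := e - 1) (by omega) (g := fun y => aa k l y ^ 2)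
        fun x => sq_nonneg _
      linarith

theorem av_aa {k l : ℕ} (hk : 1 ≤ k) : av l (aa k l) = 1 := by
  have h := av_aa_chi (k := k) (l := l) (Finset.empty_subset _) (by rw [Finset.card_empty]; omega)
  rw [ah_empty] at h
  rw [← h]
  exact av_congr fun x _ => by rw [chi_empty, mul_one]

theorem av_XX {k l e : ℕ} (hk : 1 ≤ k) (hl : l = 2 ^ (k - 1)) (he : e ≤ l) : av l (XX k l e) = 0 := by
  have h := XX_low hl he (Finset.empty_subset _) (by rw [Finset.card_empty]; omega)
  rw [← h]
  exact av_congr fun x _ => by rw [chi_empty, mul_one]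

/-- **The functions `G e`**: they vanish on the cuts crossing the edge `e`, have mean `1`, the same
Fourier coefficients at all sets with fewer than `k` elements, and are close in `L²`. -/
theorem exists_G (k l : ℕ) (hk : 1 ≤ k) (hl : l = 2 ^ (k - 1)) : ∃ G : ℕ → Finset ℕ → ℝ,
    (∀ e ≤ l, ∀ x ⊆ range l, Crosses l e x → G e x = 0) ∧
    (∀ e ≤ l, av l (G e) = 1) ∧
    (∀ e ≤ l, ∀ e' ≤ l, ∀ S ⊆ range l, S.card < k → av l (fun x => (G e x - G e' x) * chi S x) = 0) ∧
    (∀ e ≤ l, ∀ e' ≤ l, av l (fun x => (G e x - G e' x) ^ 2) ≤ 16 * (9 * (l : ℝ)) ^ k) := by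
  have hl1 : 1 ≤ l := by rw [hl]; exact Nat.one_le_two_pow
  refine ⟨GG k l, fun e _ x _ h => GG_cross hl1 h, fun e he => ?_, fun e he e' he' S hS hc => ?_,
    fun e he e' he' => ?_⟩
  · have h1 : av l (GG k l e) = av l (aa k l) + av l (XX k l e) := av_add l _ _
    rw [h1, av_aa hk, av_XX hk hl he, add_zero]
  · have h1 : (fun x => (GG k l e x - GG k l e' x) * chi S x)
        = fun x => XX k l e x * chi S x - XX k l e' x * chi S x := by
      funext x
      unfold GG
      ring
    rw [h1, av_sub, XX_low hl he hS hc, XX_low hl he' hS hc, sub_zero]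
  · have h1 : av l (fun x => (GG k l e x - GG k l e' x) ^ 2)
        ≤ av l (fun x => 2 * XX k l e x ^ 2 + 2 * XX k l e' x ^ 2) := by
      refine av_mono fun x _ => ?_
      unfold GG
      nlinarith [sq_nonneg (XX k l e x + XX k l e' x)]
    rw [av_add, av_mul, av_mul] at h1
    have h2 := XX_sq_le (k := k) hl1 he
    have h3 := XX_sq_le (k := k) hl1 he'
    linarith

end Pool.Agent.FZ.GF
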