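import Pool.Agent.FZ.Defs

/-! # Generation on the pyramid: yes and no instances -/

namespace Pool.Agent.FZ

/-- The child `(i + 1, j)`, for `i < h`. -/
def ch1 {h : ℕ} (v : PNode h) (hv : (v.1 : ℕ) < h) : PNode h := (⟨v.1 + 1, by omega⟩, v.2)

/-- The child `(i + 1, j + 1)`, for `i, j < h`. -/
def ch2 {h : ℕ} (v : PNode h) (hv : (v.1 : ℕ) < h) (hj : (v.2 : ℕ) < h) : PNode h :=
  (⟨v.1 + 1, by omega⟩, ⟨v.2 + 1, by omega⟩)

/-- The yes instance of the labelling `x`. -/
def PY {h q : ℕ} (x : PNode h → Fin q) : PVar h q → Bool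
  | .inl (v, a, b, c) =>
    if hv : (v.1 : ℕ) < h then
      if hj : (v.2 : ℕ) < h then
        decide (a = x (ch1 v hv) ∧ b = x (ch2 v hv hj) ∧ c = x v)
      else decide (c = x v)
    else decide ((a : ℕ) = 0 ∧ (b : ℕ) = 0 ∧ c = x v)
  | .inr c => decide (c = x (0, 0))

/-- The no instance of the tuple `y` of sets of labels. -/
def PZ {h q : ℕ} (y : PNode h → Fin q → Bool) : PVar h q → Bool
  | .inl (v, a, b, c) =>
    if hv : (v.1 : ℕ) < h then
      if hj : (v.2 : ℕ) < h then !(y (ch1 v hv) a && y (ch2 v hv hj) b && !y v c)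
      else true
    else y v c
  | .inr c => !y (0, 0) c

theorem pyr_PY {h q : ℕ} (x : PNode h → Fin q) : Pyr h q (PY x) := by
  have hq : 0 < q := lt_of_le_of_lt (Nat.zero_le _) (x (0, 0)).2
  have key : ∀ d i j : ℕ, (hd : i + d = h) → (hj : j ≤ i) →
      PGen h q (fun i j a b c => ∃ (hi : i < h + 1) (hj : j < h + 1) (ha : a < q)
        (hb : b < q) (hc : c < q),
        PY x (.inl ((⟨i, hi⟩, ⟨j, hj⟩), ⟨a, ha⟩, ⟨b, hb⟩, ⟨c, hc⟩)) = true) i j
        (x (⟨i, by omega⟩, ⟨j, by omega⟩)) := by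
    intro d
    induction d with
    | zero =>
      intro i j hd hj
      obtain rfl : i = h := by omega
      refine PGen.base j _ (x _).2 ⟨by omega, by omega, hq, hq, (x _).2, ?_⟩
      simp [PY]
    | succ d ih =>
      intro i j hd hj
      have hi : i < h := by omega
      have hj' : j < h := by omega
      refine PGen.step i j _ _ _ hi (x _).2 (ih (i + 1) j (by omega) (by omega))
        (ih (i + 1) (j + 1) (by omega) (by omega))
        ⟨by omega, by omega, (x _).2, (x _).2, (x _).2, ?_⟩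
      simp [PY, hi, hj', ch1, ch2]
  refine ⟨x (0, 0), ?_, ?_⟩
  · exact key h 0 0 (by omega) le_rfl
  · simp [PY]

theorem not_pyr_PZ {h q : ℕ} (y : PNode h → Fin q → Bool) : ¬ Pyr h q (PZ y) := by
  rintro ⟨c, hc, hout⟩
  have key : ∀ i j c : ℕ, PGen h q (fun i j a b c => ∃ (hi : i < h + 1) (hj : j < h + 1)
        (ha : a < q) (hb : b < q) (hc : c < q),
        PZ y (.inl ((⟨i, hi⟩, ⟨j, hj⟩), ⟨a, ha⟩, ⟨b, hb⟩, ⟨c, hc⟩)) = true) i j c →
      ∃ (hi : i < h + 1) (hj : j < h + 1) (hc : c < q),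
        y (⟨i, hi⟩, ⟨j, hj⟩) ⟨c, hc⟩ = true := by
    intro i j c hg
    induction hg with
    | base j c _ ht =>
      obtain ⟨hi, hj, ha, hb, hc, h1⟩ := ht
      refine ⟨hi, hj, hc, ?_⟩
      simpa [PZ] using h1
    | step i j a b c hi0 _ _ _ ht ih1 ih2 =>
      obtain ⟨hi, hj, ha, hb, hc, h1⟩ := ht
      obtain ⟨h2, h3, h4, h5⟩ := ih1
      obtain ⟨h6, h7, h8, h9⟩ := ih2
      refine ⟨hi, hj, hc, ?_⟩
      have hj0 : j < h := by omega
      simp only [PZ, hi0, hj0, dif_pos, ch1, ch2] at h1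
      rw [h5, h9] at h1
      simpa using h1
  obtain ⟨_, _, _, h1⟩ := key 0 0 c hc
  have h2 : PZ y (.inr c) = true := hout
  simp only [PZ] at h2
  have h3 : y (0, 0) c = true := h1
  rw [h3] at h2
  simp at h2

theorem PY_injective {h q : ℕ} :
    Function.Injective (PY : (PNode h → Fin q) → PVar h q → Bool) := by
  intro x x' hxx
  funext v
  have hq : 0 < q := lt_of_le_of_lt (Nat.zero_le _) (x (0, 0)).2
  by_cases hv : (v.1 : ℕ) < h
  · by_cases hj : (v.2 : ℕ) < h
    · have h1 := congrFun hxx (.inl (v, x (ch1 v hv), x (ch2 v hv hj), x v))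
      simp only [PY, hv, hj, dif_pos, and_self, decide_true] at h1
      have h2 := of_decide_eq_true h1.symm
      exact h2.2.2
    · have h1 := congrFun hxx (.inl (v, x v, x v, x v))
      simp only [PY, hv, hj, dif_pos, dif_neg, not_false_eq_true, decide_true] at h1
      exact of_decide_eq_true h1.symm
  · have h1 := congrFun hxx (.inl (v, ⟨0, hq⟩, ⟨0, hq⟩, x v))
    simp only [PY, hv, dif_neg, not_false_eq_true, and_self, decide_true] at h1
    have h2 := of_decide_eq_true h1.symm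
    exact h2.2.2

/-- The index in mixed radix is below the product of the radices. -/
private theorem Gen_lt {h q i j a b c : ℕ} (hi : i < h + 1) (hj : j < h + 1) (ha : a < q)
    (hb : b < q) (hc : c < q) :
    (((i * (h + 1) + j) * q + a) * q + b) * q + c < (h + 1) ^ 2 * q ^ 3 := by
  have h1 : i * (h + 1) + j + 1 ≤ (h + 1) * (h + 1) := by nlinarith
  have h2 : (i * (h + 1) + j) * q + a + 1 ≤ (h + 1) * (h + 1) * q := by
    calc (i * (h + 1) + j) * q + a + 1 ≤ (i * (h + 1) + j) * q + q := by omega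
      _ = (i * (h + 1) + j + 1) * q := by ring
      _ ≤ _ := Nat.mul_le_mul_right _ h1
  have h3 : ((i * (h + 1) + j) * q + a) * q + b + 1 ≤ (h + 1) * (h + 1) * q * q := by
    calc ((i * (h + 1) + j) * q + a) * q + b + 1
        ≤ ((i * (h + 1) + j) * q + a) * q + q := by omega
      _ = ((i * (h + 1) + j) * q + a + 1) * q := by ring
      _ ≤ _ := Nat.mul_le_mul_right _ h2
  have h4 : (((i * (h + 1) + j) * q + a) * q + b) * q + c + 1
      ≤ (h + 1) * (h + 1) * q * q * q := by
    calc (((i * (h + 1) + j) * q + a) * q + b) * q + c + 1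
        ≤ (((i * (h + 1) + j) * q + a) * q + b) * q + q := by omega
      _ = (((i * (h + 1) + j) * q + a) * q + b + 1) * q := by ring
      _ ≤ _ := Nat.mul_le_mul_right _ h3
  have h5 : (h + 1) * (h + 1) * q * q * q = (h + 1) ^ 2 * q ^ 3 := by ring
  omega

/-- Digits are determined. -/
private theorem Gen_digit {q A B a b : ℕ} (ha : a < q) (hb : b < q)
    (h : A * q + a = B * q + b) : A = B ∧ a = b := by
  have hq : 0 < q := by omega
  have h1 : (A * q + a) / q = A := by
    rw [Nat.mul_comm, Nat.mul_add_div hq, Nat.div_eq_of_lt ha, Nat.add_zero]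
  have h2 : (B * q + b) / q = B := by
    rw [Nat.mul_comm, Nat.mul_add_div hq, Nat.div_eq_of_lt hb, Nat.add_zero]
  have h3 : A = B := by rw [← h1, ← h2, h]
  subst h3
  exact ⟨rfl, by omega⟩

theorem pidx_injective (h q : ℕ) : Function.Injective (pidx h q) := by
  rintro (⟨⟨i, j⟩, a, b, c⟩ | c) (⟨⟨i', j'⟩, a', b', c'⟩ | c') hh
  · simp only [pidx] at hh
    obtain ⟨h1, hc⟩ := Gen_digit c.2 c'.2 hh
    obtain ⟨h2, hb⟩ := Gen_digit b.2 b'.2 h1
    obtain ⟨h3, ha⟩ := Gen_digit a.2 a'.2 h2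
    obtain ⟨hi, hj⟩ := Gen_digit j.2 j'.2 h3
    have e1 : i = i' := Fin.ext hi
    have e2 : j = j' := Fin.ext hj
    have e3 : a = a' := Fin.ext ha
    have e4 : b = b' := Fin.ext hb
    have e5 : c = c' := Fin.ext hc
    rw [e1, e2, e3, e4, e5]
  · simp only [pidx] at hh
    have := Gen_lt i.2 j.2 a.2 b.2 c.2
    omega
  · simp only [pidx] at hh
    have := Gen_lt i'.2 j'.2 a'.2 b'.2 c'.2
    omega
  · simp only [pidx] at hh
    have : c = c' := Fin.ext (by omega)
    rw [this]

theorem pidx_lt (h q : ℕ) (v : PVar h q) : pidx h q v < (h + 1) ^ 2 * q ^ 3 + q := by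
  rcases v with ⟨⟨i, j⟩, a, b, c⟩ | c
  · simp only [pidx]
    have := Gen_lt i.2 j.2 a.2 b.2 c.2
    omega
  · simp only [pidx]
    have := c.2
    omega

/-- Labels are below `q`. -/
private theorem Gen_lt_q {h q : ℕ} {t : ℕ → ℕ → ℕ → ℕ → ℕ → Prop} {i j c : ℕ}
    (hg : PGen h q t i j c) : c < q := by
  cases hg with
  | base j c hc _ => exact hc
  | step i j a b c _ hc _ _ _ => exact hc

theorem pyrN_iff (h q : ℕ) (x : ℕ → Bool) : PyrN h q x ↔ Pyr h q (fun v => x (pidx h q v)) := by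
  constructor
  · rintro ⟨c, hc, hg, hout⟩
    have key : ∀ i j c : ℕ, PGen h q (fun i j a b c =>
        x ((((i * (h + 1) + j) * q + a) * q + b) * q + c) = true) i j c → j ≤ i → i ≤ h →
        PGen h q (fun i j a b c => ∃ (hi : i < h + 1) (hj : j < h + 1) (ha : a < q)
          (hb : b < q) (hc : c < q),
          (fun v => x (pidx h q v)) (.inl ((⟨i, hi⟩, ⟨j, hj⟩), ⟨a, ha⟩, ⟨b, hb⟩, ⟨c, hc⟩))
            = true) i j c := by
      intro i j c hg
      induction hg with
      | base j c hc ht =>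
        intro hj _
        exact PGen.base j c hc ⟨by omega, by omega, by omega, by omega, hc, ht⟩
      | step i j a b c hi hc h1 h2 ht ih1 ih2 =>
        intro hj _
        exact PGen.step i j a b c hi hc (ih1 (by omega) (by omega)) (ih2 (by omega) (by omega))
          ⟨by omega, by omega, Gen_lt_q h1, Gen_lt_q h2, hc, ht⟩
    exact ⟨⟨c, hc⟩, key 0 0 c hg le_rfl (Nat.zero_le _), hout⟩
  · rintro ⟨c, hg, hout⟩
    have key : ∀ i j c : ℕ, PGen h q (fun i j a b c => ∃ (hi : i < h + 1) (hj : j < h + 1)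
          (ha : a < q) (hb : b < q) (hc : c < q),
          (fun v => x (pidx h q v)) (.inl ((⟨i, hi⟩, ⟨j, hj⟩), ⟨a, ha⟩, ⟨b, hb⟩, ⟨c, hc⟩))
            = true) i j c → PGen h q (fun i j a b c =>
        x ((((i * (h + 1) + j) * q + a) * q + b) * q + c) = true) i j c := by
      intro i j c hg
      induction hg with
      | base j c hc ht =>
        obtain ⟨_, _, _, _, _, h1⟩ := ht
        exact PGen.base j c hc h1
      | step i j a b c hi hc _ _ ht ih1 ih2 =>
        obtain ⟨_, _, _, _, _, h1⟩ := ht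
        exact PGen.step i j a b c hi hc ih1 ih2 h1
    exact ⟨c, c.2, key 0 0 c hg, hout⟩

theorem pyrN_true (h q : ℕ) (hq : 1 ≤ q) : PyrN h q (fun _ => true) := by
  have key : ∀ d i j : ℕ, i + d = h →
      PGen h q (fun _ _ _ _ _ => (true : Bool) = true) i j 0 := by
    intro d
    induction d with
    | zero =>
      intro i j hd
      obtain rfl : i = h := by omega
      exact PGen.base j 0 hq rfl
    | succ d ih =>
      intro i j hd
      exact PGen.step i j 0 0 0 (by omega) hq (ih (i + 1) j (by omega))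
        (ih (i + 1) (j + 1) (by omega)) rfl
  exact ⟨0, hq, key h 0 0 (by omega), rfl⟩

end Pool.Agent.FZ
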