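import Pool.Agent.FZ.SymCore
import Pool.Agent.FZ.Asm

/-! # Symmetric programs for the language for L versus NL -/

namespace Pool.Agent.FZ

private theorem lf_lay {s : ℕ} (hs : 1 ≤ s) : lay (kk s) ≤ s := by
  unfold lay kk
  rw [Nat.add_sub_cancel]
  exact Nat.pow_log_le_self 2 (by omega)

/-- The parameters. With `k = kk s`, `l = lay k ≤ s`: the left side is at most
`1024 * 9 ^ k * (s + 1) ^ (3 * k)`, and `1024 * 9 ^ k ≤ (s + 1) ^ (2 * k)` for `s ≥ 16`. -/
theorem l_param (s : ℕ) (hs : 16 ≤ s) :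
    16 * (64 * (9 * lay (kk s)) ^ kk s * (s ^ Nat.log 2 s) ^ 2 * (lay (kk s) + 1) ^ 2)
      ≤ wid s ^ kk s := by
  have hl : lay (kk s) ≤ s := lf_lay (by omega)
  have hk : kk s = Nat.log 2 s + 1 := rfl
  have hk2 : 2 ≤ kk s := by
    have : 1 ≤ Nat.log 2 s := Nat.log_pos (by norm_num) (by omega)
    omega
  have h1 : (9 * lay (kk s)) ^ kk s ≤ 9 ^ kk s * (s + 1) ^ kk s := by
    rw [mul_pow]
    exact Nat.mul_le_mul_left _ (Nat.pow_le_pow_left (by omega) _)
  have h2 : (s ^ Nat.log 2 s) ^ 2 * (lay (kk s) + 1) ^ 2 ≤ ((s + 1) ^ kk s) ^ 2 := by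
    rw [← mul_pow, hk]
    refine Nat.pow_le_pow_left ?_ 2
    rw [pow_succ]
    exact Nat.mul_le_mul (Nat.pow_le_pow_left (by omega) _) (by rw [← hk]; omega)
  have h3 : 1024 * 9 ^ kk s ≤ ((s + 1) ^ kk s) ^ 2 := by
    have h4 : (32 * 9) ^ kk s ≤ ((s + 1) ^ 2) ^ kk s :=
      Nat.pow_le_pow_left (by nlinarith) _
    have h5 : 1024 ≤ 32 ^ kk s := by
      calc 1024 = 32 ^ 2 := by norm_num
        _ ≤ 32 ^ kk s := Nat.pow_le_pow_right (by norm_num) hk2
    calc 1024 * 9 ^ kk s ≤ 32 ^ kk s * 9 ^ kk s := Nat.mul_le_mul_right _ h5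
      _ = (32 * 9) ^ kk s := by rw [mul_pow]
      _ ≤ ((s + 1) ^ 2) ^ kk s := h4
      _ = ((s + 1) ^ kk s) ^ 2 := by rw [← pow_mul, ← pow_mul, mul_comm]
  calc 16 * (64 * (9 * lay (kk s)) ^ kk s * (s ^ Nat.log 2 s) ^ 2 * (lay (kk s) + 1) ^ 2)
      = 1024 * ((9 * lay (kk s)) ^ kk s * ((s ^ Nat.log 2 s) ^ 2 * (lay (kk s) + 1) ^ 2)) := by
        ring
    _ ≤ 1024 * ((9 ^ kk s * (s + 1) ^ kk s) * ((s + 1) ^ kk s) ^ 2) :=
        Nat.mul_le_mul_left _ (Nat.mul_le_mul h1 h2)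
    _ = (1024 * 9 ^ kk s) * ((s + 1) ^ kk s * ((s + 1) ^ kk s) ^ 2) := by ring
    _ ≤ ((s + 1) ^ kk s) ^ 2 * ((s + 1) ^ kk s * ((s + 1) ^ kk s) ^ 2) :=
        Nat.mul_le_mul_right _ h3
    _ = wid s ^ kk s := by
        unfold wid
        rw [← pow_mul (s + 1) 5 (kk s), mul_comm 5 (kk s), pow_mul (s + 1) (kk s) 5]
        generalize (s + 1) ^ kk s = t
        ring

/-- The number of blocks (`n1 s ≤ (s + 1) ^ 11`). -/
theorem l_blocks : ∃ c : ℕ, 16 ≤ c ∧ ∀ s N : ℕ, c ≤ s → s ^ c ≤ N →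
    N / s ^ c ≤ nblk n1 N s / 2 := by
  refine ⟨20, by norm_num, fun s N hs hN => ?_⟩
  set m := N / s ^ 20 with hm
  have hmN : m * s ^ 20 ≤ N := Nat.div_mul_le_self _ _
  have hl : lay (kk s) ≤ s := lf_lay (by omega)
  have hn : n1 s ≤ s ^ 14 := by
    calc n1 s = (lay (kk s) + 1) * ((s + 1) ^ 5) ^ 2 := rfl
      _ ≤ (s + 1) * ((s + 1) ^ 5) ^ 2 := Nat.mul_le_mul_right _ (by omega)
      _ = (s + 1) ^ 11 := by ring
      _ ≤ (2 * s) ^ 11 := Nat.pow_le_pow_left (by omega) _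
      _ = 2048 * s ^ 11 := by rw [mul_pow]; norm_num
      _ ≤ s ^ 3 * s ^ 11 := by
          refine Nat.mul_le_mul_right _ ?_
          calc 2048 ≤ 20 ^ 3 := by norm_num
            _ ≤ s ^ 3 := Nat.pow_le_pow_left hs 3
      _ = s ^ 14 := by rw [← pow_add]
  have hn0 : 0 < n1 s := by
    unfold n1 wid
    positivity
  have key : 2 * n1 s * (s * (s + 1)) ≤ s ^ 20 := by
    calc 2 * n1 s * (s * (s + 1)) ≤ 2 * s ^ 14 * (s * (2 * s)) := by
          refine Nat.mul_le_mul (Nat.mul_le_mul_left _ hn) (Nat.mul_le_mul_left _ (by omega))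
      _ = 4 * s ^ 16 := by ring
      _ ≤ s ^ 4 * s ^ 16 := by
          refine Nat.mul_le_mul_right _ ?_
          calc 4 ≤ 20 ^ 4 := by norm_num
            _ ≤ s ^ 4 := Nat.pow_le_pow_left hs 4
      _ = s ^ 20 := by rw [← pow_add]
  have h1 : (2 * m * n1 s) * s * (s + 1) ≤ N := by
    calc (2 * m * n1 s) * s * (s + 1) = m * (2 * n1 s * (s * (s + 1))) := by ring
      _ ≤ m * s ^ 20 := Nat.mul_le_mul_left _ key
      _ ≤ N := hmN
  have h2 : (2 * m * n1 s) * s ≤ N / (s + 1) := (Nat.le_div_iff_mul_le (by omega)).2 h1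
  have h3 : N / (s + 1) * (s + 1) ≤ N := Nat.div_mul_le_self _ _
  have h4 : (2 * m * n1 s + N / (s + 1)) * s ≤ N := by nlinarith
  have h5 : 2 * m * n1 s + N / (s + 1) ≤ N / s := (Nat.le_div_iff_mul_le (by omega)).2 h4
  have h6 : 2 * m * n1 s ≤ N / s - N / (s + 1) := by omega
  unfold nblk
  rw [Nat.le_div_iff_mul_le (by norm_num), Nat.le_div_iff_mul_le hn0]
  calc m * 2 * n1 s = 2 * m * n1 s := by ring
    _ ≤ _ := h6

/-- The position of an edge variable in the block. -/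
private def lidx (l q : ℕ) (v : LVar l q) : ℕ := ((v.1 : ℕ) * q + v.2.1) * q + v.2.2

private theorem lidx_injective (l q : ℕ) : Function.Injective (lidx l q) := by
  rintro ⟨e, a, b⟩ ⟨e', a', b'⟩ h
  have hq : 0 < q := a.pos
  unfold lidx at h
  simp only at h
  have hb : (b : ℕ) = b' := by
    have h1 := congrArg (· % q) h
    simpa [Nat.add_mod, Nat.mod_eq_of_lt b.2, Nat.mod_eq_of_lt b'.2] using h1
  have h2 : (e : ℕ) * q + a = e' * q + a' := by
    have : ((e : ℕ) * q + a) * q = (e' * q + a') * q := by omega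
    exact Nat.eq_of_mul_eq_mul_right hq this
  have ha : (a : ℕ) = a' := by
    have h1 := congrArg (· % q) h2
    simpa [Nat.add_mod, Nat.mod_eq_of_lt a.2, Nat.mod_eq_of_lt a'.2] using h1
  have he : (e : ℕ) = e' := by
    have : (e : ℕ) * q = e' * q := by omega
    exact Nat.eq_of_mul_eq_mul_right hq this
  exact Prod.ext (Fin.ext he) (Prod.ext (Fin.ext ha) (Fin.ext hb))

private theorem lidx_lt' (l q e a b : ℕ) (he : e ≤ l) (ha : a < q) (hb : b < q) :
    (e * q + a) * q + b < (l + 1) * q ^ 2 := by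
  have h1 : e * q + a + 1 ≤ (l + 1) * q := by
    calc e * q + a + 1 ≤ e * q + q := by omega
      _ = (e + 1) * q := by ring
      _ ≤ (l + 1) * q := Nat.mul_le_mul_right _ (by omega)
  calc (e * q + a) * q + b < (e * q + a) * q + q := by omega
    _ = (e * q + a + 1) * q := by ring
    _ ≤ ((l + 1) * q) * q := Nat.mul_le_mul_right _ h1
    _ = (l + 1) * q ^ 2 := by ring

private theorem lidx_lt (l q : ℕ) (v : LVar l q) : lidx l q v < (l + 1) * q ^ 2 :=
  lidx_lt' l q v.1 v.2.1 v.2.2 (by have := v.1.2; omega) v.2.1.2 v.2.2.2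

private theorem connN_iff (l q : ℕ) [NeZero q] (x : ℕ → Bool) :
    ConnN l q x ↔ Conn (fun v : LVar l q => x (lidx l q v)) := by
  constructor
  · rintro ⟨g, h0, hl, hq, h⟩
    have key : ∀ i ≤ l + 1, ((ext (fun i : Fin l => (⟨g (i + 1), hq _⟩ : Fin q)) i : Fin q) : ℕ)
        = g i := by
      intro i hi
      unfold ext
      split_ifs with h1
      · show g (i - 1 + 1) = g i
        rw [Nat.sub_add_cancel h1.1]
      · have : i = 0 ∨ i = l + 1 := by omega
        rcases this with rfl | rfl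
        · simpa using h0.symm
        · simpa using hl.symm
    refine ⟨fun i => ⟨g (i + 1), hq _⟩, fun e => ?_⟩
    have he : (e : ℕ) ≤ l := by have := e.2; omega
    have := h e he
    show x (((e : ℕ) * q + _) * q + _) = true
    rw [key _ (by omega), key _ (by omega)]
    exact this
  · rintro ⟨g, h⟩
    refine ⟨fun i => (ext g i : ℕ), ?_, ?_, fun i => (ext g i).2, fun e he => ?_⟩
    · show ((ext g 0 : Fin q) : ℕ) = 0
      unfold ext
      rw [dif_neg (by omega)]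
      rfl
    · show ((ext g (l + 1) : Fin q) : ℕ) = 0
      unfold ext
      rw [dif_neg (by omega)]
      rfl
    · exact h ⟨e, by omega⟩

private theorem pathInput_injective {l q : ℕ} [NeZero q] :
    Function.Injective (pathInput : (Fin l → Fin q) → LVar l q → Bool) := by
  intro g g' h
  funext i
  have h1 : pathInput g (⟨i, by omega⟩, ext g i, ext g (i + 1)) = true := by
    unfold pathInput
    simp
  rw [h] at h1
  unfold pathInput at h1
  have h2 := (of_decide_eq_true h1).2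
  have h3 : ∀ g : Fin l → Fin q, ext g ((i : ℕ) + 1) = g i := by
    intro g
    unfold ext
    rw [dif_pos ⟨by omega, by omega⟩]
    rfl
  have h4 : ext g ((i : ℕ) + 1) = ext g' ((i : ℕ) + 1) := h2
  rwa [h3, h3] at h4

private theorem conn_pathInput {l q : ℕ} [NeZero q] (g : Fin l → Fin q) :
    Conn (pathInput g) := ⟨g, fun e => by unfold pathInput; simp⟩

open Classical in
/-- [`assemble` with `sym = True`, `S = s ^ Nat.log 2 s`, `V0 = LVar (lay (kk s)) (wid s)`,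
`idx (e, a, b) = (e q + a) q + b`, `Y = pathInput`, `g0 = Conn`; `sym_core`, `l_param`,
`l_blocks`.] -/
theorem l_lower : ∃ c : ℕ, ∀ s N : ℕ, c ≤ s → s ^ c ≤ N →
    ∃ A : Finset (Fin N → Bool), A.Nonempty ∧ (∀ x ∈ A, L1 (List.ofFn x)) ∧
      ∀ (W : Type) [Fintype W] (P : Prog (Fin N) W), Fintype.card W ≤ s ^ Nat.log 2 s →
        P.Symm → (∀ x, P.Accepts x → L1 (List.ofFn x)) →
        (A.filter fun x => P.AcceptsReading x (N / s ^ c)).card * 2 ^ (N / s ^ c)
          ≤ A.card := by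
  obtain ⟨c, hc, hbl⟩ := l_blocks
  refine ⟨c, fun s N hs hN => ?_⟩
  have hw : ∀ s, 0 < wid s := fun s => by unfold wid; positivity
  have : NeZero (wid s) := ⟨(hw s).ne'⟩
  have hk2 : 2 ≤ kk s := by
    have : 1 ≤ Nat.log 2 s := Nat.log_pos (by norm_num) (by omega)
    unfold kk
    omega
  obtain ⟨A, hA1, hA2, hA3⟩ := assemble n1 f1
    (fun s => ⟨fun _ => 0, rfl, rfl, fun _ => hw s, fun _ _ => rfl⟩)
    (fun s x y hxy hx => by
      obtain ⟨g, h0, hl, hq, h⟩ := hx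
      refine ⟨g, h0, hl, hq, fun e he => ?_⟩
      rw [← hxy _ (lidx_lt' _ _ _ _ _ he (hq _) (hq _))]
      exact h e he)
    True s N (s ^ Nat.log 2 s) (by omega) (Ω := Fin (lay (kk s)) → Fin (wid s))
    (lidx (lay (kk s)) (wid s)) (lidx_injective _ _) (fun v => lidx_lt _ _ v)
    pathInput pathInput_injective Conn (fun x => connN_iff _ _ x) (fun ω => conn_pathInput ω)
    (fun W _ M hW hsym hM => by
      have h1 := sym_core (kk s) (wid s) hk2 M (hsym trivial) hM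
      have h2 := l_param s (by omega)
      have h3 : (16 : ℝ) * (64 * (9 * lay (kk s)) ^ kk s * ((s : ℝ) ^ Nat.log 2 s) ^ 2 *
          (lay (kk s) + 1) ^ 2) ≤ (wid s : ℝ) ^ kk s := by exact_mod_cast h2
      have hWr : (Fintype.card W : ℝ) ≤ (s : ℝ) ^ Nat.log 2 s := by exact_mod_cast hW
      have hq0 : (0 : ℝ) < (wid s : ℝ) ^ kk s := pow_pos (by exact_mod_cast hw s) _
      have h4 : (16 : ℝ) * ((Finset.univ.filter fun g : Fin (lay (kk s)) → Fin (wid s) =>
          M.Accepts (pathInput g)).card : ℝ) * (wid s : ℝ) ^ kk s ≤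
          (wid s : ℝ) ^ lay (kk s) * (wid s : ℝ) ^ kk s := by
        calc (16 : ℝ) * ((Finset.univ.filter fun g : Fin (lay (kk s)) → Fin (wid s) =>
            M.Accepts (pathInput g)).card : ℝ) * (wid s : ℝ) ^ kk s
            = 16 * (((Finset.univ.filter fun g : Fin (lay (kk s)) → Fin (wid s) =>
              M.Accepts (pathInput g)).card : ℝ) * (wid s : ℝ) ^ kk s) := by ring
          _ ≤ 16 * (64 * (9 * lay (kk s)) ^ kk s * (Fintype.card W : ℝ) ^ 2 *
              (lay (kk s) + 1) ^ 2 * (wid s : ℝ) ^ lay (kk s)) := by gcongr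
          _ ≤ 16 * (64 * (9 * lay (kk s)) ^ kk s * ((s : ℝ) ^ Nat.log 2 s) ^ 2 *
              (lay (kk s) + 1) ^ 2 * (wid s : ℝ) ^ lay (kk s)) := by gcongr
          _ = (16 * (64 * (9 * lay (kk s)) ^ kk s * ((s : ℝ) ^ Nat.log 2 s) ^ 2 *
              (lay (kk s) + 1) ^ 2)) * (wid s : ℝ) ^ lay (kk s) := by ring
          _ ≤ (wid s : ℝ) ^ kk s * (wid s : ℝ) ^ lay (kk s) := by gcongr
          _ = _ := by ring
      have h5 := le_of_mul_le_mul_right h4 hq0
      rw [Fintype.card_fun, Fintype.card_fin, Fintype.card_fin]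
      exact_mod_cast h5)
  refine ⟨A, hA1, hA2, fun W _ P hW hP hPL => ?_⟩
  have h1 := hA3 W P hW (fun _ => hP) hPL
  have h2 := hbl s N hs hN
  refine le_trans (Nat.mul_le_mul ?_ ?_) h1
  · refine Finset.card_le_card fun x hx => ?_
    rw [Finset.mem_filter] at hx ⊢
    obtain ⟨hx1, Z, hZ, hZ'⟩ := hx
    exact ⟨hx1, Z, hZ.trans h2, hZ'⟩
  · exact Nat.pow_le_pow_right (by norm_num) (h2.trans (Nat.div_le_self _ _))

end Pool.Agent.FZ
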