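import Pool.Agent.FZ.Defs

/-! # Nondeterministic monotone programs for the language for L versus NL -/

namespace Pool.Agent.FZ

/-- `p` is the first position of block `j` of part `s`. -/
private def LUp.Start (N p s j : ℕ) : Prop :=
  1 ≤ s ∧ j < nblk n1 N s ∧ p = bpos n1 N s j 0

private lemma LUp.n1_pos (s : ℕ) : 0 < n1 s := by
  unfold n1 wid
  positivity

private lemma LUp.start_end {N p s j : ℕ} (h : LUp.Start N p s j) :
    p + n1 s ≤ N - N / (s + 1) ∧ N - N / s ≤ p ∧ p + n1 s ≤ N := by
  obtain ⟨h1, h2, h3⟩ := h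
  have hn := LUp.n1_pos s
  unfold nblk at h2
  have h4 : (j + 1) * n1 s ≤ N / s - N / (s + 1) :=
    (Nat.le_div_iff_mul_le hn).1 h2
  have h5 : N / s ≤ N := Nat.div_le_self _ _
  unfold bpos at h3
  have h6 : (j + 1) * n1 s = j * n1 s + n1 s := by ring
  clear h2
  generalize N / s = A at *
  generalize N / (s + 1) = B at *
  omega

private lemma LUp.start_unique_aux {N p s j s' j' : ℕ} (h : LUp.Start N p s j)
    (h' : LUp.Start N p s' j') (hs : s < s') : False := by
  have h1 := (LUp.start_end h).1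
  have h2 := (LUp.start_end h').2.1
  have h3 : N / s' ≤ N / (s + 1) := Nat.div_le_div_left hs (Nat.succ_pos s)
  have h4 := LUp.n1_pos s
  generalize N / s' = A at *
  generalize N / (s + 1) = B at *
  omega

private lemma LUp.start_unique {N p s j s' j' : ℕ} (h : LUp.Start N p s j)
    (h' : LUp.Start N p s' j') : s = s' ∧ j = j' := by
  have hs : s = s' := by
    rcases lt_trichotomy s s' with hlt | heq | hgt
    · exact (LUp.start_unique_aux h h' hlt).elim
    · exact heq
    · exact (LUp.start_unique_aux h' h hgt).elim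
  subst hs
  refine ⟨rfl, ?_⟩
  obtain ⟨-, -, h3⟩ := h
  obtain ⟨-, -, h3'⟩ := h'
  unfold bpos at h3 h3'
  have h5 : j * n1 s = j' * n1 s := by omega
  exact Nat.eq_of_mul_eq_mul_right (LUp.n1_pos s) h5

private lemma LUp.wid_two {s : ℕ} (hs : 1 ≤ s) : 2 ≤ wid s := by
  unfold wid
  calc 2 ≤ 2 ^ 5 := by norm_num
    _ ≤ (s + 1) ^ 5 := Nat.pow_le_pow_left (by omega) 5

private lemma LUp.size {N p s j : ℕ} (h : LUp.Start N p s j) :
    (lay (kk s) + 2) * wid s ≤ N := by
  have h1 := (LUp.start_end h).2.2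
  have h2 := LUp.wid_two h.1
  have h3 : (lay (kk s) + 2) * wid s ≤ n1 s := by
    unfold n1
    nlinarith [Nat.zero_le (lay (kk s)), Nat.mul_le_mul_left (lay (kk s) * wid s) h2,
      Nat.mul_le_mul_left (wid s) h2]
  omega

/-- The program: nodes `(p, v)`, `p` a position, `v = e q + a` a vertex of the block starting at
`p`. -/
private def LUp.prog (N : ℕ) : Prog (Fin N) (Fin (N + 1) × Fin (N + 1)) where
  src := (0, 0)
  acc := (Fin.last N, 0)
  free u w := w.1.val = u.1.val + 1 ∧ w.2.val = 0 ∧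
    ((u.2.val = 0 ∧ ¬ ∃ s j, LUp.Start N u.1.val s j) ∨
      ∃ s j, LUp.Start N u.1.val s j ∧ u.2.val = (lay (kk s) + 1) * wid s)
  test u v b w := b = true ∧ w.1.val = u.1.val ∧ ∃ s j e a c, LUp.Start N u.1.val s j ∧
    e ≤ lay (kk s) ∧ a < wid s ∧ c < wid s ∧ u.2.val = e * wid s + a ∧
    w.2.val = (e + 1) * wid s + c ∧ v.val = u.1.val + ((e * wid s + a) * wid s + c)

private lemma LUp.euclid {q e a e' a' : ℕ} (ha : a < q) (ha' : a' < q)
    (h : e * q + a = e' * q + a') : e = e' ∧ a = a' := by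
  have hq : 0 < q := by omega
  have h1 : (e * q + a) / q = e := by
    rw [mul_comm, Nat.mul_add_div hq, Nat.div_eq_of_lt ha, add_zero]
  have h2 : (e' * q + a') / q = e' := by
    rw [mul_comm, Nat.mul_add_div hq, Nat.div_eq_of_lt ha', add_zero]
  have h3 : e = e' := by rw [← h1, ← h2, h]
  subst h3
  exact ⟨rfl, by omega⟩

private lemma LUp.getD {N : ℕ} (x : Fin N → Bool) (i : ℕ) (h : i < N) :
    (List.ofFn x).getD i false = x ⟨i, h⟩ := by
  rw [List.getD_eq_getElem _ _ (by simpa using h)]
  simp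

/-- Is block `j` of part `s` a yes instance? -/
private def LUp.Yes {N : ℕ} (x : Fin N → Bool) (s j : ℕ) : Prop :=
  f1 s (fun i => (List.ofFn x).getD (bpos n1 N s j i) false)

private lemma LUp.L1_iff {N : ℕ} (x : Fin N → Bool) :
    L1 (List.ofFn x) ↔ ∀ p s j, LUp.Start N p s j → LUp.Yes x s j := by
  unfold L1 BLang LUp.Yes
  rw [List.length_ofFn]
  constructor
  · intro h p s j hs
    exact h s hs.1 j hs.2.1
  · intro h s hs j hj
    exact h _ s j ⟨hs, hj, rfl⟩

private lemma LUp.bit_pos {N p s j : ℕ} (h : LUp.Start N p s j) (i : ℕ) :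
    bpos n1 N s j i = p + i := by
  obtain ⟨-, -, rfl⟩ := h
  unfold bpos
  omega

private lemma LUp.bit_lt {s e a c : ℕ} (he : e ≤ lay (kk s)) (ha : a < wid s) (hc : c < wid s) :
    (e * wid s + a) * wid s + c < n1 s := by
  unfold n1
  have h1 : e * wid s + a + 1 ≤ (lay (kk s) + 1) * wid s := by
    calc e * wid s + a + 1 ≤ e * wid s + wid s := by omega
      _ = (e + 1) * wid s := by ring
      _ ≤ (lay (kk s) + 1) * wid s := Nat.mul_le_mul_right _ (by omega)
  calc (e * wid s + a) * wid s + c < (e * wid s + a) * wid s + wid s := by omega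
    _ = (e * wid s + a + 1) * wid s := by ring
    _ ≤ ((lay (kk s) + 1) * wid s) * wid s := Nat.mul_le_mul_right _ h1
    _ = (lay (kk s) + 1) * wid s ^ 2 := by ring

/-! ### From yes instances to walks -/

private lemma LUp.block_walk {N : ℕ} (x : Fin N → Bool) {p s j : ℕ} (h : LUp.Start N p s j)
    (hp : p < N + 1) (hx : LUp.Yes x s j) :
    Relation.ReflTransGen ((LUp.prog N).Step x Set.univ) (⟨p, hp⟩, 0)
      (⟨p, hp⟩, ⟨(lay (kk s) + 1) * wid s, by
        have := LUp.size h
        have h2 := LUp.wid_two h.1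
        nlinarith⟩) := by
  obtain ⟨g, hg0, hgl, hgq, hg⟩ := hx
  have hsz := LUp.size h
  have hend := (LUp.start_end h).2.2
  have key : ∀ e : ℕ, e ≤ lay (kk s) + 1 → ∃ hv : e * wid s + g e < N + 1,
      Relation.ReflTransGen ((LUp.prog N).Step x Set.univ) (⟨p, hp⟩, 0)
        (⟨p, hp⟩, ⟨e * wid s + g e, hv⟩) := by
    intro e
    induction e with
    | zero =>
      intro _
      refine ⟨by simp [hg0], ?_⟩
      have : (⟨0 * wid s + g 0, by simp [hg0]⟩ : Fin (N + 1)) = 0 := by
        apply Fin.ext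
        simp [hg0]
      rw [this]
    | succ e ih =>
      intro he
      obtain ⟨hv, hw⟩ := ih (by omega)
      have hge := hgq e
      have hge1 := hgq (e + 1)
      have hlt : (e + 1) * wid s + g (e + 1) < N + 1 := by
        have : (e + 1) * wid s + wid s ≤ (lay (kk s) + 2) * wid s := by
          calc (e + 1) * wid s + wid s = (e + 2) * wid s := by ring
            _ ≤ (lay (kk s) + 2) * wid s := Nat.mul_le_mul_right _ (by omega)
        omega
      refine ⟨hlt, hw.tail ?_⟩
      have hbit := LUp.bit_lt (s := s) (e := e) (by omega) hge hge1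
      have hpos : p + ((e * wid s + g e) * wid s + g (e + 1)) < N := by omega
      have hx1 := hg e (by omega)
      simp only [LUp.bit_pos h] at hx1
      rw [LUp.getD x _ hpos] at hx1
      refine Or.inr ⟨⟨_, hpos⟩, ?_, fun _ => Set.mem_univ _⟩
      refine ⟨hx1, rfl, s, j, e, g e, g (e + 1), h, by omega, hge, hge1, rfl, rfl, rfl⟩
  obtain ⟨hv, hw⟩ := key (lay (kk s) + 1) le_rfl
  have : (⟨(lay (kk s) + 1) * wid s + g (lay (kk s) + 1), hv⟩ : Fin (N + 1)) =
      ⟨(lay (kk s) + 1) * wid s, by
        have h2 := LUp.wid_two h.1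
        nlinarith⟩ := by
    apply Fin.ext
    simp [hgl]
  rw [this] at hw
  exact hw

private lemma LUp.walk {N : ℕ} (x : Fin N → Bool) (hx : L1 (List.ofFn x)) :
    ∀ p : ℕ, ∀ hp : p < N + 1,
      Relation.ReflTransGen ((LUp.prog N).Step x Set.univ) (0, 0) (⟨p, hp⟩, 0) := by
  rw [LUp.L1_iff] at hx
  intro p
  induction p with
  | zero =>
    intro hp
    exact Relation.ReflTransGen.refl
  | succ p ih =>
    intro hp
    have h1 := ih (by omega)
    by_cases hs : ∃ s j, LUp.Start N p s j
    · obtain ⟨s, j, hs⟩ := hs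
      refine (h1.trans (LUp.block_walk x hs (by omega) (hx p s j hs))).tail ?_
      exact Or.inl ⟨rfl, rfl, Or.inr ⟨s, j, hs, rfl⟩⟩
    · refine h1.tail ?_
      exact Or.inl ⟨rfl, rfl, Or.inl ⟨rfl, hs⟩⟩

/-! ### From walks to yes instances -/

/-- The invariant of a walk. -/
private def LUp.Inv {N : ℕ} (x : Fin N → Bool) (u : Fin (N + 1) × Fin (N + 1)) : Prop :=
  (∀ p s j, LUp.Start N p s j → p < u.1.val → LUp.Yes x s j) ∧
  ∀ s j, LUp.Start N u.1.val s j → ∀ e a, e ≤ lay (kk s) + 1 → a < wid s → u.2.val = e * wid s + a →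
    ∃ g : ℕ → ℕ, g 0 = 0 ∧ g e = a ∧ (∀ i, g i < wid s) ∧
      ∀ e' < e, (List.ofFn x).getD (u.1.val + ((e' * wid s + g e') * wid s + g (e' + 1))) false
        = true

private lemma LUp.inv_zero {N : ℕ} {x : Fin N → Bool} {u : Fin (N + 1) × Fin (N + 1)}
    (hu : u.2.val = 0) (h : ∀ p s j, LUp.Start N p s j → p < u.1.val → LUp.Yes x s j) :
    LUp.Inv x u := by
  refine ⟨h, ?_⟩
  intro s j hs e a he ha hv
  have hq : 0 < wid s := by
    have := LUp.wid_two hs.1
    omega
  have h1 : 0 * wid s + 0 = e * wid s + a := by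
    rw [← hv, hu]
    simp
  obtain ⟨rfl, rfl⟩ := LUp.euclid hq ha h1
  exact ⟨fun _ => 0, rfl, rfl, fun _ => hq, fun e' he' => absurd he' (Nat.not_lt_zero _)⟩

private lemma LUp.inv_step {N : ℕ} {x : Fin N → Bool} {u w : Fin (N + 1) × Fin (N + 1)}
    (hu : LUp.Inv x u) (h : (LUp.prog N).Step x Set.univ u w) : LUp.Inv x w := by
  obtain ⟨hu1, hu2⟩ := hu
  rcases h with ⟨h1, h2, h3⟩ | ⟨v, ⟨hb, hw1, s, j, e, a, c, hs, he, ha, hc, hua, hwc, hv⟩, -⟩
  · refine LUp.inv_zero h2 ?_
    intro p s' j' hs' hp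
    rcases Nat.lt_or_ge p u.1.val with hlt | hge
    · exact hu1 p s' j' hs' hlt
    · have hpu : p = u.1.val := by omega
      rcases h3 with ⟨-, h4⟩ | ⟨s, j, hs, hul⟩
      · exact (h4 ⟨s', j', hpu ▸ hs'⟩).elim
      · rw [hpu] at hs'
        obtain ⟨rfl, rfl⟩ := LUp.start_unique hs hs'
        have hq : 0 < wid s := by
          have := LUp.wid_two hs.1
          omega
        obtain ⟨g, hg0, hgl, hgq, hg⟩ := hu2 s j hs (lay (kk s) + 1) 0 le_rfl hq (by omega)
        refine ⟨g, hg0, hgl, hgq, ?_⟩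
        intro e he
        have := hg e (by omega)
        simp only [LUp.bit_pos hs]
        exact this
  · refine ⟨?_, ?_⟩
    · intro p s' j' hs' hp
      exact hu1 p s' j' hs' (by omega)
    · intro s' j' hs' e' a' he' ha' hwa
      rw [hw1] at hs'
      obtain ⟨rfl, rfl⟩ := LUp.start_unique hs hs'
      obtain ⟨rfl, rfl⟩ := LUp.euclid hc ha' (hwc.symm.trans hwa)
      obtain ⟨g, hg0, hge, hgq, hg⟩ := hu2 s j hs e a (by omega) ha hua
      refine ⟨fun i => if i ≤ e then g i else c, by simp [hg0], by simp, ?_, ?_⟩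
      · intro i
        show (if i ≤ e then g i else c) < wid s
        split_ifs
        · exact hgq i
        · exact hc
      · intro e' he'
        have h1 : e' ≤ e := by omega
        rw [hw1]
        rcases Nat.lt_or_ge e' e with hlt | hge'
        · have h2 : e' + 1 ≤ e := hlt
          simp only [h1, h2, if_true]
          exact hg e' hlt
        · have h3 : e' = e := by omega
          subst h3
          have h4 : ¬ (e' + 1 ≤ e') := by omega
          simp only [le_refl, h4, if_true, if_false, hge]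
          have hvlt : u.1.val + ((e' * wid s + a) * wid s + c) < N := by
            rw [← hv]
            exact v.2
          rw [LUp.getD x _ hvlt]
          have hveq : v = ⟨u.1.val + ((e' * wid s + a) * wid s + c), hvlt⟩ := Fin.ext hv
          rw [← hveq]
          exact hb

/-- [A program for one block: nodes `(e, a)`, `e ≤ l + 1`, `a < q`. Programs in series: the number of
nodes adds up. There are at most `N` blocks, each with at most `N` nodes
(`(l + 2) q ≤ (l + 1) q ^ 2 ≤ N`).] -/
theorem l1_program (N : ℕ) :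
    ∃ (W : Type) (_ : Fintype W) (P : Prog (Fin N) W), Fintype.card W ≤ (N + 1) ^ 2 ∧ P.Mono ∧
      ∀ x, P.Accepts x ↔ L1 (List.ofFn x) := by
  refine ⟨Fin (N + 1) × Fin (N + 1), inferInstance, LUp.prog N, ?_, ?_, ?_⟩
  · simp [Fintype.card_prod, sq]
  · intro u v w h
    exact Bool.false_ne_true h.1
  · intro x
    constructor
    · intro h
      have hinv : ∀ w, Relation.ReflTransGen ((LUp.prog N).Step x Set.univ) (LUp.prog N).src w →
          LUp.Inv x w := by
        intro w hw
        induction hw with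
        | refl =>
          refine LUp.inv_zero rfl ?_
          intro p s j _ hp
          exact absurd hp (Nat.not_lt_zero _)
        | tail _ h2 ih => exact LUp.inv_step ih h2
      have h1 := (hinv _ h).1
      rw [LUp.L1_iff]
      intro p s j hs
      refine h1 p s j hs ?_
      have h2 := (LUp.start_end hs).2.2
      have h3 := LUp.n1_pos s
      show p < N
      omega
    · intro h
      exact LUp.walk x h N (by omega)

end Pool.Agent.FZ
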