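import Pool.Agent.FZ.Defs

/-!
# NL by first-order reductions to reachability
-/

namespace Pool.Agent.FZ

/-- First-order formulas about numbers and the bits of a word; the variables are numbered. -/
inductive Fml : Type
  | add (i j k : ℕ) : Fml
  | mul (i j k : ℕ) : Fml
  | bit (i : ℕ) : Fml
  | not (φ : Fml) : Fml
  | and (φ ψ : Fml) : Fml
  | ex (i : ℕ) (φ : Fml) : Fml

/-- The formula holds in the word `x` for the values `a` of the variables: `add i j k` says
`a i + a j = a k`, `mul i j k` says `a i * a j = a k`, `bit i` says that bit number `a i` of the word
is `1`, and the quantifier ranges over the numbers up to the length of the word. -/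
def Fml.Holds (x : List Bool) : Fml → (ℕ → ℕ) → Prop
  | .add i j k, a => a i + a j = a k
  | .mul i j k, a => a i * a j = a k
  | .bit i, a => x.getD (a i) false = true
  | .not φ, a => ¬ φ.Holds x a
  | .and φ ψ, a => φ.Holds x a ∧ ψ.Holds x a
  | .ex i φ, a => ∃ v ≤ x.length, φ.Holds x (Function.update a i v)

/-- The language is in NL, in the form given by Immerman: there are `k` and a first-order formula
such that, for the directed graph on the `k`-tuples of numbers up to the length `N` of the word
whose edges `(u, w)` are the pairs satisfying the formula (the variables `0, …, k - 1` are `u` and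
`k, …, 2 k - 1` are `w`), the word is in the language iff there is a walk from `(0, …, 0)` to
`(N, …, N)`. -/
def InNL (L : List Bool → Prop) : Prop :=
  ∃ (k : ℕ) (φ : Fml), ∀ x : List Bool, L x ↔
    Relation.ReflTransGen
      (fun u w : Fin k → Fin (x.length + 1) => φ.Holds x fun i =>
        if h : i < k then (u ⟨i, h⟩ : ℕ) else if h' : i - k < k then (w ⟨i - k, h'⟩ : ℕ) else 0)
      (fun _ => 0) (fun _ => Fin.last _)

end Pool.Agent.FZ
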