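import Pool.Agent.FZ.NLDefs
import Pool.Agent.FZ.LUp

/-! # The language for L versus NL is in NL -/

namespace Pool.Agent.FZ

/-- `p` is the first position of block `j` of part `s`. -/
private def NLU.Start (N p s j : ℕ) : Prop :=
  1 ≤ s ∧ j < nblk n1 N s ∧ p = bpos n1 N s j 0

private theorem NLU.n1_pos (s : ℕ) : 0 < n1 s := by
  unfold n1 wid
  positivity

private theorem NLU.start_end {N p s j : ℕ} (h : NLU.Start N p s j) :
    p + n1 s ≤ N - N / (s + 1) ∧ N - N / s ≤ p ∧ p + n1 s ≤ N := by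
  obtain ⟨h1, h2, h3⟩ := h
  have hn := NLU.n1_pos s
  unfold nblk at h2
  have h4 : (j + 1) * n1 s ≤ N / s - N / (s + 1) :=
    (Nat.le_div_iff_mul_le hn).1 h2
  have h5 : N / s ≤ N := Nat.div_le_self _ _
  unfold bpos at h3
  have h6 : (j + 1) * n1 s = j * n1 s + n1 s := by ring
  clear h2
  generalize N / s = A at *
  generalize N / (s + 1) = B at *
  omega

private theorem NLU.start_unique_aux {N p s j s' j' : ℕ} (h : NLU.Start N p s j)
    (h' : NLU.Start N p s' j') (hs : s < s') : False := by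
  have h1 := (NLU.start_end h).1
  have h2 := (NLU.start_end h').2.1
  have h3 : N / s' ≤ N / (s + 1) := Nat.div_le_div_left hs (Nat.succ_pos s)
  have h4 := NLU.n1_pos s
  generalize N / s' = A at *
  generalize N / (s + 1) = B at *
  omega

private theorem NLU.start_unique {N p s j s' j' : ℕ} (h : NLU.Start N p s j)
    (h' : NLU.Start N p s' j') : s = s' ∧ j = j' := by
  have hs : s = s' := by
    rcases lt_trichotomy s s' with hlt | heq | hgt
    · exact (NLU.start_unique_aux h h' hlt).elim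
    · exact heq
    · exact (NLU.start_unique_aux h' h hgt).elim
  subst hs
  refine ⟨rfl, ?_⟩
  obtain ⟨-, -, h3⟩ := h
  obtain ⟨-, -, h3'⟩ := h'
  unfold bpos at h3 h3'
  have h5 : j * n1 s = j' * n1 s := by omega
  exact Nat.eq_of_mul_eq_mul_right (NLU.n1_pos s) h5

private theorem NLU.wid_two {s : ℕ} (hs : 1 ≤ s) : 2 ≤ wid s := by
  unfold wid
  calc 2 ≤ 2 ^ 5 := by norm_num
    _ ≤ (s + 1) ^ 5 := Nat.pow_le_pow_left (by omega) 5

private theorem NLU.size {N p s j : ℕ} (h : NLU.Start N p s j) :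
    (lay (kk s) + 2) * wid s ≤ N := by
  have h1 := (NLU.start_end h).2.2
  have h2 := NLU.wid_two h.1
  have h3 : (lay (kk s) + 2) * wid s ≤ n1 s := by
    unfold n1
    nlinarith [Nat.zero_le (lay (kk s)), Nat.mul_le_mul_left (lay (kk s) * wid s) h2,
      Nat.mul_le_mul_left (wid s) h2]
  omega

/-- The program: nodes `(p, v)`, `p` a position, `v = e q + a` a vertex of the block starting at
`p`. -/
private def NLU.prog (N : ℕ) : Prog (Fin N) (Fin (N + 1) × Fin (N + 1)) where
  src := (0, 0)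
  acc := (Fin.last N, 0)
  free u w := w.1.val = u.1.val + 1 ∧ w.2.val = 0 ∧
    ((u.2.val = 0 ∧ ¬ ∃ s j, NLU.Start N u.1.val s j) ∨
      ∃ s j, NLU.Start N u.1.val s j ∧ u.2.val = (lay (kk s) + 1) * wid s)
  test u v b w := b = true ∧ w.1.val = u.1.val ∧ ∃ s j e a c, NLU.Start N u.1.val s j ∧
    e ≤ lay (kk s) ∧ a < wid s ∧ c < wid s ∧ u.2.val = e * wid s + a ∧
    w.2.val = (e + 1) * wid s + c ∧ v.val = u.1.val + ((e * wid s + a) * wid s + c)

private theorem NLU.euclid {q e a e' a' : ℕ} (ha : a < q) (ha' : a' < q)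
    (h : e * q + a = e' * q + a') : e = e' ∧ a = a' := by
  have hq : 0 < q := by omega
  have h1 : (e * q + a) / q = e := by
    rw [mul_comm, Nat.mul_add_div hq, Nat.div_eq_of_lt ha, add_zero]
  have h2 : (e' * q + a') / q = e' := by
    rw [mul_comm, Nat.mul_add_div hq, Nat.div_eq_of_lt ha', add_zero]
  have h3 : e = e' := by rw [← h1, ← h2, h]
  subst h3
  exact ⟨rfl, by omega⟩

private theorem NLU.getD {N : ℕ} (x : Fin N → Bool) (i : ℕ) (h : i < N) :
    (List.ofFn x).getD i false = x ⟨i, h⟩ := by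
  rw [List.getD_eq_getElem _ _ (by simpa using h)]
  simp

/-- Is block `j` of part `s` a yes instance? -/
private def NLU.Yes {N : ℕ} (x : Fin N → Bool) (s j : ℕ) : Prop :=
  f1 s (fun i => (List.ofFn x).getD (bpos n1 N s j i) false)

private theorem NLU.L1_iff {N : ℕ} (x : Fin N → Bool) :
    L1 (List.ofFn x) ↔ ∀ p s j, NLU.Start N p s j → NLU.Yes x s j := by
  unfold L1 BLang NLU.Yes
  rw [List.length_ofFn]
  constructor
  · intro h p s j hs
    exact h s hs.1 j hs.2.1
  · intro h s hs j hj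
    exact h _ s j ⟨hs, hj, rfl⟩

private theorem NLU.bit_pos {N p s j : ℕ} (h : NLU.Start N p s j) (i : ℕ) :
    bpos n1 N s j i = p + i := by
  obtain ⟨-, -, rfl⟩ := h
  unfold bpos
  omega

private theorem NLU.bit_lt {s e a c : ℕ} (he : e ≤ lay (kk s)) (ha : a < wid s) (hc : c < wid s) :
    (e * wid s + a) * wid s + c < n1 s := by
  unfold n1
  have h1 : e * wid s + a + 1 ≤ (lay (kk s) + 1) * wid s := by
    calc e * wid s + a + 1 ≤ e * wid s + wid s := by omega
      _ = (e + 1) * wid s := by ring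
      _ ≤ (lay (kk s) + 1) * wid s := Nat.mul_le_mul_right _ (by omega)
  calc (e * wid s + a) * wid s + c < (e * wid s + a) * wid s + wid s := by omega
    _ = (e * wid s + a + 1) * wid s := by ring
    _ ≤ ((lay (kk s) + 1) * wid s) * wid s := Nat.mul_le_mul_right _ h1
    _ = (lay (kk s) + 1) * wid s ^ 2 := by ring

/-! ### From yes instances to walks -/

private theorem NLU.block_walk {N : ℕ} (x : Fin N → Bool) {p s j : ℕ} (h : NLU.Start N p s j)
    (hp : p < N + 1) (hx : NLU.Yes x s j) :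
    Relation.ReflTransGen ((NLU.prog N).Step x Set.univ) (⟨p, hp⟩, 0)
      (⟨p, hp⟩, ⟨(lay (kk s) + 1) * wid s, by
        have := NLU.size h
        have h2 := NLU.wid_two h.1
        nlinarith⟩) := by
  obtain ⟨g, hg0, hgl, hgq, hg⟩ := hx
  have hsz := NLU.size h
  have hend := (NLU.start_end h).2.2
  have key : ∀ e : ℕ, e ≤ lay (kk s) + 1 → ∃ hv : e * wid s + g e < N + 1,
      Relation.ReflTransGen ((NLU.prog N).Step x Set.univ) (⟨p, hp⟩, 0)
        (⟨p, hp⟩, ⟨e * wid s + g e, hv⟩) := by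
    intro e
    induction e with
    | zero =>
      intro _
      refine ⟨by simp [hg0], ?_⟩
      have : (⟨0 * wid s + g 0, by simp [hg0]⟩ : Fin (N + 1)) = 0 := by
        apply Fin.ext
        simp [hg0]
      rw [this]
    | succ e ih =>
      intro he
      obtain ⟨hv, hw⟩ := ih (by omega)
      have hge := hgq e
      have hge1 := hgq (e + 1)
      have hlt : (e + 1) * wid s + g (e + 1) < N + 1 := by
        have : (e + 1) * wid s + wid s ≤ (lay (kk s) + 2) * wid s := by
          calc (e + 1) * wid s + wid s = (e + 2) * wid s := by ring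
            _ ≤ (lay (kk s) + 2) * wid s := Nat.mul_le_mul_right _ (by omega)
        omega
      refine ⟨hlt, hw.tail ?_⟩
      have hbit := NLU.bit_lt (s := s) (e := e) (by omega) hge hge1
      have hpos : p + ((e * wid s + g e) * wid s + g (e + 1)) < N := by omega
      have hx1 := hg e (by omega)
      simp only [NLU.bit_pos h] at hx1
      rw [NLU.getD x _ hpos] at hx1
      refine Or.inr ⟨⟨_, hpos⟩, ?_, fun _ => Set.mem_univ _⟩
      refine ⟨hx1, rfl, s, j, e, g e, g (e + 1), h, by omega, hge, hge1, rfl, rfl, rfl⟩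
  obtain ⟨hv, hw⟩ := key (lay (kk s) + 1) le_rfl
  have : (⟨(lay (kk s) + 1) * wid s + g (lay (kk s) + 1), hv⟩ : Fin (N + 1)) =
      ⟨(lay (kk s) + 1) * wid s, by
        have h2 := NLU.wid_two h.1
        nlinarith⟩ := by
    apply Fin.ext
    simp [hgl]
  rw [this] at hw
  exact hw

private theorem NLU.walk {N : ℕ} (x : Fin N → Bool) (hx : L1 (List.ofFn x)) :
    ∀ p : ℕ, ∀ hp : p < N + 1,
      Relation.ReflTransGen ((NLU.prog N).Step x Set.univ) (0, 0) (⟨p, hp⟩, 0) := by
  rw [NLU.L1_iff] at hx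
  intro p
  induction p with
  | zero =>
    intro hp
    exact Relation.ReflTransGen.refl
  | succ p ih =>
    intro hp
    have h1 := ih (by omega)
    by_cases hs : ∃ s j, NLU.Start N p s j
    · obtain ⟨s, j, hs⟩ := hs
      refine (h1.trans (NLU.block_walk x hs (by omega) (hx p s j hs))).tail ?_
      exact Or.inl ⟨rfl, rfl, Or.inr ⟨s, j, hs, rfl⟩⟩
    · refine h1.tail ?_
      exact Or.inl ⟨rfl, rfl, Or.inl ⟨rfl, hs⟩⟩

/-! ### From walks to yes instances -/

/-- The invariant of a walk. -/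
private def NLU.Inv {N : ℕ} (x : Fin N → Bool) (u : Fin (N + 1) × Fin (N + 1)) : Prop :=
  (∀ p s j, NLU.Start N p s j → p < u.1.val → NLU.Yes x s j) ∧
  ∀ s j, NLU.Start N u.1.val s j → ∀ e a, e ≤ lay (kk s) + 1 → a < wid s → u.2.val = e * wid s + a →
    ∃ g : ℕ → ℕ, g 0 = 0 ∧ g e = a ∧ (∀ i, g i < wid s) ∧
      ∀ e' < e, (List.ofFn x).getD (u.1.val + ((e' * wid s + g e') * wid s + g (e' + 1))) false
        = true

private theorem NLU.inv_zero {N : ℕ} {x : Fin N → Bool} {u : Fin (N + 1) × Fin (N + 1)}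
    (hu : u.2.val = 0) (h : ∀ p s j, NLU.Start N p s j → p < u.1.val → NLU.Yes x s j) :
    NLU.Inv x u := by
  refine ⟨h, ?_⟩
  intro s j hs e a he ha hv
  have hq : 0 < wid s := by
    have := NLU.wid_two hs.1
    omega
  have h1 : 0 * wid s + 0 = e * wid s + a := by
    rw [← hv, hu]
    simp
  obtain ⟨rfl, rfl⟩ := NLU.euclid hq ha h1
  exact ⟨fun _ => 0, rfl, rfl, fun _ => hq, fun e' he' => absurd he' (Nat.not_lt_zero _)⟩

private theorem NLU.inv_step {N : ℕ} {x : Fin N → Bool} {u w : Fin (N + 1) × Fin (N + 1)}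
    (hu : NLU.Inv x u) (h : (NLU.prog N).Step x Set.univ u w) : NLU.Inv x w := by
  obtain ⟨hu1, hu2⟩ := hu
  rcases h with ⟨h1, h2, h3⟩ | ⟨v, ⟨hb, hw1, s, j, e, a, c, hs, he, ha, hc, hua, hwc, hv⟩, -⟩
  · refine NLU.inv_zero h2 ?_
    intro p s' j' hs' hp
    rcases Nat.lt_or_ge p u.1.val with hlt | hge
    · exact hu1 p s' j' hs' hlt
    · have hpu : p = u.1.val := by omega
      rcases h3 with ⟨-, h4⟩ | ⟨s, j, hs, hul⟩
      · exact (h4 ⟨s', j', hpu ▸ hs'⟩).elim
      · rw [hpu] at hs'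
        obtain ⟨rfl, rfl⟩ := NLU.start_unique hs hs'
        have hq : 0 < wid s := by
          have := NLU.wid_two hs.1
          omega
        obtain ⟨g, hg0, hgl, hgq, hg⟩ := hu2 s j hs (lay (kk s) + 1) 0 le_rfl hq (by omega)
        refine ⟨g, hg0, hgl, hgq, ?_⟩
        intro e he
        have := hg e (by omega)
        simp only [NLU.bit_pos hs]
        exact this
  · refine ⟨?_, ?_⟩
    · intro p s' j' hs' hp
      exact hu1 p s' j' hs' (by omega)
    · intro s' j' hs' e' a' he' ha' hwa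
      rw [hw1] at hs'
      obtain ⟨rfl, rfl⟩ := NLU.start_unique hs hs'
      obtain ⟨rfl, rfl⟩ := NLU.euclid hc ha' (hwc.symm.trans hwa)
      obtain ⟨g, hg0, hge, hgq, hg⟩ := hu2 s j hs e a (by omega) ha hua
      refine ⟨fun i => if i ≤ e then g i else c, by simp [hg0], by simp, ?_, ?_⟩
      · intro i
        show (if i ≤ e then g i else c) < wid s
        split_ifs
        · exact hgq i
        · exact hc
      · intro e' he'
        have h1 : e' ≤ e := by omega
        rw [hw1]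
        rcases Nat.lt_or_ge e' e with hlt | hge'
        · have h2 : e' + 1 ≤ e := hlt
          simp only [h1, h2, if_true]
          exact hg e' hlt
        · have h3 : e' = e := by omega
          subst h3
          have h4 : ¬ (e' + 1 ≤ e') := by omega
          simp only [le_refl, h4, if_true, if_false, hge]
          have hvlt : u.1.val + ((e' * wid s + a) * wid s + c) < N := by
            rw [← hv]
            exact v.2
          rw [NLU.getD x _ hvlt]
          have hveq : v = ⟨u.1.val + ((e' * wid s + a) * wid s + c), hvlt⟩ := Fin.ext hv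
          rw [← hveq]
          exact hb

/-- The program accepts exactly the words of the language. -/
private theorem NLU.prog_accepts {N : ℕ} (x : Fin N → Bool) :
    Relation.ReflTransGen ((NLU.prog N).Step x Set.univ) (0, 0) (Fin.last N, 0) ↔
      L1 (List.ofFn x) := by
  constructor
  · intro h
    have hinv : ∀ w, Relation.ReflTransGen ((NLU.prog N).Step x Set.univ) (0, 0) w →
        NLU.Inv x w := by
      intro w hw
      induction hw with
      | refl =>
        refine NLU.inv_zero rfl ?_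
        intro p s j _ hp
        exact absurd hp (Nat.not_lt_zero _)
      | tail _ h2 ih => exact NLU.inv_step ih h2
    have h1 := (hinv _ h).1
    rw [NLU.L1_iff]
    intro p s j hs
    refine h1 p s j hs ?_
    have h2 := (NLU.start_end hs).2.2
    have h3 := NLU.n1_pos s
    show p < N
    omega
  · intro h
    exact NLU.walk x h N (by omega)

/-! ### Definable relations -/

/-- The relation `R` of words and assignments is defined by a formula. -/
private def NLU.Def (R : List Bool → (ℕ → ℕ) → Prop) : Prop :=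
  ∃ φ : Fml, ∀ x a, (∀ i, a i ≤ x.length) → (φ.Holds x a ↔ R x a)

namespace NLU

private theorem Def.congr {R R' : List Bool → (ℕ → ℕ) → Prop} (h : Def R)
    (e : ∀ x a, (∀ i, a i ≤ x.length) → (R x a ↔ R' x a)) : Def R' := by
  obtain ⟨φ, hφ⟩ := h
  exact ⟨φ, fun x a ha => (hφ x a ha).trans (e x a ha)⟩

private theorem Def.not {R : List Bool → (ℕ → ℕ) → Prop} (h : Def R) :
    Def (fun x a => ¬ R x a) := by
  obtain ⟨φ, hφ⟩ := h
  exact ⟨.not φ, fun x a ha => not_congr (hφ x a ha)⟩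

private theorem Def.and {R R' : List Bool → (ℕ → ℕ) → Prop} (h : Def R) (h' : Def R') :
    Def (fun x a => R x a ∧ R' x a) := by
  obtain ⟨φ, hφ⟩ := h
  obtain ⟨φ', hφ'⟩ := h'
  exact ⟨.and φ φ', fun x a ha => and_congr (hφ x a ha) (hφ' x a ha)⟩

private theorem Def.or {R R' : List Bool → (ℕ → ℕ) → Prop} (h : Def R) (h' : Def R') :
    Def (fun x a => R x a ∨ R' x a) :=
  (h.not.and h'.not).not.congr fun x a _ => by tauto

private theorem Def.imp {R R' : List Bool → (ℕ → ℕ) → Prop} (h : Def R) (h' : Def R') :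
    Def (fun x a => R x a → R' x a) :=
  (h.not.or h').congr fun x a _ => by tauto

private theorem Def.ex (i : ℕ) {R : List Bool → (ℕ → ℕ) → Prop} (h : Def R) :
    Def (fun x a => ∃ v ≤ x.length, R x (Function.update a i v)) := by
  obtain ⟨φ, hφ⟩ := h
  refine ⟨.ex i φ, fun x a ha => ?_⟩
  refine exists_congr fun v => and_congr_right fun hv => hφ x _ fun j => ?_
  by_cases hj : j = i
  · subst hj; rw [Function.update_self]; exact hv
  · rw [Function.update_of_ne hj]; exact ha j

private theorem Def.all (i : ℕ) {R : List Bool → (ℕ → ℕ) → Prop} (h : Def R) :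
    Def (fun x a => ∀ v ≤ x.length, R x (Function.update a i v)) :=
  (h.not.ex i).not.congr fun x a _ => by push Not; rfl

private theorem d_add (i j k : ℕ) : Def (fun _ a => a i + a j = a k) := ⟨.add i j k, fun _ _ _ => Iff.rfl⟩

private theorem d_mul (i j k : ℕ) : Def (fun _ a => a i * a j = a k) := ⟨.mul i j k, fun _ _ _ => Iff.rfl⟩

private theorem d_bit (i : ℕ) : Def (fun x a => x.getD (a i) false = true) :=
  ⟨.bit i, fun _ _ _ => Iff.rfl⟩

private theorem d_zero (i : ℕ) : Def (fun _ a => a i = 0) :=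
  (d_add i i i).congr fun x a _ => by omega

private theorem d_one (i : ℕ) : Def (fun _ a => a i = 1) :=
  ((d_mul i i i).and (d_zero i).not).congr fun x a _ => by
    constructor
    · rintro ⟨h1, h2⟩
      exact Nat.eq_of_mul_eq_mul_left (Nat.pos_of_ne_zero h2) (by rw [h1, mul_one])
    · intro h; rw [h]; exact ⟨rfl, by norm_num⟩

private theorem d_le (i j : ℕ) : Def (fun _ a => a i ≤ a j) :=
  ((d_add i (i + j + 1) j).ex (i + j + 1)).congr fun x a ha => by
    have h1 : i ≠ i + j + 1 := by omega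
    have h2 : j ≠ i + j + 1 := by omega
    simp only [Function.update_self, Function.update_of_ne h1, Function.update_of_ne h2]
    have := ha j
    constructor
    · rintro ⟨v, _, h⟩; omega
    · intro h; exact ⟨a j - a i, by omega, by omega⟩

private theorem d_eq (i j : ℕ) : Def (fun _ a => a i = a j) :=
  ((d_le i j).and (d_le j i)).congr fun x a _ => by omega

private theorem d_lt (i j : ℕ) : Def (fun _ a => a i < a j) :=
  (d_le j i).not.congr fun x a _ => by omega

private theorem d_succ (i j : ℕ) : Def (fun _ a => a j = a i + 1) :=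
  (((d_one (i + j + 1)).and (d_add i (i + j + 1) j)).ex (i + j + 1)).congr fun x a ha => by
    have h1 : i ≠ i + j + 1 := by omega
    have h2 : j ≠ i + j + 1 := by omega
    simp only [Function.update_self, Function.update_of_ne h1, Function.update_of_ne h2]
    have := ha j
    constructor
    · rintro ⟨v, _, rfl, h⟩; omega
    · intro h; exact ⟨1, by omega, rfl, by omega⟩

private theorem d_top (i : ℕ) : Def (fun x a => a i = x.length) :=
  ((d_le (i + 1) i).all (i + 1)).congr fun x a ha => by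
    have h1 : i ≠ i + 1 := by omega
    simp only [Function.update_self, Function.update_of_ne h1]
    have := ha i
    constructor
    · intro h; have := h x.length le_rfl; omega
    · intro h v hv; omega

/-- `a k = N / a i`, `a i > 0` -/
private theorem d_quot (i k : ℕ) : Def (fun x a => 0 < a i ∧ a k = x.length / a i) :=
  (((((d_top (i + k + 1)).and ((d_mul k i (i + k + 2)).and
    ((d_add (i + k + 2) (i + k + 3) (i + k + 1)).and (d_lt (i + k + 3) i)))).ex
    (i + k + 3)).ex (i + k + 2)).ex (i + k + 1)).congr fun x a ha => by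
    have h1 : i ≠ i + k + 1 := by omega
    have h2 : i ≠ i + k + 2 := by omega
    have h3 : i ≠ i + k + 3 := by omega
    have h4 : k ≠ i + k + 1 := by omega
    have h5 : k ≠ i + k + 2 := by omega
    have h6 : k ≠ i + k + 3 := by omega
    have h7 : i + k + 1 ≠ i + k + 2 := by omega
    have h8 : i + k + 1 ≠ i + k + 3 := by omega
    have h9 : i + k + 2 ≠ i + k + 3 := by omega
    simp only [Function.update_self, Function.update_of_ne h1, Function.update_of_ne h2,
      Function.update_of_ne h3, Function.update_of_ne h4, Function.update_of_ne h5,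
      Function.update_of_ne h6, Function.update_of_ne h7, Function.update_of_ne h8,
      Function.update_of_ne h9]
    constructor
    · rintro ⟨v, _, w, _, z, _, rfl, h11, h12, h13⟩
      refine ⟨by omega, ?_⟩
      symm
      rw [Nat.div_eq_iff (by omega)]
      rw [← h11] at h12
      constructor
      · omega
      · rw [← h12]; omega
    · rintro ⟨h11, h12⟩
      have h13 := Nat.div_add_mod x.length (a i)
      have h14 := Nat.mod_lt x.length h11
      refine ⟨x.length, le_rfl, a k * a i, ?_, x.length % a i, ?_, rfl, rfl, ?_, h14⟩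
      · rw [h12]; exact Nat.div_mul_le_self _ _
      · exact Nat.mod_le _ _
      · rw [h12, mul_comm]; exact h13

/-! ### The numbers of a block -/

private theorem pow2_iff {m N : ℕ} (hm : m ≤ N) : (∃ t, m = 2 ^ t) ↔
    m ≠ 0 ∧ ∀ d ≤ N, ∀ e ≤ N, d * e = m → d = 1 ∨ ∃ f ≤ N, f + f = d := by
  constructor
  · rintro ⟨t, rfl⟩
    refine ⟨by positivity, fun d hd e _ hde => ?_⟩
    obtain ⟨i, hi, rfl⟩ := (Nat.dvd_prime_pow Nat.prime_two).1 (Dvd.intro e hde)
    rcases i with _ | i
    · exact Or.inl rfl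
    · exact Or.inr ⟨2 ^ i, by rw [pow_succ] at hd; omega, by rw [pow_succ]; ring⟩
  · rintro ⟨h0, h⟩
    refine ⟨_, Nat.eq_prime_pow_of_unique_prime_dvd h0 fun {d} hd hdm => ?_⟩
    obtain ⟨e, he⟩ := hdm
    have hd' : d ≤ m := Nat.le_of_dvd (Nat.pos_of_ne_zero h0) ⟨e, he⟩
    have he' : e ≤ m := Nat.le_of_dvd (Nat.pos_of_ne_zero h0) ⟨d, by rw [he, mul_comm]⟩
    rcases h d (by omega) e (by omega) he.symm with h1 | ⟨f, _, hf⟩
    · exact absurd h1 hd.one_lt.ne'
    · have : 2 ∣ d := ⟨f, by omega⟩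
      exact ((Nat.prime_dvd_prime_iff_eq Nat.prime_two hd).1 this).symm

/-- power of two -/
private theorem d_pow2 (i : ℕ) : Def (fun _ a => ∃ t, a i = 2 ^ t) := by
  have h := (d_zero i).not.and (((((d_mul (i + 1) (i + 2) i).imp ((d_one (i + 1)).or
    ((d_add (i + 3) (i + 3) (i + 1)).ex (i + 3))))).all (i + 2)).all (i + 1))
  refine h.congr fun x a ha => ?_
  have h1 : i ≠ i + 1 := by omega
  have h2 : i ≠ i + 2 := by omega
  have h4 : i + 1 ≠ i + 2 := by omega
  have h5 : i + 1 ≠ i + 3 := by omega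
  simp only [Function.update_self, Function.update_of_ne h1, Function.update_of_ne h2,
    Function.update_of_ne h4, Function.update_of_ne h5]
  exact (pow2_iff (ha i)).symm

/-- the data of a block -/
private def St (N p s j m w : ℕ) : Prop := Start N p s j ∧ m = lay (kk s) ∧ w = wid s

private theorem d_wid : Def (fun _ a => a 7 = wid (a 4)) := by
  have h := (((((d_succ 4 8).and ((d_mul 8 8 9).and ((d_mul 9 9 10).and (d_mul 10 8 7)))).ex
    10).ex 9).ex 8)
  refine h.congr fun x a ha => ?_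
  simp only [Function.update_apply]
  norm_num
  unfold wid
  have h7 := ha 7
  constructor
  · rintro ⟨b, hb, c, hc, d, hd, rfl, rfl, rfl, h⟩
    rw [← h]; ring
  · intro h
    have h1 : a 4 + 1 ≤ (a 4 + 1) ^ 5 := Nat.le_self_pow (by norm_num) _
    have h2 : (a 4 + 1) ^ 2 ≤ (a 4 + 1) ^ 5 := Nat.pow_le_pow_right (by omega) (by norm_num)
    have h4 : (a 4 + 1) ^ 4 ≤ (a 4 + 1) ^ 5 := Nat.pow_le_pow_right (by omega) (by norm_num)
    exact ⟨a 4 + 1, by omega, (a 4 + 1) ^ 2, by omega, (a 4 + 1) ^ 4, by omega, rfl, by ring,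
      by ring, by rw [h]; ring⟩

private theorem lay_iff {s m : ℕ} (hs : 1 ≤ s) :
    m = lay (kk s) ↔ (∃ t, m = 2 ^ t) ∧ m ≤ s ∧ s < m + m := by
  have hl : lay (kk s) = 2 ^ Nat.log 2 s := by unfold lay kk; rw [Nat.add_sub_cancel]
  rw [hl]
  have h1 : 2 ^ Nat.log 2 s ≤ s := Nat.pow_log_le_self 2 (by omega)
  have h2 : s < 2 ^ (Nat.log 2 s + 1) := Nat.lt_pow_succ_log_self (by norm_num) s
  constructor
  · rintro rfl
    refine ⟨⟨_, rfl⟩, h1, ?_⟩
    rw [pow_succ] at h2; omega
  · rintro ⟨⟨t, rfl⟩, h3, h4⟩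
    congr 1
    symm
    rw [Nat.log_eq_iff (Or.inr ⟨by norm_num, by omega⟩)]
    exact ⟨h3, by rw [pow_succ]; omega⟩

/-- `m = lay (kk s)`, for `m` in place `6`, `s` in place `4` -/
private theorem d_lay : Def (fun _ a => 1 ≤ a 4 ∧ a 6 = lay (kk (a 4))) := by
  have h := (d_zero 4).not.and ((d_pow2 6).and (((d_add 6 8 4).and (d_lt 8 6)).ex 8))
  refine h.congr fun x a ha => ?_
  simp only [Function.update_apply]
  norm_num
  constructor
  · rintro ⟨h1, h2, r, _, h3, h4⟩
    have hs : 1 ≤ a 4 := by omega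
    exact ⟨hs, (lay_iff hs).2 ⟨h2, by omega, by omega⟩⟩
  · rintro ⟨hs, h⟩
    obtain ⟨h2, h3, h4⟩ := (lay_iff hs).1 h
    have := ha 4
    exact ⟨by omega, h2, a 4 - a 6, by omega, by omega, by omega⟩

/-- `n = (m + 1) * w ^ 2`, in places `8, 6, 7` -/
private theorem d_n : Def (fun _ a => 0 < a 7 ∧ a 8 = (a 6 + 1) * a 7 ^ 2) := by
  have h := (d_zero 7).not.and ((((d_succ 6 9).and ((d_mul 7 7 10).and (d_mul 9 10 8))).ex
    10).ex 9)
  refine h.congr fun x a ha => ?_
  simp only [Function.update_apply]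
  norm_num
  have h8 := ha 8
  constructor
  · rintro ⟨h1, v, _, u, _, rfl, rfl, h⟩
    exact ⟨by omega, by rw [← h]; ring⟩
  · rintro ⟨h1, h⟩
    have h2 : 0 < a 7 ^ 2 := by positivity
    have h3 : a 6 + 1 ≤ (a 6 + 1) * a 7 ^ 2 := Nat.le_mul_of_pos_right _ h2
    have h4 : a 7 * a 7 ≤ (a 6 + 1) * a 7 ^ 2 := by
      rw [← sq]; exact Nat.le_mul_of_pos_left _ (by omega)
    exact ⟨by omega, a 6 + 1, by omega, a 7 * a 7, by omega, rfl, rfl, by rw [h]; ring⟩

/-- the position of a block, in places `0` (position), `4` (part), `5` (number), `8` (length) -/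
private theorem d_pos : Def (fun x a => 0 < a 4 ∧ a 4 + 1 ≤ x.length ∧ 0 < a 8 ∧
    (a 5 + 1) * a 8 + x.length / (a 4 + 1) ≤ x.length / a 4 ∧
    a 0 + x.length / a 4 = x.length + a 5 * a 8) := by
  have h := (d_zero 8).not.and (Def.ex 9 (Def.ex 10 (Def.ex 11 (Def.ex 12 (Def.ex 13 (Def.ex 14
    (Def.ex 15 (Def.ex 16 (Def.ex 17 ((d_succ 4 9).and ((d_quot 4 10).and ((d_quot 9 11).and
    ((d_succ 5 12).and ((d_mul 12 8 13).and ((d_add 13 11 14).and ((d_le 14 10).and
    ((d_mul 5 8 15).and ((d_top 17).and ((d_add 16 10 17).and (d_add 16 15 0))))))))))))))))))))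
  refine h.congr fun x a ha => ?_
  clear h
  simp only [Function.update_apply]
  norm_num
  have h0 := ha 0
  have h4 := ha 4
  constructor
  · rintro ⟨h1, t1, ht1, A, hA, B, hB, j1, hj1, y, hy, z, hz, jn, hjn, NA, hNA, NN, hNN, e1, ⟨e2, e3⟩,
      ⟨_, e4⟩, e5, e6, e7, e8, e9, e10, e11, e12⟩
    subst e1
    subst e5
    subst e3
    subst e4
    subst e6
    subst e9
    subst e10
    exact ⟨e2, ht1, by omega, by omega, by omega⟩
  · rintro ⟨h1, h2, h3, h5, h6⟩
    have h7 : x.length / a 4 ≤ x.length := Nat.div_le_self _ _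
    have h8 : x.length / (a 4 + 1) ≤ x.length := Nat.div_le_self _ _
    have h9 : a 5 * a 8 ≤ (a 5 + 1) * a 8 := Nat.mul_le_mul_right _ (by omega)
    have h10 : a 5 + 1 ≤ (a 5 + 1) * a 8 := Nat.le_mul_of_pos_right _ h3
    have h11 : (a 5 + 1) * a 8 ≤ x.length / a 4 := le_trans (Nat.le_add_right _ _) h5
    refine ⟨by omega, a 4 + 1, h2, x.length / a 4, h7, x.length / (a 4 + 1), h8, a 5 + 1,
      h10.trans (h11.trans h7),
      (a 5 + 1) * a 8, h11.trans h7, (a 5 + 1) * a 8 + x.length / (a 4 + 1), h5.trans h7, a 5 * a 8,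
      h9.trans (h11.trans h7), x.length - x.length / a 4, Nat.sub_le _ _, x.length, le_rfl, rfl, ⟨h1, rfl⟩,
      ⟨by omega, rfl⟩, rfl, rfl, rfl, h5, rfl, rfl, by omega, by omega⟩

private theorem St_iff {N p s j m w : ℕ} : St N p s j m w ↔
    (1 ≤ s ∧ m = lay (kk s)) ∧ w = wid s ∧ ∃ n ≤ N, (0 < w ∧ n = (m + 1) * w ^ 2) ∧
      0 < s ∧ s + 1 ≤ N ∧ 0 < n ∧ (j + 1) * n + N / (s + 1) ≤ N / s ∧ p + N / s = N + j * n := by
  constructor
  · rintro ⟨h, rfl, rfl⟩
    have hw := wid_two h.1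
    have hend := start_end h
    have hn := n1_pos s
    have hws : s + 1 ≤ wid s := Nat.le_self_pow (by norm_num) _
    have hwn : wid s ≤ n1 s := by
      unfold n1
      calc wid s ≤ wid s ^ 2 := Nat.le_self_pow (by norm_num) _
        _ ≤ _ := Nat.le_mul_of_pos_left _ (by omega)
    obtain ⟨h1, h2, h3⟩ := h
    unfold nblk at h2
    have h4 : (j + 1) * n1 s ≤ N / s - N / (s + 1) := (Nat.le_div_iff_mul_le hn).1 h2
    have h5 : N / s ≤ N := Nat.div_le_self _ _
    have h6 : 0 < (j + 1) * n1 s := by positivity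
    unfold bpos at h3
    refine ⟨⟨h1, rfl⟩, rfl, n1 s, by omega, ⟨by omega, rfl⟩, by omega, by omega, hn, by omega,
      by omega⟩
  · rintro ⟨⟨h1, rfl⟩, rfl, n, hn, ⟨h2, rfl⟩, h3, h4, h5, h6, h7⟩
    refine ⟨⟨h1, ?_, ?_⟩, rfl, rfl⟩
    · unfold nblk
      show j + 1 ≤ _
      rw [Nat.le_div_iff_mul_le (n1_pos s)]
      change (j + 1) * ((lay (kk s) + 1) * wid s ^ 2) ≤ _
      omega
    · have h8 : N / s ≤ N := Nat.div_le_self _ _
      unfold bpos n1
      omega

private theorem d_St : Def (fun x a => St x.length (a 0) (a 4) (a 5) (a 6) (a 7)) := by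
  have h := d_lay.and (d_wid.and ((d_n.and d_pos).ex 8))
  refine h.congr fun x a ha => ?_
  clear h
  rw [St_iff]
  simp

private theorem d_mulA : Def (fun _ a => 0 < a 7 ∧ a 1 = (a 6 + 1) * a 7) := by
  have h := (d_zero 7).not.and (((d_succ 6 8).and (d_mul 8 7 1)).ex 8)
  refine h.congr fun x a ha => ?_
  clear h
  simp only [Function.update_apply]
  norm_num
  have h1 := ha 1
  constructor
  · rintro ⟨h2, v, _, rfl, h⟩
    exact ⟨by omega, h.symm⟩
  · rintro ⟨h2, h⟩
    have h3 : a 6 + 1 ≤ (a 6 + 1) * a 7 := Nat.le_mul_of_pos_right _ h2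
    exact ⟨by omega, a 6 + 1, by omega, rfl, h.symm⟩

private theorem d_mulB : Def (fun x a => 0 < a 7 ∧ a 8 ≤ a 6 ∧ a 9 < a 7 ∧ a 10 < a 7 ∧
    a 1 = a 8 * a 7 + a 9 ∧ a 3 = (a 8 + 1) * a 7 + a 10 ∧
    a 0 + ((a 8 * a 7 + a 9) * a 7 + a 10) ≤ x.length ∧
    x.getD (a 0 + ((a 8 * a 7 + a 9) * a 7 + a 10)) false = true) := by
  have h := (d_zero 7).not.and ((d_le 8 6).and ((d_lt 9 7).and ((d_lt 10 7).and
    (Def.ex 11 (Def.ex 12 (Def.ex 13 (Def.ex 14 (Def.ex 15 (Def.ex 16
      ((d_mul 8 7 11).and ((d_add 11 9 1).and ((d_succ 8 12).and ((d_mul 12 7 13).and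
      ((d_add 13 10 3).and ((d_mul 1 7 14).and ((d_add 14 10 15).and ((d_add 0 15 16).and
      (d_bit 16))))))))))))))))))
  refine h.congr fun x a ha => ?_
  clear h
  simp only [Function.update_apply]
  norm_num
  have h1 := ha 1
  have h3 := ha 3
  constructor
  · rintro ⟨g1, g2, g3, g4, t1, _, t2, _, t3, _, t4, _, t5, _, t6, ht6, rfl, e2, rfl, rfl, e5, rfl,
      rfl, rfl, e9⟩
    rw [← e2] at ht6 e9
    exact ⟨by omega, g2, g3, g4, e2.symm, e5.symm, ht6, e9⟩
  · rintro ⟨g1, g2, g3, g4, g5, g6, g7, g8⟩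
    have e1 : a 8 + 1 ≤ (a 8 + 1) * a 7 := Nat.le_mul_of_pos_right _ g1
    rw [← g5] at g7 g8
    generalize hX : a 8 * a 7 = X at *
    generalize hY : (a 8 + 1) * a 7 = Y at *
    generalize hZ : a 1 * a 7 = Z at *
    refine ⟨by omega, g2, g3, g4, X, by omega, a 8 + 1, by omega, Y, by omega, Z, by omega, Z + a 10,
      by omega, a 0 + (Z + a 10), g7, rfl, g5.symm, rfl, hY, g6.symm, rfl, rfl, rfl, g8⟩

/-- the edges of the graph -/
private def Edge (x : List Bool) (p v p' v' : ℕ) : Prop :=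
  (p' = p + 1 ∧ v' = 0 ∧
    ((v = 0 ∧ ¬ ∃ s ≤ x.length, ∃ j ≤ x.length, ∃ m ≤ x.length, ∃ w ≤ x.length,
        St x.length p s j m w) ∨
      ∃ s ≤ x.length, ∃ j ≤ x.length, ∃ m ≤ x.length, ∃ w ≤ x.length,
        St x.length p s j m w ∧ 0 < w ∧ v = (m + 1) * w)) ∨
  (p' = p ∧ ∃ s ≤ x.length, ∃ j ≤ x.length, ∃ m ≤ x.length, ∃ w ≤ x.length,
    St x.length p s j m w ∧ ∃ e ≤ x.length, ∃ a ≤ x.length, ∃ c ≤ x.length,
      0 < w ∧ e ≤ m ∧ a < w ∧ c < w ∧ v = e * w + a ∧ v' = (e + 1) * w + c ∧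
      p + ((e * w + a) * w + c) ≤ x.length ∧
      x.getD (p + ((e * w + a) * w + c)) false = true) ∨
  (p = x.length ∧ v = 0 ∧ p' = x.length ∧ v' = x.length)

private theorem d_edge : Def (fun x a => Edge x (a 0) (a 1) (a 2) (a 3)) := by
  have h := ((d_succ 0 2).and ((d_zero 3).and (((d_zero 1).and
      (Def.ex 4 (Def.ex 5 (Def.ex 6 (Def.ex 7 d_St)))).not).or
      (Def.ex 4 (Def.ex 5 (Def.ex 6 (Def.ex 7 (d_St.and d_mulA)))))))).or
    (((d_eq 2 0).and (Def.ex 4 (Def.ex 5 (Def.ex 6 (Def.ex 7 (d_St.and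
      (Def.ex 8 (Def.ex 9 (Def.ex 10 d_mulB))))))))).or
    ((d_top 0).and ((d_zero 1).and ((d_top 2).and (d_top 3)))))
  refine h.congr fun x a ha => ?_
  clear h
  unfold Edge
  simp

private theorem start_bounds {N p s j : ℕ} (h : Start N p s j) :
    s ≤ N ∧ j ≤ N ∧ lay (kk s) ≤ N ∧ wid s ≤ N := by
  obtain ⟨⟨h1, _⟩, _, n, hn, ⟨h2, h3⟩, h4, h5, h6, h7, _⟩ :=
    St_iff.1 (⟨h, rfl, rfl⟩ : St N p s j (lay (kk s)) (wid s))
  have h8 : N / s ≤ N := Nat.div_le_self _ _
  have h9 : j + 1 ≤ (j + 1) * n := Nat.le_mul_of_pos_right _ h6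
  have h10 : (j + 1) * n ≤ N := le_trans (Nat.le_add_right _ _) (h7.trans h8)
  have h11 : 0 < wid s ^ 2 := by positivity
  have h12 : lay (kk s) + 1 ≤ n := by rw [h3]; exact Nat.le_mul_of_pos_right _ h11
  have h13 : wid s ≤ n := by
    rw [h3]
    calc wid s ≤ wid s ^ 2 := Nat.le_self_pow (by norm_num) _
      _ ≤ _ := Nat.le_mul_of_pos_left _ (by omega)
  exact ⟨by omega, by omega, by omega, by omega⟩

private theorem edge_of_step {N : ℕ} {x : Fin N → Bool} {u w : Fin (N + 1) × Fin (N + 1)}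
    (h : (prog N).Step x Set.univ u w) : Edge (List.ofFn x) u.1 u.2 w.1 w.2 := by
  unfold Edge
  rw [List.length_ofFn]
  rcases h with ⟨h1, h2, h3⟩ | ⟨v, ⟨hb, hw1, s, j, e, a, c, hs, he, ha, hc, hua, hwc, hv⟩, -⟩
  · refine Or.inl ⟨h1, h2, ?_⟩
    rcases h3 with ⟨h4, h5⟩ | ⟨s, j, hs, h4⟩
    · refine Or.inl ⟨h4, ?_⟩
      rintro ⟨s, _, j, _, m, _, w', _, h6⟩
      exact h5 ⟨s, j, h6.1⟩
    · obtain ⟨b1, b2, b3, b4⟩ := start_bounds hs
      have := wid_two hs.1
      exact Or.inr ⟨s, b1, j, b2, _, b3, _, b4, ⟨hs, rfl, rfl⟩, by omega, h4⟩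
  · obtain ⟨b1, b2, b3, b4⟩ := start_bounds hs
    have hw := wid_two hs.1
    have hvN := v.2
    refine Or.inr (Or.inl ⟨hw1, s, b1, j, b2, _, b3, _, b4, ⟨hs, rfl, rfl⟩, e, by omega, a, by omega,
      c, by omega, by omega, he, ha, hc, hua, hwc, by omega, ?_⟩)
    rw [← hv, getD x _ hvN]
    exact hb

private theorem step_of_edge {N : ℕ} {x : Fin N → Bool} {u w : Fin (N + 1) × Fin (N + 1)}
    (h : Edge (List.ofFn x) u.1 u.2 w.1 w.2) :
    (prog N).Step x Set.univ u w ∨ u = (Fin.last N, 0) := by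
  unfold Edge at h
  rw [List.length_ofFn] at h
  rcases h with ⟨h1, h2, h3⟩ | ⟨h1, s, _, j, _, m, _, w', _, ⟨hs, rfl, rfl⟩, e, _, a, _, c, _, _, he,
    ha, hc, hua, hwc, _, hb⟩ | ⟨h1, h2, _, _⟩
  · left; left
    refine ⟨h1, h2, ?_⟩
    rcases h3 with ⟨h4, h5⟩ | ⟨s, _, j, _, m, _, w', _, ⟨hs, rfl, rfl⟩, _, h4⟩
    · refine Or.inl ⟨h4, ?_⟩
      rintro ⟨s, j, hs⟩
      obtain ⟨b1, b2, b3, b4⟩ := start_bounds hs
      exact h5 ⟨s, b1, j, b2, _, b3, _, b4, hs, rfl, rfl⟩
    · exact Or.inr ⟨s, j, hs, h4⟩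
  · left; right
    have hlt : u.1.val + ((e * wid s + a) * wid s + c) < N := by
      by_contra hge
      push Not at hge
      rw [List.getD_eq_default _ _ (by rw [List.length_ofFn]; exact hge)] at hb
      exact absurd hb (by decide)
    rw [getD x _ hlt] at hb
    exact ⟨⟨_, hlt⟩, ⟨hb, h1, s, j, e, a, c, hs, he, ha, hc, hua, hwc, rfl⟩, fun _ => Set.mem_univ _⟩
  · right
    exact Prod.ext (Fin.ext h1) (Fin.ext h2)

private theorem main {N : ℕ} (x : Fin N → Bool) (E : (Fin 2 → Fin (N + 1)) →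
    (Fin 2 → Fin (N + 1)) → Prop)
    (hE : ∀ u w, E u w ↔ Edge (List.ofFn x) (u 0) (u 1) (w 0) (w 1)) :
    L1 (List.ofFn x) ↔ Relation.ReflTransGen E (fun _ => 0) (fun _ => Fin.last N) := by
  rw [← prog_accepts]
  constructor
  · intro h
    have h1 : Relation.ReflTransGen E ![0, 0] ![Fin.last N, 0] :=
      Relation.ReflTransGen.lift (p := E) (fun u : Fin (N + 1) × Fin (N + 1) => ![u.1, u.2])
        (fun u w huw => (hE _ _).2 (edge_of_step huw)) _ _ h
    have h2 : E ![Fin.last N, 0] ![Fin.last N, Fin.last N] := by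
      rw [hE]
      refine Or.inr (Or.inr ⟨?_, ?_, ?_, ?_⟩) <;> simp
    have h3 := h1.tail h2
    have e1 : (fun _ => 0 : Fin 2 → Fin (N + 1)) = ![0, 0] := by
      funext i; fin_cases i <;> rfl
    have e2 : (fun _ => Fin.last N : Fin 2 → Fin (N + 1)) = ![Fin.last N, Fin.last N] := by
      funext i; fin_cases i <;> rfl
    rw [e1, e2]; exact h3
  · intro h
    have key : ∀ w, Relation.ReflTransGen E (fun _ => 0) w →
        Relation.ReflTransGen ((prog N).Step x Set.univ) (0, 0) (w 0, w 1) ∨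
        Relation.ReflTransGen ((prog N).Step x Set.univ) (0, 0) (Fin.last N, 0) := by
      intro w hw
      induction hw with
      | refl => exact Or.inl Relation.ReflTransGen.refl
      | tail _ h2 ih =>
        rcases ih with ih | ih
        · rcases step_of_edge (x := x) (u := (_, _)) (w := (_, _)) ((hE _ _).1 h2) with h3 | h3
          · exact Or.inl (ih.tail h3)
          · rw [h3] at ih; exact Or.inr ih
        · exact Or.inr ih
    rcases key _ h with h1 | h1
    · have hz : (Fin.last N = 0) → Relation.ReflTransGen ((prog N).Step x Set.univ) (0, 0)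
          (Fin.last N, 0) := by
        intro h0
        rw [h0]
      rcases Relation.ReflTransGen.cases_tail h1 with h2 | ⟨c, hc, h2⟩
      · exact hz (congrArg Prod.fst h2)
      · rcases h2 with ⟨_, h4, _⟩ | ⟨v, ⟨_, hw1, s, j, e, a, c', hs, _⟩, -⟩
        · exact hz (Fin.ext h4)
        · exfalso
          have h5 := (start_end hs).2.2
          have h6 := n1_pos s
          have h7 : c.1.val = N := by rw [← hw1]; rfl
          omega
    · exact h1

end NLU

/-- [`k = 2`, the program of `LUp.lean`: vertices `(p, v)`; edges `(p, 0) → (p + 1, 0)` if no block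
starts at `p`; `(p, e q + a) → (p, (e + 1) q + c)` inside a block which starts at `p`, if bit
`p + (e q + a) q + c` is `1`; `(p, (l + 1) q) → (p + 1, 0)` at its end; and `(N, 0) → (N, N)`.
Everything is first-order definable from `+` and `*` on the numbers up to `N`.] -/
theorem inNL_L1 : InNL L1 := by
  obtain ⟨φ, hφ⟩ := NLU.d_edge
  refine ⟨2, φ, fun x => ?_⟩
  have h := NLU.main (N := x.length) x.get
    (fun u w : Fin 2 → Fin (x.length + 1) => φ.Holds x fun i =>
      if h : i < 2 then (u ⟨i, h⟩ : ℕ) else if h' : i - 2 < 2 then (w ⟨i - 2, h'⟩ : ℕ) else 0)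
    (fun u w => by
      rw [List.ofFn_get]
      refine hφ x _ fun i => ?_
      split_ifs
      · exact Fin.is_le _
      · exact Fin.is_le _
      · exact Nat.zero_le _)
  rwa [List.ofFn_get] at h

end Pool.Agent.FZ
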