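import Pool.Agent.FZ.PyrFin
import Pool.Agent.FZ.Asm

/-! # Nondeterministic programs for the language for NL versus P -/

namespace Pool.Agent.FZ

private theorem pn_q (h : ℕ) : qq h = 4 * (h + 2) ^ 18 := by
  unfold qq pp; rw [← pow_mul]

/-- the block length is at most `128 (h + 2) ^ 56`, `h = s ^ 2` -/
private theorem pn_n (h : ℕ) : (h + 1) ^ 2 * qq h ^ 3 + qq h + 1 ≤ 128 * (h + 2) ^ 56 := by
  rw [pn_q]
  have e1 : (4 * (h + 2) ^ 18) ^ 3 = 64 * (h + 2) ^ 54 := by rw [mul_pow, ← pow_mul]; norm_num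
  rw [e1]
  have h1 : (h + 1) ^ 2 * (64 * (h + 2) ^ 54) ≤ 64 * (h + 2) ^ 56 := by
    calc (h + 1) ^ 2 * (64 * (h + 2) ^ 54) ≤ (h + 2) ^ 2 * (64 * (h + 2) ^ 54) :=
          Nat.mul_le_mul_right _ (Nat.pow_le_pow_left (by omega) 2)
      _ = 64 * (h + 2) ^ 56 := by ring
  have h2 : (h + 2) ^ 18 ≤ (h + 2) ^ 56 := Nat.pow_le_pow_right (by omega) (by norm_num)
  have h3 : 1 ≤ (h + 2) ^ 56 := Nat.one_le_pow _ _ (by omega)
  omega

private theorem pn_card (h : ℕ) : Fintype.card (PVar h (qq h)) + 1 ≤ 128 * (h + 2) ^ 56 := by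
  have e : Fintype.card (PVar h (qq h)) = (h + 1) ^ 2 * qq h ^ 3 + qq h := by
    unfold PVar PNode
    simp only [Fintype.card_sum, Fintype.card_prod, Fintype.card_fin]
    ring
  rw [e]; exact pn_n h

/-- The parameters for the height `s ^ 2` and programs with `2 ^ s` nodes. -/
theorem p_param : ∃ s₀ : ℕ, ∀ s ≥ s₀,
    s * (s + 1) + Nat.clog 2 (Fintype.card (PVar (s ^ 2) (qq (s ^ 2))) + 1) ≤ 2 * s ^ 2 := by
  refine ⟨58, fun s hs => ?_⟩
  have h1 : s ^ 2 + 2 ≤ 2 ^ s := by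
    have : ∀ n : ℕ, 58 ≤ n → n ^ 2 + 2 ≤ 2 ^ n := by
      intro n hn
      induction n, hn using Nat.le_induction with
      | base => norm_num
      | succ k hk ih => rw [pow_succ 2 k]; nlinarith
    exact this s hs
  have h2 : Fintype.card (PVar (s ^ 2) (qq (s ^ 2))) + 1 ≤ 2 ^ (7 + 56 * s) := by
    refine (pn_card _).trans ?_
    calc 128 * (s ^ 2 + 2) ^ 56 ≤ 128 * (2 ^ s) ^ 56 :=
          Nat.mul_le_mul_left _ (Nat.pow_le_pow_left h1 56)
      _ = 2 ^ (7 + 56 * s) := by rw [← pow_mul, pow_add, mul_comm s 56]; norm_num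
  have h3 : Nat.clog 2 (Fintype.card (PVar (s ^ 2) (qq (s ^ 2))) + 1) ≤ 7 + 56 * s :=
    Nat.clog_le_of_le_pow h2
  nlinarith

/-- The number of blocks. -/
theorem p_blocks : ∃ c₀ : ℕ, ∀ c ≥ c₀, ∀ s N : ℕ, c ≤ s → s ^ c ≤ N →
    N / s ^ c ≤ nblk n2 N s / 2 := by
  refine ⟨200, fun c hc s N hs hN => ?_⟩
  have hs2 : 200 ≤ s := hc.trans hs
  set m := N / s ^ c with hm
  have hmN : m * s ^ c ≤ N := Nat.div_mul_le_self _ _
  -- the block length
  have hn : n2 s ≤ s ^ 121 := by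
    have h1 : n2 s ≤ 128 * (s ^ 2 + 2) ^ 56 := by
      have := pn_n (s ^ 2)
      unfold n2; omega
    have h2 : s ^ 2 + 2 ≤ s ^ 2 * 2 := by nlinarith
    calc n2 s ≤ 128 * (s ^ 2 * 2) ^ 56 :=
          h1.trans (Nat.mul_le_mul_left _ (Nat.pow_le_pow_left h2 56))
      _ = 2 ^ 63 * s ^ 112 := by rw [mul_pow, ← pow_mul]; ring
      _ ≤ s ^ 9 * s ^ 112 := by
          refine Nat.mul_le_mul_right _ ?_
          calc 2 ^ 63 ≤ 200 ^ 9 := by norm_num
            _ ≤ s ^ 9 := Nat.pow_le_pow_left hs2 9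
      _ = s ^ 121 := by rw [← pow_add]
  have hn0 : 0 < n2 s := by
    unfold n2
    have : 0 < qq (s ^ 2) := by rw [pn_q]; positivity
    omega
  have key : 2 * n2 s * (s * (s + 1)) ≤ s ^ c := by
    calc 2 * n2 s * (s * (s + 1)) ≤ 2 * s ^ 121 * (s * (2 * s)) := by
          refine Nat.mul_le_mul (Nat.mul_le_mul_left _ hn) (Nat.mul_le_mul_left _ (by omega))
      _ = 4 * s ^ 123 := by ring
      _ ≤ s * s ^ 123 := Nat.mul_le_mul_right _ (by omega)
      _ = s ^ 124 := by rw [← pow_succ']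
      _ ≤ s ^ c := Nat.pow_le_pow_right (by omega) (by omega)
  -- `K * s * (s + 1) ≤ N`
  have h1 : (2 * m * n2 s) * s * (s + 1) ≤ N := by
    calc (2 * m * n2 s) * s * (s + 1) = m * (2 * n2 s * (s * (s + 1))) := by ring
      _ ≤ m * s ^ c := Nat.mul_le_mul_left _ key
      _ ≤ N := hmN
  have h2 : (2 * m * n2 s) * s ≤ N / (s + 1) := (Nat.le_div_iff_mul_le (by omega)).2 h1
  have h3 : N / (s + 1) * (s + 1) ≤ N := Nat.div_mul_le_self _ _
  have h4 : (2 * m * n2 s + N / (s + 1)) * s ≤ N := by nlinarith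
  have h5 : 2 * m * n2 s + N / (s + 1) ≤ N / s := (Nat.le_div_iff_mul_le (by omega)).2 h4
  have h6 : 2 * m * n2 s ≤ N / s - N / (s + 1) := by omega
  unfold nblk
  rw [Nat.le_div_iff_mul_le (by norm_num), Nat.le_div_iff_mul_le hn0]
  calc m * 2 * n2 s = 2 * m * n2 s := by ring
    _ ≤ _ := h6

open Classical in
/-- [`assemble` with `sym = False`, `pyr_bound`, `p_param`, `p_blocks`.] -/
theorem p_lower : ∃ c : ℕ, ∀ s N : ℕ, c ≤ s → s ^ c ≤ N →
    ∃ A : Finset (Fin N → Bool), A.Nonempty ∧ (∀ x ∈ A, L2 (List.ofFn x)) ∧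
      ∀ (W : Type) [Fintype W] (P : Prog (Fin N) W), Fintype.card W ≤ 2 ^ s →
        (∀ x, P.Accepts x → L2 (List.ofFn x)) →
        (A.filter fun x => P.AcceptsReading x (N / s ^ c)).card * 2 ^ (N / s ^ c)
          ≤ A.card := by
  obtain ⟨s₀, hs₀⟩ := p_param
  obtain ⟨c₀, hc₀⟩ := p_blocks
  refine ⟨s₀ + c₀ + 4, fun s N hs hN => ?_⟩
  have hq : ∀ h, 0 < qq h := fun h => by rw [pn_q]; positivity
  have : NeZero (qq (s ^ 2)) := ⟨(hq _).ne'⟩
  have hlt : ∀ v : PVar (s ^ 2) (qq (s ^ 2)), pidx (s ^ 2) (qq (s ^ 2)) v < n2 s := fun v =>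
    pidx_lt _ _ v
  obtain ⟨A, hA1, hA2, hA3⟩ := assemble n2 f2 (fun s => pyrN_true _ _ (hq _))
    (fun s x y hxy hx => by
      unfold f2 at hx ⊢
      rw [pyrN_iff] at hx ⊢
      have e : (fun v => y (pidx (s ^ 2) (qq (s ^ 2)) v)) =
          fun v => x (pidx (s ^ 2) (qq (s ^ 2)) v) := by
        funext v
        exact (hxy _ (pidx_lt _ _ v)).symm
      rw [e]; exact hx)
    False s N (2 ^ s) (by omega) (Ω := PNode (s ^ 2) → Fin (qq (s ^ 2)))
    (pidx (s ^ 2) (qq (s ^ 2))) (pidx_injective _ _) hlt PY PY_injective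
    (Pyr (s ^ 2) (qq (s ^ 2))) (fun x => pyrN_iff _ _ x) (fun ω => pyr_PY ω)
    (fun W _ M hW _ hM => by
      have h14 : 14 ≤ s ^ 2 := by nlinarith
      have := pyr_bound (s ^ 2) s h14 (hs₀ s (by omega)) hW M hM
      convert! this)
  refine ⟨A, hA1, hA2, fun W _ P hW hP => ?_⟩
  have h1 := hA3 W P hW (fun h => h.elim) hP
  have h2 := hc₀ (s₀ + c₀ + 4) (by omega) s N hs hN
  refine le_trans (Nat.mul_le_mul ?_ ?_) h1
  · refine Finset.card_le_card fun x hx => ?_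
    rw [Finset.mem_filter] at hx ⊢
    obtain ⟨hx1, Z, hZ, hZ'⟩ := hx
    exact ⟨hx1, Z, hZ.trans h2, hZ'⟩
  · exact Nat.pow_le_pow_right (by norm_num) (h2.trans (Nat.div_le_self _ _))

end Pool.Agent.FZ
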