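import Pool.Agent.FZ.Defs
import Pool.Agent.KNL.PTime
import Pool.Agent.Lib.PolyTime.Iter

/-! # The language for NL versus P is in P -/

namespace Pool.Agent.FZ

open Pool.Agent.PolyTime Pool.Agent.KNL

namespace PTimeAux

/-! ### The calculus -/

theorem pfBits_of_pd {L : List Bool → ℕ} {Q : List Bool → ℕ → Prop}
    [∀ x i, Decidable (Q x i)]
    (hL : PF (fun x (_ : Unit) => L x)) (hQ : PD (fun x (p : Unit × ℕ) => Q x p.2)) :
    PFBits (fun x => (List.range (L x)).map (fun i => decide (Q x i))) := by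
  obtain ⟨F, hF, hFQ⟩ := hQ
  refine ⟨L, fun x i => F x ((), i), hL, hF.congr fun x p => rfl, fun x => ?_⟩
  show (List.range (L x)).map (fun i => decide (Q x i)) = _
  refine List.map_congr_left fun i _ => ?_
  rw [decide_eq_decide]
  exact hFQ x ((), i)

/-- the position in the block of the bit `t i j 0 0 c` -/
def nidx (h q i j c : ℕ) : ℕ := (((i * (h + 1) + j) * q + 0) * q + 0) * q + c

/-- the new state of the position `P` -/
def St (N : ℕ) (y : List Bool) (P : ℕ) : Prop :=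
  ∃ s < N + 1, 1 ≤ s ∧ ∃ m < nblk n2 N s, ∃ i < s ^ 2 + 1, ∃ j < i + 1, ∃ c < qq (s ^ 2),
    P = bpos n2 N s m (nidx (s ^ 2) (qq (s ^ 2)) i j c) ∧
    ((i = s ^ 2 ∧ y.getD P false = true) ∨
     (i < s ^ 2 ∧ ∃ a < qq (s ^ 2), ∃ b < qq (s ^ 2),
        y.getD (N + bpos n2 N s m (nidx (s ^ 2) (qq (s ^ 2)) (i + 1) j a)) false = true ∧
        y.getD (N + bpos n2 N s m (nidx (s ^ 2) (qq (s ^ 2)) (i + 1) (j + 1) b)) false = true ∧
        y.getD (bpos n2 N s m
          ((((i * (s ^ 2 + 1) + j) * qq (s ^ 2) + a) * qq (s ^ 2) + b) * qq (s ^ 2) + c))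
          false = true))

/-- the new value of the bit `P` -/
def Q (y : List Bool) (P : ℕ) : Prop :=
  (P < y.length / 2 ∧ y.getD P false = true) ∨
    (y.length / 2 ≤ P ∧ St (y.length / 2) y (P - y.length / 2))

/-- the final test -/
def Fin2 (y : List Bool) : Prop :=
  ∀ s < y.length / 2 + 1, 1 ≤ s → ∀ m < nblk n2 (y.length / 2) s, ∃ c < qq (s ^ 2),
    y.getD (y.length / 2 + bpos n2 (y.length / 2) s m (nidx (s ^ 2) (qq (s ^ 2)) 0 0 c)) false =
      true ∧
    y.getD (bpos n2 (y.length / 2) s m ((s ^ 2 + 1) ^ 2 * qq (s ^ 2) ^ 3 + c)) false = true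

section
variable {α : Type} [Ctx α]

theorem pf_qq {S : List Bool → α → ℕ} (hS : PF S) : PF (fun x a => qq (S x a ^ 2)) :=
  (PF.const 4).mul ((((hS.pow 2).add (PF.const 2)).pow 2).pow 9)

theorem pf_n2 {S : List Bool → α → ℕ} (hS : PF S) : PF (fun x a => n2 (S x a)) :=
  ((((hS.pow 2).add (PF.const 1)).pow 2).mul ((pf_qq hS).pow 3)).add (pf_qq hS)

theorem pf_half : PF (fun x (_ : α) => x.length / 2) := PF.len.div (PF.const 2)

theorem pf_nblk {S : List Bool → α → ℕ} (hS : PF S) :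
    PF (fun x a => nblk n2 (x.length / 2) (S x a)) :=
  ((pf_half.div hS).sub (pf_half.div (hS.add (PF.const 1)))).div (pf_n2 hS)

theorem pf_bpos {S M I : List Bool → α → ℕ} (hS : PF S) (hM : PF M) (hI : PF I) :
    PF (fun x a => bpos n2 (x.length / 2) (S x a) (M x a) (I x a)) :=
  ((pf_half.sub (pf_half.div hS)).add (hM.mul (pf_n2 hS))).add hI

theorem pf_idx {S I J A B C : List Bool → α → ℕ} (hS : PF S) (hI : PF I) (hJ : PF J)
    (hA : PF A) (hB : PF B) (hC : PF C) :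
    PF (fun x a => (((I x a * (S x a ^ 2 + 1) + J x a) * qq (S x a ^ 2) + A x a) *
      qq (S x a ^ 2) + B x a) * qq (S x a ^ 2) + C x a) :=
  ((((((hI.mul ((hS.pow 2).add (PF.const 1))).add hJ).mul (pf_qq hS)).add hA).mul
    (pf_qq hS)).add hB).mul (pf_qq hS) |>.add hC

theorem pf_nidx {S I J C : List Bool → α → ℕ} (hS : PF S) (hI : PF I) (hJ : PF J) (hC : PF C) :
    PF (fun x a => nidx (S x a ^ 2) (qq (S x a ^ 2)) (I x a) (J x a) (C x a)) :=
  pf_idx hS hI hJ (PF.const 0) (PF.const 0) hC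

end

/-- contexts: `P`, `s`, `m`, `i`, `j`, `c`, `a`, `b` -/
theorem pd_St {α : Type} [Ctx α] : PD (fun (y : List Bool) (p : α × ℕ) => St (y.length / 2) y p.2) := by
  have h8 : PD (fun (y : List Bool) (p : (((((((α × ℕ) × ℕ) × ℕ) × ℕ) × ℕ) × ℕ) × ℕ) × ℕ) =>
      y.getD (y.length / 2 + bpos n2 (y.length / 2) p.1.1.1.1.1.1.2 p.1.1.1.1.1.2
        (nidx (p.1.1.1.1.1.1.2 ^ 2) (qq (p.1.1.1.1.1.1.2 ^ 2)) (p.1.1.1.1.2 + 1) p.1.1.1.2
          p.1.2)) false = true ∧
      y.getD (y.length / 2 + bpos n2 (y.length / 2) p.1.1.1.1.1.1.2 p.1.1.1.1.1.2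
        (nidx (p.1.1.1.1.1.1.2 ^ 2) (qq (p.1.1.1.1.1.1.2 ^ 2)) (p.1.1.1.1.2 + 1) (p.1.1.1.2 + 1)
          p.2)) false = true ∧
      y.getD (bpos n2 (y.length / 2) p.1.1.1.1.1.1.2 p.1.1.1.1.1.2
        ((((p.1.1.1.1.2 * (p.1.1.1.1.1.1.2 ^ 2 + 1) + p.1.1.1.2) *
          qq (p.1.1.1.1.1.1.2 ^ 2) + p.1.2) * qq (p.1.1.1.1.1.1.2 ^ 2) + p.2) *
          qq (p.1.1.1.1.1.1.2 ^ 2) + p.1.1.2)) false = true) := by
    have hs : PF (fun (_ : List Bool) (p : (((((((α × ℕ) × ℕ) × ℕ) × ℕ) × ℕ) × ℕ) × ℕ) × ℕ) =>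
      p.1.1.1.1.1.1.2) := PF.snd.fst.fst.fst.fst.fst.fst
    have hm : PF (fun (_ : List Bool) (p : (((((((α × ℕ) × ℕ) × ℕ) × ℕ) × ℕ) × ℕ) × ℕ) × ℕ) =>
      p.1.1.1.1.1.2) := PF.snd.fst.fst.fst.fst.fst
    have hi : PF (fun (_ : List Bool) (p : (((((((α × ℕ) × ℕ) × ℕ) × ℕ) × ℕ) × ℕ) × ℕ) × ℕ) =>
      p.1.1.1.1.2) := PF.snd.fst.fst.fst.fst
    have hj : PF (fun (_ : List Bool) (p : (((((((α × ℕ) × ℕ) × ℕ) × ℕ) × ℕ) × ℕ) × ℕ) × ℕ) =>
      p.1.1.1.2) := PF.snd.fst.fst.fst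
    have hc : PF (fun (_ : List Bool) (p : (((((((α × ℕ) × ℕ) × ℕ) × ℕ) × ℕ) × ℕ) × ℕ) × ℕ) =>
      p.1.1.2) := PF.snd.fst.fst
    have ha : PF (fun (_ : List Bool) (p : (((((((α × ℕ) × ℕ) × ℕ) × ℕ) × ℕ) × ℕ) × ℕ) × ℕ) =>
      p.1.2) := PF.snd.fst
    have hb : PF (fun (_ : List Bool) (p : (((((((α × ℕ) × ℕ) × ℕ) × ℕ) × ℕ) × ℕ) × ℕ) × ℕ) =>
      p.2) := PF.snd
    exact (PD.bit (pf_half.add (pf_bpos hs hm (pf_nidx hs (hi.add (PF.const 1)) hj ha)))).and
      ((PD.bit (pf_half.add (pf_bpos hs hm (pf_nidx hs (hi.add (PF.const 1))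
        (hj.add (PF.const 1)) hb)))).and (PD.bit (pf_bpos hs hm (pf_idx hs hi hj ha hb hc))))
  have h6 := PD.exists_lt (B := fun (_ : List Bool) (p : ((((((α × ℕ) × ℕ) × ℕ) × ℕ) × ℕ) × ℕ)) =>
      qq (p.1.1.1.1.2 ^ 2)) (pf_qq PF.snd.fst.fst.fst.fst)
    (PD.exists_lt (B := fun (_ : List Bool) (p : ((((((α × ℕ) × ℕ) × ℕ) × ℕ) × ℕ) × ℕ) × ℕ) =>
      qq (p.1.1.1.1.1.2 ^ 2)) (pf_qq PF.snd.fst.fst.fst.fst.fst) h8)
  have h5 : PD (fun (y : List Bool) (p : ((((((α × ℕ) × ℕ) × ℕ) × ℕ) × ℕ) × ℕ)) =>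
      p.1.1.1.1.1.2 = bpos n2 (y.length / 2) p.1.1.1.1.2 p.1.1.1.2
        (nidx (p.1.1.1.1.2 ^ 2) (qq (p.1.1.1.1.2 ^ 2)) p.1.1.2 p.1.2 p.2)) :=
    PD.eq PF.snd.fst.fst.fst.fst.fst (pf_bpos PF.snd.fst.fst.fst.fst PF.snd.fst.fst.fst
      (pf_nidx PF.snd.fst.fst.fst.fst PF.snd.fst.fst PF.snd.fst PF.snd))
  have h4 : PD (fun (y : List Bool) (p : ((((((α × ℕ) × ℕ) × ℕ) × ℕ) × ℕ) × ℕ)) =>
      p.1.1.2 = p.1.1.1.1.2 ^ 2 ∧ y.getD p.1.1.1.1.1.2 false = true) :=
    (PD.eq PF.snd.fst.fst (PF.snd.fst.fst.fst.fst.pow 2)).and (PD.bit PF.snd.fst.fst.fst.fst.fst)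
  have h3 : PD (fun (y : List Bool) (p : ((((((α × ℕ) × ℕ) × ℕ) × ℕ) × ℕ) × ℕ)) =>
      p.1.1.2 < p.1.1.1.1.2 ^ 2) :=
    PD.lt PF.snd.fst.fst (PF.snd.fst.fst.fst.fst.pow 2)
  have h2 := h5.and (h4.or (h3.and h6))
  have g5 := PD.exists_lt (B := fun (_ : List Bool) (p : (((((α × ℕ) × ℕ) × ℕ) × ℕ) × ℕ)) =>
      qq (p.1.1.1.2 ^ 2)) (pf_qq PF.snd.fst.fst.fst) h2
  have g4 := PD.exists_lt (B := fun (_ : List Bool) (p : ((((α × ℕ) × ℕ) × ℕ) × ℕ)) =>
      p.2 + 1) (PF.snd.add (PF.const 1)) g5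
  have g3 := PD.exists_lt (B := fun (_ : List Bool) (p : (((α × ℕ) × ℕ) × ℕ)) =>
      p.1.2 ^ 2 + 1) ((PF.snd.fst.pow 2).add (PF.const 1)) g4
  have g2 := PD.exists_lt (B := fun (y : List Bool) (p : ((α × ℕ) × ℕ)) =>
      nblk n2 (y.length / 2) p.2) (pf_nblk PF.snd) g3
  have g1 := PD.exists_lt (B := fun (y : List Bool) (_ : (α × ℕ)) =>
      y.length / 2 + 1) (pf_half.add (PF.const 1)) ((PD.le (PF.const 1) PF.snd).and g2)
  exact g1

theorem pd_Q : PD (fun (y : List Bool) (p : Unit × ℕ) => Q y p.2) := by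
  have h1 : PD (fun (y : List Bool) (p : Unit × ℕ) =>
      p.2 < y.length / 2 ∧ y.getD p.2 false = true) := (PD.lt PF.snd pf_half).and (PD.bit PF.snd)
  have h2 : PD (fun (y : List Bool) (p : Unit × ℕ) =>
      St (y.length / 2) y (p.2 - y.length / 2)) := by
    have h3 : PD (fun (y : List Bool) (p : (Unit × ℕ) × ℕ) => St (y.length / 2) y p.2) := pd_St
    exact PD.subst (A := fun (y : List Bool) (p : Unit × ℕ) => p.2 - y.length / 2)
      (PF.snd.sub pf_half) h3
  exact h1.or ((PD.le pf_half PF.snd).and h2)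

theorem pd_Fin2 : PD (fun (y : List Bool) (_ : Unit) => Fin2 y) := by
  -- contexts: s, m, c
  have h3 : PD (fun (y : List Bool) (p : ((Unit × ℕ) × ℕ) × ℕ) =>
      y.getD (y.length / 2 + bpos n2 (y.length / 2) p.1.1.2 p.1.2
        (nidx (p.1.1.2 ^ 2) (qq (p.1.1.2 ^ 2)) 0 0 p.2)) false = true ∧
      y.getD (bpos n2 (y.length / 2) p.1.1.2 p.1.2
        ((p.1.1.2 ^ 2 + 1) ^ 2 * qq (p.1.1.2 ^ 2) ^ 3 + p.2)) false = true) :=
    (PD.bit (pf_half.add (pf_bpos PF.snd.fst.fst PF.snd.fst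
      (pf_nidx PF.snd.fst.fst (PF.const 0) (PF.const 0) PF.snd)))).and
      (PD.bit (pf_bpos PF.snd.fst.fst PF.snd.fst
        ((((((PF.snd.fst.fst.pow 2).add (PF.const 1)).pow 2).mul
          ((pf_qq PF.snd.fst.fst).pow 3))).add PF.snd)))
  have h2 := PD.exists_lt (B := fun (_ : List Bool) (p : (Unit × ℕ) × ℕ) => qq (p.1.2 ^ 2))
    (pf_qq PF.snd.fst) h3
  have h1 := PD.forall_lt (B := fun (y : List Bool) (p : Unit × ℕ) =>
    nblk n2 (y.length / 2) p.2) (pf_nblk PF.snd) h2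
  have h0 := PD.forall_lt (B := fun (y : List Bool) (_ : Unit) => y.length / 2 + 1)
    (pf_half.add (PF.const 1)) (pd_imp (PD.le (PF.const 1) PF.snd) h1)
  exact h0

/-! ### The functions -/

open Classical in
/-- the input followed by as many zeros -/
noncomputable def dbl (x : List Bool) : List Bool :=
  (List.range (2 * x.length)).map (fun i => decide (x.getD i false = true))

open Classical in
/-- one step -/
noncomputable def stp (y : List Bool) : List Bool :=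
  (List.range y.length).map (fun i => decide (Q y i))

theorem pc_dbl : PC dbl := by
  classical
  exact (pfBits_of_pd (L := fun x => 2 * x.length) ((PF.const 2).mul PF.len)
    (Q := fun x i => x.getD i false = true) (PD.bit PF.snd)).pc

theorem pfBits_stp : PFBits stp := by
  classical
  exact pfBits_of_pd (L := fun x => x.length) PF.len (Q := Q) pd_Q

theorem len_dbl (x : List Bool) : (dbl x).length = 2 * x.length := by simp [dbl]

theorem len_stp (x : List Bool) : (stp x).length = x.length := by simp [stp]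

theorem getD_map_range (L : ℕ) (g : ℕ → Bool) (P : ℕ) :
    ((List.range L).map g).getD P false = if P < L then g P else false := by
  rw [List.getD_eq_getElem?_getD]
  by_cases h : P < L
  · rw [List.getElem?_map, List.getElem?_range h, if_pos h]
    simp
  · rw [List.getElem?_eq_none (by simpa using Nat.le_of_not_lt h), if_neg h]
    simp

theorem getD_dbl (x : List Bool) (P : ℕ) (hP : P < x.length) :
    (dbl x).getD P false = x.getD P false := by
  classical
  unfold dbl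
  rw [getD_map_range, if_pos (by omega)]
  simp

theorem getD_stp (y : List Bool) (P : ℕ) :
    (stp y).getD P false = true ↔ P < y.length ∧ Q y P := by
  classical
  unfold stp
  rw [getD_map_range]
  by_cases h : P < y.length
  · simp [h]
  · simp [h]

/-! ### Positions -/

theorem bpos_lt {N s m i : ℕ} (hm : m < nblk n2 N s) (hi : i < n2 s) :
    bpos n2 N s m i < N - N / (s + 1) := by
  unfold bpos
  unfold nblk at hm
  have h1 : (m + 1) * n2 s ≤ N / s - N / (s + 1) :=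
    (Nat.mul_le_mul_right _ hm).trans (Nat.div_mul_le_self _ _)
  have h2 : N / s ≤ N := Nat.div_le_self _ _
  have h3 : N / (s + 1) ≤ N / s ∨ N / s < N / (s + 1) := le_or_gt _ _
  rw [add_mul, one_mul] at h1
  omega

theorem bpos_ge {N s m i : ℕ} : N - N / s ≤ bpos n2 N s m i := by
  unfold bpos; omega

theorem div_anti {N s s' : ℕ} (hs : 1 ≤ s) (h : s ≤ s') : N / s' ≤ N / s :=
  Nat.div_le_div_left h (by omega)

theorem bpos_inj {N s m i s' m' i' : ℕ} (hs : 1 ≤ s) (hs' : 1 ≤ s') (hm : m < nblk n2 N s)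
    (hi : i < n2 s) (hm' : m' < nblk n2 N s') (hi' : i' < n2 s')
    (h : bpos n2 N s m i = bpos n2 N s' m' i') : s = s' ∧ m = m' ∧ i = i' := by
  have a1 := bpos_lt hm hi
  have a2 := bpos_lt hm' hi'
  have a3 := @bpos_ge N s m i
  have a4 := @bpos_ge N s' m' i'
  have hss : s = s' := by
    rcases lt_trichotomy s s' with h1 | h1 | h1
    · have := @div_anti N (s + 1) s' (by omega) h1
      have h2 : N / (s + 1) ≤ N := Nat.div_le_self _ _
      omega
    · exact h1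
    · have := @div_anti N (s' + 1) s (by omega) h1
      have h2 : N / (s' + 1) ≤ N := Nat.div_le_self _ _
      omega
  subst hss
  refine ⟨rfl, ?_⟩
  unfold bpos at h
  have h' : m * n2 s + i = m' * n2 s + i' := by omega
  have e1 : (m * n2 s + i) / n2 s = m := by
    rw [mul_comm, Nat.mul_add_div (by omega), Nat.div_eq_of_lt hi, add_zero]
  have e2 : (m' * n2 s + i') / n2 s = m' := by
    rw [mul_comm, Nat.mul_add_div (by omega), Nat.div_eq_of_lt hi', add_zero]
  have e3 : m = m' := by rw [← e1, ← e2, h']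
  subst e3
  exact ⟨rfl, by omega⟩

theorem nidx_eq (h q i j c : ℕ) : nidx h q i j c = (i * (h + 1) + j) * q ^ 3 + c := by
  unfold nidx; ring

theorem idx_lt {h q i j a b c : ℕ} (hi : i < h + 1) (hj : j < h + 1) (ha : a < q) (hb : b < q)
    (hc : c < q) :
    (((i * (h + 1) + j) * q + a) * q + b) * q + c < (h + 1) ^ 2 * q ^ 3 := by
  have e1 : i * (h + 1) + j + 1 ≤ (h + 1) ^ 2 := by nlinarith
  have e2 : (i * (h + 1) + j) * q + a + 1 ≤ (h + 1) ^ 2 * q := by
    calc (i * (h + 1) + j) * q + a + 1 ≤ (i * (h + 1) + j) * q + q := by omega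
      _ = (i * (h + 1) + j + 1) * q := by ring
      _ ≤ _ := Nat.mul_le_mul_right _ e1
  have e3 : ((i * (h + 1) + j) * q + a) * q + b + 1 ≤ (h + 1) ^ 2 * q * q := by
    calc ((i * (h + 1) + j) * q + a) * q + b + 1 ≤ ((i * (h + 1) + j) * q + a) * q + q := by omega
      _ = ((i * (h + 1) + j) * q + a + 1) * q := by ring
      _ ≤ _ := Nat.mul_le_mul_right _ e2
  calc (((i * (h + 1) + j) * q + a) * q + b) * q + c
      < (((i * (h + 1) + j) * q + a) * q + b) * q + q := by omega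
    _ = (((i * (h + 1) + j) * q + a) * q + b + 1) * q := by ring
    _ ≤ (h + 1) ^ 2 * q * q * q := Nat.mul_le_mul_right _ e3
    _ = _ := by ring

theorem nidx_lt {h q i j c : ℕ} (hi : i < h + 1) (hj : j < h + 1) (hc : c < q) :
    nidx h q i j c < (h + 1) ^ 2 * q ^ 3 := idx_lt hi hj (by omega) (by omega) hc

theorem nidx_inj {h q i j c i' j' c' : ℕ} (hj : j < h + 1) (hj' : j' < h + 1)
    (hc : c < q) (hc' : c' < q) (e : nidx h q i j c = nidx h q i' j' c') :
    i = i' ∧ j = j' ∧ c = c' := by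
  rw [nidx_eq, nidx_eq] at e
  have hq : 0 < q := by omega
  have hq3 : q ≤ q ^ 3 := Nat.le_self_pow (by norm_num) q
  have c1 : c < q ^ 3 := by omega
  have c2 : c' < q ^ 3 := by omega
  have hpos : 0 < q ^ 3 := by positivity
  have e1 : ((i * (h + 1) + j) * q ^ 3 + c) / q ^ 3 = i * (h + 1) + j := by
    rw [mul_comm, Nat.mul_add_div hpos, Nat.div_eq_of_lt c1, add_zero]
  have e2 : ((i' * (h + 1) + j') * q ^ 3 + c') / q ^ 3 = i' * (h + 1) + j' := by
    rw [mul_comm, Nat.mul_add_div hpos, Nat.div_eq_of_lt c2, add_zero]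
  have e3 : i * (h + 1) + j = i' * (h + 1) + j' := by rw [← e1, ← e2, e]
  have e4 : (i * (h + 1) + j) / (h + 1) = i := by
    rw [mul_comm, Nat.mul_add_div (by omega), Nat.div_eq_of_lt hj, add_zero]
  have e5 : (i' * (h + 1) + j') / (h + 1) = i' := by
    rw [mul_comm, Nat.mul_add_div (by omega), Nat.div_eq_of_lt hj', add_zero]
  have e6 : i = i' := by rw [← e4, ← e5, e3]
  subst e6
  refine ⟨rfl, by omega, ?_⟩
  rw [e3] at e
  omega

theorem n2_ge_idx {s P : ℕ} (h : P < (s ^ 2 + 1) ^ 2 * qq (s ^ 2) ^ 3) : P < n2 s := by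
  unfold n2; omega

theorem bpos_lt_N {N s m i : ℕ} (hm : m < nblk n2 N s) (hi : i < n2 s) :
    bpos n2 N s m i < N := by
  have := bpos_lt hm hi
  exact lt_of_lt_of_le this (Nat.sub_le _ _)

/-! ### The recursion -/

theorem pgen_lt {h q : ℕ} {t : ℕ → ℕ → ℕ → ℕ → ℕ → Prop} {i j c : ℕ} (hp : PGen h q t i j c) :
    c < q := by
  cases hp <;> assumption

theorem pgen_top_iff {h q : ℕ} {t : ℕ → ℕ → ℕ → ℕ → ℕ → Prop} {j c : ℕ} (hc : c < q) :
    PGen h q t h j c ↔ t h j 0 0 c := by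
  constructor
  · intro hp
    cases hp with
    | base _ _ _ ht => exact ht
    | step _ _ a b _ hi => exact absurd hi (lt_irrefl _)
  · intro ht
    exact PGen.base j c hc ht

theorem pgen_lower_iff {h q : ℕ} {t : ℕ → ℕ → ℕ → ℕ → ℕ → Prop} {i j c : ℕ} (hi : i < h)
    (hc : c < q) :
    PGen h q t i j c ↔ ∃ a < q, ∃ b < q, PGen h q t (i + 1) j a ∧ PGen h q t (i + 1) (j + 1) b ∧
      t i j a b c := by
  constructor
  · intro hp
    cases hp with
    | base _ _ _ ht => exact absurd hi (lt_irrefl _)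
    | step _ _ a b _ _ _ h1 h2 h3 => exact ⟨a, pgen_lt h1, b, pgen_lt h2, h1, h2, h3⟩
  · rintro ⟨a, _, b, _, h1, h2, h3⟩
    exact PGen.step i j a b c hi hc h1 h2 h3

/-- the table of block `m` of part `s` -/
def tb (x : List Bool) (s m i j a b c : ℕ) : Prop :=
  x.getD (bpos n2 x.length s m
    ((((i * (s ^ 2 + 1) + j) * qq (s ^ 2) + a) * qq (s ^ 2) + b) * qq (s ^ 2) + c)) false = true

/-- the state of a node -/
def Sta (x y : List Bool) (s m i j c : ℕ) : Prop :=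
  y.getD (x.length + bpos n2 x.length s m (nidx (s ^ 2) (qq (s ^ 2)) i j c)) false = true

theorem stp_state {x y : List Bool} (hl : y.length = 2 * x.length) {s m i j c : ℕ} (hs : 1 ≤ s)
    (hsN : s ≤ x.length) (hm : m < nblk n2 x.length s) (hi : i ≤ s ^ 2) (hj : j ≤ i)
    (hc : c < qq (s ^ 2)) :
    Sta x (stp y) s m i j c ↔
      ((i = s ^ 2 ∧ y.getD (bpos n2 x.length s m (nidx (s ^ 2) (qq (s ^ 2)) i j c)) false = true) ∨
     (i < s ^ 2 ∧ ∃ a < qq (s ^ 2), ∃ b < qq (s ^ 2),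
        Sta x y s m (i + 1) j a ∧ Sta x y s m (i + 1) (j + 1) b ∧
        y.getD (bpos n2 x.length s m
          ((((i * (s ^ 2 + 1) + j) * qq (s ^ 2) + a) * qq (s ^ 2) + b) * qq (s ^ 2) + c))
          false = true)) := by
  have hN : y.length / 2 = x.length := by omega
  have hidx := n2_ge_idx (nidx_lt (h := s ^ 2) (q := qq (s ^ 2)) (i := i) (j := j) (by omega)
    (by omega) hc)
  have hpos := bpos_lt_N hm hidx
  unfold Sta
  rw [getD_stp]
  unfold Q St
  rw [hN]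
  constructor
  · rintro ⟨_, h | h⟩
    · omega
    · obtain ⟨_, s', hs'N, hs', m', hm', i', hi', j', hj', c', hc', he, h⟩ := h
      rw [Nat.add_sub_cancel_left] at he h
      have hidx' := n2_ge_idx (nidx_lt (h := s' ^ 2) (q := qq (s' ^ 2)) (i := i') (j := j')
        (by omega) (by omega) hc')
      obtain ⟨rfl, rfl, e3⟩ := bpos_inj hs hs' hm hidx hm' hidx' he
      obtain ⟨rfl, rfl, rfl⟩ := nidx_inj (by omega) (by omega) hc hc' e3
      exact h
  · intro h
    refine ⟨by omega, Or.inr ⟨by omega, ?_⟩⟩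
    rw [Nat.add_sub_cancel_left]
    exact ⟨s, by omega, hs, m, hm, i, by omega, j, by omega, c, hc, rfl, h⟩

theorem inv (x : List Bool) (k : ℕ) :
    (stp^[k] (dbl x)).length = 2 * x.length ∧
    (∀ P < x.length, (stp^[k] (dbl x)).getD P false = x.getD P false) ∧
    ∀ s, 1 ≤ s → s ≤ x.length → ∀ m < nblk n2 x.length s, ∀ i ≤ s ^ 2, ∀ j ≤ i,
      ∀ c < qq (s ^ 2), s ^ 2 + 1 ≤ i + k →
      (Sta x (stp^[k] (dbl x)) s m i j c ↔ PGen (s ^ 2) (qq (s ^ 2)) (tb x s m) i j c) := by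
  induction k with
  | zero =>
    refine ⟨len_dbl x, fun P hP => getD_dbl x P hP, ?_⟩
    intro s _ _ m _ i hi j _ c _ hk
    omega
  | succ k ih =>
    obtain ⟨h1, h2, h3⟩ := ih
    rw [Function.iterate_succ_apply']
    set y := stp^[k] (dbl x) with hy
    have hN : y.length / 2 = x.length := by omega
    refine ⟨by rw [len_stp, h1], ?_, ?_⟩
    · intro P hP
      rw [Bool.eq_iff_iff, getD_stp]
      unfold Q
      rw [hN, h2 P hP]
      constructor
      · rintro ⟨_, h | h⟩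
        · exact h.2
        · omega
      · intro h
        exact ⟨by omega, Or.inl ⟨hP, h⟩⟩
    · intro s hs hsN m hm i hi j hj c hc hk
      rw [stp_state h1 hs hsN hm hi hj hc]
      have hidx := n2_ge_idx (nidx_lt (h := s ^ 2) (q := qq (s ^ 2)) (i := i) (j := j) (by omega)
        (by omega) hc)
      rcases Nat.lt_or_ge i (s ^ 2) with hlt | hge
      · rw [pgen_lower_iff hlt hc]
        constructor
        · rintro (⟨h, _⟩ | ⟨_, a, ha, b, hb, u1, u2, u3⟩)
          · omega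
          · refine ⟨a, ha, b, hb, ?_, ?_, ?_⟩
            · exact (h3 s hs hsN m hm (i + 1) (by omega) j (by omega) a ha (by omega)).mp u1
            · exact (h3 s hs hsN m hm (i + 1) (by omega) (j + 1) (by omega) b hb (by omega)).mp u2
            · rw [h2 _ (bpos_lt_N hm (n2_ge_idx (idx_lt (by omega) (by omega) ha hb hc)))] at u3
              exact u3
        · rintro ⟨a, ha, b, hb, u1, u2, u3⟩
          refine Or.inr ⟨hlt, a, ha, b, hb, ?_, ?_, ?_⟩
          · exact (h3 s hs hsN m hm (i + 1) (by omega) j (by omega) a ha (by omega)).mpr u1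
          · exact (h3 s hs hsN m hm (i + 1) (by omega) (j + 1) (by omega) b hb (by omega)).mpr u2
          · rw [h2 _ (bpos_lt_N hm (n2_ge_idx (idx_lt (by omega) (by omega) ha hb hc)))]
            exact u3
      · obtain rfl : i = s ^ 2 := by omega
        rw [pgen_top_iff hc]
        constructor
        · rintro (⟨_, h⟩ | ⟨h, _⟩)
          · rw [h2 _ (bpos_lt_N hm hidx)] at h
            exact h
          · omega
        · intro h
          left
          refine ⟨rfl, ?_⟩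
          rw [h2 _ (bpos_lt_N hm hidx)]
          exact h

theorem nblk_pos_le {N s : ℕ} (h : 0 < nblk n2 N s) : s ≤ N ∧ s ^ 2 + 1 ≤ N := by
  unfold nblk at h
  have h1 : n2 s ≤ N / s - N / (s + 1) := by
    by_contra h2
    rw [Nat.div_eq_of_lt (by omega)] at h
    omega
  have hn : s ^ 2 + 1 ≤ n2 s := by
    unfold n2 qq pp
    have a1 : 1 ≤ (4 * ((s ^ 2 + 2) ^ 2) ^ 9) ^ 3 := Nat.one_le_pow _ _ (by positivity)
    have a2 : s ^ 2 + 1 ≤ (s ^ 2 + 1) ^ 2 := by nlinarith [Nat.zero_le (s ^ 2)]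
    have a3 := Nat.mul_le_mul a2 a1
    omega
  have h3 : N / s ≤ N := Nat.div_le_self _ _
  have h5 : n2 s ≤ N / s := h1.trans (Nat.sub_le _ _)
  have h4 : s ≤ N := by
    by_contra h6
    rw [Nat.div_eq_of_lt (by omega : N < s)] at h5
    omega
  exact ⟨h4, by omega⟩

theorem fin2_iff (x : List Bool) :
    Fin2 (stp^[(dbl x).length] (dbl x)) ↔ L2 x := by
  obtain ⟨h1, h2, h3⟩ := inv x (dbl x).length
  set y := stp^[(dbl x).length] (dbl x) with hy
  have hN : y.length / 2 = x.length := by omega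
  have hL := len_dbl x
  unfold Fin2 L2 BLang
  rw [hN]
  have key : ∀ s, 1 ≤ s → ∀ m < nblk n2 x.length s,
      ((∃ c < qq (s ^ 2),
        y.getD (x.length + bpos n2 x.length s m (nidx (s ^ 2) (qq (s ^ 2)) 0 0 c)) false = true ∧
        y.getD (bpos n2 x.length s m ((s ^ 2 + 1) ^ 2 * qq (s ^ 2) ^ 3 + c)) false = true) ↔
      f2 s (fun i => x.getD (bpos n2 x.length s m i) false)) := by
    intro s hs m hm
    obtain ⟨g1, g2⟩ := nblk_pos_le (lt_of_le_of_lt (Nat.zero_le _) hm)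
    unfold f2 PyrN
    refine exists_congr fun c => and_congr_right fun hc => ?_
    have e1 := h3 s hs g1 m hm 0 (Nat.zero_le _) 0 le_rfl c hc (by omega)
    have e2 : bpos n2 x.length s m ((s ^ 2 + 1) ^ 2 * qq (s ^ 2) ^ 3 + c) < x.length :=
      bpos_lt_N hm (by unfold n2; omega)
    rw [h2 _ e2]
    exact and_congr_left fun _ => e1
  constructor
  · intro h s hs m hm
    obtain ⟨g1, _⟩ := nblk_pos_le (lt_of_le_of_lt (Nat.zero_le _) hm)
    exact (key s hs m hm).mp (h s (by omega) hs m hm)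
  · intro h s _ hs m hm
    exact (key s hs m hm).mpr (h s hs m hm)

end PTimeAux

open PTimeAux in
/-- [Toolkit `PF`, `PD`, `PFBits` of `Pool/Agent/Lib/PolyTime`.] The language is in P. -/
theorem inP_L2 : Pool.Agent.KNL.InP L2 := by
  classical
  refine ⟨fun w => decide (L2 w), fun w => by simp, ?_⟩
  have h1 : PC (fun y => stp^[y.length] y) :=
    pfBits_stp.iterate (fun x => (len_stp x).le) (c := fun y => y.length) PF.len
  have h2 : PC (fun y : List Bool => [decide (Fin2 y)]) := by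
    have h3 : PFBits (fun y : List Bool => (List.range 1).map (fun _ => decide (Fin2 y))) :=
      pfBits_of_pd (L := fun _ => 1) (Q := fun y _ => Fin2 y) (PF.const 1) pd_Fin2.fst
    exact h3.pc.congr fun x => by simp [List.range_succ]
  have h4 := (h2.comp (h1.comp pc_dbl))
  refine (h4.congr fun x => ?_).polyTime
  rw [decide_eq_decide.mpr (fin2_iff x)]

end Pool.Agent.FZ
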