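import Mathlib

/-!
# FEW ZEROS (MP_994c82_lc), sections 2.1-2.3: reversible pebbling and the functions `G e` (helper45)

Positions `0, …, l-1` are the layers, edge `e = 0, …, l` joins the layers `e-1` and `e`.
Subsets of positions are `Finset ℕ` (subsets of `range l`).
-/

set_option autoImplicit false
set_option linter.unusedVariables false

namespace Pool.Agent.FZ.GF

open Finset

/-! ## Reversible pebbling -/

/-- a placement in the game with base `b` (position `b` can always be used) and at most `p` pebbles -/
def Mv (b p : ℕ) (S T : Finset ℕ) : Prop :=
  ∃ i, b ≤ i ∧ i ∉ S ∧ (i = b ∨ i - 1 ∈ S) ∧ T = insert i S ∧ T.card ≤ p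

/-- a placement or a removal -/
def St (b p : ℕ) (S T : Finset ℕ) : Prop := Mv b p S T ∨ Mv b p T S

/-- `S` is reachable from the empty configuration -/
def Reach (b p : ℕ) (S : Finset ℕ) : Prop := Relation.ReflTransGen (St b p) ∅ S

theorem St_symm (b p : ℕ) : Std.Symm (St b p) := ⟨fun _ _ h => h.symm⟩

theorem conn_symm {b p : ℕ} {S T : Finset ℕ} (h : Relation.ReflTransGen (St b p) S T) :
    Relation.ReflTransGen (St b p) T S := by
  induction h with
  | refl => exact Relation.ReflTransGen.refl
  | tail _ h2 ih => exact Relation.ReflTransGen.head h2.symm ih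

theorem filter_insert_le {y i : ℕ} (h : i ≤ y) (S : Finset ℕ) :
    (insert i S).filter (· ≤ y) = insert i (S.filter (· ≤ y)) := by
  rw [Finset.filter_insert, if_pos h]

theorem filter_insert_le' {y i : ℕ} (h : y < i) (S : Finset ℕ) :
    (insert i S).filter (· ≤ y) = S.filter (· ≤ y) := by
  rw [Finset.filter_insert, if_neg (not_le.2 h)]

theorem filter_insert_lt {y i : ℕ} (h : y < i) (S : Finset ℕ) :
    (insert i S).filter (y < ·) = insert i (S.filter (y < ·)) := by
  rw [Finset.filter_insert, if_pos h]

theorem filter_insert_lt' {y i : ℕ} (h : i ≤ y) (S : Finset ℕ) :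
    (insert i S).filter (y < ·) = S.filter (y < ·) := by
  rw [Finset.filter_insert, if_neg (not_lt.2 h)]

theorem card_split (y : ℕ) (S : Finset ℕ) :
    (S.filter (· ≤ y)).card + (S.filter (y < ·)).card = S.card := by
  have h : S.filter (y < ·) = S.filter (fun i => ¬ i ≤ y) := by
    ext i
    simp
  rw [h]
  exact Finset.card_filter_add_card_filter_not (fun i => i ≤ y)

/-- a move at a position `≤ y` is a move of the lower part -/
theorem Mv_low {b p q y i : ℕ} {S T : Finset ℕ} (hi : i ≤ y) (hb : b ≤ i) (hiS : i ∉ S)
    (hp : i = b ∨ i - 1 ∈ S) (hT : T = insert i S) (hc : (T.filter (· ≤ y)).card ≤ q) :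
    Mv b q (S.filter (· ≤ y)) (T.filter (· ≤ y)) := by
  subst hT
  refine ⟨i, hb, fun h => hiS (Finset.mem_filter.1 h).1, ?_, filter_insert_le hi S, hc⟩
  rcases hp with h | h
  · exact Or.inl h
  · exact Or.inr (Finset.mem_filter.2 ⟨h, by omega⟩)

/-- a move at a position `> y` is a move of the upper part -/
theorem Mv_high {b q y i : ℕ} {S T : Finset ℕ} (hi : y < i) (hb : b ≤ y) (hiS : i ∉ S)
    (hp : i = b ∨ i - 1 ∈ S) (hT : T = insert i S) (hc : (T.filter (y < ·)).card ≤ q) :
    Mv (y + 1) q (S.filter (y < ·)) (T.filter (y < ·)) := by
  subst hT
  refine ⟨i, hi, fun h => hiS (Finset.mem_filter.1 h).1, ?_, filter_insert_lt hi S, hc⟩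
  rcases hp with h | h
  · omega
  · by_cases h1 : i = y + 1
    · exact Or.inl h1
    · exact Or.inr (Finset.mem_filter.2 ⟨h, by omega⟩)

/-- **Reversible pebbling**: with `p` pebbles the positions used are among the first `2 ^ p - 1`. -/
theorem reach_bound (p : ℕ) : ∀ (b : ℕ) (S : Finset ℕ), Reach b p S → ∀ i ∈ S, i + 1 < b + 2 ^ p := by
  induction p with
  | zero =>
    intro b S h
    have h0 : S = ∅ := by
      unfold Reach at h
      induction h with
      | refl => rfl
      | tail _ h2 ih =>
        subst ih
        rcases h2 with ⟨i, _, _, _, h3, h4⟩ | ⟨i, _, _, _, h3, _⟩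
        · exact Finset.card_eq_zero.1 (by omega)
        · exact absurd h3.symm (Finset.insert_ne_empty _ _)
    subst h0
    intro i hi
    exact absurd hi (Finset.notMem_empty i)
  | succ p ih =>
    intro b S h
    obtain ⟨y, hy⟩ : ∃ y, y + 1 = b + 2 ^ p := ⟨b + 2 ^ p - 1, by
      have := Nat.one_le_two_pow (n := p)
      omega⟩
    have hby : b ≤ y := by
      have := Nat.one_le_two_pow (n := p)
      omega
    have hpow : 2 ^ (p + 1) = 2 ^ p + 2 ^ p := by rw [pow_succ]; ring
    -- the invariant
    have inv : (∀ i ∈ S, i ≤ y) ∨ ((∃ U, y ∈ U ∧ Relation.ReflTransGen (St b p) U (S.filter (· ≤ y))) ∧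
        Reach (y + 1) p (S.filter (y < ·)) ∧ (S.filter (y < ·)).Nonempty) := by
      unfold Reach at h
      induction h with
      | refl => exact Or.inl fun i hi => absurd hi (Finset.notMem_empty i)
      | @tail S T _ h2 ih2 =>
        -- the lower part is not empty in the second case
        have hlow : ∀ V : Finset ℕ, (∃ U, y ∈ U ∧ Relation.ReflTransGen (St b p) U V) → 1 ≤ V.card := by
          rintro V ⟨U, hyU, hUV⟩
          rw [Nat.one_le_iff_ne_zero]
          intro h0
          rw [Finset.card_eq_zero] at h0
          subst h0
          have := ih b U (conn_symm hUV) y hyU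
          omega
        rcases h2 with ⟨i, hbi, hiS, hp, hT, hc⟩ | ⟨i, hbi, hiT, hp, hS, hc⟩
        · -- placement
          rcases ih2 with h3 | ⟨⟨U, hyU, hUS⟩, h4, h5⟩
          · by_cases hi : i ≤ y
            · left
              subst hT
              intro j hj
              rcases Finset.mem_insert.1 hj with rfl | hj
              · exact hi
              · exact h3 j hj
            · right
              rw [not_le] at hi
              have hiy : i = y + 1 := by
                rcases hp with h | h
                · omega
                · have := h3 _ h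
                  omega
              subst hiy
              have hyS : y ∈ S := by
                rcases hp with h | h
                · omega
                · simpa using h
              have hfS : S.filter (· ≤ y) = S := Finset.filter_true_of_mem h3
              have hfS' : S.filter (y < ·) = ∅ :=
                Finset.filter_false_of_mem fun j hj => not_lt.2 (h3 j hj)
              have hcS : S.card + 1 ≤ p + 1 := by
                rw [← Finset.card_insert_of_notMem hiS, ← hT]
                exact hc
              have hcS1 : 1 ≤ S.card := Finset.card_pos.2 ⟨y, hyS⟩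
              subst hT
              refine ⟨⟨S, hyS, ?_⟩, ?_, ?_⟩
              · rw [filter_insert_le' hi, hfS]
              · rw [filter_insert_lt hi, hfS']
                refine Relation.ReflTransGen.single (Or.inl ⟨y + 1, le_rfl, Finset.notMem_empty _,
                  Or.inl rfl, rfl, ?_⟩)
                rw [Finset.card_insert_of_notMem (Finset.notMem_empty _), Finset.card_empty]
                omega
              · exact ⟨y + 1, Finset.mem_filter.2 ⟨Finset.mem_insert_self _ _, hi⟩⟩
          · right
            have hcs := card_split y T
            by_cases hi : i ≤ y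
            · have hH : T.filter (y < ·) = S.filter (y < ·) := by
                rw [hT, filter_insert_lt' hi]
              have hpos := Finset.card_pos.2 h5
              rw [hH] at hcs ⊢
              exact ⟨⟨U, hyU, hUS.tail (Or.inl (Mv_low (p := p) hi hbi hiS hp hT (by omega)))⟩, h4, h5⟩
            · rw [not_le] at hi
              have hL : T.filter (· ≤ y) = S.filter (· ≤ y) := by
                rw [hT, filter_insert_le' hi]
              have hpos := hlow _ ⟨U, hyU, hUS⟩
              rw [hL] at hcs ⊢
              refine ⟨⟨U, hyU, hUS⟩, h4.tail (Or.inl (Mv_high hi hby hiS hp hT (by omega))), ?_⟩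
              rw [hT, filter_insert_lt hi]
              exact Finset.insert_nonempty _ _
        · -- removal: `S = insert i T`
          rcases ih2 with h3 | ⟨⟨U, hyU, hUS⟩, h4, h5⟩
          · left
            intro j hj
            exact h3 j (by rw [hS]; exact Finset.mem_insert_of_mem hj)
          · have hcs := card_split y S
            by_cases hi : i ≤ y
            · right
              have hH : S.filter (y < ·) = T.filter (y < ·) := by
                rw [hS, filter_insert_lt' hi]
              have hpos := Finset.card_pos.2 h5
              rw [← hH]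
              exact ⟨⟨U, hyU, hUS.tail (Or.inr (Mv_low (p := p) hi hbi hiT hp hS (by omega)))⟩, h4, h5⟩
            · rw [not_le] at hi
              have hL : S.filter (· ≤ y) = T.filter (· ≤ y) := by
                rw [hS, filter_insert_le' hi]
              have hpos := hlow _ ⟨U, hyU, hUS⟩
              rcases (T.filter (y < ·)).eq_empty_or_nonempty with h6 | h6
              · left
                intro j hj
                by_contra hne
                rw [not_le] at hne
                have : j ∈ T.filter (y < ·) := Finset.mem_filter.2 ⟨hj, hne⟩
                rw [h6] at this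
                exact Finset.notMem_empty _ this
              · right
                rw [← hL]
                exact ⟨⟨U, hyU, hUS⟩, h4.tail (Or.inr (Mv_high hi hby hiT hp hS (by omega))), h6⟩
    intro i hi
    rcases inv with h1 | ⟨_, h2, _⟩
    · have := h1 i hi
      have := Nat.one_le_two_pow (n := p)
      omega
    · by_cases h3 : i ≤ y
      · have := Nat.one_le_two_pow (n := p)
        omega
      · have := ih (y + 1) _ h2 i (Finset.mem_filter.2 ⟨hi, not_le.1 h3⟩)
        omega

end Pool.Agent.FZ.GF
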