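import Pool.Agent.FZ.Bad

/-! # The projection lemma -/

namespace Pool.Agent.FZ

open Classical in
/-- the values at `i` of the members of the class `κ` -/
private noncomputable def vals {D α : Type} (J : Finset D) (i : D) (A : Finset (D → α))
    (κ : J → α) : Finset α :=
  (A.filter fun x => res J x = κ).image fun x => x i

private theorem mem_vals {D α : Type} (J : Finset D) (i : D) (A : Finset (D → α))
    (κ : J → α) (a : α) : a ∈ vals J i A κ ↔ ∃ x ∈ A, res J x = κ ∧ x i = a := by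
  classical
  unfold vals
  rw [Finset.mem_image]
  constructor
  · rintro ⟨x, hx, h⟩
    rw [Finset.mem_filter] at hx
    exact ⟨x, hx.1, hx.2, h⟩
  · rintro ⟨x, hx, hκ, h⟩
    exact ⟨x, by rw [Finset.mem_filter]; exact ⟨hx, hκ⟩, h⟩

open Classical in
private theorem card_vals {D α : Type} (I : Finset D) (i : D) (A : Finset (D → α))
    (hA : ∀ x ∈ A, ∀ x' ∈ A, res I x = res I x' → x = x') (κ : (↥(I.erase i)) → α) :
    (vals (I.erase i) i A κ).card =
      (A.filter fun x => res (I.erase i) x = κ).card := by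
  refine Finset.card_image_of_injOn fun x hx x' hx' h => ?_
  rw [Finset.mem_coe, Finset.mem_filter] at hx hx'
  refine hA x hx.1 x' hx'.1 ?_
  funext v
  by_cases hv : v.1 = i
  · show x v.1 = x' v.1
    rw [hv]; exact h
  · have h1 := congrFun (hx.2.trans hx'.2.symm) ⟨v.1, Finset.mem_erase.2 ⟨hv, v.2⟩⟩
    exact h1

open Classical in
private theorem card_classes {D : Type} {q : ℕ} (J : Finset D) (A : Finset (D → Fin q)) :
    (A.image (res J)).card ≤ q ^ J.card := by
  refine (Finset.card_le_univ _).trans ?_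
  rw [Fintype.card_fun, Fintype.card_fin, Fintype.card_coe]

open Classical in
private theorem card_classes' {D : Type} {q : ℕ} (J : Finset D)
    (B : Finset (D → Fin q → Bool)) :
    (B.image (res J)).card ≤ 2 ^ (q * J.card) := by
  refine (Finset.card_le_univ _).trans ?_
  rw [Fintype.card_fun, Fintype.card_fun, Fintype.card_fin, Fintype.card_bool, Fintype.card_coe,
    pow_mul]

open Classical in
/-- few `w` miss a class of `A` -/
private theorem missed {D : Type} [Fintype D] (p q : ℕ) (hp : 256 ≤ p) (hq : q = 4 * p ^ 9)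
    (hD : Fintype.card D ≤ p) (I : Finset D) (i : D)
    (A : Finset (D → Fin q))
    (hA : ∀ x ∈ A, ∀ x' ∈ A, res I x = res I x' → x = x')
    (hthick : ∀ x ∈ A,
      p ^ 7 ≤ (A.filter fun x' => res (I.erase i) x' = res (I.erase i) x).card) :
    8 * (Finset.univ.filter fun w : Fin (p ^ 4) → Fin q =>
      ∃ κ ∈ A.image (res (I.erase i)), ∀ t, w t ∉ vals (I.erase i) i A κ).card
      ≤ q ^ (p ^ 4) := by
  have hq0 : 0 < q := by rw [hq]; positivity
  have hit' : ∀ X : Finset (Fin q), p ^ 7 ≤ X.card → 8 * q ^ p *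
      (Finset.univ.filter fun w : Fin (p ^ 4) → Fin q => ∀ t, w t ∉ X).card ≤ q ^ (p ^ 4) := by
    subst hq
    intro X hX
    have := hit p hp X hX
    convert! this
  set J := I.erase i with hJ
  have h1 : (Finset.univ.filter fun w : Fin (p ^ 4) → Fin q =>
      ∃ κ ∈ A.image (res J), ∀ t, w t ∉ vals J i A κ) ⊆
      (A.image (res J)).biUnion fun κ =>
        Finset.univ.filter fun w : Fin (p ^ 4) → Fin q => ∀ t, w t ∉ vals J i A κ := by
    intro w hw
    rw [Finset.mem_filter] at hw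
    obtain ⟨κ, hκ, h⟩ := hw.2
    rw [Finset.mem_biUnion]
    exact ⟨κ, hκ, by rw [Finset.mem_filter]; exact ⟨Finset.mem_univ _, h⟩⟩
  have h2 := (Finset.card_le_card h1).trans Finset.card_biUnion_le
  have h3 : ∀ κ ∈ A.image (res J), 8 * q ^ p *
      (Finset.univ.filter fun w : Fin (p ^ 4) → Fin q => ∀ t, w t ∉ vals J i A κ).card ≤
        q ^ (p ^ 4) := by
    intro κ hκ
    refine hit' _ ?_
    rw [card_vals I i A hA κ]
    obtain ⟨x, hx, rfl⟩ := Finset.mem_image.1 hκ
    have h5 := hthick x hx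
    convert! h5
  have h4 : q ^ p * (8 * (Finset.univ.filter fun w : Fin (p ^ 4) → Fin q =>
      ∃ κ ∈ A.image (res J), ∀ t, w t ∉ vals J i A κ).card) ≤ q ^ p * q ^ (p ^ 4) := by
    calc q ^ p * (8 * (Finset.univ.filter fun w : Fin (p ^ 4) → Fin q =>
          ∃ κ ∈ A.image (res J), ∀ t, w t ∉ vals J i A κ).card)
        ≤ q ^ p * (8 * ∑ κ ∈ A.image (res J),
          (Finset.univ.filter fun w : Fin (p ^ 4) → Fin q => ∀ t, w t ∉ vals J i A κ).card) :=
          Nat.mul_le_mul_left _ (Nat.mul_le_mul_left _ h2)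
      _ = ∑ κ ∈ A.image (res J), 8 * q ^ p *
          (Finset.univ.filter fun w : Fin (p ^ 4) → Fin q => ∀ t, w t ∉ vals J i A κ).card := by
          rw [Finset.mul_sum, Finset.mul_sum]
          exact Finset.sum_congr rfl fun _ _ => by ring
      _ ≤ ∑ κ ∈ A.image (res J), q ^ (p ^ 4) := Finset.sum_le_sum h3
      _ = (A.image (res J)).card * q ^ (p ^ 4) := by rw [Finset.sum_const, smul_eq_mul]
      _ ≤ q ^ p * q ^ (p ^ 4) := by
          refine Nat.mul_le_mul_right _ ((card_classes J A).trans ?_)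
          refine Nat.pow_le_pow_right hq0 (le_trans ?_ hD)
          exact Finset.card_le_univ _
  exact Nat.le_of_mul_le_mul_left h4 (pow_pos hq0 _)

open Classical in
/-- there are many large classes of `B` -/
private theorem large {D : Type} [Fintype D] (p q : ℕ)
    (I : Finset D) (i : D) (hi : i ∈ I)
    (B : Finset (D → Fin q → Bool))
    (hB : ∀ y ∈ B, ∀ y' ∈ B, res I y = res I y' → y = y')
    (hBsize : 2 ^ (q * I.card) ≤ B.card * 2 ^ p) :
    B.card ≤ 2 ^ (q + 1) * ((B.image (res (I.erase i))).filter fun κ =>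
      2 ^ q ≤ (vals (I.erase i) i B κ).card * 2 ^ (p + 1)).card := by
  set J := I.erase i with hJ
  set K := B.image (res J) with hK
  have h1 : B.card = ∑ κ ∈ K, (vals J i B κ).card := by
    rw [Finset.card_eq_sum_card_image (res J) B]
    refine Finset.sum_congr rfl fun κ _ => ?_
    have h5 := card_vals I i B hB κ
    convert! h5.symm
  have h2 : ∀ κ, (vals J i B κ).card ≤ 2 ^ q := by
    intro κ
    refine (Finset.card_le_univ _).trans ?_
    rw [Fintype.card_fun, Fintype.card_fin, Fintype.card_bool]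
  have hIJ : I.card = J.card + 1 := by
    rw [hJ, Finset.card_erase_of_mem hi]
    have := Finset.card_pos.2 ⟨i, hi⟩
    omega
  have h3 : (∑ κ ∈ K.filter fun κ => ¬ 2 ^ q ≤ (vals J i B κ).card * 2 ^ (p + 1),
      (vals J i B κ).card) * 2 ^ (p + 1) ≤ B.card * 2 ^ p := by
    rw [Finset.sum_mul]
    calc ∑ κ ∈ K.filter fun κ => ¬ 2 ^ q ≤ (vals J i B κ).card * 2 ^ (p + 1),
          (vals J i B κ).card * 2 ^ (p + 1)
        ≤ ∑ κ ∈ K.filter fun κ => ¬ 2 ^ q ≤ (vals J i B κ).card * 2 ^ (p + 1), 2 ^ q := by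
          refine Finset.sum_le_sum fun κ hκ => ?_
          rw [Finset.mem_filter] at hκ
          exact (not_le.1 hκ.2).le
      _ = (K.filter fun κ => ¬ 2 ^ q ≤ (vals J i B κ).card * 2 ^ (p + 1)).card * 2 ^ q := by
          rw [Finset.sum_const, smul_eq_mul]
      _ ≤ K.card * 2 ^ q := Nat.mul_le_mul_right _ (Finset.card_filter_le _ _)
      _ ≤ 2 ^ (q * J.card) * 2 ^ q := Nat.mul_le_mul_right _ (card_classes' J B)
      _ = 2 ^ (q * I.card) := by rw [hIJ, ← pow_add]; congr 1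
      _ ≤ B.card * 2 ^ p := hBsize
  have h4 := Finset.sum_filter_add_sum_filter_not K
    (fun κ => 2 ^ q ≤ (vals J i B κ).card * 2 ^ (p + 1)) (fun κ => (vals J i B κ).card)
  have h5 : (∑ κ ∈ K.filter fun κ => ¬ 2 ^ q ≤ (vals J i B κ).card * 2 ^ (p + 1),
      (vals J i B κ).card) * 2 ≤ B.card := by
    have : (∑ κ ∈ K.filter fun κ => ¬ 2 ^ q ≤ (vals J i B κ).card * 2 ^ (p + 1),
      (vals J i B κ).card) * 2 * 2 ^ p ≤ B.card * 2 ^ p := by
      rw [mul_assoc, ← pow_succ']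
      exact h3
    exact Nat.le_of_mul_le_mul_right this (by positivity)
  have h6 : ∑ κ ∈ K.filter fun κ => 2 ^ q ≤ (vals J i B κ).card * 2 ^ (p + 1),
      (vals J i B κ).card ≤
      (K.filter fun κ => 2 ^ q ≤ (vals J i B κ).card * 2 ^ (p + 1)).card * 2 ^ q := by
    calc _ ≤ ∑ κ ∈ K.filter fun κ => 2 ^ q ≤ (vals J i B κ).card * 2 ^ (p + 1), 2 ^ q :=
          Finset.sum_le_sum fun κ _ => h2 κ
      _ = _ := by rw [Finset.sum_const, smul_eq_mul]
  rw [← h1] at h4
  have h7 : B.card ≤ 2 * ((K.filter fun κ =>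
      2 ^ q ≤ (vals J i B κ).card * 2 ^ (p + 1)).card * 2 ^ q) := by omega
  calc B.card ≤ _ := h7
    _ = _ := by rw [pow_succ]; ring

open Classical in
private theorem proj_core {D : Type} [Fintype D] (p q : ℕ) (hp : 256 ≤ p) (hq : q = 4 * p ^ 9)
    (hD : Fintype.card D ≤ p)
    (I : Finset D) (i : D) (hi : i ∈ I)
    (A : Finset (D → Fin q)) (B : Finset (D → Fin q → Bool))
    (hA : ∀ x ∈ A, ∀ x' ∈ A, res I x = res I x' → x = x')
    (hB : ∀ y ∈ B, ∀ y' ∈ B, res I y = res I y' → y = y')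
    (hthick : ∀ x ∈ A,
      p ^ 7 ≤ (A.filter fun x' => res (I.erase i) x' = res (I.erase i) x).card)
    (hBsize : 2 ^ (q * I.card) ≤ B.card * 2 ^ p) (b : Bool) :
    ∃ A' ⊆ A, ∃ B' ⊆ B,
      (∀ x ∈ A', ∀ y ∈ B', y i (x i) = b) ∧
      (∀ x ∈ A', ∀ x' ∈ A', res (I.erase i) x = res (I.erase i) x' → x = x') ∧
      (∀ y ∈ B', ∀ y' ∈ B', res (I.erase i) y = res (I.erase i) y' → y = y') ∧
      A'.image (res (I.erase i)) = A.image (res (I.erase i)) ∧
      B.card ≤ 2 ^ (q + 2) * B'.card := by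
  have hmiss := missed p q hp hq hD I i A hA hthick
  have hlarge := large p q I i hi B hB hBsize
  set J := I.erase i with hJ
  have hq0 : 0 < q := by rw [hq]; positivity
  set G := (B.image (res J)).filter fun κ => 2 ^ q ≤ (vals J i B κ).card * 2 ^ (p + 1) with hG
  have hBpos : 0 < B.card := by
    rcases Nat.eq_zero_or_pos B.card with h | h
    · rw [h, zero_mul] at hBsize
      have : 0 < 2 ^ (q * I.card) := by positivity
      omega
    · exact h
  have hGpos : 0 < G.card := by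
    rcases Nat.eq_zero_or_pos G.card with h | h
    · rw [h, mul_zero] at hlarge
      omega
    · exact h
  -- the failures
  have hfail : ∀ κ ∈ G, 4 * (Finset.univ.filter fun w : Fin (p ^ 4) → Fin q =>
      ¬ ∃ f ∈ vals J i B κ, ∀ t, f (w t) = b).card ≤ q ^ (p ^ 4) := by
    intro κ hκ
    have h1 := seq_choice (p ^ 4) (vals J i B κ) b (p + 1) (Finset.mem_filter.1 hκ).2
    have h2 : 4 * (6 * p ^ 4 * (p + 1 + 3 * p ^ 4 + 1)) ≤ q := by
      have h3 : p + 1 + 3 * p ^ 4 + 1 ≤ 4 * p ^ 4 := by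
        have : p + 2 ≤ p ^ 4 := by
          calc p + 2 ≤ p * p := by nlinarith
            _ = p ^ 2 := by ring
            _ ≤ p ^ 4 := Nat.pow_le_pow_right (by omega) (by norm_num)
        omega
      calc 4 * (6 * p ^ 4 * (p + 1 + 3 * p ^ 4 + 1)) ≤ 4 * (6 * p ^ 4 * (4 * p ^ 4)) :=
            Nat.mul_le_mul_left _ (Nat.mul_le_mul_left _ h3)
        _ = 4 * (24 * p ^ 8) := by ring
        _ ≤ 4 * (p * p ^ 8) := Nat.mul_le_mul_left _ (Nat.mul_le_mul_right _ (by omega))
        _ = q := by rw [hq]; ring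
    have h4 : q * (4 * (Finset.univ.filter fun w : Fin (p ^ 4) → Fin q =>
        ¬ ∃ f ∈ vals J i B κ, ∀ t, f (w t) = b).card) ≤ q * q ^ (p ^ 4) := by
      calc _ = 4 * (q * (Finset.univ.filter fun w : Fin (p ^ 4) → Fin q =>
            ¬ ∃ f ∈ vals J i B κ, ∀ t, f (w t) = b).card) := by ring
        _ ≤ 4 * (6 * p ^ 4 * (p + 1 + 3 * p ^ 4 + 1) * q ^ (p ^ 4)) :=
            Nat.mul_le_mul_left _ h1
        _ = 4 * (6 * p ^ 4 * (p + 1 + 3 * p ^ 4 + 1)) * q ^ (p ^ 4) := by ring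
        _ ≤ q * q ^ (p ^ 4) := Nat.mul_le_mul_right _ h2
    exact Nat.le_of_mul_le_mul_left h4 hq0
  -- double counting
  have hsum : 4 * ∑ w : Fin (p ^ 4) → Fin q,
      (G.filter fun κ => ¬ ∃ f ∈ vals J i B κ, ∀ t, f (w t) = b).card ≤
        G.card * q ^ (p ^ 4) := by
    have h1 : ∑ w : Fin (p ^ 4) → Fin q,
        (G.filter fun κ => ¬ ∃ f ∈ vals J i B κ, ∀ t, f (w t) = b).card =
        ∑ κ ∈ G, (Finset.univ.filter fun w : Fin (p ^ 4) → Fin q =>
          ¬ ∃ f ∈ vals J i B κ, ∀ t, f (w t) = b).card := by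
      simp only [Finset.card_filter]
      exact Finset.sum_comm
    rw [h1, Finset.mul_sum]
    calc _ ≤ ∑ κ ∈ G, q ^ (p ^ 4) := Finset.sum_le_sum hfail
      _ = _ := by rw [Finset.sum_const, smul_eq_mul]
  have hbad : 2 * (Finset.univ.filter fun w : Fin (p ^ 4) → Fin q =>
      G.card < 2 * (G.filter fun κ => ¬ ∃ f ∈ vals J i B κ, ∀ t, f (w t) = b).card).card ≤
        q ^ (p ^ 4) := by
    have h1 : G.card * (Finset.univ.filter fun w : Fin (p ^ 4) → Fin q =>
        G.card < 2 * (G.filter fun κ => ¬ ∃ f ∈ vals J i B κ, ∀ t, f (w t) = b).card).card ≤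
        2 * ∑ w : Fin (p ^ 4) → Fin q,
          (G.filter fun κ => ¬ ∃ f ∈ vals J i B κ, ∀ t, f (w t) = b).card := by
      rw [Finset.mul_sum]
      calc _ = ∑ w ∈ (Finset.univ.filter fun w : Fin (p ^ 4) → Fin q =>
            G.card < 2 * (G.filter fun κ => ¬ ∃ f ∈ vals J i B κ, ∀ t, f (w t) = b).card),
            G.card := by rw [Finset.sum_const, smul_eq_mul, mul_comm]
        _ ≤ ∑ w ∈ (Finset.univ.filter fun w : Fin (p ^ 4) → Fin q =>
            G.card < 2 * (G.filter fun κ => ¬ ∃ f ∈ vals J i B κ, ∀ t, f (w t) = b).card),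
            2 * (G.filter fun κ => ¬ ∃ f ∈ vals J i B κ, ∀ t, f (w t) = b).card := by
            refine Finset.sum_le_sum fun w hw => ?_
            rw [Finset.mem_filter] at hw
            exact hw.2.le
        _ ≤ _ := Finset.sum_le_sum_of_subset (Finset.filter_subset _ _)
    have h2 : G.card * (2 * (Finset.univ.filter fun w : Fin (p ^ 4) → Fin q =>
        G.card < 2 * (G.filter fun κ => ¬ ∃ f ∈ vals J i B κ, ∀ t, f (w t) = b).card).card) ≤
        G.card * q ^ (p ^ 4) := by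
      calc _ = 2 * (G.card * (Finset.univ.filter fun w : Fin (p ^ 4) → Fin q =>
            G.card < 2 * (G.filter fun κ => ¬ ∃ f ∈ vals J i B κ, ∀ t, f (w t) = b).card).card) :=
            by ring
        _ ≤ 2 * (2 * ∑ w : Fin (p ^ 4) → Fin q,
          (G.filter fun κ => ¬ ∃ f ∈ vals J i B κ, ∀ t, f (w t) = b).card) :=
            Nat.mul_le_mul_left _ h1
        _ = 4 * ∑ w : Fin (p ^ 4) → Fin q,
          (G.filter fun κ => ¬ ∃ f ∈ vals J i B κ, ∀ t, f (w t) = b).card := by ring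
        _ ≤ _ := hsum
    exact Nat.le_of_mul_le_mul_left h2 hGpos
  -- a good `w`
  obtain ⟨w, hw1, hw2⟩ : ∃ w : Fin (p ^ 4) → Fin q,
      (¬ ∃ κ ∈ A.image (res J), ∀ t, w t ∉ vals J i A κ) ∧
      ¬ G.card < 2 * (G.filter fun κ => ¬ ∃ f ∈ vals J i B κ, ∀ t, f (w t) = b).card := by
    by_contra hcon
    push Not at hcon
    have h1 : (Finset.univ : Finset (Fin (p ^ 4) → Fin q)) ⊆
        (Finset.univ.filter fun w : Fin (p ^ 4) → Fin q =>
          ∃ κ ∈ A.image (res J), ∀ t, w t ∉ vals J i A κ) ∪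
        (Finset.univ.filter fun w : Fin (p ^ 4) → Fin q =>
          G.card < 2 * (G.filter fun κ => ¬ ∃ f ∈ vals J i B κ, ∀ t, f (w t) = b).card) := by
      intro w _
      rw [Finset.mem_union, Finset.mem_filter, Finset.mem_filter]
      by_cases h : ∃ κ ∈ A.image (res J), ∀ t, w t ∉ vals J i A κ
      · exact Or.inl ⟨Finset.mem_univ _, h⟩
      · refine Or.inr ⟨Finset.mem_univ _, ?_⟩
        push Not at h ⊢
        exact hcon w h
    have h2 := (Finset.card_le_card h1).trans (Finset.card_union_le _ _)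
    rw [Finset.card_univ, Fintype.card_fun, Fintype.card_fin, Fintype.card_fin] at h2
    have h3 : 0 < q ^ (p ^ 4) := pow_pos hq0 _
    omega
  push Not at hw1
  rw [not_lt] at hw2
  -- representatives
  have hcA : ∀ κ, ∃ x : D → Fin q, κ ∈ A.image (res J) →
      x ∈ A ∧ res J x = κ ∧ ∃ t, w t = x i := by
    intro κ
    by_cases hκ : κ ∈ A.image (res J)
    · obtain ⟨t, ht⟩ := hw1 κ hκ
      rw [mem_vals] at ht
      obtain ⟨x, hx, hxκ, hxt⟩ := ht
      exact ⟨x, fun _ => ⟨hx, hxκ, t, hxt.symm⟩⟩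
    · exact ⟨fun _ => ⟨0, hq0⟩, fun h => absurd h hκ⟩
  choose cA hcA using hcA
  set G' := G.filter fun κ => ∃ f ∈ vals J i B κ, ∀ t, f (w t) = b with hG'
  have hcB : ∀ κ, ∃ y : D → Fin q → Bool, κ ∈ G' →
      y ∈ B ∧ res J y = κ ∧ ∀ t, y i (w t) = b := by
    intro κ
    by_cases hκ : κ ∈ G'
    · obtain ⟨f, hf, hfb⟩ := (Finset.mem_filter.1 hκ).2
      rw [mem_vals] at hf
      obtain ⟨y, hy, hyκ, hyf⟩ := hf
      exact ⟨y, fun _ => ⟨hy, hyκ, fun t => by rw [hyf]; exact hfb t⟩⟩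
    · exact ⟨fun _ _ => true, fun h => absurd h hκ⟩
  choose cB hcB using hcB
  refine ⟨(A.image (res J)).image cA, ?_, G'.image cB, ?_, ?_, ?_, ?_, ?_, ?_⟩
  · intro x hx
    obtain ⟨κ, hκ, rfl⟩ := Finset.mem_image.1 hx
    exact (hcA κ hκ).1
  · intro y hy
    obtain ⟨κ, hκ, rfl⟩ := Finset.mem_image.1 hy
    exact (hcB κ hκ).1
  · intro x hx y hy
    obtain ⟨κ, hκ, rfl⟩ := Finset.mem_image.1 hx
    obtain ⟨κ', hκ', rfl⟩ := Finset.mem_image.1 hy
    obtain ⟨t, ht⟩ := (hcA κ hκ).2.2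
    rw [← ht]
    exact (hcB κ' hκ').2.2 t
  · intro x hx x' hx' h
    obtain ⟨κ, hκ, rfl⟩ := Finset.mem_image.1 hx
    obtain ⟨κ', hκ', rfl⟩ := Finset.mem_image.1 hx'
    rw [(hcA κ hκ).2.1, (hcA κ' hκ').2.1] at h
    rw [h]
  · intro x hx x' hx' h
    obtain ⟨κ, hκ, rfl⟩ := Finset.mem_image.1 hx
    obtain ⟨κ', hκ', rfl⟩ := Finset.mem_image.1 hx'
    rw [(hcB κ hκ).2.1, (hcB κ' hκ').2.1] at h
    rw [h]
  · ext κ
    rw [Finset.mem_image]
    constructor
    · rintro ⟨x, hx, rfl⟩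
      obtain ⟨κ', hκ', rfl⟩ := Finset.mem_image.1 hx
      rw [(hcA κ' hκ').2.1]
      exact hκ'
    · intro hκ
      exact ⟨cA κ, Finset.mem_image_of_mem _ hκ, (hcA κ hκ).2.1⟩
  · have h1 : (G'.image cB).card = G'.card := by
      refine Finset.card_image_of_injOn fun κ hκ κ' hκ' h => ?_
      rw [← (hcB κ hκ).2.1, ← (hcB κ' hκ').2.1, h]
    have h2 : G'.card + (G.filter fun κ => ¬ ∃ f ∈ vals J i B κ, ∀ t, f (w t) = b).card =
        G.card := Finset.card_filter_add_card_filter_not _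
    have h3 : G.card ≤ 2 * G'.card := by omega
    rw [h1]
    calc B.card ≤ 2 ^ (q + 1) * G.card := hlarge
      _ ≤ 2 ^ (q + 1) * (2 * G'.card) := Nat.mul_le_mul_left _ h3
      _ = 2 ^ (q + 2) * G'.card := by rw [pow_succ 2 (q + 1)]; ring

open Classical in
/-- **Projection lemma.** [`U` is the image of `w : Fin (p ^ 4) → Fin (4 * p ^ 9)`. For every class
of `A` modulo `I.erase i` the set of the `x i` has at least `p ^ 7` elements (injectivity on `I`);
there are at most `(4 * p ^ 9) ^ p` classes, so by `hit` at most an eighth of all `w` misses one.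
The classes of `B` modulo `I.erase i` with at least `2 ^ (q - p - 1)` elements are at least
`|B| / 2 ^ (q + 1)`; for each of them the set of the `y i` satisfies `seq_choice` with
`g = p + 1`, `n = p ^ 4`, so at most a quarter of all `w` fails. So some `w` hits every class of `A`
and at least half of the large classes of `B`. Choose representatives.] -/
theorem proj_lemma {D : Type} [Fintype D] (p : ℕ) (hp : 256 ≤ p) (hD : Fintype.card D ≤ p)
    (I : Finset D) (i : D) (hi : i ∈ I)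
    (A : Finset (D → Fin (4 * p ^ 9))) (B : Finset (D → Fin (4 * p ^ 9) → Bool))
    (hA : ∀ x ∈ A, ∀ x' ∈ A, res I x = res I x' → x = x')
    (hB : ∀ y ∈ B, ∀ y' ∈ B, res I y = res I y' → y = y')
    (hthick : ∀ x ∈ A,
      p ^ 7 ≤ (A.filter fun x' => res (I.erase i) x' = res (I.erase i) x).card)
    (hBsize : 2 ^ (4 * p ^ 9 * I.card) ≤ B.card * 2 ^ p) (b : Bool) :
    ∃ A' ⊆ A, ∃ B' ⊆ B,
      (∀ x ∈ A', ∀ y ∈ B', y i (x i) = b) ∧
      (∀ x ∈ A', ∀ x' ∈ A', res (I.erase i) x = res (I.erase i) x' → x = x') ∧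
      (∀ y ∈ B', ∀ y' ∈ B', res (I.erase i) y = res (I.erase i) y' → y = y') ∧
      A'.image (res (I.erase i)) = A.image (res (I.erase i)) ∧
      B.card ≤ 2 ^ (4 * p ^ 9 + 2) * B'.card := by
  have := proj_core p (4 * p ^ 9) hp rfl hD I i hi A B hA hB hthick hBsize b
  exact this

end Pool.Agent.FZ
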