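import Pool.Agent.FZ.Defs

/-! # Formulas for monotone programs -/

namespace Pool.Agent.FZ

namespace ReachAux

variable {V W : Type}

/-- balanced disjunctions -/
theorem big_or (d t : ℕ) : ∀ l : List (MF V), l.length ≤ 2 ^ t → (∀ φ ∈ l, φ.depth ≤ d) →
    ∃ φ : MF V, φ.depth ≤ d + t ∧ ∀ x, φ.eval x = true ↔ ∃ ψ ∈ l, ψ.eval x = true := by
  induction t with
  | zero =>
    intro l hl hd
    rcases l with _ | ⟨ψ, _ | ⟨ψ', l⟩⟩
    · exact ⟨MF.const false, Nat.zero_le _, fun x => by simp [MF.eval]⟩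
    · exact ⟨ψ, hd ψ (by simp), fun x => by simp⟩
    · simp at hl
  | succ t ih =>
    intro l hl hd
    obtain ⟨φ₁, h1, e1⟩ := ih (l.take (2 ^ t)) (by rw [List.length_take]; omega)
      (fun φ h => hd φ (List.mem_of_mem_take h))
    obtain ⟨φ₂, h2, e2⟩ := ih (l.drop (2 ^ t))
      (by rw [List.length_drop]; rw [pow_succ] at hl; omega)
      (fun φ h => hd φ (List.mem_of_mem_drop h))
    refine ⟨MF.or φ₁ φ₂, ?_, fun x => ?_⟩
    · show max φ₁.depth φ₂.depth + 1 ≤ _
      omega
    · show (φ₁.eval x || φ₂.eval x) = true ↔ _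
      rw [Bool.or_eq_true, e1, e2]
      constructor
      · rintro (⟨ψ, h, e⟩ | ⟨ψ, h, e⟩)
        · exact ⟨ψ, List.mem_of_mem_take h, e⟩
        · exact ⟨ψ, List.mem_of_mem_drop h, e⟩
      · rintro ⟨ψ, h, e⟩
        rw [← List.take_append_drop (2 ^ t) l, List.mem_append] at h
        rcases h with h | h
        · exact Or.inl ⟨ψ, h, e⟩
        · exact Or.inr ⟨ψ, h, e⟩

theorem big_or_fin {ι : Type} [Fintype ι] (d t : ℕ) (hι : Fintype.card ι ≤ 2 ^ t) (f : ι → MF V)
    (hd : ∀ i, (f i).depth ≤ d) :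
    ∃ φ : MF V, φ.depth ≤ d + t ∧ ∀ x, φ.eval x = true ↔ ∃ i, (f i).eval x = true := by
  obtain ⟨φ, h1, h2⟩ := big_or d t ((Finset.univ : Finset ι).toList.map f)
    (by rw [List.length_map, Finset.length_toList]; exact hι)
    (fun φ h => by
      obtain ⟨i, _, rfl⟩ := List.mem_map.1 h
      exact hd i)
  refine ⟨φ, h1, fun x => ?_⟩
  rw [h2]
  constructor
  · rintro ⟨ψ, h, e⟩
    obtain ⟨i, _, rfl⟩ := List.mem_map.1 h
    exact ⟨i, e⟩
  · rintro ⟨i, e⟩
    exact ⟨f i, List.mem_map.2 ⟨i, by simp, rfl⟩, e⟩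

/-- walks of length at most `n` -/
def Rn (r : W → W → Prop) : ℕ → W → W → Prop
  | 0, u, w => u = w
  | n + 1, u, w => ∃ m, Rn r n u m ∧ (m = w ∨ r m w)

theorem Rn_succ_of {r : W → W → Prop} {n : ℕ} {u w : W} (h : Rn r n u w) : Rn r (n + 1) u w :=
  ⟨w, h, Or.inl rfl⟩

theorem Rn_mono {r : W → W → Prop} {n k : ℕ} (hk : n ≤ k) {u w : W} (h : Rn r n u w) :
    Rn r k u w := by
  induction hk with
  | refl => exact h
  | step _ ih => exact Rn_succ_of ih

theorem Rn_add {r : W → W → Prop} (a b : ℕ) (u w : W) :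
    Rn r (a + b) u w ↔ ∃ m, Rn r a u m ∧ Rn r b m w := by
  induction b generalizing w with
  | zero => exact ⟨fun h => ⟨w, h, rfl⟩, fun ⟨m, h, e⟩ => by cases e; exact h⟩
  | succ b ih =>
    constructor
    · rintro ⟨m, h, e⟩
      obtain ⟨m', h1, h2⟩ := (ih m).1 h
      exact ⟨m', h1, m, h2, e⟩
    · rintro ⟨m', h1, m, h2, e⟩
      exact ⟨m, (ih m).2 ⟨m', h1, h2⟩, e⟩

theorem Rn_gen {r : W → W → Prop} {n : ℕ} {u w : W} (h : Rn r n u w) :
    Relation.ReflTransGen r u w := by
  induction n generalizing w with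
  | zero => cases h; exact Relation.ReflTransGen.refl
  | succ n ih =>
    obtain ⟨m, h, rfl | e⟩ := h
    · exact ih h
    · exact (ih h).tail e

theorem gen_Rn [Fintype W] {r : W → W → Prop} {u w : W} (h : Relation.ReflTransGen r u w) :
    Rn r (Fintype.card W) u w := by
  classical
  set S : ℕ → Finset W := fun n => Finset.univ.filter (fun w => Rn r n u w) with hS
  have hmem : ∀ n w, w ∈ S n ↔ Rn r n u w := fun n w => by simp [hS]
  have hsub : ∀ n, S n ⊆ S (n + 1) := fun n w hw => (hmem _ _).2 (Rn_succ_of ((hmem _ _).1 hw))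
  by_contra hcon
  have hne : ∀ n ≤ Fintype.card W, S n ≠ S (n + 1) := by
    intro n hn heq
    apply hcon
    have key : ∀ w, Relation.ReflTransGen r u w → w ∈ S n := by
      intro w hw
      induction hw with
      | refl => exact (hmem _ _).2 (Rn_mono (Nat.zero_le n) rfl)
      | tail _ e ih =>
        rw [heq]
        exact (hmem _ _).2 ⟨_, (hmem _ _).1 ih, Or.inr e⟩
    exact Rn_mono hn ((hmem _ _).1 (key w h))
  have hcard : ∀ n ≤ Fintype.card W, n + 1 ≤ (S n).card := by
    intro n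
    induction n with
    | zero =>
      intro _
      exact Finset.card_pos.2 ⟨u, (hmem _ _).2 rfl⟩
    | succ n ih =>
      intro hn
      have h1 := ih (by omega)
      have h2 : (S n).card < (S (n + 1)).card :=
        Finset.card_lt_card (lt_of_le_of_ne (hsub n) (hne n (by omega)))
      omega
  have h3 := hcard _ le_rfl
  have h4 := Finset.card_le_univ (S (Fintype.card W))
  omega

/-- one step -/
theorem step_formula [Fintype V] (M : MProg V W) (u w : W) :
    ∃ φ : MF V, φ.depth ≤ Nat.clog 2 (Fintype.card V + 1) ∧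
      ∀ x, φ.eval x = true ↔ Rn (M.Step x) 1 u w := by
  classical
  have e0 : ∀ x, Rn (M.Step x) 1 u w ↔ (u = w ∨ M.Step x u w) := by
    intro x
    constructor
    · rintro ⟨m, h, e⟩
      cases h
      exact e
    · intro e
      exact ⟨u, rfl, e⟩
  by_cases h : u = w ∨ M.free u w
  · refine ⟨MF.const true, Nat.zero_le _, fun x => ?_⟩
    rw [e0]
    refine ⟨fun _ => ?_, fun _ => rfl⟩
    rcases h with h | h
    · exact Or.inl h
    · exact Or.inr (Or.inl h)
  · push Not at h
    obtain ⟨φ, h1, h2⟩ := big_or_fin (V := V) 0 (Nat.clog 2 (Fintype.card V + 1))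
      ((Nat.le_succ _).trans (Nat.le_pow_clog one_lt_two _))
      (fun v : V => if M.test u v w then MF.var v else MF.const false)
      (fun v => by
        split_ifs
        · exact le_rfl
        · exact le_rfl)
    refine ⟨φ, by rwa [zero_add] at h1, fun x => ?_⟩
    rw [h2, e0]
    constructor
    · rintro ⟨v, hv⟩
      by_cases ht : M.test u v w
      · rw [if_pos ht] at hv
        exact Or.inr (Or.inr ⟨v, ht, hv⟩)
      · rw [if_neg ht] at hv
        exact absurd hv (by simp [MF.eval])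
    · rintro (e | e | ⟨v, ht, hv⟩)
      · exact absurd e h.1
      · exact absurd e h.2
      · exact ⟨v, by rw [if_pos ht]; exact hv⟩

theorem walk_formula [Fintype V] [Fintype W] (L : ℕ) (hW : Fintype.card W ≤ 2 ^ L)
    (M : MProg V W) (t : ℕ) : ∀ u w : W,
    ∃ φ : MF V, φ.depth ≤ t * (L + 1) + Nat.clog 2 (Fintype.card V + 1) ∧
      ∀ x, φ.eval x = true ↔ Rn (M.Step x) (2 ^ t) u w := by
  induction t with
  | zero =>
    intro u w
    obtain ⟨φ, h1, h2⟩ := step_formula M u w
    exact ⟨φ, by rw [zero_mul, zero_add]; exact h1, h2⟩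
  | succ t ih =>
    intro u w
    choose f hf ef using ih
    obtain ⟨φ, h1, h2⟩ := big_or_fin (V := V) (t * (L + 1) + Nat.clog 2 (Fintype.card V + 1) + 1) L
      hW (fun m : W => MF.and (f u m) (f m w)) (fun m => by
        show max (f u m).depth (f m w).depth + 1 ≤ _
        have := hf u m
        have := hf m w
        omega)
    refine ⟨φ, ?_, fun x => ?_⟩
    · refine h1.trans (le_of_eq ?_)
      ring
    · rw [h2, pow_succ, mul_two, Rn_add]
      refine exists_congr fun m => ?_
      show ((f u m).eval x && (f m w).eval x) = true ↔ _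
      rw [Bool.and_eq_true, ef, ef]

end ReachAux

open ReachAux in
/-- [Formulas for: there is a walk of length at most `2 ^ t` from `u` to `w`, by induction on `t`;
a disjunction of at most `2 ^ t` formulas is a balanced tree of depth `t`. If `acc` can be reached,
then in less than `card W` steps.] -/
theorem reach_formula {V W : Type} [Fintype V] [Fintype W] (L : ℕ)
    (hW : Fintype.card W ≤ 2 ^ L) (M : MProg V W) :
    ∃ φ : MF V, φ.depth ≤ L * (L + 1) + Nat.clog 2 (Fintype.card V + 1) ∧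
      ∀ x, φ.eval x = true ↔ M.Accepts x := by
  obtain ⟨φ, h1, h2⟩ := walk_formula L hW M L M.src M.acc
  refine ⟨φ, h1, fun x => ?_⟩
  rw [h2]
  exact ⟨fun h => Rn_gen h, fun h => Rn_mono hW (gen_Rn h)⟩

end Pool.Agent.FZ
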