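import Pool.Agent.FZ.Defs

/-! # The adversary for the pyramid -/

namespace Pool.Agent.FZ

/-- `v` is on route `i` of the path `π` (node `(i, π i)` for every `i`): the route leaves the path
below level `i` in the direction which the path does not take. -/
def OnRoute {h : ℕ} (π : ℕ → ℕ) (i : ℕ) (v : PNode h) : Prop :=
  i < (v.1 : ℕ) ∧
    if π (i + 1) = π i + 1 then (v.2 : ℕ) = π i else (v.2 : ℕ) = π i + ((v.1 : ℕ) - i)

/-- The invariant of the adversary, for the set `Q` of queried nodes and the answers `z`: a path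
from the root `(0, 0)`; the answers are `false` exactly on the path, all queried nodes of the path
are on levels `≤ l₀`, all routes `i < l₀` are hit, and the end point is not queried. -/
def Safe (h : ℕ) (Q : Finset (PNode h)) (z : PNode h → Bool) : Prop :=
  ∃ (π : ℕ → ℕ) (l₀ : ℕ), π 0 = 0 ∧ (∀ i, π (i + 1) = π i ∨ π (i + 1) = π i + 1) ∧ l₀ ≤ h ∧
    (∀ v ∈ Q, z v = false ↔ (v.2 : ℕ) = π v.1) ∧
    (∀ v ∈ Q, z v = false → (v.1 : ℕ) ≤ l₀) ∧
    (∀ i < l₀, ∃ v ∈ Q, OnRoute π i v) ∧
    ∀ v ∈ Q, (v.1 : ℕ) = h → (v.2 : ℕ) ≠ π h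

theorem safe_empty (h : ℕ) (z : PNode h → Bool) : Safe h ∅ z := by
  refine ⟨fun _ => 0, 0, rfl, fun i => Or.inl rfl, Nat.zero_le _, ?_, ?_, ?_, ?_⟩ <;> simp

/-- Growth of a path. -/
private lemma path_bounds {π : ℕ → ℕ} (hπ : ∀ i, π (i + 1) = π i ∨ π (i + 1) = π i + 1)
    (i d : ℕ) : π i ≤ π (i + d) ∧ π (i + d) ≤ π i + d := by
  induction d with
  | zero => simp
  | succ d ih =>
    have := hπ (i + d)
    rw [← Nat.add_assoc]
    omega

/-- The position of route `i` on the level `j`. -/
private def route (π : ℕ → ℕ) (i j : ℕ) : ℕ :=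
  if j ≤ i then π j else if π (i + 1) = π i + 1 then π i else π i + (j - i)

private lemma route_of_le (π : ℕ → ℕ) {i j : ℕ} (h : j ≤ i) : route π i j = π j := by
  simp [route, h]

private lemma route_of_gt (π : ℕ → ℕ) {i j : ℕ} (h : i < j) :
    route π i j = if π (i + 1) = π i + 1 then π i else π i + (j - i) := by
  simp [route, Nat.not_le.2 h]

private lemma onRoute_iff {h : ℕ} (π : ℕ → ℕ) (i : ℕ) (v : PNode h) :
    OnRoute π i v ↔ i < (v.1 : ℕ) ∧ (v.2 : ℕ) = route π i v.1 := by
  unfold OnRoute
  constructor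
  · rintro ⟨h1, h2⟩
    refine ⟨h1, ?_⟩
    rw [route_of_gt π h1]
    split_ifs with h3
    · simpa [h3] using h2
    · simpa [h3] using h2
  · rintro ⟨h1, h2⟩
    refine ⟨h1, ?_⟩
    rw [route_of_gt π h1] at h2
    split_ifs at h2 ⊢ with h3
    · exact h2
    · exact h2

private lemma route_path {π : ℕ → ℕ} (hπ : ∀ i, π (i + 1) = π i ∨ π (i + 1) = π i + 1)
    (i j : ℕ) : route π i (j + 1) = route π i j ∨ route π i (j + 1) = route π i j + 1 := by
  rcases Nat.lt_trichotomy j i with hj | hj | hj
  · rw [route_of_le π (by omega : j + 1 ≤ i), route_of_le π (by omega : j ≤ i)]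
    exact hπ j
  · subst hj
    rw [route_of_gt π (by omega : j < j + 1), route_of_le π (le_refl j)]
    split_ifs
    · exact Or.inl rfl
    · right; omega
  · rw [route_of_gt π (by omega : i < j + 1), route_of_gt π hj]
    split_ifs
    · exact Or.inl rfl
    · right; omega

/-- Route `i` and a path which agrees with `π` up to level `i + 1` are disjoint below level `i`. -/
private lemma route_ne {π : ℕ → ℕ} (hπ : ∀ i, π (i + 1) = π i ∨ π (i + 1) = π i + 1)
    {σ : ℕ → ℕ} (hσ : ∀ i, σ (i + 1) = σ i ∨ σ (i + 1) = σ i + 1) {i j : ℕ} (hij : i < j)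
    (h1 : σ (i + 1) = π (i + 1)) : σ j ≠ route π i j := by
  obtain ⟨d, rfl⟩ : ∃ d, j = i + 1 + d := ⟨j - (i + 1), by omega⟩
  have hb := path_bounds hσ (i + 1) d
  rw [h1] at hb
  rw [route_of_gt π hij]
  split_ifs with h3
  · omega
  · have := hπ i
    omega

private lemma routes_disjoint {h : ℕ} {π : ℕ → ℕ}
    (hπ : ∀ i, π (i + 1) = π i ∨ π (i + 1) = π i + 1) {i i' : ℕ} {v : PNode h}
    (h1 : OnRoute π i v) (h2 : OnRoute π i' v) : i = i' := by
  rw [onRoute_iff] at h1 h2
  by_contra hne
  rcases Nat.lt_or_gt_of_ne hne with hlt | hlt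
  · exact route_ne hπ (route_path hπ i') h1.1 (route_of_le π (by omega)) (h2.2.symm.trans h1.2)
  · exact route_ne hπ (route_path hπ i) h2.1 (route_of_le π (by omega)) (h1.2.symm.trans h2.2)

private lemma le_card_of_routes {h : ℕ} {π : ℕ → ℕ}
    (hπ : ∀ i, π (i + 1) = π i ∨ π (i + 1) = π i + 1) {k : ℕ} {Q : Finset (PNode h)}
    (hr : ∀ i < k, ∃ v ∈ Q, OnRoute π i v) : k ≤ Q.card := by
  classical
  choose! f hf using hr
  have := Finset.card_le_card_of_injOn (s := Finset.range k) (t := Q) f
    (fun i hi => (hf i (Finset.mem_range.1 hi)).1) (by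
      intro i hi i' hi' he
      have h1 := (hf i (Finset.mem_range.1 hi)).2
      have h2 := (hf i' (Finset.mem_range.1 hi')).2
      have he' : f i = f i' := he
      rw [he'] at h1
      exact routes_disjoint hπ h1 h2)
  simpa using this

/-- [If `v` is on a level `≤ l₀`: answer `false` iff `v` is on the path. Otherwise, if some path
agreeing with `π` up to level `l₀`, consistent with the answers, with unqueried end point, avoids
`v`: answer `true`. Otherwise `v` is on `π`, on a level `k' > l₀`, and all routes `i`,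
`l₀ ≤ i < k'`, are hit, because `π` up to level `i` and then route `i` avoids `v`: answer `false`,
`l₀ := k'`. The routes are disjoint from each other and from the path, so `k' = h` would give
`h ≤ Q.card`.] -/
theorem safe_step (h : ℕ) (Q : Finset (PNode h)) (z : PNode h → Bool) (v : PNode h)
    (hs : Safe h Q z) (hv : v ∉ Q) (hc : Q.card < h) :
    ∃ b, Safe h (insert v Q) (Function.update z v b) := by
  classical
  obtain ⟨π, l₀, h0, hπ, hl, hcons, hlev, hrt, hend⟩ := hs
  have hlh : l₀ < h := lt_of_le_of_lt (le_card_of_routes hπ hrt) hc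
  have hup : ∀ (b : Bool), ∀ w ∈ Q, Function.update z v b w = z w := by
    intro b w hw
    have hne : w ≠ v := by rintro rfl; exact hv hw
    exact Function.update_of_ne hne _ _
  by_cases hvl : (v.1 : ℕ) ≤ l₀
  · refine ⟨decide (¬ (v.2 : ℕ) = π v.1), π, l₀, h0, hπ, hl, ?_, ?_, ?_, ?_⟩
    · intro w hw
      rcases Finset.mem_insert.1 hw with rfl | hw
      · simp
      · rw [hup _ w hw]; exact hcons w hw
    · intro w hw hz
      rcases Finset.mem_insert.1 hw with rfl | hw
      · exact hvl
      · rw [hup _ w hw] at hz; exact hlev w hw hz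
    · intro i hi
      obtain ⟨w, hw, hwr⟩ := hrt i hi
      exact ⟨w, Finset.mem_insert_of_mem hw, hwr⟩
    · intro w hw hwh
      rcases Finset.mem_insert.1 hw with rfl | hw
      · omega
      · exact hend w hw hwh
  · push Not at hvl
    by_cases hex : ∃ σ : ℕ → ℕ, (∀ i, σ (i + 1) = σ i ∨ σ (i + 1) = σ i + 1) ∧
        (∀ i ≤ l₀, σ i = π i) ∧ (∀ w ∈ Q, z w = false ↔ (w.2 : ℕ) = σ w.1) ∧
        (∀ w ∈ Q, (w.1 : ℕ) = h → (w.2 : ℕ) ≠ σ h) ∧ (v.2 : ℕ) ≠ σ v.1
    · obtain ⟨σ, hσ, hagree, hc', hend', hav⟩ := hex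
      refine ⟨true, σ, l₀, ?_, hσ, hl, ?_, ?_, ?_, ?_⟩
      · rw [hagree 0 (Nat.zero_le _), h0]
      · intro w hw
        rcases Finset.mem_insert.1 hw with rfl | hw
        · simp [hav]
        · rw [hup _ w hw]; exact hc' w hw
      · intro w hw hz
        rcases Finset.mem_insert.1 hw with rfl | hw
        · simp at hz
        · rw [hup _ w hw] at hz; exact hlev w hw hz
      · intro i hi
        obtain ⟨w, hw, hwr⟩ := hrt i hi
        refine ⟨w, Finset.mem_insert_of_mem hw, ?_⟩
        unfold OnRoute at hwr ⊢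
        rw [hagree i (by omega), hagree (i + 1) (by omega)]
        exact hwr
      · intro w hw hwh
        rcases Finset.mem_insert.1 hw with rfl | hw
        · rw [hwh] at hav; exact hav
        · exact hend' w hw hwh
    · -- `π` passes through `v`
      have hvon : (v.2 : ℕ) = π v.1 := by
        by_contra hne
        exact hex ⟨π, hπ, fun _ _ => rfl, hcons, hend, hne⟩
      have hall : ∀ i < (v.1 : ℕ), ∃ w ∈ Q, OnRoute π i w := by
        intro i hi
        by_cases hil : i < l₀
        · exact hrt i hil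
        · push Not at hil
          by_contra hno
          push Not at hno
          apply hex
          refine ⟨route π i, route_path hπ i, fun j hj => route_of_le π (by omega), ?_, ?_, ?_⟩
          · intro w hw
            by_cases hwi : (w.1 : ℕ) ≤ i
            · rw [route_of_le π hwi]; exact hcons w hw
            · push Not at hwi
              have h1 : ¬ z w = false := fun hz => by
                have := hlev w hw hz
                omega
              have h2 : ¬ (w.2 : ℕ) = route π i w.1 := fun he =>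
                hno w hw ((onRoute_iff π i w).2 ⟨hwi, he⟩)
              exact ⟨fun hz => absurd hz h1, fun he => absurd he h2⟩
          · intro w hw hwh he
            have hvh : (v.1 : ℕ) ≤ h := Nat.lt_succ_iff.1 v.1.isLt
            refine hno w hw ((onRoute_iff π i w).2 ⟨by omega, ?_⟩)
            rw [hwh]; exact he
          · rw [hvon]
            exact route_ne hπ hπ hi rfl
      have hvh : (v.1 : ℕ) < h := lt_of_le_of_lt (le_card_of_routes hπ hall) hc
      refine ⟨false, π, v.1, h0, hπ, hvh.le, ?_, ?_, ?_, ?_⟩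
      · intro w hw
        rcases Finset.mem_insert.1 hw with rfl | hw
        · simp [hvon]
        · rw [hup _ w hw]; exact hcons w hw
      · intro w hw hz
        rcases Finset.mem_insert.1 hw with rfl | hw
        · exact le_refl _
        · rw [hup _ w hw] at hz
          have := hlev w hw hz
          omega
      · intro i hi
        obtain ⟨w, hw, hwr⟩ := hall i hi
        exact ⟨w, Finset.mem_insert_of_mem hw, hwr⟩
      · intro w hw hwh
        rcases Finset.mem_insert.1 hw with rfl | hw
        · omega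
        · exact hend w hw hwh

theorem safe_root {h : ℕ} {Q : Finset (PNode h)} {z : PNode h → Bool} (hs : Safe h Q z)
    (hQ : (0, 0) ∈ Q) : z (0, 0) = false := by
  obtain ⟨π, l₀, h0, hπ, hl, hcons, hlev, hrt, hend⟩ := hs
  rw [hcons _ hQ]
  simp [h0]

theorem safe_inner {h : ℕ} {Q : Finset (PNode h)} {z : PNode h → Bool} (hs : Safe h Q z)
    (v v1 v2 : PNode h) (h1 : (v1.1 : ℕ) = v.1 + 1 ∧ (v1.2 : ℕ) = v.2)
    (h2 : (v2.1 : ℕ) = v.1 + 1 ∧ (v2.2 : ℕ) = v.2 + 1) (hv : v ∈ Q) (hv1 : v1 ∈ Q)
    (hv2 : v2 ∈ Q) (e1 : z v1 = true) (e2 : z v2 = true) : z v = true := by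
  obtain ⟨π, l₀, h0, hπ, hl, hcons, hlev, hrt, hend⟩ := hs
  by_contra hne
  have hf : z v = false := by simpa using hne
  have a := (hcons v hv).1 hf
  have b1 : ¬ (v1.2 : ℕ) = π v1.1 := fun e => by
    have := (hcons v1 hv1).2 e
    rw [e1] at this
    exact absurd this (by simp)
  have b2 : ¬ (v2.2 : ℕ) = π v2.1 := fun e => by
    have := (hcons v2 hv2).2 e
    rw [e2] at this
    exact absurd this (by simp)
  rw [h1.1, h1.2] at b1
  rw [h2.1, h2.2] at b2
  rcases hπ v.1 with h3 | h3
  · exact b1 (by omega)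
  · exact b2 (by omega)

theorem safe_source {h : ℕ} {Q : Finset (PNode h)} {z : PNode h → Bool} (hs : Safe h Q z)
    (v : PNode h) (h1 : (v.1 : ℕ) = h) (hv : v ∈ Q) : z v = true := by
  obtain ⟨π, l₀, h0, hπ, hl, hcons, hlev, hrt, hend⟩ := hs
  by_contra hne
  have hf : z v = false := by simpa using hne
  have a := (hcons v hv).1 hf
  rw [h1] at a
  exact hend v hv h1 a

end Pool.Agent.FZ
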