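import Pool.Agent.FZ.Sim
import Pool.Agent.FZ.Reach
import Pool.Agent.FZ.Safe
import Pool.Agent.FZ.Gen

/-! # Nondeterministic monotone programs for generation on the pyramid -/

namespace Pool.Agent.FZ

private theorem pf_h1 (h : ℕ) (hh : 14 ≤ h) : 2 * 4 ^ (2 * h) < pp h ^ (h - 1) := by
  have h256 : 256 ≤ pp h := by
    unfold pp; nlinarith
  calc 2 * 4 ^ (2 * h) = 2 * 16 ^ h := by rw [pow_mul]; norm_num
    _ < 256 ^ (h - 1) := by
        obtain ⟨k, rfl⟩ := Nat.exists_eq_add_of_le hh
        have e1 : 14 + k - 1 = 13 + k := by omega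
        rw [e1, pow_add, pow_add]
        have e2 : (256 : ℕ) ^ k = 16 ^ k * 16 ^ k := by
          rw [show (256 : ℕ) = 16 * 16 by norm_num, mul_pow]
        have e3 : 0 < 16 ^ k := by positivity
        rw [e2]
        have e4 : 1 ≤ 16 ^ k := e3
        calc 2 * (16 ^ 14 * 16 ^ k) = (2 * 16 ^ 14) * 16 ^ k := by ring
          _ < 256 ^ 13 * 16 ^ k := by
              apply Nat.mul_lt_mul_of_pos_right (by norm_num) e3
          _ ≤ 256 ^ 13 * (16 ^ k * 16 ^ k) := by
              apply Nat.mul_le_mul_left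
              exact Nat.le_mul_of_pos_right _ e3
    _ ≤ pp h ^ (h - 1) := Nat.pow_le_pow_left h256 _

private theorem pf_sq_le (n : ℕ) (hn : 4 ≤ n) : n ^ 2 ≤ 2 ^ n := by
  induction n, hn using Nat.le_induction with
  | base => norm_num
  | succ k hk ih =>
    rw [pow_succ 2 k]
    nlinarith

private theorem pf_h2 (h : ℕ) : pp h * 2 ^ (2 * h) * 4 ^ h ≤ 2 ^ pp h := by
  rcases Nat.lt_or_ge h 2 with h2 | h2
  · interval_cases h <;> norm_num [pp]
  have h1 : pp h ≤ 2 ^ (h + 2) := pf_sq_le (h + 2) (by omega)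
  calc pp h * 2 ^ (2 * h) * 4 ^ h ≤ 2 ^ (h + 2) * 2 ^ (2 * h) * 4 ^ h := by gcongr
    _ = 2 ^ (5 * h + 2) := by
        rw [show (4 : ℕ) ^ h = 2 ^ (2 * h) by rw [pow_mul]; norm_num, ← pow_add, ← pow_add]
        congr 1; ring
    _ ≤ 2 ^ pp h := by
        apply Nat.pow_le_pow_right (by norm_num)
        unfold pp; nlinarith

open Classical in
private theorem pf_leaf {h q : ℕ} (v0 : PVar h q) : ∃ K : Finset (PNode h),
      (∀ x x' : PNode h → Fin q, PY x v0 = true → PY x' v0 = true → ∀ u ∈ K, x u = x' u) ∧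
      ∀ (Q : Finset (PNode h)) (z : PNode h → Bool) (x : PNode h → Fin q)
        (y : PNode h → Fin q → Bool), Safe h Q z → K ⊆ Q → PY x v0 = true → PZ y v0 = false →
        (∀ u ∈ K, y u (x u) = z u) → False := by
  rcases v0 with ⟨v, a, b, c⟩ | c
  · by_cases hv : (v.1 : ℕ) < h
    · by_cases hj : (v.2 : ℕ) < h
      · refine ⟨{ch1 v hv, ch2 v hv hj, v}, ?_, ?_⟩
        · intro x x' h1 h2 u hu
          simp only [PY, hv, hj, dif_pos, decide_eq_true_eq] at h1 h2
          simp only [Finset.mem_insert, Finset.mem_singleton] at hu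
          rcases hu with rfl | rfl | rfl
          · rw [← h1.1, ← h2.1]
          · rw [← h1.2.1, ← h2.2.1]
          · rw [← h1.2.2, ← h2.2.2]
        · intro Q z x y hs hK h1 h2 hyz
          simp only [PY, hv, hj, dif_pos, decide_eq_true_eq] at h1
          simp only [PZ, hv, hj, dif_pos, Bool.not_eq_false', Bool.and_eq_true,
            Bool.not_eq_true'] at h2
          obtain ⟨ea, eb, ec⟩ := h1
          obtain ⟨⟨ya, yb⟩, yc⟩ := h2
          have m1 : ch1 v hv ∈ ({ch1 v hv, ch2 v hv hj, v} : Finset (PNode h)) := by simp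
          have m2 : ch2 v hv hj ∈ ({ch1 v hv, ch2 v hv hj, v} : Finset (PNode h)) := by simp
          have m3 : v ∈ ({ch1 v hv, ch2 v hv hj, v} : Finset (PNode h)) := by simp
          have z1 : z (ch1 v hv) = true := by rw [← hyz _ m1, ← ea]; exact ya
          have z2 : z (ch2 v hv hj) = true := by rw [← hyz _ m2, ← eb]; exact yb
          have z3 : z v = false := by rw [← hyz _ m3, ← ec]; exact yc
          have := safe_inner hs v (ch1 v hv) (ch2 v hv hj) ⟨rfl, rfl⟩ ⟨rfl, rfl⟩ (hK m3) (hK m1)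
            (hK m2) z1 z2
          rw [z3] at this
          exact absurd this (by decide)
      · refine ⟨∅, fun _ _ _ _ u hu => absurd hu (Finset.notMem_empty u), ?_⟩
        intro Q z x y hs hK h1 h2
        simp only [PZ, hv, hj, dif_pos, dif_neg, not_false_iff] at h2
        exact absurd h2 (by decide)
    · refine ⟨{v}, ?_, ?_⟩
      · intro x x' h1 h2 u hu
        simp only [PY, hv, dif_neg, not_false_iff, decide_eq_true_eq] at h1 h2
        rw [Finset.mem_singleton] at hu
        subst hu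
        rw [← h1.2.2, ← h2.2.2]
      · intro Q z x y hs hK h1 h2 hyz
        simp only [PY, hv, dif_neg, not_false_iff, decide_eq_true_eq] at h1
        simp only [PZ, hv, dif_neg, not_false_iff] at h2
        have m : v ∈ ({v} : Finset (PNode h)) := by simp
        have z1 : z v = false := by rw [← hyz _ m, ← h1.2.2]; exact h2
        have hvh : (v.1 : ℕ) = h := by have := v.1.2; omega
        have := safe_source hs v hvh (hK m)
        rw [z1] at this
        exact absurd this (by decide)
  · refine ⟨{(0, 0)}, ?_, ?_⟩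
    · intro x x' h1 h2 u hu
      simp only [PY, decide_eq_true_eq] at h1 h2
      rw [Finset.mem_singleton] at hu
      subst hu
      rw [← h1, ← h2]
    · intro Q z x y hs hK h1 h2 hyz
      simp only [PY, decide_eq_true_eq] at h1
      simp only [PZ, Bool.not_eq_false'] at h2
      have m : ((0, 0) : PNode h) ∈ ({(0, 0)} : Finset (PNode h)) := by simp
      have z1 : z (0, 0) = true := by rw [← hyz _ m, ← h1]; exact h2
      have := safe_root hs (hK m)
      rw [z1] at this
      exact absurd this (by decide)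

private theorem pf_cardB {D : Type} {_ : Fintype D} {q p : ℕ} {_ : Fintype (D → Fin q → Bool)}
    {P : (D → Fin q → Bool) → Prop} {_ : DecidablePred P} (hp : 1 ≤ p) (hP : ∀ y, P y) :
    2 ^ (q * Fintype.card D) ≤ p * (Finset.univ.filter P).card := by
  rw [Finset.filter_true_of_mem (fun y _ => hP y), Finset.card_univ,
    ← Nat.card_eq_fintype_card, ← Nat.card_eq_fintype_card, Nat.card_fun, Nat.card_fun,
    Nat.card_eq_fintype_card (α := Bool), Nat.card_eq_fintype_card (α := Fin q),
    Fintype.card_bool, Fintype.card_fin, ← pow_mul]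
  exact Nat.le_mul_of_pos_left _ hp

private theorem pf_lift {D V0 : Type} [Fintype D] [inst : DecidableEq D] (p d R : ℕ)
    (hp : 256 ≤ p) (hD : Fintype.card D ≤ p)
    (Y : (D → Fin (4 * p ^ 9)) → V0 → Bool) (Z : (D → Fin (4 * p ^ 9) → Bool) → V0 → Bool)
    (Adv : Finset D → (D → Bool) → Prop)
    (hadv0 : ∃ z, Adv ∅ z)
    (hstep : ∀ Q z v, Adv Q z → v ∉ Q → Q.card < R →
      ∃ b, Adv (insert v Q) (Function.update z v b))
    (hleaf : ∀ v0 : V0, ∃ K : Finset D,
      (∀ x x', Y x v0 = true → Y x' v0 = true → ∀ u ∈ K, x u = x' u) ∧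
      ∀ Q z x y, Adv Q z → K ⊆ Q → Y x v0 = true → Z y v0 = false →
        (∀ u ∈ K, y u (x u) = z u) → False)
    (h1 : 2 * 4 ^ d < p ^ (R - 1)) (h2 : p * 2 ^ d * 4 ^ R ≤ 2 ^ p)
    (φ : MF V0) (hφ : φ.depth ≤ d)
    (hA : (4 * p ^ 9) ^ Fintype.card D ≤
      p * (Finset.univ.filter fun x : D → Fin (4 * p ^ 9) => φ.eval (Y x) = true).card)
    (hB : 2 ^ (4 * p ^ 9 * Fintype.card D) ≤
      p * (Finset.univ.filter fun y : D → Fin (4 * p ^ 9) → Bool =>
        φ.eval (Z y) = false).card) : False := by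
  obtain rfl : inst = fun a b => Classical.propDecidable (a = b) := Subsingleton.elim _ _
  exact dense_lifting p d R hp hD Y Z Adv hadv0 hstep hleaf h1 h2 φ hφ hA hB

open Classical in
private theorem pf_bound (h L q : ℕ) (hq : q = 4 * pp h ^ 9) (hh : 14 ≤ h)
    (hL : L * (L + 1) + Nat.clog 2 (Fintype.card (PVar h q) + 1) ≤ 2 * h)
    {W : Type} [Fintype W] (hW : Fintype.card W ≤ 2 ^ L)
    (M : MProg (PVar h q) W) (hM : ∀ z, M.Accepts z → Pyr h q z) :
    16 * (Finset.univ.filter fun x : PNode h → Fin q => M.Accepts (PY x)).card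
      ≤ Fintype.card (PNode h → Fin q) := by
  subst hq
  obtain ⟨φ, hφ, hφM⟩ := reach_formula L hW M
  by_contra hcon
  push Not at hcon
  have hp : 256 ≤ pp h := by unfold pp; nlinarith
  have hcard : Fintype.card (PNode h) = (h + 1) ^ 2 := by
    rw [Fintype.card_prod, Fintype.card_fin]; ring
  refine pf_lift (D := PNode h) (pp h) (2 * h) h hp ?_ PY PZ (Safe h)
    ⟨fun _ => true, safe_empty h _⟩ (fun Q z v hs hv hc => ?_) (fun v0 => pf_leaf v0)
    (pf_h1 h hh) (pf_h2 h) φ (hφ.trans hL) ?_ ?_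
  · rw [hcard]; unfold pp; exact Nat.pow_le_pow_left (by omega) 2
  · obtain ⟨b, hb⟩ := safe_step h Q z v hs hv hc
    exact ⟨b, hb⟩
  · rw [Fintype.card_fun, Fintype.card_fin] at hcon
    have h3 := hcon.le.trans (Nat.mul_le_mul_right _ (le_trans (by norm_num) hp : 16 ≤ pp h))
    have h4 : (Finset.univ.filter fun x : PNode h → Fin (4 * pp h ^ 9) =>
        φ.eval (PY x) = true) = Finset.univ.filter fun x => M.Accepts (PY x) := by
      ext x
      simp only [Finset.mem_filter, Finset.mem_univ, true_and]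
      exact hφM (PY x)
    rw [h4]
    exact h3
  · have hall : ∀ y : PNode h → Fin (4 * pp h ^ 9) → Bool, φ.eval (PZ y) = false := by
      intro y
      by_contra hne
      rw [Bool.not_eq_false] at hne
      exact not_pyr_PZ y (hM _ ((hφM _).1 hne))
    exact pf_cardB (le_trans (by norm_num) hp) hall

open Classical in
/-- [`dense_lifting` with `p = pp h`, `d = 2 * h`, `R = h`, `Adv = Safe h`, and the formula of
`reach_formula`; all `PZ y` are no instances, so `φ (PZ y) = 0` for all `y`.] -/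
theorem pyr_bound (h L : ℕ) (hh : 14 ≤ h)
    (hL : L * (L + 1) + Nat.clog 2 (Fintype.card (PVar h (qq h)) + 1) ≤ 2 * h)
    {W : Type} [Fintype W] (hW : Fintype.card W ≤ 2 ^ L)
    (M : MProg (PVar h (qq h)) W) (hM : ∀ z, M.Accepts z → Pyr h (qq h) z) :
    16 * (Finset.univ.filter fun x : PNode h → Fin (qq h) => M.Accepts (PY x)).card
      ≤ Fintype.card (PNode h → Fin (qq h)) :=
  pf_bound h L (qq h) rfl hh hL hW M hM

end Pool.Agent.FZ
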