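import Pool.Agent.FZ.Thick
import Pool.Agent.FZ.Proj

/-! # Dense lifting (Raz-McKenzie with dense rectangles) -/

namespace Pool.Agent.FZ

open Classical in
/-- The state of the simulation: `Q` queried, `z` the answers, `c` formula steps done, `A`, `B` the
current sets. -/
private structure St {D : Type} [Fintype D] (p : ℕ) (Adv : Finset D → (D → Bool) → Prop)
    (Q : Finset D) (z : D → Bool) (c : ℕ) (A : Finset (D → Fin (4 * p ^ 9)))
    (B : Finset (D → Fin (4 * p ^ 9) → Bool)) : Prop where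
  adv : Adv Q z
  injA : ∀ x ∈ A, ∀ x' ∈ A, res Qᶜ x = res Qᶜ x' → x = x'
  injB : ∀ y ∈ B, ∀ y' ∈ B, res Qᶜ y = res Qᶜ y' → y = y'
  ans : ∀ v ∈ Q, ∀ x ∈ A, ∀ y ∈ B, y v (x v) = z v
  thick : ∀ x ∈ A, ∀ i ∈ Qᶜ,
    p ^ 7 ≤ (A.filter fun x' => res (Qᶜ.erase i) x' = res (Qᶜ.erase i) x).card
  sizeA : (4 * p ^ 9) ^ Qᶜ.card * p ^ Q.card ≤ A.card * (2 * p * 4 ^ c)
  sizeB : 2 ^ (4 * p ^ 9 * Qᶜ.card) ≤ B.card * (p * 2 ^ c * 4 ^ Q.card)

open Classical in
private theorem thick_fin {D : Type} {n : ℕ} (I : Finset D) (A : Finset (D → Fin n)) (τ P : ℕ)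
    (hI : I.card ≤ P)
    (h : ∀ i ∈ I, 2 * τ * P * (A.image (res (I.erase i))).card ≤ A.card) :
    ∃ A' ⊆ A, A.card ≤ 2 * A'.card ∧ ∀ x ∈ A', ∀ i ∈ I,
      τ ≤ (A'.filter fun x' => res (I.erase i) x' = res (I.erase i) x).card := by
  exact thick_subset I A τ P hI h

private theorem res_eq {D α : Type} {J : Finset D} {x x' : D → α} :
    res J x = res J x' ↔ ∀ u ∈ J, x u = x' u := by
  constructor
  · intro h u hu
    exact congrFun h ⟨u, hu⟩
  · intro h
    funext u
    exact h u.1 u.2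

open Classical in
private theorem card_le_of_inj {D α : Type} [Fintype D] [Fintype α] (J : Finset D)
    (A : Finset (D → α)) (h : ∀ x ∈ A, ∀ x' ∈ A, res J x = res J x' → x = x') :
    A.card ≤ Fintype.card α ^ J.card := by
  have h1 : A.card ≤ (Finset.univ : Finset (J → α)).card :=
    Finset.card_le_card_of_injOn (res J) (fun _ _ => Finset.mem_univ _)
      (fun x hx x' hx' e => h x hx x' hx' e)
  rwa [Finset.card_univ, Fintype.card_fun, Fintype.card_coe] at h1

open Classical in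
private theorem St.card_lt {D : Type} [Fintype D] {p d R : ℕ} (hp : 256 ≤ p)
    {Adv : Finset D → (D → Bool) → Prop} {Q : Finset D} {z : D → Bool} {c : ℕ}
    {A : Finset (D → Fin (4 * p ^ 9))} {B : Finset (D → Fin (4 * p ^ 9) → Bool)}
    (s : St p Adv Q z c A B) (hc : c ≤ d) (h1 : 2 * 4 ^ d < p ^ (R - 1)) : Q.card < R := by
  have hR : 1 ≤ R := by
    by_contra hcon
    have : R = 0 := by omega
    subst this
    have : 0 < 4 ^ d := by positivity
    simp at h1
  have hA : A.card ≤ (4 * p ^ 9) ^ Qᶜ.card := by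
    have := card_le_of_inj Qᶜ A s.injA
    rwa [Fintype.card_fin] at this
  have hpos : 0 < (4 * p ^ 9) ^ Qᶜ.card := by positivity
  have h2 : p ^ Q.card ≤ 2 * p * 4 ^ c := by
    have : (4 * p ^ 9) ^ Qᶜ.card * p ^ Q.card ≤ (4 * p ^ 9) ^ Qᶜ.card * (2 * p * 4 ^ c) :=
      s.sizeA.trans (Nat.mul_le_mul_right _ hA)
    exact Nat.le_of_mul_le_mul_left this hpos
  have h3 : 4 ^ c ≤ 4 ^ d := Nat.pow_le_pow_right (by norm_num) hc
  have h4 : p ^ Q.card < p ^ R := by
    calc p ^ Q.card ≤ 2 * p * 4 ^ c := h2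
      _ = p * (2 * 4 ^ c) := by ring
      _ ≤ p * (2 * 4 ^ d) := Nat.mul_le_mul_left _ (Nat.mul_le_mul_left _ h3)
      _ < p * p ^ (R - 1) := Nat.mul_lt_mul_of_pos_left h1 (by omega)
      _ = p ^ R := by rw [← pow_succ']; congr 1; omega
  exact (Nat.pow_lt_pow_iff_right (by omega)).1 h4

open Classical in
private theorem St.query {D : Type} [Fintype D] {p d R : ℕ} (hp : 256 ≤ p)
    (hD : Fintype.card D ≤ p)
    {Adv : Finset D → (D → Bool) → Prop}
    (hstep : ∀ Q z v, Adv Q z → v ∉ Q → Q.card < R →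
      ∃ b, Adv (insert v Q) (Function.update z v b))
    (h1 : 2 * 4 ^ d < p ^ (R - 1)) (h2 : p * 2 ^ d * 4 ^ R ≤ 2 ^ p)
    {Q : Finset D} {z : D → Bool} {c : ℕ}
    {A : Finset (D → Fin (4 * p ^ 9))} {B : Finset (D → Fin (4 * p ^ 9) → Bool)}
    (s : St p Adv Q z c A B) (hc : c ≤ d) (i : D) (hi : i ∈ Qᶜ)
    (hlt : A.card < 4 * p ^ 8 * (A.image (res (Qᶜ.erase i))).card) :
    ∃ z' A' B', A' ⊆ A ∧ B' ⊆ B ∧ St p Adv (insert i Q) z' c A' B' := by
  have hQ : Q.card < R := s.card_lt hp hc h1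
  have hiQ : i ∉ Q := by simpa using hi
  obtain ⟨b, hb⟩ := hstep Q z i s.adv hiQ hQ
  have hBsize : 2 ^ (4 * p ^ 9 * Qᶜ.card) ≤ B.card * 2 ^ p := by
    refine s.sizeB.trans (Nat.mul_le_mul_left _ (le_trans ?_ h2))
    exact Nat.mul_le_mul (Nat.mul_le_mul_left _ (Nat.pow_le_pow_right (by norm_num) hc))
      (Nat.pow_le_pow_right (by norm_num) hQ.le)
  obtain ⟨A', hA', B', hB', hans, hiA, hiB, himg, hcard⟩ :=
    proj_lemma p hp hD Qᶜ i hi A B s.injA s.injB (fun x hx => s.thick x hx i hi) hBsize b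
  have hcompl : (insert i Q)ᶜ = Qᶜ.erase i := by
    ext u
    simp only [Finset.mem_compl, Finset.mem_insert, Finset.mem_erase]
    tauto
  have hcI : Qᶜ.card = (insert i Q)ᶜ.card + 1 := by
    rw [hcompl, Finset.card_erase_of_mem hi]
    have : 0 < Qᶜ.card := Finset.card_pos.2 ⟨i, hi⟩
    omega
  have hcQ : (insert i Q).card = Q.card + 1 := Finset.card_insert_of_notMem hiQ
  have hA'card : A'.card = (A.image (res (Qᶜ.erase i))).card := by
    rw [← himg]
    refine (Finset.card_image_of_injOn ?_).symm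
    intro x hx x' hx' e
    exact hiA x hx x' hx' e
  refine ⟨Function.update z i b, A', B', hA', hB', ⟨hb, ?_, ?_, ?_, ?_, ?_, ?_⟩⟩
  · rw [hcompl]; exact hiA
  · rw [hcompl]; exact hiB
  · intro v hv x hx y hy
    rcases Finset.mem_insert.1 hv with rfl | hv
    · rw [Function.update_self]; exact hans x hx y hy
    · have hne : v ≠ i := fun h => hiQ (h ▸ hv)
      rw [Function.update_of_ne hne]
      exact s.ans v hv x (hA' hx) y (hB' hy)
  · intro x hx j hj
    rw [hcompl] at hj ⊢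
    have hj' : j ∈ Qᶜ := Finset.mem_of_mem_erase hj
    have hji : j ≠ i := (Finset.mem_erase.1 hj).1
    refine (s.thick x (hA' hx) j hj').trans ?_
    -- representatives
    have hrep : ∀ x' ∈ A, ∃ x'' ∈ A', res (Qᶜ.erase i) x'' = res (Qᶜ.erase i) x' := by
      intro x' hx'
      have : res (Qᶜ.erase i) x' ∈ A'.image (res (Qᶜ.erase i)) := by
        rw [himg]; exact Finset.mem_image_of_mem _ hx'
      obtain ⟨x'', h, e⟩ := Finset.mem_image.1 this
      exact ⟨x'', h, e⟩
    choose! rep hrepA hrepE using hrep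
    refine Finset.card_le_card_of_injOn rep ?_ ?_
    · intro x' hx'
      have hx'' := Finset.mem_filter.1 hx'
      refine Finset.mem_coe.2 (Finset.mem_filter.2 ⟨hrepA x' hx''.1, ?_⟩)
      rw [res_eq]
      intro u hu
      have hu1 : u ≠ j := (Finset.mem_erase.1 hu).1
      have hu2 : u ∈ Qᶜ.erase i := (Finset.mem_erase.1 hu).2
      rw [res_eq.1 (hrepE x' hx''.1) u hu2]
      exact res_eq.1 hx''.2 u (Finset.mem_erase.2 ⟨hu1, Finset.mem_of_mem_erase hu2⟩)
    · intro x1 hx1 x2 hx2 e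
      have hx1' := Finset.mem_filter.1 hx1
      have hx2' := Finset.mem_filter.1 hx2
      refine s.injA x1 hx1'.1 x2 hx2'.1 (res_eq.2 fun u hu => ?_)
      by_cases hui : u = i
      · subst hui
        have hu' : u ∈ Qᶜ.erase j := Finset.mem_erase.2 ⟨hji.symm, hu⟩
        rw [res_eq.1 hx1'.2 u hu', res_eq.1 hx2'.2 u hu']
      · have hu' : u ∈ Qᶜ.erase i := Finset.mem_erase.2 ⟨hui, hu⟩
        rw [← res_eq.1 (hrepE x1 hx1'.1) u hu', ← res_eq.1 (hrepE x2 hx2'.1) u hu', e]
  · have hq : 0 < 4 * p ^ 9 := by positivity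
    have key : (4 * p ^ 9) * ((4 * p ^ 9) ^ (insert i Q)ᶜ.card * p ^ (insert i Q).card) ≤
        (4 * p ^ 9) * (A'.card * (2 * p * 4 ^ c)) := by
      calc (4 * p ^ 9) * ((4 * p ^ 9) ^ (insert i Q)ᶜ.card * p ^ (insert i Q).card)
          = ((4 * p ^ 9) ^ Qᶜ.card * p ^ Q.card) * p := by
            rw [hcQ, hcI, pow_succ, pow_succ]; ring
        _ ≤ (A.card * (2 * p * 4 ^ c)) * p := Nat.mul_le_mul_right _ s.sizeA
        _ = A.card * (p * (2 * p * 4 ^ c)) := by ring
        _ ≤ (4 * p ^ 8 * A'.card) * (p * (2 * p * 4 ^ c)) := by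
            rw [hA'card]; exact Nat.mul_le_mul_right _ hlt.le
        _ = (4 * p ^ 9) * (A'.card * (2 * p * 4 ^ c)) := by ring
    exact Nat.le_of_mul_le_mul_left key hq
  · have hq : 0 < 2 ^ (4 * p ^ 9) := by positivity
    have key : 2 ^ (4 * p ^ 9) * 2 ^ (4 * p ^ 9 * (insert i Q)ᶜ.card) ≤
        2 ^ (4 * p ^ 9) * (B'.card * (p * 2 ^ c * 4 ^ (insert i Q).card)) := by
      calc 2 ^ (4 * p ^ 9) * 2 ^ (4 * p ^ 9 * (insert i Q)ᶜ.card)
          = 2 ^ (4 * p ^ 9 * Qᶜ.card) := by
            rw [← pow_add, hcI]; congr 1; ring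
        _ ≤ B.card * (p * 2 ^ c * 4 ^ Q.card) := s.sizeB
        _ ≤ (2 ^ (4 * p ^ 9 + 2) * B'.card) * (p * 2 ^ c * 4 ^ Q.card) :=
            Nat.mul_le_mul_right _ hcard
        _ = 2 ^ (4 * p ^ 9) * (B'.card * (p * 2 ^ c * 4 ^ (insert i Q).card)) := by
            rw [hcQ, pow_add, pow_succ 4]; ring
    exact Nat.le_of_mul_le_mul_left key hq

open Classical in
/-- After some queries every alive coordinate has large average degree. -/
private theorem St.reduce {D : Type} [Fintype D] {p d R : ℕ} (hp : 256 ≤ p)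
    (hD : Fintype.card D ≤ p)
    {Adv : Finset D → (D → Bool) → Prop}
    (hstep : ∀ Q z v, Adv Q z → v ∉ Q → Q.card < R →
      ∃ b, Adv (insert v Q) (Function.update z v b))
    (h1 : 2 * 4 ^ d < p ^ (R - 1)) (h2 : p * 2 ^ d * 4 ^ R ≤ 2 ^ p) {c : ℕ} (hc : c ≤ d) :
    ∀ (n : ℕ) (Q : Finset D) (z : D → Bool)
      (A : Finset (D → Fin (4 * p ^ 9))) (B : Finset (D → Fin (4 * p ^ 9) → Bool)),
      Qᶜ.card = n → St p Adv Q z c A B →
      ∃ Q' z' A' B', A' ⊆ A ∧ B' ⊆ B ∧ St p Adv Q' z' c A' B' ∧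
        ∀ i ∈ Q'ᶜ, 4 * p ^ 8 * (A'.image (res (Q'ᶜ.erase i))).card ≤ A'.card := by
  intro n
  induction n with
  | zero =>
    intro Q z A B hn s
    refine ⟨Q, z, A, B, subset_rfl, subset_rfl, s, ?_⟩
    intro i hi
    rw [Finset.card_eq_zero.1 hn] at hi
    simp at hi
  | succ n ih =>
    intro Q z A B hn s
    by_cases h : ∀ i ∈ Qᶜ, 4 * p ^ 8 * (A.image (res (Qᶜ.erase i))).card ≤ A.card
    · exact ⟨Q, z, A, B, subset_rfl, subset_rfl, s, h⟩
    · push Not at h
      obtain ⟨i, hi, hlt⟩ := h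
      obtain ⟨z', A', B', hA', hB', s'⟩ := s.query hp hD hstep h1 h2 hc i hi hlt
      have hcompl : (insert i Q)ᶜ = Qᶜ.erase i := by
        ext u
        simp only [Finset.mem_compl, Finset.mem_insert, Finset.mem_erase]
        tauto
      have hn' : (insert i Q)ᶜ.card = n := by
        rw [hcompl, Finset.card_erase_of_mem hi, hn]; rfl
      obtain ⟨Q'', z'', A'', B'', h3, h4, h5, h6⟩ := ih _ z' A' B' hn' s'
      exact ⟨Q'', z'', A'', B'', h3.trans hA', h4.trans hB', h5, h6⟩

open Classical in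
private theorem sim_core {D V0 : Type} [Fintype D] (p d R : ℕ) (hp : 256 ≤ p)
    (hD : Fintype.card D ≤ p)
    (Y : (D → Fin (4 * p ^ 9)) → V0 → Bool) (Z : (D → Fin (4 * p ^ 9) → Bool) → V0 → Bool)
    (Adv : Finset D → (D → Bool) → Prop)
    (hstep : ∀ Q z v, Adv Q z → v ∉ Q → Q.card < R →
      ∃ b, Adv (insert v Q) (Function.update z v b))
    (hleaf : ∀ v0 : V0, ∃ K : Finset D,
      (∀ x x', Y x v0 = true → Y x' v0 = true → ∀ u ∈ K, x u = x' u) ∧
      ∀ Q z x y, Adv Q z → K ⊆ Q → Y x v0 = true → Z y v0 = false →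
        (∀ u ∈ K, y u (x u) = z u) → False)
    (h1 : 2 * 4 ^ d < p ^ (R - 1)) (h2 : p * 2 ^ d * 4 ^ R ≤ 2 ^ p)
    (φ : MF V0) : ∀ (c : ℕ), c + φ.depth ≤ d → ∀ (Q : Finset D) (z : D → Bool)
      (A : Finset (D → Fin (4 * p ^ 9))) (B : Finset (D → Fin (4 * p ^ 9) → Bool)),
      St p Adv Q z c A B → (∀ x ∈ A, φ.eval (Y x) = true) → (∀ y ∈ B, φ.eval (Z y) = false) →
      False := by
  have nonempty : ∀ {c : ℕ} {Q : Finset D} {z : D → Bool}
      {A : Finset (D → Fin (4 * p ^ 9))} {B : Finset (D → Fin (4 * p ^ 9) → Bool)},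
      St p Adv Q z c A B → A.Nonempty ∧ B.Nonempty := by
    intro c Q z A B s
    have hp0 : 0 < p := by omega
    constructor
    · rw [← Finset.card_pos]
      by_contra hcon
      have h0 : A.card = 0 := by omega
      have h := s.sizeA
      rw [h0, zero_mul] at h
      have : 0 < (4 * p ^ 9) ^ Qᶜ.card * p ^ Q.card := by positivity
      omega
    · rw [← Finset.card_pos]
      by_contra hcon
      have h0 : B.card = 0 := by omega
      have h := s.sizeB
      rw [h0, zero_mul] at h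
      have : 0 < 2 ^ (4 * p ^ 9 * Qᶜ.card) := by positivity
      omega
  induction φ with
  | var v0 =>
    intro c hcd Q z A B s hA hB
    obtain ⟨K, hK1, hK2⟩ := hleaf v0
    obtain ⟨⟨x, hx⟩, ⟨y, hy⟩⟩ := nonempty s
    have hYA : ∀ x' ∈ A, Y x' v0 = true := fun x' hx' => hA x' hx'
    have hKQ : K ⊆ Q := by
      intro i hiK
      by_contra hiQ
      have hi : i ∈ Qᶜ := by simpa using hiQ
      have hth := s.thick x hx i hi
      have hone : (A.filter fun x' => res (Qᶜ.erase i) x' = res (Qᶜ.erase i) x) ⊆ {x} := by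
        intro x' hx'
        have hx'' := Finset.mem_filter.1 hx'
        rw [Finset.mem_singleton]
        refine s.injA x' hx''.1 x hx (res_eq.2 fun u hu => ?_)
        by_cases hui : u = i
        · subst hui
          exact hK1 x' x (hYA x' hx''.1) (hYA x hx) u hiK
        · exact res_eq.1 hx''.2 u (Finset.mem_erase.2 ⟨hui, hu⟩)
      have h3 := Finset.card_le_card hone
      rw [Finset.card_singleton] at h3
      have h4 : 256 ^ 7 ≤ p ^ 7 := Nat.pow_le_pow_left hp 7
      norm_num at h4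
      omega
    exact hK2 Q z x y s.adv hKQ (hYA x hx) (hB y hy) fun u hu => s.ans u (hKQ hu) x hx y hy
  | const b =>
    intro c hcd Q z A B s hA hB
    obtain ⟨⟨x, hx⟩, ⟨y, hy⟩⟩ := nonempty s
    have e1 := hA x hx
    have e2 := hB y hy
    simp only [MF.eval] at e1 e2
    rw [e1] at e2
    exact absurd e2 (by simp)
  | and φ ψ ihφ ihψ =>
    intro c hcd Q z A B s hA hB
    simp only [MF.depth] at hcd
    have hB1 : ∀ (B1 : Finset (D → Fin (4 * p ^ 9) → Bool)), B1 ⊆ B → B.card ≤ 2 * B1.card →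
        St p Adv Q z (c + 1) A B1 := by
      intro B1 hsub hcard
      refine ⟨s.adv, s.injA, fun y hy y' hy' => s.injB y (hsub hy) y' (hsub hy'),
        fun v hv x hx y hy => s.ans v hv x hx y (hsub hy), s.thick, ?_, ?_⟩
      · refine s.sizeA.trans (Nat.mul_le_mul_left _ (Nat.mul_le_mul_left _ ?_))
        exact Nat.pow_le_pow_right (by norm_num) (by omega)
      · refine s.sizeB.trans ?_
        calc B.card * (p * 2 ^ c * 4 ^ Q.card) ≤ (2 * B1.card) * (p * 2 ^ c * 4 ^ Q.card) :=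
              Nat.mul_le_mul_right _ hcard
          _ = B1.card * (p * 2 ^ (c + 1) * 4 ^ Q.card) := by rw [pow_succ 2 c]; ring
    set Bφ := B.filter fun y => φ.eval (Z y) = false with hBφ
    set Bψ := B.filter fun y => ψ.eval (Z y) = false with hBψ
    have hcover : B.card ≤ Bφ.card + Bψ.card := by
      refine le_trans (Finset.card_le_card ?_) (Finset.card_union_le _ _)
      intro y hy
      have := hB y hy
      simp only [MF.eval, Bool.and_eq_false_iff] at this
      rcases this with h | h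
      · exact Finset.mem_union_left _ (Finset.mem_filter.2 ⟨hy, h⟩)
      · exact Finset.mem_union_right _ (Finset.mem_filter.2 ⟨hy, h⟩)
    have hA' : ∀ x ∈ A, φ.eval (Y x) = true ∧ ψ.eval (Y x) = true := by
      intro x hx
      have := hA x hx
      simpa only [MF.eval, Bool.and_eq_true] using this
    by_cases hle : Bψ.card ≤ Bφ.card
    · exact ihφ (c + 1) (by have := le_max_left φ.depth ψ.depth; omega) Q z A Bφ
        (hB1 Bφ (Finset.filter_subset _ _) (by omega)) (fun x hx => (hA' x hx).1)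
        (fun y hy => (Finset.mem_filter.1 hy).2)
    · exact ihψ (c + 1) (by have := le_max_right φ.depth ψ.depth; omega) Q z A Bψ
        (hB1 Bψ (Finset.filter_subset _ _) (by omega)) (fun x hx => (hA' x hx).2)
        (fun y hy => (Finset.mem_filter.1 hy).2)
  | or φ ψ ihφ ihψ =>
    intro c hcd Q0 z0 A0 B0 s0 hA0 hB0
    simp only [MF.depth] at hcd
    obtain ⟨Q, z, A, B, hAsub, hBsub, s, hdeg⟩ :=
      St.reduce hp hD hstep h1 h2 (by omega : c ≤ d) _ Q0 z0 A0 B0 rfl s0
    have hA : ∀ x ∈ A, (MF.or φ ψ).eval (Y x) = true := fun x hx => hA0 x (hAsub hx)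
    have hB : ∀ y ∈ B, φ.eval (Z y) = false ∧ ψ.eval (Z y) = false := by
      intro y hy
      have := hB0 y (hBsub hy)
      simpa only [MF.eval, Bool.or_eq_false_iff] using this
    have hA1 : ∀ (A1 : Finset (D → Fin (4 * p ^ 9))), A1 ⊆ A → A.card ≤ 2 * A1.card →
        ∃ A2 ⊆ A1, St p Adv Q z (c + 1) A2 B := by
      intro A1 hsub hcard
      have hth : ∀ i ∈ Qᶜ, 2 * p ^ 7 * p * (A1.image (res (Qᶜ.erase i))).card ≤ A1.card := by
        intro i hi
        have h3 : (A1.image (res (Qᶜ.erase i))).card ≤ (A.image (res (Qᶜ.erase i))).card :=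
          Finset.card_le_card (Finset.image_subset_image hsub)
        have h4 := hdeg i hi
        have h5 : 2 * (2 * p ^ 7 * p * (A1.image (res (Qᶜ.erase i))).card) ≤ 2 * A1.card := by
          calc 2 * (2 * p ^ 7 * p * (A1.image (res (Qᶜ.erase i))).card)
              = 4 * p ^ 8 * (A1.image (res (Qᶜ.erase i))).card := by ring
            _ ≤ 4 * p ^ 8 * (A.image (res (Qᶜ.erase i))).card := Nat.mul_le_mul_left _ h3
            _ ≤ A.card := h4
            _ ≤ 2 * A1.card := hcard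
        omega
      have hQp : Qᶜ.card ≤ p := (Finset.card_le_univ _).trans hD
      obtain ⟨A2, hA2, hcard2, hthick2⟩ := thick_fin Qᶜ A1 (p ^ 7) p hQp hth
      refine ⟨A2, hA2, s.adv, fun x hx x' hx' => s.injA x (hsub (hA2 hx)) x' (hsub (hA2 hx')),
        s.injB, fun v hv x hx y hy => s.ans v hv x (hsub (hA2 hx)) y hy, hthick2, ?_, ?_⟩
      · refine s.sizeA.trans ?_
        calc A.card * (2 * p * 4 ^ c) ≤ (4 * A2.card) * (2 * p * 4 ^ c) :=
              Nat.mul_le_mul_right _ (by omega)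
          _ = A2.card * (2 * p * 4 ^ (c + 1)) := by rw [pow_succ 4 c]; ring
      · refine s.sizeB.trans (Nat.mul_le_mul_left _ (Nat.mul_le_mul_right _
          (Nat.mul_le_mul_left _ ?_)))
        exact Nat.pow_le_pow_right (by norm_num) (by omega)
    set Aφ := A.filter fun x => φ.eval (Y x) = true with hAφ
    set Aψ := A.filter fun x => ψ.eval (Y x) = true with hAψ
    have hcover : A.card ≤ Aφ.card + Aψ.card := by
      refine le_trans (Finset.card_le_card ?_) (Finset.card_union_le _ _)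
      intro x hx
      have := hA x hx
      simp only [MF.eval, Bool.or_eq_true] at this
      rcases this with h | h
      · exact Finset.mem_union_left _ (Finset.mem_filter.2 ⟨hx, h⟩)
      · exact Finset.mem_union_right _ (Finset.mem_filter.2 ⟨hx, h⟩)
    by_cases hle : Aψ.card ≤ Aφ.card
    · obtain ⟨A2, hA2, s2⟩ := hA1 Aφ (Finset.filter_subset _ _) (by omega)
      exact ihφ (c + 1) (by have := le_max_left φ.depth ψ.depth; omega) Q z A2 B s2
        (fun x hx => (Finset.mem_filter.1 (hA2 hx)).2) (fun y hy => (hB y hy).1)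
    · obtain ⟨A2, hA2, s2⟩ := hA1 Aψ (Finset.filter_subset _ _) (by omega)
      exact ihψ (c + 1) (by have := le_max_right φ.depth ψ.depth; omega) Q z A2 B s2
        (fun x hx => (Finset.mem_filter.1 (hA2 hx)).2) (fun y hy => (hB y hy).2)

open Classical in
/-- **Dense lifting theorem.** `D` is a set of at most `p` nodes, `q = 4 * p ^ 9`; `Adv Q z` says that
the answers `z` on the queried nodes `Q` are still fine for the adversary, who can answer `R` queries.
Every variable `v0` is a clause with the node set `K`.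

[State: `Q` queried, `I = univ \ Q` alive, `r = Q.card`, `c` formula steps done, `Adv Q z`,
`A` and `B` not empty, injective on `I`, `y v (x v) = z v` for `v ∈ Q`, `x ∈ A`, `y ∈ B`; thick:
`p ^ 7 ≤ |class of x modulo I.erase i|` for `i ∈ I`, `x ∈ A`;
`q ^ |I| * p ^ r ≤ |A| * (2 * p * 4 ^ c)`, `2 ^ (q * |I|) ≤ |B| * (p * 2 ^ c * 4 ^ r)`. Since
`|A| ≤ q ^ |I|`, `p ^ r ≤ 2 * p * 4 ^ d`, so `r < R`.
Start: `thick_subset` for `{x : φ (Y x) = 1}`, `τ = p ^ 7`, `P = p`.
Query, if `|A| < 4 * p ^ 8 * |A_(I.erase i)|` for some `i ∈ I`: the adversary gives `b`, then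
`proj_lemma`; `A'` stays thick, `|A'| = |A_(I.erase i)|`. Repeat (at most `|D|` times).
Formula step otherwise: OR: the larger half of `A`, then `thick_subset`; AND: the larger half of
`B`. Variable `v0`: the coordinates in its `K` are constant on `A`, so `K ⊆ Q`: contradiction.
Constants: `A` or `B` would be empty.] -/
theorem dense_lifting {D V0 : Type} [Fintype D] (p d R : ℕ) (hp : 256 ≤ p)
    (hD : Fintype.card D ≤ p)
    (Y : (D → Fin (4 * p ^ 9)) → V0 → Bool) (Z : (D → Fin (4 * p ^ 9) → Bool) → V0 → Bool)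
    (Adv : Finset D → (D → Bool) → Prop)
    (hadv0 : ∃ z, Adv ∅ z)
    (hstep : ∀ Q z v, Adv Q z → v ∉ Q → Q.card < R →
      ∃ b, Adv (insert v Q) (Function.update z v b))
    (hleaf : ∀ v0 : V0, ∃ K : Finset D,
      (∀ x x', Y x v0 = true → Y x' v0 = true → ∀ u ∈ K, x u = x' u) ∧
      ∀ Q z x y, Adv Q z → K ⊆ Q → Y x v0 = true → Z y v0 = false →
        (∀ u ∈ K, y u (x u) = z u) → False)
    (h1 : 2 * 4 ^ d < p ^ (R - 1)) (h2 : p * 2 ^ d * 4 ^ R ≤ 2 ^ p)
    (φ : MF V0) (hφ : φ.depth ≤ d)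
    (hA : (4 * p ^ 9) ^ Fintype.card D ≤
      p * (Finset.univ.filter fun x : D → Fin (4 * p ^ 9) => φ.eval (Y x) = true).card)
    (hB : 2 ^ (4 * p ^ 9 * Fintype.card D) ≤
      p * (Finset.univ.filter fun y : D → Fin (4 * p ^ 9) → Bool =>
        φ.eval (Z y) = false).card) : False := by
  set A0 := Finset.univ.filter fun x : D → Fin (4 * p ^ 9) => φ.eval (Y x) = true with hA0
  set B0 := Finset.univ.filter fun y : D → Fin (4 * p ^ 9) → Bool => φ.eval (Z y) = false with hB0
  have hp0 : 0 < p := by omega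
  have hth : ∀ i ∈ (Finset.univ : Finset D),
      2 * p ^ 7 * p * (A0.image (res ((Finset.univ : Finset D).erase i))).card ≤ A0.card := by
    intro i hi
    have h3 : (A0.image (res ((Finset.univ : Finset D).erase i))).card ≤
        (4 * p ^ 9) ^ (Fintype.card D - 1) := by
      refine (Finset.card_le_univ _).trans ?_
      rw [Fintype.card_fun, Fintype.card_fin, Fintype.card_coe, Finset.card_erase_of_mem hi,
        Finset.card_univ]
    have hDpos : 0 < Fintype.card D := Fintype.card_pos_iff.2 ⟨i⟩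
    have h4 : p * (2 * p ^ 7 * p * (A0.image (res ((Finset.univ : Finset D).erase i))).card) ≤
        p * A0.card := by
      calc p * (2 * p ^ 7 * p * (A0.image (res ((Finset.univ : Finset D).erase i))).card)
          = 2 * p ^ 9 * (A0.image (res ((Finset.univ : Finset D).erase i))).card := by ring
        _ ≤ 2 * p ^ 9 * (4 * p ^ 9) ^ (Fintype.card D - 1) := Nat.mul_le_mul_left _ h3
        _ ≤ 4 * p ^ 9 * (4 * p ^ 9) ^ (Fintype.card D - 1) := by
            refine Nat.mul_le_mul_right _ ?_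
            have : 0 < p ^ 9 := by positivity
            omega
        _ = (4 * p ^ 9) ^ Fintype.card D := by
            rw [← pow_succ']; congr 1; omega
        _ ≤ p * A0.card := hA
    exact Nat.le_of_mul_le_mul_left h4 hp0
  have hcardu : (Finset.univ : Finset D).card ≤ p := by rw [Finset.card_univ]; exact hD
  obtain ⟨A1, hA1, hcard1, hthick1⟩ := thick_fin (Finset.univ : Finset D) A0 (p ^ 7) p hcardu hth
  obtain ⟨z, hz⟩ := hadv0
  have hcompl : (∅ : Finset D)ᶜ = Finset.univ := Finset.compl_empty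
  have s : St p Adv ∅ z 0 A1 B0 := by
    refine ⟨hz, ?_, ?_, ?_, ?_, ?_, ?_⟩
    · intro x _ x' _ e
      funext u
      exact res_eq.1 e u (by simp)
    · intro x _ x' _ e
      funext u
      exact res_eq.1 e u (by simp)
    · intro v hv; simp at hv
    · rw [hcompl]; exact hthick1
    · rw [hcompl, Finset.card_univ, Finset.card_empty, pow_zero, mul_one, pow_zero, mul_one]
      calc (4 * p ^ 9) ^ Fintype.card D ≤ p * A0.card := hA
        _ ≤ p * (2 * A1.card) := Nat.mul_le_mul_left _ hcard1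
        _ = A1.card * (2 * p) := by ring
    · rw [hcompl, Finset.card_univ, Finset.card_empty, pow_zero, mul_one, pow_zero, mul_one,
        mul_comm B0.card]
      exact hB
  exact sim_core p d R hp hD Y Z Adv hstep hleaf h1 h2 φ 0 (by omega) ∅ z A1 B0 s
    (fun x hx => (Finset.mem_filter.1 (hA1 hx)).2) (fun y hy => (Finset.mem_filter.1 hy).2)

end Pool.Agent.FZ
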