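import Pool.Agent.FZ.Defs
import Pool.Agent.FZ.CubeG

/-! # Symmetric monotone programs for layered connectivity -/

set_option autoImplicit false
set_option linter.unusedSectionVars false

namespace Pool.Agent.FZ

/-- The vertex `a` of layer `i` is on the source side of the cut `C`. -/
def side {l q : ℕ} (C : Fin l × Fin q → Bool) (i : ℕ) (a : Fin q) : Bool :=
  if h : 1 ≤ i ∧ i ≤ l then C (⟨i - 1, by omega⟩, a) else decide (i = 0)

/-- All edges except those that cross the cut `C`. -/
def cutInput {l q : ℕ} (C : Fin l × Fin q → Bool) : LVar l q → Bool :=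
  fun v => !(side C v.1 v.2.1 && !side C (v.1 + 1) v.2.2)

theorem cutInput_eq_true {l q : ℕ} (C : Fin l × Fin q → Bool) (v : LVar l q) :
    cutInput C v = true ↔ ¬ (side C v.1 v.2.1 = true ∧ side C (v.1 + 1) v.2.2 = false) := by
  unfold cutInput
  cases side C v.1 v.2.1 <;> cases side C (v.1 + 1) v.2.2 <;> simp

theorem not_conn_cutInput {l q : ℕ} [NeZero q] (C : Fin l × Fin q → Bool) :
    ¬ Conn (cutInput C) := by
  rintro ⟨g, hg⟩
  have h1 : ∀ e, e ≤ l → side C e (ext g e) = true := by
    intro e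
    induction e with
    | zero =>
      intro _
      unfold side
      rw [dif_neg (by omega)]
      rfl
    | succ e ih =>
      intro he
      have h2 := (cutInput_eq_true C _).1 (hg ⟨e, by omega⟩)
      by_contra h3
      exact h2 ⟨ih (by omega), by simpa using h3⟩
  refine (cutInput_eq_true C _).1 (hg ⟨l, by omega⟩) ⟨h1 l le_rfl, ?_⟩
  show side C (l + 1) _ = false
  unfold side
  rw [dif_neg (by omega)]
  exact decide_eq_false (by omega)

namespace GF

open Finset

section

variable {l q : ℕ} [NeZero q]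

/-- the positions of the path `g` which are in the cut -/
def rst (g : Fin l → Fin q) (C : Finset (ℕ × Fin q)) : Finset ℕ :=
  (range l).filter fun j => (j, FZ.ext g (j + 1)) ∈ C

/-- the partial path -/
def part (g : Fin l → Fin q) (T : Finset ℕ) : Finset (ℕ × Fin q) :=
  T.image fun j => (j, FZ.ext g (j + 1))

/-- all inner nodes -/
def WW (l q : ℕ) : Finset (ℕ × Fin q) := range l ×ˢ (univ : Finset (Fin q))

theorem ext_succ (g : Fin l → Fin q) {j : ℕ} (hj : j < l) : FZ.ext g (j + 1) = g ⟨j, hj⟩ := by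
  unfold FZ.ext
  rw [dif_pos (by omega)]
  rfl

theorem rst_subset (g : Fin l → Fin q) (C : Finset (ℕ × Fin q)) : rst g C ⊆ range l :=
  Finset.filter_subset _ _

theorem part_subset (g : Fin l → Fin q) {T : Finset ℕ} (hT : T ⊆ range l) : part g T ⊆ WW l q := by
  intro v hv
  obtain ⟨j, hj, rfl⟩ := Finset.mem_image.1 hv
  exact Finset.mem_product.2 ⟨hT hj, Finset.mem_univ _⟩

theorem part_inj (g : Fin l → Fin q) (T : Finset ℕ) :
    Set.InjOn (fun j => (j, FZ.ext g (j + 1))) (T : Set ℕ) := by
  intro i _ j _ h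
  exact congrArg Prod.fst h

theorem part_eq_empty (g : Fin l → Fin q) (T : Finset ℕ) : part g T = ∅ ↔ T = ∅ :=
  Finset.image_eq_empty

theorem chr_part (g : Fin l → Fin q) {T : Finset ℕ} (hT : T ⊆ range l) (C : Finset (ℕ × Fin q)) :
    chr T (rst g C) = chr (part g T) C := by
  unfold chr
  congr 1
  have h : part g T ∩ C = (T ∩ rst g C).image fun j => (j, FZ.ext g (j + 1)) := by
    ext v
    simp only [part, rst, Finset.mem_inter, Finset.mem_image, Finset.mem_filter]
    constructor
    · rintro ⟨⟨j, hj, rfl⟩, hC⟩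
      exact ⟨j, ⟨hj, hT hj, hC⟩, rfl⟩
    · rintro ⟨j, ⟨hj, _, hC⟩, rfl⟩
      exact ⟨⟨j, hj, rfl⟩, hC⟩
  rw [h, Finset.card_image_of_injOn (part_inj g _)]

/-- the cut given by a finite set -/
def cutF (l : ℕ) (C : Finset (ℕ × Fin q)) : Fin l × Fin q → Bool := fun v => decide ((v.1.val, v.2) ∈ C)

theorem side_cutF (g : Fin l → Fin q) (C : Finset (ℕ × Fin q)) (e : ℕ) :
    side (cutF l C) e (FZ.ext g e) = true ↔ e = 0 ∨ e - 1 ∈ rst g C := by
  unfold side
  by_cases h : 1 ≤ e ∧ e ≤ l
  · rw [dif_pos h]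
    unfold cutF rst
    rw [decide_eq_true_iff, Finset.mem_filter, Finset.mem_range]
    have h1 : e - 1 + 1 = e := by omega
    show (e - 1, FZ.ext g e) ∈ C ↔ _
    rw [h1]
    exact ⟨fun h2 => Or.inr ⟨by omega, h2⟩, fun h2 => h2.elim (fun h3 => by omega) fun h3 => h3.2⟩
  · rw [dif_neg h, decide_eq_true_iff]
    refine ⟨fun h2 => Or.inl h2, fun h2 => h2.elim id fun h3 => ?_⟩
    have := Finset.mem_range.1 (rst_subset g C h3)
    omega

theorem cut_crosses (g : Fin l → Fin q) (C : Finset (ℕ × Fin q)) (e : Fin (l + 1)) :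
    cutInput (cutF l C) (e, FZ.ext g e, FZ.ext g (e + 1)) = true ↔ ¬ Crosses l e (rst g C) := by
  rw [cutInput_eq_true]
  refine not_congr (and_congr (side_cutF g C e) ?_)
  have h := side_cutF g C (e + 1)
  have h1 : side (cutF l C) (e + 1) (FZ.ext g (e + 1)) = false
      ↔ ¬ side (cutF l C) (e + 1) (FZ.ext g (e + 1)) = true := by simp
  show side (cutF l C) (e + 1) (FZ.ext g (e + 1)) = false ↔ _
  rw [h1, h, Nat.add_sub_cancel]
  constructor
  · intro h2
    exact Or.inr fun h3 => h2 (Or.inr h3)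
  · rintro (h2 | h2) (h3 | h3)
    · omega
    · have := Finset.mem_range.1 (rst_subset g C h3)
      omega
    · omega
    · exact h2 h3

end

/-! ### Counting partial paths -/

theorem count_paths {l q : ℕ} [NeZero q] (T : Finset ℕ) (hT : T ⊆ range l) (g0 : Fin l → Fin q) :
    (univ.filter fun g : Fin l → Fin q => part g T = part g0 T).card * q ^ T.card = q ^ l := by
  have h1 : (univ.filter fun g : Fin l → Fin q => part g T = part g0 T)
      = Fintype.piFinset (fun j : Fin l => if j.val ∈ T then {g0 j} else (univ : Finset (Fin q))) := by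
    ext g
    simp only [Finset.mem_filter, Finset.mem_univ, true_and, Fintype.mem_piFinset]
    constructor
    · intro h j
      split_ifs with hj
      · have h2 : (j.val, FZ.ext g (j.val + 1)) ∈ part g0 T := by
          rw [← h]
          exact Finset.mem_image_of_mem _ hj
        obtain ⟨i, hi, hij⟩ := Finset.mem_image.1 h2
        have h3 : i = j.val := congrArg Prod.fst hij
        have h4 : FZ.ext g0 (i + 1) = FZ.ext g (j.val + 1) := congrArg Prod.snd hij
        rw [h3, ext_succ g0 j.isLt, ext_succ g j.isLt] at h4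
        exact Finset.mem_singleton.2 h4.symm
      · exact Finset.mem_univ _
    · intro h
      unfold part
      refine Finset.image_congr fun j hj => ?_
      have hjl := Finset.mem_range.1 (hT hj)
      have := h ⟨j, hjl⟩
      rw [if_pos (Finset.mem_coe.1 hj), Finset.mem_singleton] at this
      show (j, FZ.ext g (j + 1)) = (j, FZ.ext g0 (j + 1))
      rw [ext_succ g hjl, ext_succ g0 hjl, this]
  rw [h1, Fintype.card_piFinset]
  have h2 : q ^ T.card = ∏ j : Fin l, if j.val ∈ T then q else 1 := by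
    rw [Finset.prod_ite, Finset.prod_const, Finset.prod_const_one, mul_one]
    congr 1
    refine (Finset.card_bij (fun j _ => j.val) (fun j hj => (Finset.mem_filter.1 hj).2)
      (fun i _ j _ h => Fin.ext h) fun j hj => ?_).symm
    exact ⟨⟨j, Finset.mem_range.1 (hT hj)⟩, Finset.mem_filter.2 ⟨Finset.mem_univ _, hj⟩, rfl⟩
  rw [h2, ← Finset.prod_mul_distrib]
  have h3 : ∀ j : Fin l, ((if j.val ∈ T then {g0 j} else (univ : Finset (Fin q))).card
      * if j.val ∈ T then q else 1) = q := by
    intro j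
    split_ifs <;> simp
  rw [Finset.prod_congr rfl fun j _ => h3 j, Finset.prod_const, Finset.card_univ, Fintype.card_fin]

theorem sum_part_le {l q : ℕ} [NeZero q] (k : ℕ) (F : Finset (ℕ × Fin q) → ℝ) (hF : ∀ P, 0 ≤ F P) :
    (q : ℝ) ^ k * ∑ g : Fin l → Fin q, ∑ T ∈ (range l).powerset with k ≤ T.card, F (part g T)
      ≤ (q : ℝ) ^ l * ∑ P ∈ (WW l q).powerset, F P := by
  -- for a fixed `T`
  have key : ∀ T ∈ (range l).powerset.filter (fun T => k ≤ T.card),
      (q : ℝ) ^ k * ∑ g : Fin l → Fin q, F (part g T)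
        ≤ (q : ℝ) ^ l * ∑ P ∈ ((WW l q).powerset).filter (fun P => P.image Prod.fst = T), F P := by
    intro T hT
    obtain ⟨hT1, hT2⟩ := Finset.mem_filter.1 hT
    have hT1 := Finset.mem_powerset.1 hT1
    have hmap : ∀ g ∈ (univ : Finset (Fin l → Fin q)),
        part g T ∈ ((WW l q).powerset).filter (fun P => P.image Prod.fst = T) := by
      intro g _
      refine Finset.mem_filter.2 ⟨Finset.mem_powerset.2 (part_subset g hT1), ?_⟩
      unfold part
      rw [Finset.image_image]
      exact Finset.image_id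
    rw [← Finset.sum_fiberwise_of_maps_to hmap, Finset.mul_sum, Finset.mul_sum]
    refine Finset.sum_le_sum fun P _ => ?_
    have h1 : ∑ g : Fin l → Fin q with part g T = P, F (part g T)
        = ((univ.filter fun g : Fin l → Fin q => part g T = P).card : ℝ) * F P := by
      rw [Finset.sum_congr rfl fun g hg => by rw [(Finset.mem_filter.1 hg).2], Finset.sum_const,
        nsmul_eq_mul]
    rw [h1, ← mul_assoc]
    refine mul_le_mul_of_nonneg_right ?_ (hF P)
    by_cases hne : (univ.filter fun g : Fin l → Fin q => part g T = P).Nonempty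
    · obtain ⟨g0, hg0⟩ := hne
      have hP := (Finset.mem_filter.1 hg0).2
      subst hP
      have h2 := count_paths T hT1 g0
      have hq : 1 ≤ q := Nat.one_le_iff_ne_zero.2 (NeZero.ne q)
      have h3 : q ^ k ≤ q ^ T.card := Nat.pow_le_pow_right hq hT2
      have h4 : q ^ k * (univ.filter fun g : Fin l → Fin q => part g T = part g0 T).card ≤ q ^ l := by
        rw [← h2, mul_comm]
        exact Nat.mul_le_mul_left _ h3
      exact_mod_cast h4
    · rw [Finset.not_nonempty_iff_eq_empty] at hne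
      rw [hne, Finset.card_empty, Nat.cast_zero, mul_zero]
      positivity
  have h1 : (q : ℝ) ^ k * ∑ T ∈ (range l).powerset with k ≤ T.card, ∑ g : Fin l → Fin q, F (part g T)
      ≤ ∑ T ∈ (range l).powerset with k ≤ T.card,
        (q : ℝ) ^ l * ∑ P ∈ ((WW l q).powerset).filter (fun P => P.image Prod.fst = T), F P := by
    rw [Finset.mul_sum]
    exact Finset.sum_le_sum key
  rw [Finset.sum_comm]
  refine h1.trans ?_
  rw [← Finset.mul_sum]
  refine mul_le_mul_of_nonneg_left ?_ (by positivity)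
  have hmap : ∀ P ∈ (WW l q).powerset, P.image Prod.fst ∈ (range l).powerset := by
    intro P hP
    rw [Finset.mem_powerset] at hP ⊢
    intro j hj
    obtain ⟨v, hv, rfl⟩ := Finset.mem_image.1 hj
    exact (Finset.mem_product.1 (hP hv)).1
  rw [← Finset.sum_fiberwise_of_maps_to hmap]
  exact Finset.sum_le_sum_of_subset_of_nonneg (Finset.filter_subset _ _)
    fun T _ _ => Finset.sum_nonneg fun P _ => hF P

/-! ### A chain of intervals -/

theorem chain_bound {W : Type} [Fintype W] (f D : W → ℝ) (hD : ∀ u, 0 ≤ D u) (r : W → W → Prop)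
    (hr : ∀ u w, r u w → |f u - f w| ≤ D u + D w) {s t : W} (h : Relation.ReflTransGen r s t) :
    |f s - f t| ≤ 2 * ∑ u, D u := by
  classical
  have hΓ : ∀ u w, (SimpleGraph.fromRel r).Adj u w → |f u - f w| ≤ D u + D w := by
    intro u w h
    rcases h with ⟨_, h | h⟩
    · exact hr u w h
    · rw [abs_sub_comm, add_comm]
      exact hr w u h
  have hre : (SimpleGraph.fromRel r).Reachable s t := by
    induction h with
    | refl => exact SimpleGraph.Reachable.refl _
    | @tail u w _ h2 ih =>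
      by_cases huw : u = w
      · subst huw
        exact ih
      · exact ih.trans (SimpleGraph.Adj.reachable ⟨huw, Or.inl h2⟩)
  have key : ∀ {u v : W} (p : (SimpleGraph.fromRel r).Walk u v),
      |f u - f v| + D u ≤ 2 * (p.support.map D).sum := by
    intro u v p
    induction p with
    | @nil u =>
      rw [SimpleGraph.Walk.support_nil, sub_self, abs_zero, List.map_singleton, List.sum_singleton]
      have := hD u
      linarith
    | @cons u w v h p ih =>
      rw [SimpleGraph.Walk.support_cons, List.map_cons, List.sum_cons]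
      have h1 := hΓ u w h
      have h2 := abs_sub_le (f u) (f w) (f v)
      linarith
  obtain ⟨p⟩ := hre
  have h1 := key (p.toPath : (SimpleGraph.fromRel r).Walk s t)
  have h2 : (((p.toPath : (SimpleGraph.fromRel r).Walk s t).support).map D).sum ≤ ∑ u, D u := by
    rw [← List.sum_toFinset D (SimpleGraph.Walk.IsPath.support_nodup p.toPath.2)]
    exact Finset.sum_le_sum_of_subset_of_nonneg (Finset.subset_univ _) fun u _ _ => hD u
  have := hD s
  linarith

/-! ### The functions `phi` -/

section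

variable {l q : ℕ} [NeZero q] {W : Type}

theorem ave_expand (F : Finset ℕ → ℝ) (R : Finset (ℕ × Fin q) → ℝ) (g : Fin l → Fin q) :
    ave (WW l q) (fun C => F (rst g C) * R C)
      = ∑ T ∈ (range l).powerset, hat (range l) F T * hat (WW l q) R (part g T) := by
  have h1 : (fun C => F (rst g C) * R C)
      = fun C => ∑ T ∈ (range l).powerset, hat (range l) F T * (R C * chr (part g T) C) := by
    funext C
    rw [inversion F (rst_subset g C), Finset.sum_mul]
    refine Finset.sum_congr rfl fun T hT => ?_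
    rw [chr_part g (Finset.mem_powerset.1 hT)]
    ring
  rw [h1, ave_sum]
  refine Finset.sum_congr rfl fun T _ => ?_
  rw [ave_mul]
  rfl

theorem chr_empty {α : Type*} [DecidableEq α] (x : Finset α) : chr ∅ x = 1 := by
  simp [chr]

theorem ave_rst (F : Finset ℕ → ℝ) (g : Fin l → Fin q) :
    ave (WW l q) (fun C => F (rst g C)) = av l F := by
  have h1 := ave_expand F (fun _ => (1 : ℝ)) g
  simp only [mul_one] at h1
  rw [h1]
  have h2 : ∀ T ∈ (range l).powerset, hat (range l) F T * hat (WW l q) (fun _ => (1 : ℝ)) (part g T)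
      = if T = ∅ then av l F else 0 := by
    intro T hT
    have h3 : hat (WW l q) (fun _ => (1 : ℝ)) (part g T) = if part g T = ∅ then 1 else 0 := by
      rw [← chr_orth (part_subset g (Finset.mem_powerset.1 hT)) (Finset.empty_subset (WW l q))]
      refine ave_congr fun x _ => ?_
      rw [chr_empty, one_mul, mul_one]
    rw [h3]
    by_cases h4 : T = ∅
    · subst h4
      rw [if_pos ((part_eq_empty g ∅).2 rfl), if_pos rfl, mul_one, av_eq_ave]
      refine ave_congr fun x _ => ?_
      rw [chr_empty, mul_one]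
    · rw [if_neg fun h => h4 ((part_eq_empty g T).1 h), if_neg h4, mul_zero]
  rw [Finset.sum_congr rfl h2, Finset.sum_ite_eq' _ ∅ (fun _ => av l F),
    if_pos (Finset.empty_mem_powerset _)]

open Classical in
/-- `1` if `M` reaches `u` on the cut `C` -/
noncomputable def RR (M : MProg (LVar l q) W) (u : W) (C : Finset (ℕ × Fin q)) : ℝ :=
  if Relation.ReflTransGen (M.Step (cutInput (cutF l C))) M.src u then 1 else 0

theorem RR_sq_le (M : MProg (LVar l q) W) (u : W) (C : Finset (ℕ × Fin q)) : RR M u C ^ 2 ≤ 1 := by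
  unfold RR
  split_ifs <;> norm_num

/-- the correlations -/
noncomputable def phi (M : MProg (LVar l q) W) (G : ℕ → Finset ℕ → ℝ) (g : Fin l → Fin q) (e : ℕ)
    (u : W) : ℝ := ave (WW l q) (fun C => G e (rst g C) * RR M u C)

theorem phi_src (M : MProg (LVar l q) W) (G : ℕ → Finset ℕ → ℝ) (g : Fin l → Fin q) (e : ℕ)
    (h : av l (G e) = 1) : phi M G g e M.src = 1 := by
  unfold phi
  have h1 : (fun C => G e (rst g C) * RR M M.src C) = fun C => G e (rst g C) := by
    funext C
    rw [RR, if_pos Relation.ReflTransGen.refl, mul_one]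
  rw [h1, ave_rst (G e) g, h]

theorem phi_acc (M : MProg (LVar l q) W) (hs : ∀ z, M.Accepts z → Conn z) (G : ℕ → Finset ℕ → ℝ)
    (g : Fin l → Fin q) (e : ℕ) : phi M G g e M.acc = 0 := by
  unfold phi
  have h1 : (fun C => G e (rst g C) * RR M M.acc C) = fun _ => 0 := by
    funext C
    have h2 : ¬ Relation.ReflTransGen (M.Step (cutInput (cutF l C))) M.src M.acc :=
      fun h => not_conn_cutInput _ (hs _ h)
    rw [RR, if_neg h2, mul_zero]
  rw [h1, ave_const]

theorem step_symm (M : MProg (LVar l q) W) (hM : M.Symm) (z : LVar l q → Bool) {u w : W}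
    (h : M.Step z u w) : M.Step z w u := by
  rcases h with h | ⟨v, h1, h2⟩
  · exact Or.inl (hM.1 _ _ h)
  · exact Or.inr ⟨v, hM.2 _ _ _ h1, h2⟩

theorem RR_eq (M : MProg (LVar l q) W) (hM : M.Symm) {u w : W} {C : Finset (ℕ × Fin q)}
    (h : M.Step (cutInput (cutF l C)) u w) : RR M u C = RR M w C := by
  have h1 : Relation.ReflTransGen (M.Step (cutInput (cutF l C))) M.src u
      ↔ Relation.ReflTransGen (M.Step (cutInput (cutF l C))) M.src w :=
    ⟨fun h2 => h2.tail h, fun h2 => h2.tail (step_symm M hM _ h)⟩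
  unfold RR
  by_cases h2 : Relation.ReflTransGen (M.Step (cutInput (cutF l C))) M.src w
  · rw [if_pos h2, if_pos (h1.2 h2)]
  · rw [if_neg h2, if_neg fun h3 => h2 (h1.1 h3)]

theorem phi_step (M : MProg (LVar l q) W) (hM : M.Symm) (G : ℕ → Finset ℕ → ℝ)
    (hG : ∀ e ≤ l, ∀ x ⊆ range l, Crosses l e x → G e x = 0) (g : Fin l → Fin q) {u w : W}
    (h : M.Step (pathInput g) u w) : ∃ e ≤ l, phi M G g e u = phi M G g e w := by
  rcases h with h | ⟨v, h1, h2⟩
  · refine ⟨0, Nat.zero_le _, ?_⟩
    unfold phi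
    congr 1
    funext C
    rw [RR_eq M hM (Or.inl h)]
  · obtain ⟨e, a, b⟩ := v
    unfold pathInput at h2
    obtain ⟨h3, h4⟩ := of_decide_eq_true h2
    dsimp only at h3 h4
    subst h3 h4
    refine ⟨e, by omega, ?_⟩
    unfold phi
    congr 1
    funext C
    by_cases h5 : Crosses l e (rst g C)
    · rw [hG e (by omega) _ (rst_subset g C) h5, zero_mul, zero_mul]
    · rw [RR_eq M hM (Or.inr ⟨_, h1, (cut_crosses g C e).2 h5⟩)]

theorem path_sum {k : ℕ} (G : ℕ → Finset ℕ → ℝ)
    (hlow : ∀ e ≤ l, ∀ e' ≤ l, ∀ S ⊆ range l, S.card < k →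
      av l (fun x => (G e x - G e' x) * chi S x) = 0)
    {B : ℝ} (hB : ∀ e ≤ l, ∀ e' ≤ l, av l (fun x => (G e x - G e' x) ^ 2) ≤ B)
    (M : MProg (LVar l q) W) (u : W) {e : ℕ} (he : e ≤ l) :
    (q : ℝ) ^ k * ∑ g : Fin l → Fin q, (phi M G g e u - phi M G g 0 u) ^ 2 ≤ B * (q : ℝ) ^ l := by
  have hB0 : 0 ≤ B := (av_nonneg fun x => sq_nonneg _).trans (hB 0 (Nat.zero_le _) 0 (Nat.zero_le _))
  have h1 : ∀ g : Fin l → Fin q, (phi M G g e u - phi M G g 0 u) ^ 2
      ≤ B * ∑ T ∈ (range l).powerset with k ≤ T.card, hat (WW l q) (RR M u) (part g T) ^ 2 := by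
    intro g
    have h2 : phi M G g e u - phi M G g 0 u
        = ∑ T ∈ (range l).powerset with k ≤ T.card,
          hat (range l) (fun x => G e x - G 0 x) T * hat (WW l q) (RR M u) (part g T) := by
      unfold phi
      rw [← ave_sub]
      have h3 : (fun C => G e (rst g C) * RR M u C - G 0 (rst g C) * RR M u C)
          = fun C => (fun x => G e x - G 0 x) (rst g C) * RR M u C := by
        funext C
        ring
      rw [h3, ave_expand (fun x => G e x - G 0 x) (RR M u) g]
      refine (Finset.sum_filter_of_ne fun T hT hne => ?_).symm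
      by_contra h4
      refine hne ?_
      have h5 : hat (range l) (fun x => G e x - G 0 x) T = 0 := by
        rw [← hlow e he 0 (Nat.zero_le _) T (Finset.mem_powerset.1 hT) (not_le.1 h4), av_eq_ave]
        rfl
      rw [h5, zero_mul]
    rw [h2]
    refine (Finset.sum_mul_sq_le_sq_mul_sq _ _ _).trans ?_
    refine mul_le_mul_of_nonneg_right ?_ (Finset.sum_nonneg fun T _ => sq_nonneg _)
    have h6 : ∑ T ∈ (range l).powerset with k ≤ T.card, hat (range l) (fun x => G e x - G 0 x) T ^ 2
        ≤ ∑ T ∈ (range l).powerset, hat (range l) (fun x => G e x - G 0 x) T ^ 2 :=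
      Finset.sum_le_sum_of_subset_of_nonneg (Finset.filter_subset _ _) fun T _ _ => sq_nonneg _
    refine h6.trans ?_
    rw [← parseval, ← av_eq_ave]
    exact hB e he 0 (Nat.zero_le _)
  have h7 := sum_part_le (l := l) k (fun P => hat (WW l q) (RR M u) P ^ 2) fun P => sq_nonneg _
  rw [← parseval] at h7
  have h8 : ave (WW l q) (fun x => RR M u x ^ 2) ≤ 1 := by
    rw [← ave_const (WW l q) 1]
    exact ave_mono fun x _ => RR_sq_le M u x
  have h9 : ∑ g : Fin l → Fin q, (phi M G g e u - phi M G g 0 u) ^ 2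
      ≤ B * ∑ g : Fin l → Fin q, ∑ T ∈ (range l).powerset with k ≤ T.card,
        hat (WW l q) (RR M u) (part g T) ^ 2 := by
    rw [Finset.mul_sum]
    exact Finset.sum_le_sum fun g _ => h1 g
  have hq0 : (0 : ℝ) ≤ (q : ℝ) ^ k := by positivity
  have hql : (0 : ℝ) ≤ (q : ℝ) ^ l := by positivity
  calc (q : ℝ) ^ k * ∑ g : Fin l → Fin q, (phi M G g e u - phi M G g 0 u) ^ 2
      ≤ (q : ℝ) ^ k * (B * ∑ g : Fin l → Fin q, ∑ T ∈ (range l).powerset with k ≤ T.card,
        hat (WW l q) (RR M u) (part g T) ^ 2) := mul_le_mul_of_nonneg_left h9 hq0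
    _ = B * ((q : ℝ) ^ k * ∑ g : Fin l → Fin q, ∑ T ∈ (range l).powerset with k ≤ T.card,
        hat (WW l q) (RR M u) (part g T) ^ 2) := by ring
    _ ≤ B * ((q : ℝ) ^ l * ave (WW l q) (fun x => RR M u x ^ 2)) := mul_le_mul_of_nonneg_left h7 hB0
    _ ≤ B * ((q : ℝ) ^ l * 1) :=
        mul_le_mul_of_nonneg_left (mul_le_mul_of_nonneg_left h8 hql) hB0
    _ = B * (q : ℝ) ^ l := by ring

theorem one_le (M : MProg (LVar l q) W) [Fintype W] (hM : M.Symm) (hs : ∀ z, M.Accepts z → Conn z)
    (G : ℕ → Finset ℕ → ℝ) (hG : ∀ e ≤ l, ∀ x ⊆ range l, Crosses l e x → G e x = 0)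
    (hmean : ∀ e ≤ l, av l (G e) = 1) (g : Fin l → Fin q) (hg : M.Accepts (pathInput g)) :
    (1 : ℝ) ≤ 4 * (Fintype.card W * (l + 1)) *
      ∑ v ∈ (univ : Finset W) ×ˢ range (l + 1), (phi M G g v.2 v.1 - phi M G g 0 v.1) ^ 2 := by
  have h1 := chain_bound (phi M G g 0) (fun u => ∑ e ∈ range (l + 1), |phi M G g e u - phi M G g 0 u|)
    (fun u => Finset.sum_nonneg fun e _ => abs_nonneg _) (M.Step (pathInput g)) (fun u w h => by
      obtain ⟨e, he, h2⟩ := phi_step M hM G hG g h
      have h3 : ∀ u, |phi M G g e u - phi M G g 0 u|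
          ≤ ∑ e ∈ range (l + 1), |phi M G g e u - phi M G g 0 u| := fun u =>
        Finset.single_le_sum (f := fun e => |phi M G g e u - phi M G g 0 u|)
          (fun e _ => abs_nonneg _) (Finset.mem_range.2 (by omega))
      have h4 : phi M G g 0 u - phi M G g 0 w
          = -(phi M G g e u - phi M G g 0 u) + (phi M G g e w - phi M G g 0 w) := by
        rw [h2]
        ring
      rw [h4]
      refine (abs_add_le _ _).trans ?_
      rw [abs_neg]
      exact add_le_add (h3 u) (h3 w)) hg
  rw [phi_src M G g 0 (hmean 0 (Nat.zero_le _)), phi_acc M hs G g 0, sub_zero, abs_one] at h1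
  rw [← Finset.sum_product' univ (range (l + 1)) (fun u e => |phi M G g e u - phi M G g 0 u|)] at h1
  have h2 := sq_sum_le_card_mul_sum_sq (s := (univ : Finset W) ×ˢ range (l + 1))
    (f := fun v => |phi M G g v.2 v.1 - phi M G g 0 v.1|)
  rw [Finset.card_product, Finset.card_range, Finset.card_univ] at h2
  simp only [sq_abs] at h2
  push_cast at h2
  have h3 : (1 : ℝ) ≤ (2 * ∑ v ∈ (univ : Finset W) ×ˢ range (l + 1),
      |phi M G g v.2 v.1 - phi M G g 0 v.1|) ^ 2 := by
    nlinarith
  rw [mul_pow] at h3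
  nlinarith

end

end GF

open Classical in
/-- **Average-case lower bound for symmetric monotone programs.** -/
theorem sym_core (k q : ℕ) (hk : 2 ≤ k) [NeZero q] {W : Type} [Fintype W]
    (M : MProg (LVar (lay k) q) W) (hM : M.Symm) (hs : ∀ z, M.Accepts z → Conn z) :
    ((Finset.univ.filter fun g : Fin (lay k) → Fin q => M.Accepts (pathInput g)).card : ℝ) * q ^ k
      ≤ 64 * (9 * lay k) ^ k * (Fintype.card W : ℝ) ^ 2 * (lay k + 1) ^ 2 * q ^ lay k := by
  obtain ⟨G, hG, hmean, hlow, hB⟩ := GF.exists_G k (lay k) (by omega) rfl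
  have hone := GF.one_le M hM hs G hG hmean
  have hsum := fun (u : W) (e : ℕ) (he : e ≤ lay k) =>
    GF.path_sum (q := q) G hlow hB M u he
  have hq0 : (0 : ℝ) ≤ (q : ℝ) ^ k := by positivity
  have hn : (0 : ℝ) ≤ 4 * (Fintype.card W * (lay k + 1)) := by positivity
  calc ((Finset.univ.filter fun g : Fin (lay k) → Fin q => M.Accepts (pathInput g)).card : ℝ) * q ^ k
      = (∑ g ∈ Finset.univ.filter (fun g : Fin (lay k) → Fin q => M.Accepts (pathInput g)), (1 : ℝ))
        * q ^ k := by rw [Finset.sum_const, nsmul_eq_mul, mul_one]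
    _ ≤ (∑ g : Fin (lay k) → Fin q, 4 * (Fintype.card W * (lay k + 1)) *
          ∑ v ∈ (Finset.univ : Finset W) ×ˢ Finset.range (lay k + 1),
            (GF.phi M G g v.2 v.1 - GF.phi M G g 0 v.1) ^ 2) * q ^ k := by
        refine mul_le_mul_of_nonneg_right ?_ hq0
        refine (Finset.sum_le_sum fun g hg => hone g (Finset.mem_filter.1 hg).2).trans ?_
        exact Finset.sum_le_sum_of_subset_of_nonneg (Finset.filter_subset _ _)
          fun g _ _ => mul_nonneg hn (Finset.sum_nonneg fun v _ => sq_nonneg _)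
    _ = 4 * (Fintype.card W * (lay k + 1)) *
          ∑ v ∈ (Finset.univ : Finset W) ×ˢ Finset.range (lay k + 1),
            (q : ℝ) ^ k * ∑ g : Fin (lay k) → Fin q, (GF.phi M G g v.2 v.1 - GF.phi M G g 0 v.1) ^ 2 := by
        rw [← Finset.mul_sum, Finset.sum_comm, ← Finset.mul_sum]
        ring
    _ ≤ 4 * (Fintype.card W * (lay k + 1)) *
          ∑ v ∈ (Finset.univ : Finset W) ×ˢ Finset.range (lay k + 1),
            16 * (9 * (lay k : ℝ)) ^ k * (q : ℝ) ^ lay k := by
        refine mul_le_mul_of_nonneg_left (Finset.sum_le_sum fun v hv => ?_) hn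
        exact hsum v.1 v.2 (by have := Finset.mem_range.1 (Finset.mem_product.1 hv).2; omega)
    _ = 64 * (9 * lay k) ^ k * (Fintype.card W : ℝ) ^ 2 * (lay k + 1) ^ 2 * q ^ lay k := by
        rw [Finset.sum_const, Finset.card_product, Finset.card_range, Finset.card_univ, nsmul_eq_mul]
        push_cast
        ring

end Pool.Agent.FZ
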