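import Pool.Agent.FZ.Defs

/-! # Thick subsets -/

namespace Pool.Agent.FZ

open Classical in
private theorem thick_aux {X D : Type} {Y : D → Type} [∀ i, DecidableEq (Y i)]
    (π : ∀ i, X → Y i) (I : Finset D)
    (A : Finset X) (τ P : ℕ) (hI : I.card ≤ P)
    (h : ∀ i ∈ I, 2 * τ * P * (A.image (π i)).card ≤ A.card) :
    ∃ A' ⊆ A, A.card ≤ 2 * A'.card ∧ ∀ x ∈ A', ∀ i ∈ I,
      τ ≤ (A'.filter fun x' => π i x' = π i x).card := by
  set fam := A.powerset.filter fun A' =>
    A.card + τ * ∑ i ∈ I, (A'.image (π i)).card ≤ A'.card + τ * ∑ i ∈ I, (A.image (π i)).card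
    with hfam
  have hne : fam.Nonempty := ⟨A, by simp [hfam]⟩
  obtain ⟨A', hA', hmin⟩ := Finset.exists_min_image fam Finset.card hne
  have hA'2 := (Finset.mem_filter.1 hA').2
  have hA'1 : A' ⊆ A := Finset.mem_powerset.1 (Finset.mem_filter.1 hA').1
  refine ⟨A', hA'1, ?_, ?_⟩
  · have h1 : 2 * P * (τ * ∑ i ∈ I, (A.image (π i)).card) ≤ P * A.card := by
      calc 2 * P * (τ * ∑ i ∈ I, (A.image (π i)).card)
          = ∑ i ∈ I, 2 * τ * P * (A.image (π i)).card := by
            rw [Finset.mul_sum, Finset.mul_sum]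
            exact Finset.sum_congr rfl fun i _ => by ring
        _ ≤ ∑ i ∈ I, A.card := Finset.sum_le_sum h
        _ = I.card * A.card := by rw [Finset.sum_const, smul_eq_mul]
        _ ≤ P * A.card := Nat.mul_le_mul_right _ hI
    rcases Nat.eq_zero_or_pos P with hP | hP
    · have hI0 : I = ∅ := by
        rw [← Finset.card_eq_zero]; omega
      rw [hI0] at hA'2
      simp at hA'2
      omega
    · have h2 : 2 * (τ * ∑ i ∈ I, (A.image (π i)).card) ≤ A.card := by
        have : P * (2 * (τ * ∑ i ∈ I, (A.image (π i)).card)) ≤ P * A.card := by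
          calc P * (2 * (τ * ∑ i ∈ I, (A.image (π i)).card))
              = 2 * P * (τ * ∑ i ∈ I, (A.image (π i)).card) := by ring
            _ ≤ _ := h1
        exact Nat.le_of_mul_le_mul_left this hP
      omega
  · intro x hx i hi
    by_contra hcon
    push Not at hcon
    set F := A'.filter fun x' => π i x' = π i x with hF
    set A'' := A' \ F with hA''
    have hxF : x ∈ F := by simp [hF, hx]
    have hFsub : F ⊆ A' := Finset.filter_subset _ _
    have hcard : A''.card + F.card = A'.card := Finset.card_sdiff_add_card_eq_card hFsub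
    have hFpos : 0 < F.card := Finset.card_pos.2 ⟨x, hxF⟩
    have himg : ∀ j ∈ I, (A''.image (π j)).card ≤ (A'.image (π j)).card := fun j _ =>
      Finset.card_le_card (Finset.image_subset_image Finset.sdiff_subset)
    have himgi : (A''.image (π i)).card + 1 ≤ (A'.image (π i)).card := by
      have hsub : A''.image (π i) ⊆ (A'.image (π i)).erase (π i x) := by
        intro y hy
        obtain ⟨z, hz, rfl⟩ := Finset.mem_image.1 hy
        rw [hA'', Finset.mem_sdiff] at hz
        refine Finset.mem_erase.2 ⟨?_, Finset.mem_image_of_mem _ hz.1⟩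
        intro heq
        exact hz.2 (Finset.mem_filter.2 ⟨hz.1, heq⟩)
      have h1 := Finset.card_le_card hsub
      have hmem : π i x ∈ A'.image (π i) := Finset.mem_image_of_mem _ hx
      rw [Finset.card_erase_of_mem hmem] at h1
      have h2 : 0 < (A'.image (π i)).card := Finset.card_pos.2 ⟨_, hmem⟩
      omega
    have hsum : ∑ j ∈ I, (A''.image (π j)).card + 1 ≤ ∑ j ∈ I, (A'.image (π j)).card := by
      rw [← Finset.add_sum_erase I _ hi, ← Finset.add_sum_erase I (fun j => (A'.image (π j)).card) hi]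
      have := Finset.sum_le_sum fun j (hj : j ∈ I.erase i) => himg j (Finset.mem_of_mem_erase hj)
      omega
    have hmem : A'' ∈ fam := by
      refine Finset.mem_filter.2 ⟨Finset.mem_powerset.2 (Finset.sdiff_subset.trans hA'1), ?_⟩
      have h3 : τ * ∑ j ∈ I, (A''.image (π j)).card + τ ≤ τ * ∑ j ∈ I, (A'.image (π j)).card := by
        calc τ * ∑ j ∈ I, (A''.image (π j)).card + τ
            = τ * (∑ j ∈ I, (A''.image (π j)).card + 1) := by ring
          _ ≤ _ := Nat.mul_le_mul_left _ hsum
      omega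
    have := hmin A'' hmem
    omega

/-- [Among the `A' ⊆ A` with `|A \ A'| ≤ τ * ∑_{i ∈ I} (|A_{I \ i}| - |A'_{I \ i}|)` take one with the
smallest number of elements. If some class of `A'` modulo the coordinates `I \ i` had less than `τ`
elements, it could be deleted. And `|A \ A'| ≤ τ * ∑_i |A_{I \ i}| ≤ |A| / 2`.] -/
theorem thick_subset {D α : Type} [DecidableEq D] [DecidableEq α] (I : Finset D)
    (A : Finset (D → α)) (τ P : ℕ)
    (hI : I.card ≤ P)
    (h : ∀ i ∈ I, 2 * τ * P * (A.image (res (I.erase i))).card ≤ A.card) :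
    ∃ A' ⊆ A, A.card ≤ 2 * A'.card ∧ ∀ x ∈ A', ∀ i ∈ I,
      τ ≤ (A'.filter fun x' => res (I.erase i) x' = res (I.erase i) x).card := by
  exact thick_aux (Y := fun i => {x // x ∈ I.erase i} → α)
    (fun i => res (I.erase i)) I A τ P hI h

end Pool.Agent.FZ
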